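import Mathlib

/-! Counting facets of a 4-dimensional polytope, part A: linear algebra inside one facet. -/

open scoped BigOperators

namespace Pool.Agent.Lib_helper82.Facets4

variable {E : Type*} [AddCommGroup E] [Module ℝ E]

/-- `x` is a nonnegative combination of the points of `F`. -/
def InCone (F : Finset E) (x : E) : Prop :=
  ∃ c : E → ℝ, (∀ v ∈ F, 0 ≤ c v) ∧ ∑ v ∈ F, c v • v = x

theorem InCone.add {F : Finset E} {x y : E} (hx : InCone F x) (hy : InCone F y) :
    InCone F (x + y) := by
  obtain ⟨c, hc, rfl⟩ := hx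
  obtain ⟨d, hd, rfl⟩ := hy
  exact ⟨fun v => c v + d v, fun v hv => add_nonneg (hc v hv) (hd v hv), by
    simp only [add_smul, Finset.sum_add_distrib]⟩

theorem InCone.smul {F : Finset E} {x : E} {a : ℝ} (ha : 0 ≤ a) (hx : InCone F x) :
    InCone F (a • x) := by
  obtain ⟨c, hc, rfl⟩ := hx
  exact ⟨fun v => a * c v, fun v hv => mul_nonneg ha (hc v hv), by
    simp only [mul_smul, Finset.smul_sum]⟩

theorem InCone.of_mem {F : Finset E} {x : E} (hx : x ∈ F) : InCone F x := by
  classical
  refine ⟨fun v => if v = x then 1 else 0, fun v _ => by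
    show (0:ℝ) ≤ if v = x then 1 else 0
    split_ifs <;> norm_num, ?_⟩
  rw [Finset.sum_eq_single x]
  · simp
  · intro b _ hb
    simp [hb]
  · intro h
    exact absurd hx h

theorem InCone.smul_mem {F : Finset E} {x : E} {a : ℝ} (ha : 0 ≤ a) (hx : x ∈ F) :
    InCone F (a • x) := (InCone.of_mem hx).smul ha

theorem InCone.le {F : Finset E} {x : E} (hx : InCone F x) {f g : E →ₗ[ℝ] ℝ}
    (hf : ∀ v ∈ F, f v = 1) (hg : ∀ v ∈ F, g v ≤ 1) : g x ≤ f x := by
  obtain ⟨c, hc, rfl⟩ := hx
  simp only [map_sum, map_smul, smul_eq_mul]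
  apply Finset.sum_le_sum
  intro v hv
  rw [hf v hv]
  exact mul_le_mul_of_nonneg_left (hg v hv) (hc v hv)

/-- `w` points into the cone over `F` at `y` (after scaling). -/
def Good (F : Finset E) (w y : E) : Prop := ∃ N : ℝ, 0 < N ∧ InCone F (N • y + w)

theorem Good.add_mem {F : Finset E} {w y u : E} (h : Good F w y) (hu : u ∈ F) :
    Good F w (y + u) := by
  obtain ⟨N, hN, h⟩ := h
  refine ⟨N, hN, ?_⟩
  have := h.add (InCone.smul_mem hN.le hu)
  convert this using 1
  module

/-- Points in convex position. -/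
def ConvPos (F : Finset E) : Prop := ∀ v ∈ F, v ∉ convexHull ℝ ((F : Set E) \ {v})

theorem ConvPos.mono {F W : Finset E} (hW : ConvPos W) (h : F ⊆ W) : ConvPos F := by
  intro v hv hc
  refine hW v (h hv) (convexHull_mono ?_ hc)
  intro x hx
  exact ⟨h hx.1, hx.2⟩

/-- No point is a convex combination of two other ones. -/
theorem ConvPos.two {F : Finset E} (hF : ConvPos F) {x y z : E} (hx : x ∈ F) (hy : y ∈ F)
    (hz : z ∈ F) (hxy : x ≠ y) (hxz : x ≠ z) {a b c : ℝ} (ha : 0 < a) (hb : b ≤ 0) (hc : c ≤ 0)
    (hs : a + b + c = 0) (h : a • x + b • y + c • z = 0) : False := by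
  apply hF x hx
  have h1 : x = (-b / a) • y + (-c / a) • z := by
    have h2 : a • x = (-b) • y + (-c) • z := by
      have : a • x = (a • x + b • y + c • z) + ((-b) • y + (-c) • z) := by module
      rw [this, h, zero_add]
    have h3 : x = a⁻¹ • (a • x) := by rw [smul_smul, inv_mul_cancel₀ ha.ne', one_smul]
    rw [h3, h2, smul_add, smul_smul, smul_smul]
    congr 1 <;> · congr 1; field_simp
  have hconv := convex_convexHull ℝ ((F : Set E) \ {x})
  have hy' : y ∈ convexHull ℝ ((F : Set E) \ {x}) := subset_convexHull ℝ _ ⟨hy, by simpa using hxy.symm⟩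
  have hz' : z ∈ convexHull ℝ ((F : Set E) \ {x}) := subset_convexHull ℝ _ ⟨hz, by simpa using hxz.symm⟩
  have key : (-b / a) • y + (-c / a) • z ∈ convexHull ℝ ((F : Set E) \ {x}) :=
    hconv hy' hz' (div_nonneg (by linarith) ha.le) (div_nonneg (by linarith) ha.le)
      (by rw [← add_div, div_eq_one_iff_eq ha.ne']; linarith)
  rwa [← h1] at key

theorem ConvPos.three {F : Finset E} (hF : ConvPos F) {x y z t : E} (hx : x ∈ F) (hy : y ∈ F)
    (hz : z ∈ F) (ht : t ∈ F) (hxy : x ≠ y) (hxz : x ≠ z) (hxt : x ≠ t) {a b c d : ℝ}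
    (hb : 0 < b) (hc : 0 < c) (hd : 0 < d)
    (hs : a + b + c + d = 0) (h : a • x + b • y + c • z + d • t = 0) : False := by
  apply hF x hx
  have ha : 0 < -a := by linarith
  have h1 : x = (b / -a) • y + (c / -a) • z + (d / -a) • t := by
    have h2 : (-a) • x = b • y + c • z + d • t := by
      have : (-a) • x = -(a • x + b • y + c • z + d • t) + (b • y + c • z + d • t) := by module
      rw [this, h, neg_zero, zero_add]
    have h3 : x = (-a)⁻¹ • ((-a) • x) := by rw [smul_smul, inv_mul_cancel₀ ha.ne', one_smul]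
    rw [h3, h2, smul_add, smul_add, smul_smul, smul_smul, smul_smul]
    congr 1
    · congr 1 <;> · congr 1; field_simp
    · congr 1; field_simp
  have hconv := convex_convexHull ℝ ((F : Set E) \ {x})
  have hy' : y ∈ convexHull ℝ ((F : Set E) \ {x}) := subset_convexHull ℝ _ ⟨hy, by simpa using hxy.symm⟩
  have hz' : z ∈ convexHull ℝ ((F : Set E) \ {x}) := subset_convexHull ℝ _ ⟨hz, by simpa using hxz.symm⟩
  have ht' : t ∈ convexHull ℝ ((F : Set E) \ {x}) := subset_convexHull ℝ _ ⟨ht, by simpa using hxt.symm⟩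
  have key : (b / -a) • y + (c / -a) • z + (d / -a) • t ∈ convexHull ℝ ((F : Set E) \ {x}) := by
    have hsum : b / -a + c / -a + d / -a = 1 := by
      rw [← add_div, ← add_div, div_eq_one_iff_eq ha.ne']; linarith
    have := hconv.sum_mem (t := (Finset.univ : Finset (Fin 3)))
      (w := ![b / -a, c / -a, d / -a]) (z := ![y, z, t]) ?_ ?_ ?_
    · simpa [Fin.sum_univ_three] using this
    · intro i _
      fin_cases i
      · exact div_nonneg hb.le ha.le
      · exact div_nonneg hc.le ha.le
      · exact div_nonneg hd.le ha.le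
    · simpa [Fin.sum_univ_three] using hsum
    · intro i _
      fin_cases i
      · exact hy'
      · exact hz'
      · exact ht'
  rwa [← h1] at key

/-- Three distinct points of a facet are linearly independent. -/
theorem ConvPos.li {F : Finset E} (hF : ConvPos F) {f : E →ₗ[ℝ] ℝ} (hf : ∀ v ∈ F, f v = 1)
    {x y z : E} (hx : x ∈ F) (hy : y ∈ F) (hz : z ∈ F) (hxy : x ≠ y) (hxz : x ≠ z) (hyz : y ≠ z)
    {a b c : ℝ} (h : a • x + b • y + c • z = 0) : a = 0 ∧ b = 0 ∧ c = 0 := by
  have hs : a + b + c = 0 := by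
    have := congrArg f h
    simpa [hf x hx, hf y hy, hf z hz] using this
  have hn : (-a) • x + (-b) • y + (-c) • z = 0 := by
    have : (-a) • x + (-b) • y + (-c) • z = -(a • x + b • y + c • z) := by module
    rw [this, h, neg_zero]
  rcases lt_trichotomy a 0 with ha | ha | ha
  · -- a < 0
    exfalso
    by_cases hb : 0 ≤ b
    · by_cases hc : 0 ≤ c
      · exact hF.two hx hy hz hxy hxz (by linarith : 0 < -a) (by linarith) (by linarith)
          (by linarith) hn
      · refine hF.two hy hx hz hxy.symm hyz (a := b) (b := a) (c := c) (by linarith) ha.le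
          (by linarith) (by linarith) ?_
        rw [← h]; module
    · refine hF.two hz hx hy hxz.symm hyz.symm (a := c) (b := a) (c := b) (by linarith) ha.le
          (by linarith) (by linarith) ?_
      rw [← h]; module
  · subst ha
    rcases lt_trichotomy b 0 with hb | hb | hb
    · exfalso
      refine hF.two hz hx hy hxz.symm hyz.symm (a := c) (b := 0) (c := b) (by linarith) le_rfl
          (by linarith) (by linarith) ?_
      rw [← h]; module
    · subst hb
      refine ⟨rfl, rfl, by linarith⟩
    · exfalso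
      refine hF.two hy hx hz hxy.symm hyz (a := b) (b := 0) (c := c) (by linarith) le_rfl
          (by linarith) (by linarith) ?_
      rw [← h]; module
  · exfalso
    by_cases hb : b ≤ 0
    · by_cases hc : c ≤ 0
      · exact hF.two hx hy hz hxy hxz ha hb hc hs h
      · refine hF.two hy hx hz hxy.symm hyz (a := -b) (b := -a) (c := -c) (by linarith) (by linarith)
          (by linarith) (by linarith) ?_
        rw [← hn]; module
    · refine hF.two hz hx hy hxz.symm hyz.symm (a := -c) (b := -a) (c := -b) (by linarith)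
          (by linarith) (by linarith) (by linarith) ?_
      rw [← hn]; module

end Pool.Agent.Lib_helper82.Facets4
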