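import Mathlib
import Pool.Agent.Lib_helper82.Facets4A

/-! Counting facets of a 4-dimensional polytope, part B: at most two bad partners. -/

open scoped BigOperators

namespace Pool.Agent.Lib_helper82.Facets4

variable {E : Type*} [AddCommGroup E] [Module ℝ E]

/-- Three positive coefficients. -/
theorem good_of_ppp {F : Finset E} (hF : ConvPos F) {f : E →ₗ[ℝ] ℝ} (hf : ∀ v ∈ F, f v = 1)
    {w u v₁ v₂ v₃ : E} (hu : u ∈ F) (h1 : v₁ ∈ F) (h2 : v₂ ∈ F) (h3 : v₃ ∈ F)
    (hu1 : u ≠ v₁) (hu2 : u ≠ v₂) (hu3 : u ≠ v₃)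
    {a₁ a₂ a₃ d l : ℝ} (ha1 : 0 < a₁) (ha2 : 0 < a₂) (ha3 : 0 < a₃)
    (h : a₁ • v₁ + a₂ • v₂ + a₃ • v₃ + d • u + l • w = 0) :
    Good F w (u + v₁) ∨ Good F (-w) (u + v₁) := by
  rcases lt_trichotomy l 0 with hl | hl | hl
  · left
    have hl' : 0 < -l := by linarith
    have hw : w = (a₁ / -l) • v₁ + (a₂ / -l) • v₂ + (a₃ / -l) • v₃ + (d / -l) • u := by
      have e1 : (-l) • w = a₁ • v₁ + a₂ • v₂ + a₃ • v₃ + d • u := by
        have : (-l) • w = -(a₁ • v₁ + a₂ • v₂ + a₃ • v₃ + d • u + l • w)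
          + (a₁ • v₁ + a₂ • v₂ + a₃ • v₃ + d • u) := by module
        rw [this, h, neg_zero, zero_add]
      have e2 : w = (-l)⁻¹ • ((-l) • w) := by rw [smul_smul, inv_mul_cancel₀ hl'.ne', one_smul]
      rw [e2, e1]
      simp only [div_eq_inv_mul, mul_smul, smul_add]
    have hN : 0 < |d| / -l + 1 := by positivity
    refine ⟨|d| / -l + 1, hN, ?_⟩
    have e : (|d| / -l + 1) • (u + v₁) + w
        = ((|d| / -l + 1) + a₁ / -l) • v₁ + (a₂ / -l) • v₂ + (a₃ / -l) • v₃
          + ((|d| / -l + 1) + d / -l) • u := by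
      conv_lhs => rw [hw]
      module
    rw [e]
    refine (((InCone.smul_mem ?_ h1).add (InCone.smul_mem ?_ h2)).add (InCone.smul_mem ?_ h3)).add
      (InCone.smul_mem ?_ hu)
    · positivity
    · positivity
    · positivity
    · have : 0 ≤ |d| / -l + d / -l := by
        rw [← add_div]
        exact div_nonneg (by linarith [neg_abs_le d]) hl'.le
      linarith
  · exfalso
    subst hl
    have h' : d • u + a₁ • v₁ + a₂ • v₂ + a₃ • v₃ = 0 := by
      rw [← h]; module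
    have hs : d + a₁ + a₂ + a₃ = 0 := by
      have := congrArg f h'
      simpa [hf u hu, hf _ h1, hf _ h2, hf _ h3] using this
    exact hF.three hu h1 h2 h3 hu1 hu2 hu3 ha1 ha2 ha3 hs h'
  · right
    have hw : -w = (a₁ / l) • v₁ + (a₂ / l) • v₂ + (a₃ / l) • v₃ + (d / l) • u := by
      have e1 : l • (-w) = a₁ • v₁ + a₂ • v₂ + a₃ • v₃ + d • u := by
        have : l • (-w) = -(a₁ • v₁ + a₂ • v₂ + a₃ • v₃ + d • u + l • w)
          + (a₁ • v₁ + a₂ • v₂ + a₃ • v₃ + d • u) := by module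
        rw [this, h, neg_zero, zero_add]
      have e2 : -w = l⁻¹ • (l • (-w)) := by rw [smul_smul, inv_mul_cancel₀ hl.ne', one_smul]
      rw [e2, e1]
      simp only [div_eq_inv_mul, mul_smul, smul_add]
    have hN : 0 < |d| / l + 1 := by positivity
    refine ⟨|d| / l + 1, hN, ?_⟩
    have e : (|d| / l + 1) • (u + v₁) + -w
        = ((|d| / l + 1) + a₁ / l) • v₁ + (a₂ / l) • v₂ + (a₃ / l) • v₃
          + ((|d| / l + 1) + d / l) • u := by
      conv_lhs => rw [hw]
      module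
    rw [e]
    refine (((InCone.smul_mem ?_ h1).add (InCone.smul_mem ?_ h2)).add (InCone.smul_mem ?_ h3)).add
      (InCone.smul_mem ?_ hu)
    · positivity
    · positivity
    · positivity
    · have : 0 ≤ |d| / l + d / l := by
        rw [← add_div]
        exact div_nonneg (by linarith [neg_abs_le d]) hl.le
      linarith

/-- The degenerate case: four coplanar points. -/
theorem good_diag {F : Finset E}
    {w u v₁ v₂ v₃ x : E} (hu : u ∈ F) (h1 : v₁ ∈ F) (h2 : v₂ ∈ F) (h3 : v₃ ∈ F) (hx : x ∈ F)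
    {a₁ a₂ a₃ d : ℝ} (ha1 : 0 < a₁) (ha2 : 0 < a₂)
    (h : a₁ • v₁ + a₂ • v₂ + a₃ • v₃ + d • u = 0)
    {p q₁ q₂ m : ℝ} (hm : 0 ≤ m) (hw : w = p • u + q₁ • v₁ + q₂ • v₂ + m • x) :
    Good F w (u + v₃) := by
  set M : ℝ := |q₁| / a₁ + |q₂| / a₂ with hM
  have hM0 : 0 ≤ M := by positivity
  have hM1 : |q₁| ≤ M * a₁ := by
    have : |q₁| / a₁ ≤ M := by
      rw [hM]; linarith [show 0 ≤ |q₂| / a₂ by positivity]
    rwa [div_le_iff₀ ha1] at this
  have hM2 : |q₂| ≤ M * a₂ := by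
    have : |q₂| / a₂ ≤ M := by
      rw [hM]; linarith [show 0 ≤ |q₁| / a₁ by positivity]
    rwa [div_le_iff₀ ha2] at this
  set N : ℝ := M * |d| + |p| + M * |a₃| + 1 with hN
  refine ⟨N, by positivity, ?_⟩
  have e : N • (u + v₃) + w = (N + M * d + p) • u + (N + M * a₃) • v₃ + (M * a₁ + q₁) • v₁
      + (M * a₂ + q₂) • v₂ + m • x := by
    have : N • (u + v₃) + w = N • (u + v₃) + w + M • (a₁ • v₁ + a₂ • v₂ + a₃ • v₃ + d • u) := by
      rw [h, smul_zero, add_zero]
    rw [this, hw]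
    module
  rw [e]
  refine ((((InCone.smul_mem ?_ hu).add (InCone.smul_mem ?_ h3)).add (InCone.smul_mem ?_ h1)).add
      (InCone.smul_mem ?_ h2)).add (InCone.smul_mem hm hx)
  · have i1 : -(M * |d|) ≤ M * d := by nlinarith [neg_abs_le d]
    have i2 : 0 ≤ M * |a₃| := by positivity
    linarith [neg_abs_le p]
  · have i1 : -(M * |a₃|) ≤ M * a₃ := by nlinarith [neg_abs_le a₃]
    have i2 : 0 ≤ M * |d| := by positivity
    linarith [abs_nonneg p]
  · linarith [neg_abs_le q₁]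
  · linarith [neg_abs_le q₂]

/-- Two positive coefficients, and the third one arbitrary. -/
theorem good_of_ppx [FiniteDimensional ℝ E] (hdim : Module.finrank ℝ E = 4)
    {F : Finset E} (hF : ConvPos F) {f : E →ₗ[ℝ] ℝ} (hf : ∀ v ∈ F, f v = 1)
    (hspan : Submodule.span ℝ (F : Set E) = ⊤)
    {w u v₁ v₂ v₃ : E} (hw : ∀ x ∈ F, ∀ y ∈ F, ∀ z ∈ F, w ∉ Submodule.span ℝ {x, y, z})
    (hu : u ∈ F) (h1 : v₁ ∈ F) (h2 : v₂ ∈ F) (h3 : v₃ ∈ F)
    (hu1 : u ≠ v₁) (hu2 : u ≠ v₂) (h12 : v₁ ≠ v₂)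
    {a₁ a₂ a₃ d l : ℝ} (ha1 : 0 < a₁) (ha2 : 0 < a₂)
    (h : a₁ • v₁ + a₂ • v₂ + a₃ • v₃ + d • u + l • w = 0) :
    Good F w (u + v₃) ∨ Good F (-w) (u + v₃) := by
  rcases lt_trichotomy l 0 with hl | hl | hl
  · left
    have hl' : 0 < -l := by linarith
    have hw : w = (a₁ / -l) • v₁ + (a₂ / -l) • v₂ + (a₃ / -l) • v₃ + (d / -l) • u := by
      have e1 : (-l) • w = a₁ • v₁ + a₂ • v₂ + a₃ • v₃ + d • u := by
        have : (-l) • w = -(a₁ • v₁ + a₂ • v₂ + a₃ • v₃ + d • u + l • w)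
          + (a₁ • v₁ + a₂ • v₂ + a₃ • v₃ + d • u) := by module
        rw [this, h, neg_zero, zero_add]
      have e2 : w = (-l)⁻¹ • ((-l) • w) := by rw [smul_smul, inv_mul_cancel₀ hl'.ne', one_smul]
      rw [e2, e1]
      simp only [div_eq_inv_mul, mul_smul, smul_add]
    have hN : 0 < (|d| + |a₃|) / -l + 1 := by positivity
    refine ⟨(|d| + |a₃|) / -l + 1, hN, ?_⟩
    have e : ((|d| + |a₃|) / -l + 1) • (u + v₃) + w
        = (a₁ / -l) • v₁ + (a₂ / -l) • v₂ + (((|d| + |a₃|) / -l + 1) + a₃ / -l) • v₃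
          + (((|d| + |a₃|) / -l + 1) + d / -l) • u := by
      conv_lhs => rw [hw]
      module
    rw [e]
    refine (((InCone.smul_mem ?_ h1).add (InCone.smul_mem ?_ h2)).add (InCone.smul_mem ?_ h3)).add
      (InCone.smul_mem ?_ hu)
    · positivity
    · positivity
    · have : 0 ≤ (|d| + |a₃|) / -l + a₃ / -l := by
        rw [← add_div]
        exact div_nonneg (by linarith [neg_abs_le a₃, abs_nonneg d]) hl'.le
      linarith
    · have : 0 ≤ (|d| + |a₃|) / -l + d / -l := by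
        rw [← add_div]
        exact div_nonneg (by linarith [neg_abs_le d, abs_nonneg a₃]) hl'.le
      linarith
  · subst hl
    have h' : a₁ • v₁ + a₂ • v₂ + a₃ • v₃ + d • u = 0 := by
      rw [← h]; module
    -- a point of F outside the plane of u, v₁, v₂
    obtain ⟨x, hx, hxs⟩ : ∃ x ∈ F, x ∉ Submodule.span ℝ ({u, v₁, v₂} : Set E) := by
      by_contra hcon
      push Not at hcon
      have hle : Submodule.span ℝ (F : Set E) ≤ Submodule.span ℝ ({u, v₁, v₂} : Set E) :=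
        Submodule.span_le.2 (fun x hx => hcon x hx)
      rw [hspan, top_le_iff] at hle
      have h3 : Module.finrank ℝ (Submodule.span ℝ ({u, v₁, v₂} : Set E)) ≤ 3 := by
        classical
        have := finrank_span_finset_le_card (R := ℝ) (M := E) ({u, v₁, v₂} : Finset E)
        have hc : ({u, v₁, v₂} : Finset E).card ≤ 3 := Finset.card_le_three
        simp only [Finset.coe_insert, Finset.coe_singleton] at this
        exact this.trans hc
      rw [hle, finrank_top, hdim] at h3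
      omega
    -- a linear relation between u, v₁, v₂, x, w
    have hdep : ¬ LinearIndependent ℝ (![u, v₁, v₂, x, w] : Fin 5 → E) := by
      intro hli
      have := hli.fintype_card_le_finrank
      rw [hdim] at this
      simp at this
    rw [Fintype.not_linearIndependent_iff] at hdep
    obtain ⟨g, hg, i, hi⟩ := hdep
    simp only [Fin.sum_univ_five, Matrix.cons_val_zero, Matrix.cons_val_one, Matrix.cons_val] at hg
    have hg' : g 0 • u + g 1 • v₁ + g 2 • v₂ + g 3 • x + g 4 • w = 0 := by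
      simpa using hg
    have hg4 : g 4 ≠ 0 := by
      intro h4
      rw [h4, zero_smul, add_zero] at hg'
      have hg3 : g 3 = 0 := by
        by_contra h3'
        apply hxs
        have : x = (-(g 0) / g 3) • u + (-(g 1) / g 3) • v₁ + (-(g 2) / g 3) • v₂ := by
          have e1 : g 3 • x = (-(g 0)) • u + (-(g 1)) • v₁ + (-(g 2)) • v₂ := by
            have : g 3 • x = (g 0 • u + g 1 • v₁ + g 2 • v₂ + g 3 • x)
              + ((-(g 0)) • u + (-(g 1)) • v₁ + (-(g 2)) • v₂) := by module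
            rw [this, hg', zero_add]
          have e2 : x = (g 3)⁻¹ • (g 3 • x) := by rw [smul_smul, inv_mul_cancel₀ h3', one_smul]
          rw [e2, e1]
          simp only [div_eq_inv_mul, mul_smul, smul_add]
        rw [this]
        refine add_mem (add_mem ?_ ?_) ?_ <;>
          exact Submodule.smul_mem _ _ (Submodule.subset_span (by simp))
      rw [hg3, zero_smul, add_zero] at hg'
      obtain ⟨e0, e1, e2⟩ := hF.li hf hu h1 h2 hu1 hu2 h12 hg'
      apply hi
      fin_cases i <;> assumption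
    have hw' : w = (-(g 0) / g 4) • u + (-(g 1) / g 4) • v₁ + (-(g 2) / g 4) • v₂
        + (-(g 3) / g 4) • x := by
      have e1 : g 4 • w = (-(g 0)) • u + (-(g 1)) • v₁ + (-(g 2)) • v₂ + (-(g 3)) • x := by
        have : g 4 • w = (g 0 • u + g 1 • v₁ + g 2 • v₂ + g 3 • x + g 4 • w)
          + ((-(g 0)) • u + (-(g 1)) • v₁ + (-(g 2)) • v₂ + (-(g 3)) • x) := by module
        rw [this, hg', zero_add]
      have e2 : w = (g 4)⁻¹ • (g 4 • w) := by rw [smul_smul, inv_mul_cancel₀ hg4, one_smul]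
      rw [e2, e1]
      simp only [div_eq_inv_mul, mul_smul, smul_add]
    rcases le_total 0 (-(g 3) / g 4) with hm | hm
    · left
      exact good_diag hu h1 h2 h3 hx ha1 ha2 h' hm hw'
    · right
      refine good_diag hu h1 h2 h3 hx ha1 ha2 h' (p := -(-(g 0) / g 4)) (q₁ := -(-(g 1) / g 4))
        (q₂ := -(-(g 2) / g 4)) (m := -(-(g 3) / g 4)) (by linarith) ?_
      conv_lhs => rw [hw']
      module
  · right
    have hw : -w = (a₁ / l) • v₁ + (a₂ / l) • v₂ + (a₃ / l) • v₃ + (d / l) • u := by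
      have e1 : l • (-w) = a₁ • v₁ + a₂ • v₂ + a₃ • v₃ + d • u := by
        have : l • (-w) = -(a₁ • v₁ + a₂ • v₂ + a₃ • v₃ + d • u + l • w)
          + (a₁ • v₁ + a₂ • v₂ + a₃ • v₃ + d • u) := by module
        rw [this, h, neg_zero, zero_add]
      have e2 : -w = l⁻¹ • (l • (-w)) := by rw [smul_smul, inv_mul_cancel₀ hl.ne', one_smul]
      rw [e2, e1]
      simp only [div_eq_inv_mul, mul_smul, smul_add]
    have hN : 0 < (|d| + |a₃|) / l + 1 := by positivity
    refine ⟨(|d| + |a₃|) / l + 1, hN, ?_⟩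
    have e : ((|d| + |a₃|) / l + 1) • (u + v₃) + -w
        = (a₁ / l) • v₁ + (a₂ / l) • v₂ + (((|d| + |a₃|) / l + 1) + a₃ / l) • v₃
          + (((|d| + |a₃|) / l + 1) + d / l) • u := by
      conv_lhs => rw [hw]
      module
    rw [e]
    refine (((InCone.smul_mem ?_ h1).add (InCone.smul_mem ?_ h2)).add (InCone.smul_mem ?_ h3)).add
      (InCone.smul_mem ?_ hu)
    · positivity
    · positivity
    · have : 0 ≤ (|d| + |a₃|) / l + a₃ / l := by
        rw [← add_div]
        exact div_nonneg (by linarith [neg_abs_le a₃, abs_nonneg d]) hl.le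
      linarith
    · have : 0 ≤ (|d| + |a₃|) / l + d / l := by
        rw [← add_div]
        exact div_nonneg (by linarith [neg_abs_le d, abs_nonneg a₃]) hl.le
      linarith

/-- Among three partners of `u`, one is good. -/
theorem good_of_three [FiniteDimensional ℝ E] (hdim : Module.finrank ℝ E = 4)
    {F : Finset E} (hF : ConvPos F) {f : E →ₗ[ℝ] ℝ} (hf : ∀ v ∈ F, f v = 1)
    (hspan : Submodule.span ℝ (F : Set E) = ⊤)
    {w u v₁ v₂ v₃ : E} (hw : ∀ x ∈ F, ∀ y ∈ F, ∀ z ∈ F, w ∉ Submodule.span ℝ {x, y, z})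
    (hu : u ∈ F) (h1 : v₁ ∈ F) (h2 : v₂ ∈ F) (h3 : v₃ ∈ F)
    (hu1 : u ≠ v₁) (hu2 : u ≠ v₂) (hu3 : u ≠ v₃) (h12 : v₁ ≠ v₂) (h13 : v₁ ≠ v₃) (h23 : v₂ ≠ v₃) :
    ∃ v, (v = v₁ ∨ v = v₂ ∨ v = v₃) ∧ (Good F w (u + v) ∨ Good F (-w) (u + v)) := by
  have hdep : ¬ LinearIndependent ℝ (![v₁, v₂, v₃, u, w] : Fin 5 → E) := by
    intro hli
    have := hli.fintype_card_le_finrank
    rw [hdim] at this
    simp at this
  rw [Fintype.not_linearIndependent_iff] at hdep
  obtain ⟨g, hg, i, hi⟩ := hdep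
  simp only [Fin.sum_univ_five, Matrix.cons_val_zero, Matrix.cons_val_one, Matrix.cons_val] at hg
  have hg' : g 0 • v₁ + g 1 • v₂ + g 2 • v₃ + g 3 • u + g 4 • w = 0 := by
    simpa using hg
  clear hg
  have hneg : (-(g 0)) • v₁ + (-(g 1)) • v₂ + (-(g 2)) • v₃ + (-(g 3)) • u + (-(g 4)) • w = 0 := by
    have : (-(g 0)) • v₁ + (-(g 1)) • v₂ + (-(g 2)) • v₃ + (-(g 3)) • u + (-(g 4)) • w
      = -(g 0 • v₁ + g 1 • v₂ + g 2 • v₃ + g 3 • u + g 4 • w) := by module
    rw [this, hg', neg_zero]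
  -- if l ≠ 0 then w in the span of the three other ones
  have aux : ∀ {x y z : E} {a b c l : ℝ}, x ∈ F → y ∈ F → z ∈ F →
      a • x + b • y + c • z + l • w = 0 → l = 0 := by
    intro x y z a b c l hx hy hz he
    by_contra hl
    apply hw x hx y hy z hz
    have e1 : l • w = (-a) • x + (-b) • y + (-c) • z := by
      have : l • w = (a • x + b • y + c • z + l • w) + ((-a) • x + (-b) • y + (-c) • z) := by module
      rw [this, he, zero_add]
    have e2 : w = l⁻¹ • (l • w) := by rw [smul_smul, inv_mul_cancel₀ hl, one_smul]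
    rw [e2, e1]
    refine Submodule.smul_mem _ _ (add_mem (add_mem ?_ ?_) ?_) <;>
      exact Submodule.smul_mem _ _ (Submodule.subset_span (by simp))
  have hg0 : g 0 ≠ 0 := by
    intro h0
    have e : g 1 • v₂ + g 2 • v₃ + g 3 • u + g 4 • w = 0 := by
      rw [← hg', h0]; module
    have h4 := aux h2 h3 hu e
    have e' : g 1 • v₂ + g 2 • v₃ + g 3 • u = 0 := by rw [← e, h4]; module
    obtain ⟨b1, b2, b3⟩ := hF.li hf h2 h3 hu h23 hu2.symm hu3.symm e'
    apply hi
    fin_cases i <;> assumption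
  have hg1 : g 1 ≠ 0 := by
    intro h0
    have e : g 0 • v₁ + g 2 • v₃ + g 3 • u + g 4 • w = 0 := by
      rw [← hg', h0]; module
    have h4 := aux h1 h3 hu e
    have e' : g 0 • v₁ + g 2 • v₃ + g 3 • u = 0 := by rw [← e, h4]; module
    obtain ⟨b1, b2, b3⟩ := hF.li hf h1 h3 hu h13 hu1.symm hu3.symm e'
    exact hg0 b1
  have hg2 : g 2 ≠ 0 := by
    intro h0
    have e : g 0 • v₁ + g 1 • v₂ + g 3 • u + g 4 • w = 0 := by
      rw [← hg', h0]; module
    have h4 := aux h1 h2 hu e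
    have e' : g 0 • v₁ + g 1 • v₂ + g 3 • u = 0 := by rw [← e, h4]; module
    obtain ⟨b1, b2, b3⟩ := hF.li hf h1 h2 hu h12 hu1.symm hu2.symm e'
    exact hg0 b1
  -- sign cases: two of the three coefficients have the same sign
  rcases lt_or_gt_of_ne hg0 with s0 | s0 <;> rcases lt_or_gt_of_ne hg1 with s1 | s1
  · -- both negative
    exact ⟨v₃, by simp, good_of_ppx hdim hF hf hspan hw hu h1 h2 h3 hu1 hu2 h12
      (a₁ := -(g 0)) (a₂ := -(g 1)) (by linarith) (by linarith) hneg⟩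
  · rcases lt_or_gt_of_ne hg2 with s2 | s2
    · refine ⟨v₂, by simp, good_of_ppx hdim hF hf hspan hw hu h1 h3 h2 hu1 hu3 h13
        (a₁ := -(g 0)) (a₂ := -(g 2)) (a₃ := -(g 1)) (d := -(g 3)) (l := -(g 4))
        (by linarith) (by linarith) ?_⟩
      rw [← hneg]; module
    · refine ⟨v₁, by simp, good_of_ppx hdim hF hf hspan hw hu h2 h3 h1 hu2 hu3 h23
        (a₁ := g 1) (a₂ := g 2) (a₃ := g 0) (d := g 3) (l := g 4)
        (by linarith) (by linarith) ?_⟩
      rw [← hg']; module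
  · rcases lt_or_gt_of_ne hg2 with s2 | s2
    · refine ⟨v₁, by simp, good_of_ppx hdim hF hf hspan hw hu h2 h3 h1 hu2 hu3 h23
        (a₁ := -(g 1)) (a₂ := -(g 2)) (a₃ := -(g 0)) (d := -(g 3)) (l := -(g 4))
        (by linarith) (by linarith) ?_⟩
      rw [← hneg]; module
    · refine ⟨v₂, by simp, good_of_ppx hdim hF hf hspan hw hu h1 h3 h2 hu1 hu3 h13
        (a₁ := g 0) (a₂ := g 2) (a₃ := g 1) (d := g 3) (l := g 4)
        (by linarith) (by linarith) ?_⟩
      rw [← hg']; module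
  · exact ⟨v₃, by simp, good_of_ppx hdim hF hf hspan hw hu h1 h2 h3 hu1 hu2 h12
      s0 s1 hg'⟩

end Pool.Agent.Lib_helper82.Facets4
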