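import Mathlib
import Pool.Agent.Lib_helper82.Facets4B

/-! Counting facets of a 4-dimensional polytope, part C: genericity and existence of facets. -/

open scoped BigOperators Topology
open Filter

namespace Pool.Agent.Lib_helper82.Facets4

section generic

variable {E : Type*} [AddCommGroup E] [Module ℝ E] [FiniteDimensional ℝ E]

omit [FiniteDimensional ℝ E] in
theorem InCone.mem_span {F : Finset E} {x : E} (h : InCone F x) :
    x ∈ Submodule.span ℝ (F : Set E) := by
  obtain ⟨c, _, rfl⟩ := h
  exact Submodule.sum_mem _ (fun v hv => Submodule.smul_mem _ _ (Submodule.subset_span hv))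

theorem exists_generic (hdim : Module.finrank ℝ E = 4) (W : Finset E) (Fs : Finset (Finset E))
    (h : Finset E → (E →ₗ[ℝ] ℝ)) (hne : ∀ F ∈ Fs, ∀ G ∈ Fs, F ≠ G → h F ≠ h G) :
    ∃ w : E, (∀ F ∈ Fs, ∀ G ∈ Fs, F ≠ G → h F w ≠ h G w) ∧
      (∀ T ∈ W.powerset, Module.finrank ℝ (Submodule.span ℝ (T : Set E)) ≤ 3 →
        w ∉ Submodule.span ℝ (T : Set E)) := by
  classical
  set s1 : Finset (Subspace ℝ E) := ((Fs ×ˢ Fs).filter (fun p => p.1 ≠ p.2)).image
    (fun p => LinearMap.ker (h p.1 - h p.2)) with hs1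
  set s2 : Finset (Subspace ℝ E) := (W.powerset.filter
    (fun T : Finset E => Module.finrank ℝ (Submodule.span ℝ (T : Set E)) ≤ 3)).image
      (fun T : Finset E => Submodule.span ℝ (T : Set E)) with hs2
  have htop : (⊤ : Subspace ℝ E) ∉ s1 ∪ s2 := by
    intro hmem
    rcases Finset.mem_union.1 hmem with hm | hm
    · rw [hs1, Finset.mem_image] at hm
      obtain ⟨p, hp, hk⟩ := hm
      rw [Finset.mem_filter, Finset.mem_product] at hp
      rw [LinearMap.ker_eq_top, sub_eq_zero] at hk
      exact hne _ hp.1.1 _ hp.1.2 hp.2 hk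
    · rw [hs2, Finset.mem_image] at hm
      obtain ⟨T, hT, hk⟩ := hm
      rw [Finset.mem_filter] at hT
      have := hT.2
      rw [hk, finrank_top, hdim] at this
      omega
  have hcov := Subspace.biUnion_ne_univ_of_top_notMem htop
  obtain ⟨w, hw⟩ := (Set.ne_univ_iff_exists_notMem _).1 hcov
  simp only [Set.mem_iUnion, not_exists] at hw
  refine ⟨w, ?_, ?_⟩
  · intro F hF G hG hFG heq
    refine hw (LinearMap.ker (h F - h G)) (Finset.mem_union_left _ ?_) ?_
    · rw [hs1, Finset.mem_image]
      exact ⟨(F, G), by simp [hF, hG, hFG], rfl⟩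
    · simp [heq]
  · intro T hT hr
    refine hw (Submodule.span ℝ (T : Set E)) (Finset.mem_union_right _ ?_)
    rw [hs2]
    exact Finset.mem_image_of_mem (fun T : Finset E => Submodule.span ℝ (T : Set E))
      (Finset.mem_filter.2 ⟨hT, hr⟩)

end generic

variable {E : Type*} [NormedAddCommGroup E] [NormedSpace ℝ E] [FiniteDimensional ℝ E]

/-- A nonzero functional is positive at some point of `W` when `0` is interior. -/
theorem exists_pos_of_interior {W : Finset E} (h0 : (0 : E) ∈ interior (convexHull ℝ (W : Set E)))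
    (f : E →ₗ[ℝ] ℝ) (hf : f ≠ 0) : ∃ v ∈ W, 0 < f v := by
  by_contra hcon
  push Not at hcon
  apply hf
  have hle : ∀ y ∈ convexHull ℝ (W : Set E), f y ≤ 0 := by
    intro y hy
    have hsub : convexHull ℝ (W : Set E) ⊆ {y | f y ≤ 0} :=
      convexHull_min (fun v hv => hcon v hv) (convex_halfSpace_le f.isLinear 0)
    exact hsub hy
  have hnhds : convexHull ℝ (W : Set E) ∈ 𝓝 (0 : E) := mem_interior_iff_mem_nhds.1 h0
  ext y
  have hcont : Tendsto (fun t : ℝ => t • y) (𝓝 0) (𝓝 (0 : E)) := by
    have : Continuous (fun t : ℝ => t • y) := continuous_id.smul continuous_const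
    simpa using this.tendsto 0
  have h1 := hcont.eventually hnhds
  rw [Metric.eventually_nhds_iff] at h1
  obtain ⟨ε, hε, h1⟩ := h1
  have hp := hle _ (h1 (y := ε / 2) (by simp [abs_of_pos hε]; linarith))
  have hm := hle _ (h1 (y := -(ε / 2)) (by simp [abs_of_pos hε]; linarith))
  simp only [map_smul, smul_eq_mul] at hp hm
  have : f y = 0 := by
    have hε2 : 0 < ε / 2 := by linarith
    nlinarith
  simpa using this

/-- Supporting functional at a nonzero point, with the point in the cone over the contact set. -/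
theorem exists_support {W : Finset E} (h0 : (0 : E) ∈ interior (convexHull ℝ (W : Set E)))
    {x : E} (hx : x ≠ 0) :
    ∃ f : E →ₗ[ℝ] ℝ, (∀ v ∈ W, f v ≤ 1) ∧
      ∀ F : Finset E, (∀ v, v ∈ F ↔ v ∈ W ∧ f v = 1) → InCone F x := by
  classical
  set P : Set E := convexHull ℝ (W : Set E) with hP
  have hconv : Convex ℝ P := convex_convexHull _ _
  have hnhds : P ∈ 𝓝 (0 : E) := mem_interior_iff_mem_nhds.1 h0
  have hcpt : IsCompact P := W.finite_toSet.isCompact_convexHull ℝ
  have hclosed : IsClosed P := hcpt.isClosed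
  have habs : Absorbent ℝ P := absorbent_nhds_zero hnhds
  have hbdd : Bornology.IsVonNBounded ℝ P :=
    NormedSpace.isVonNBounded_iff ℝ |>.2 hcpt.isBounded
  have hg : 0 < gauge P x := (gauge_pos habs hbdd).2 hx
  set y : E := (gauge P x)⁻¹ • x with hy
  have hgy : gauge P y = 1 := by
    rw [hy, gauge_smul_of_nonneg (inv_nonneg.2 hg.le), smul_eq_mul, inv_mul_cancel₀ hg.ne']
  have hyP : y ∈ P := by
    have := (gauge_le_one_iff_mem_closure hconv hnhds).1 hgy.le
    rwa [hclosed.closure_eq] at this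
  have hyint : y ∉ interior P := by
    rw [← gauge_lt_one_iff_mem_interior hconv hnhds, hgy]
    exact lt_irrefl _
  obtain ⟨f, hf⟩ := geometric_hahn_banach_open_point hconv.interior isOpen_interior hyint
  have hfy : 0 < f y := by
    have := hf 0 h0
    simpa using this
  have hfle : ∀ a ∈ P, f a ≤ f y := by
    intro a ha
    have hcl : a ∈ closure (interior P) := by
      rw [hconv.closure_interior_eq_closure_of_nonempty_interior ⟨0, h0⟩]
      exact subset_closure ha
    exact le_on_closure (f := f) (g := fun _ => f y) (fun b hb => (hf b hb).le)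
      f.continuous.continuousOn continuousOn_const hcl
  refine ⟨(f y)⁻¹ • (f : E →ₗ[ℝ] ℝ), ?_, ?_⟩
  · intro v hv
    have := hfle v (subset_convexHull ℝ _ hv)
    simp only [LinearMap.smul_apply, ContinuousLinearMap.coe_coe, smul_eq_mul]
    rw [inv_mul_le_iff₀ hfy, mul_one]
    exact this
  · intro F hF
    obtain ⟨c, hc0, hc1, hcy⟩ := (Finset.mem_convexHull'.1 hyP)
    have hsum : ∑ v ∈ W, c v * (f y - f v) = 0 := by
      have e1 : ∑ v ∈ W, c v * f v = f y := by
        rw [← hcy, map_sum]
        simp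
      simp only [mul_sub, Finset.sum_sub_distrib, ← Finset.sum_mul, hc1, one_mul, e1, sub_self]
    have hz : ∀ v ∈ W, c v * (f y - f v) = 0 := by
      refine (Finset.sum_eq_zero_iff_of_nonneg ?_).1 hsum
      intro v hv
      exact mul_nonneg (hc0 v hv) (sub_nonneg.2 (hfle v (subset_convexHull ℝ _ hv)))
    have hFW : F ⊆ W := fun v hv => ((hF v).1 hv).1
    have hoff : ∀ v ∈ W, v ∉ F → c v = 0 := by
      intro v hv hvF
      rcases mul_eq_zero.1 (hz v hv) with h | h
      · exact h
      · exfalso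
        apply hvF
        rw [hF]
        refine ⟨hv, ?_⟩
        simp only [LinearMap.smul_apply, ContinuousLinearMap.coe_coe, smul_eq_mul]
        rw [sub_eq_zero] at h
        rw [← h, inv_mul_cancel₀ hfy.ne']
    have hcy' : ∑ v ∈ F, c v • v = y := by
      rw [← hcy]
      refine Finset.sum_subset hFW ?_
      intro v hv hvF
      rw [hoff v hv hvF, zero_smul]
    have hyc : InCone F y := ⟨c, fun v hv => hc0 v (hFW hv), hcy'⟩
    have : x = gauge P x • y := by
      rw [hy, smul_smul, mul_inv_cancel₀ hg.ne', one_smul]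
    rw [this]
    exact hyc.smul hg.le

/-- A functional exposing a vertex. -/
theorem exists_expose [Nontrivial E] {W : Finset E}
    (h0 : (0 : E) ∈ interior (convexHull ℝ (W : Set E)))
    (hW : ConvPos W) {v : E} (hv : v ∈ W) :
    ∃ f : E →ₗ[ℝ] ℝ, f v = 1 ∧ ∀ x ∈ W, f x ≤ 1 := by
  classical
  have hcl : IsClosed (convexHull ℝ ((W : Set E) \ {v})) :=
    (W.finite_toSet.subset Set.sdiff_subset).isClosed_convexHull ℝ
  obtain ⟨f, s, hf1, hf2⟩ := geometric_hahn_banach_closed_point (convex_convexHull ℝ _) hcl (hW v hv)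
  have hlt : ∀ x ∈ W, x ≠ v → f x < f v := by
    intro x hx hxv
    exact (hf1 x (subset_convexHull ℝ _ ⟨hx, by simpa using hxv⟩)).trans hf2
  have hle : ∀ x ∈ W, f x ≤ f v := by
    intro x hx
    by_cases hxv : x = v
    · rw [hxv]
    · exact (hlt x hx hxv).le
  have hfv : 0 < f v := by
    by_cases hf0 : (f : E →ₗ[ℝ] ℝ) = 0
    · exfalso
      have hall : ∀ x ∈ W, x = v := by
        intro x hx
        by_contra hxv
        have := hlt x hx hxv
        have e1 : f x = 0 := LinearMap.congr_fun hf0 x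
        have e2 : f v = 0 := LinearMap.congr_fun hf0 v
        linarith
      have hWs : (W : Set E) ⊆ {v} := fun x hx => hall x hx
      have hint : (0 : E) ∈ interior ({v} : Set E) := by
        have := interior_mono (convexHull_mono (𝕜 := ℝ) hWs) h0
        rwa [convexHull_singleton] at this
      have := Module.punctured_nhds_neBot ℝ E v
      rw [interior_singleton] at hint
      exact hint
    · obtain ⟨x, hx, hx0⟩ := exists_pos_of_interior h0 _ hf0
      have : (f : E →ₗ[ℝ] ℝ) x = f x := rfl
      rw [this] at hx0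
      exact hx0.trans_le (hle x hx)
  refine ⟨(f v)⁻¹ • (f : E →ₗ[ℝ] ℝ), ?_, ?_⟩
  · simp [hfv.ne']
  · intro x hx
    simp only [LinearMap.smul_apply, ContinuousLinearMap.coe_coe, smul_eq_mul]
    rw [inv_mul_le_iff₀ hfv, mul_one]
    exact hle x hx

/-- Facets of `W`. -/
structure IsFct (W F : Finset E) (f : E →ₗ[ℝ] ℝ) : Prop where
  sub : F ⊆ W
  le : ∀ v ∈ W, f v ≤ 1
  iff : ∀ v ∈ W, f v = 1 ↔ v ∈ F
  span : Submodule.span ℝ (F : Set E) = ⊤

theorem IsFct.one {W F : Finset E} {f : E →ₗ[ℝ] ℝ} (h : IsFct W F f) : ∀ v ∈ F, f v = 1 :=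
  fun v hv => (h.iff v (h.sub hv)).2 hv

/-- Around each vertex there is a facet into which `z` points. -/
theorem exists_fct_good [Nontrivial E] (hdim : Module.finrank ℝ E = 4) {W : Finset E}
    (h0 : (0 : E) ∈ interior (convexHull ℝ (W : Set E))) (hW : ConvPos W)
    {Fs : Finset (Finset E)} {h : Finset E → (E →ₗ[ℝ] ℝ)}
    (hFs : ∀ F ∈ Fs, IsFct W F (h F)) (hall : ∀ F f, IsFct W F f → F ∈ Fs)
    {z : E} (hz : ∀ T ∈ W.powerset, Module.finrank ℝ (Submodule.span ℝ (T : Set E)) ≤ 3 →
        z ∉ Submodule.span ℝ (T : Set E)) {v : E} (hv : v ∈ W) :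
    ∃ F ∈ Fs, v ∈ F ∧ Good F z v := by
  classical
  obtain ⟨f0, hf0v, hf0⟩ := exists_expose h0 hW hv
  have E1 : ∀ F ∈ Fs, v ∉ F → ∀ᶠ N : ℝ in atTop, N * h F v + h F z < N + f0 z := by
    intro F hF hvF
    have hlt : h F v < 1 := lt_of_le_of_ne ((hFs F hF).le v hv)
      (fun he => hvF (((hFs F hF).iff v hv).1 he))
    filter_upwards [eventually_gt_atTop ((h F z - f0 z) / (1 - h F v))] with N hN
    rw [div_lt_iff₀ (by linarith)] at hN
    linarith
  have E1' : ∀ᶠ N : ℝ in atTop, ∀ F ∈ Fs, v ∉ F → N * h F v + h F z < N + f0 z := by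
    rw [Filter.eventually_all_finset]
    intro F hF
    by_cases hvF : v ∈ F
    · exact Eventually.of_forall (fun N hn => absurd hvF hn)
    · filter_upwards [E1 F hF hvF] with N hN _ using hN
  have E2 : ∀ᶠ N : ℝ in atTop, ∀ T ∈ W.powerset,
      Module.finrank ℝ (Submodule.span ℝ (T : Set E)) ≤ 3 →
        N • v + z ∉ Submodule.span ℝ (T : Set E) := by
    rw [Filter.eventually_all_finset]
    intro T hT
    by_cases hr : Module.finrank ℝ (Submodule.span ℝ (T : Set E)) ≤ 3
    · by_cases hex : ∃ N0 : ℝ, N0 • v + z ∈ Submodule.span ℝ (T : Set E)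
      · obtain ⟨N0, hN0⟩ := hex
        filter_upwards [eventually_gt_atTop N0] with N hN _ hmem
        have h1 : (N - N0) • v ∈ Submodule.span ℝ (T : Set E) := by
          have := sub_mem hmem hN0
          have e : (N • v + z) - (N0 • v + z) = (N - N0) • v := by module
          rwa [e] at this
        have h2 : v ∈ Submodule.span ℝ (T : Set E) := by
          rwa [Submodule.smul_mem_iff _ (by linarith : N - N0 ≠ 0)] at h1
        apply hz T hT hr
        have := sub_mem hN0 (Submodule.smul_mem _ N0 h2)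
        simpa using this
      · push Not at hex
        exact Eventually.of_forall (fun N _ => hex N)
    · exact Eventually.of_forall (fun N hn => absurd hn hr)
  obtain ⟨N, ⟨hN1, hN2⟩, hN0⟩ := ((E1'.and E2).and (eventually_gt_atTop (0 : ℝ))).exists
  have hx : N • v + z ≠ 0 := by
    intro he
    have hfr : Module.finrank ℝ (Submodule.span ℝ ((∅ : Finset E) : Set E)) ≤ 3 := by
      rw [Finset.coe_empty, Submodule.span_empty, finrank_bot]
      norm_num
    have := hN2 ∅ (Finset.empty_mem_powerset W) hfr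
    rw [he] at this
    exact this (zero_mem _)
  obtain ⟨f, hfle, hfF⟩ := exists_support h0 hx
  set F : Finset E := W.filter (fun v => f v = 1) with hF
  have hcone : InCone F (N • v + z) := hfF F (fun v => by rw [hF, Finset.mem_filter])
  have hFW : F ⊆ W := Finset.filter_subset _ _
  have hspan : Submodule.span ℝ (F : Set E) = ⊤ := by
    apply Submodule.eq_top_of_finrank_eq
    rw [hdim]
    have h1 : Module.finrank ℝ (Submodule.span ℝ (F : Set E)) ≤ 4 := by
      rw [← hdim]; exact Submodule.finrank_le _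
    have h2 : ¬ Module.finrank ℝ (Submodule.span ℝ (F : Set E)) ≤ 3 := by
      intro hr
      exact hN2 F (Finset.mem_powerset.2 hFW) hr hcone.mem_span
    omega
  have hfct : IsFct W F f := ⟨hFW, hfle, fun v hv => by rw [hF, Finset.mem_filter]; tauto, hspan⟩
  have hFm := hall F f hfct
  refine ⟨F, hFm, ?_, N, hN0, hcone⟩
  by_contra hvF
  have h1 := hN1 F hFm hvF
  have h2 := hcone.le (hFs F hFm).one (fun x hx => hf0 x (hFW hx))
  simp only [map_add, map_smul, smul_eq_mul, hf0v, mul_one] at h2
  linarith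

end Pool.Agent.Lib_helper82.Facets4
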