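import Mathlib
import Pool.Agent.Lib_helper82.Facets4C

/-! Counting facets of a 4-dimensional polytope, part D: the count. -/

open scoped BigOperators Topology
open Filter

namespace Pool.Agent.Lib_helper82.Facets4

variable {E : Type*} [NormedAddCommGroup E] [NormedSpace ℝ E] [FiniteDimensional ℝ E]

open Classical in
/-- Ordered good pairs. -/
noncomputable def GP (F : Finset E) (w : E) : Finset (E × E) :=
  F.offDiag.filter (fun p => Good F w (p.1 + p.2))

open Classical in
/-- Good vertices. -/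
noncomputable def GV (F : Finset E) (w : E) : Finset E := F.filter (fun v => Good F w v)

/-- Uniqueness: two facets cannot both be good for the same pair and the same direction. -/
theorem Good.unique {W F G : Finset E} {f g : E →ₗ[ℝ] ℝ} (hF : IsFct W F f) (hG : IsFct W G g)
    {w y : E} (hfy : f y = g y) (h1 : Good F w y) (h2 : Good G w y) : f w = g w := by
  obtain ⟨N, hN, h1⟩ := h1
  obtain ⟨M, hM, h2⟩ := h2
  have a1 := h1.le hF.one (g := g) (fun v hv => hG.le v (hF.sub hv))
  have a2 := h2.le hG.one (g := f) (fun v hv => hF.le v (hG.sub hv))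
  simp only [map_add, map_smul, smul_eq_mul, hfy] at a1 a2
  linarith

theorem GP_card_le (Fs : Finset (Finset E)) (W : Finset E) (h : Finset E → (E →ₗ[ℝ] ℝ))
    (hFs : ∀ F ∈ Fs, IsFct W F (h F)) {w : E}
    (hw : ∀ F ∈ Fs, ∀ G ∈ Fs, F ≠ G → h F w ≠ h G w) :
    ∑ F ∈ Fs, (GP F w).card ≤ W.card * W.card - W.card := by
  classical
  rw [← Finset.card_biUnion]
  · rw [← Finset.offDiag_card]
    apply Finset.card_le_card
    intro p hp
    rw [Finset.mem_biUnion] at hp
    obtain ⟨F, hF, hp⟩ := hp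
    rw [GP, Finset.mem_filter, Finset.mem_offDiag] at hp
    rw [Finset.mem_offDiag]
    exact ⟨(hFs F hF).sub hp.1.1, (hFs F hF).sub hp.1.2.1, hp.1.2.2⟩
  · intro F hF G hG hFG
    rw [Function.onFun, Finset.disjoint_left]
    intro p hp hq
    rw [GP, Finset.mem_filter, Finset.mem_offDiag] at hp hq
    apply hw F hF G hG hFG
    refine Good.unique (hFs F hF) (hFs G hG) ?_ hp.2 hq.2
    rw [map_add, map_add, (hFs F hF).one _ hp.1.1, (hFs F hF).one _ hp.1.2.1,
      (hFs G hG).one _ hq.1.1, (hFs G hG).one _ hq.1.2.1]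

/-- A vertex is not good in both directions. -/
theorem GV_disjoint {W F : Finset E} {f : E →ₗ[ℝ] ℝ} (hW : ConvPos W) (hF : IsFct W F f) {w : E}
    (hw : ∀ T ∈ W.powerset, Module.finrank ℝ (Submodule.span ℝ (T : Set E)) ≤ 3 →
        w ∉ Submodule.span ℝ (T : Set E)) : Disjoint (GV F w) (GV F (-w)) := by
  classical
  rw [Finset.disjoint_left]
  intro v hv hv'
  rw [GV, Finset.mem_filter] at hv hv'
  obtain ⟨hvF, N, hN, c, hc, hcs⟩ := hv
  obtain ⟨_, M, hM, d, hd, hds⟩ := hv'
  have hFc : ConvPos F := hW.mono hF.sub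
  -- the sum
  have hsum : ∑ x ∈ F, (c x + d x) • x = (N + M) • v := by
    simp only [add_smul, Finset.sum_add_distrib, hcs, hds]
    module
  have hone : ∑ x ∈ F, (c x + d x) = N + M := by
    have := congrArg f hsum
    rw [map_sum, map_smul, hF.one v hvF, smul_eq_mul, mul_one] at this
    rw [← this]
    refine Finset.sum_congr rfl (fun x hx => ?_)
    rw [map_smul, hF.one x hx, smul_eq_mul, mul_one]
  -- all weight at v
  have hzero : ∀ x ∈ F, x ≠ v → c x + d x = 0 := by
    by_contra hcon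
    push Not at hcon
    obtain ⟨x0, hx0, hx0v, hne⟩ := hcon
    set τ : ℝ := ∑ x ∈ F.erase v, (c x + d x) with hτ
    have hnn : ∀ x ∈ F, 0 ≤ c x + d x := fun x hx => add_nonneg (hc x hx) (hd x hx)
    have hτpos : 0 < τ := by
      rw [hτ]
      apply Finset.sum_pos' (fun x hx => hnn x (Finset.mem_of_mem_erase hx))
      exact ⟨x0, Finset.mem_erase.2 ⟨hx0v, hx0⟩, lt_of_le_of_ne (hnn x0 hx0) (Ne.symm hne)⟩
    have e1 : ∑ x ∈ F.erase v, (c x + d x) • x = τ • v := by
      have h1 : (c v + d v) • v + ∑ x ∈ F.erase v, (c x + d x) • x = ∑ x ∈ F, (c x + d x) • x :=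
        Finset.add_sum_erase F (fun x => (c x + d x) • x) hvF
      have h2 : (c v + d v) + ∑ x ∈ F.erase v, (c x + d x) = ∑ x ∈ F, (c x + d x) :=
        Finset.add_sum_erase F (fun x => (c x + d x)) hvF
      rw [hsum] at h1
      rw [hone, ← hτ] at h2
      have : ∑ x ∈ F.erase v, (c x + d x) • x = (N + M) • v - (c v + d v) • v := by
        rw [← h1]; abel
      rw [this, ← h2]
      module
    apply hFc v hvF
    have hmem : ∑ x ∈ F.erase v, ((c x + d x) / τ) • x ∈ convexHull ℝ ((F : Set E) \ {v}) := by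
      apply (convex_convexHull ℝ _).sum_mem
      · intro x hx
        exact div_nonneg (hnn x (Finset.mem_of_mem_erase hx)) hτpos.le
      · rw [← Finset.sum_div, ← hτ, div_self hτpos.ne']
      · intro x hx
        apply subset_convexHull
        rw [Finset.mem_erase] at hx
        exact ⟨hx.2, by simpa using hx.1⟩
    have e2 : ∑ x ∈ F.erase v, ((c x + d x) / τ) • x = v := by
      have : ∑ x ∈ F.erase v, ((c x + d x) / τ) • x = τ⁻¹ • ∑ x ∈ F.erase v, (c x + d x) • x := by
        rw [Finset.smul_sum]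
        refine Finset.sum_congr rfl (fun x _ => ?_)
        rw [smul_smul, div_eq_inv_mul]
      rw [this, e1, smul_smul, inv_mul_cancel₀ hτpos.ne', one_smul]
    rwa [e2] at hmem
  have hcz : ∀ x ∈ F, x ≠ v → c x = 0 := by
    intro x hx hxv
    have := hzero x hx hxv
    linarith [hc x hx, hd x hx]
  have e : N • v + w = c v • v := by
    rw [← hcs]
    refine Finset.sum_eq_single v ?_ (fun h => absurd hvF h)
    intro x hx hxv
    rw [hcz x hx hxv, zero_smul]
  have hr : Module.finrank ℝ (Submodule.span ℝ ((({v} : Finset E) : Set E))) ≤ 3 := by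
    have := finrank_span_finset_le_card (R := ℝ) (M := E) ({v} : Finset E)
    rw [Finset.card_singleton] at this
    exact this.trans (by norm_num)
  apply hw {v} (by rw [Finset.mem_powerset, Finset.singleton_subset_iff]; exact hF.sub hvF) hr
  rw [Finset.coe_singleton, Submodule.mem_span_singleton]
  refine ⟨c v - N, ?_⟩
  rw [sub_smul, ← e]
  abel

/-- Lower bound inside one facet. -/
theorem facet_count (hdim : Module.finrank ℝ E = 4) {W F : Finset E} {f : E →ₗ[ℝ] ℝ}
    (hW : ConvPos W) (hF : IsFct W F f) {w : E}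
    (hw : ∀ T ∈ W.powerset, Module.finrank ℝ (Submodule.span ℝ (T : Set E)) ≤ 3 →
        w ∉ Submodule.span ℝ (T : Set E)) :
    (F.card : ℤ) * (F.card - 1) + 2 * ((GV F w).card + (GV F (-w)).card)
      ≤ ((GP F w).card + (GP F (-w)).card) + 2 * F.card := by
  classical
  have hFc : ConvPos F := hW.mono hF.sub
  have hw3 : ∀ x ∈ F, ∀ y ∈ F, ∀ z ∈ F, w ∉ Submodule.span ℝ {x, y, z} := by
    intro x hx y hy z hz
    have hT : ({x, y, z} : Finset E) ∈ W.powerset := by
      rw [Finset.mem_powerset]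
      intro t ht
      simp only [Finset.mem_insert, Finset.mem_singleton] at ht
      rcases ht with rfl | rfl | rfl
      · exact hF.sub hx
      · exact hF.sub hy
      · exact hF.sub hz
    have hr : Module.finrank ℝ (Submodule.span ℝ ((({x, y, z} : Finset E) : Set E))) ≤ 3 :=
      (finrank_span_finset_le_card (R := ℝ) (M := E) ({x, y, z} : Finset E)).trans
        Finset.card_le_three
    have := hw _ hT hr
    simpa using this
  set GB : Finset E := GV F w ∪ GV F (-w) with hGB
  have hGBF : GB ⊆ F := by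
    intro v hv
    rw [hGB, Finset.mem_union, GV, GV, Finset.mem_filter, Finset.mem_filter] at hv
    rcases hv with hv | hv <;> exact hv.1
  have hGBcard : GB.card = (GV F w).card + (GV F (-w)).card :=
    Finset.card_union_of_disjoint (GV_disjoint hW hF hw)
  -- bad pairs
  set B : Finset (E × E) := F.offDiag.filter
    (fun p => ¬ Good F w (p.1 + p.2) ∧ ¬ Good F (-w) (p.1 + p.2)) with hB
  have hcover : F.offDiag ⊆ GP F w ∪ GP F (-w) ∪ B := by
    intro p hp
    rw [Finset.mem_union, Finset.mem_union, GP, GP, hB, Finset.mem_filter, Finset.mem_filter,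
      Finset.mem_filter]
    tauto
  have hBcard : B.card ≤ 2 * (F.card - GB.card) := by
    have hmaps : ∀ p ∈ B, p.1 ∈ F \ GB := by
      intro p hp
      rw [hB, Finset.mem_filter, Finset.mem_offDiag] at hp
      rw [Finset.mem_sdiff]
      refine ⟨hp.1.1, ?_⟩
      intro hg
      rw [hGB, Finset.mem_union, GV, GV, Finset.mem_filter, Finset.mem_filter] at hg
      rcases hg with hg | hg
      · exact hp.2.1 (hg.2.add_mem hp.1.2.1)
      · exact hp.2.2 (hg.2.add_mem hp.1.2.1)
    have hfib : ∀ u ∈ F \ GB, (B.filter (fun p => p.1 = u)).card ≤ 2 := by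
      intro u hu
      rw [Finset.mem_sdiff] at hu
      by_contra hcon
      push Not at hcon
      obtain ⟨p1, hp1, p2, hp2, p3, hp3, h12, h13, h23⟩ := Finset.two_lt_card.1 hcon
      rw [Finset.mem_filter, hB, Finset.mem_filter, Finset.mem_offDiag] at hp1 hp2 hp3
      have n12 : p1.2 ≠ p2.2 := fun he => h12 (Prod.ext (hp1.2.trans hp2.2.symm) he)
      have n13 : p1.2 ≠ p3.2 := fun he => h13 (Prod.ext (hp1.2.trans hp3.2.symm) he)
      have n23 : p2.2 ≠ p3.2 := fun he => h23 (Prod.ext (hp2.2.trans hp3.2.symm) he)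
      obtain ⟨v, hv, hgood⟩ := good_of_three hdim hFc hF.one hF.span hw3 hu.1 hp1.1.1.2.1
        hp2.1.1.2.1 hp3.1.1.2.1
        (by rw [← hp1.2]; exact hp1.1.1.2.2) (by rw [← hp2.2]; exact hp2.1.1.2.2)
        (by rw [← hp3.2]; exact hp3.1.1.2.2) n12 n13 n23
      rcases hv with rfl | rfl | rfl
      · have h1 := hp1.1.2; rw [hp1.2] at h1; tauto
      · have h1 := hp2.1.2; rw [hp2.2] at h1; tauto
      · have h1 := hp3.1.2; rw [hp3.2] at h1; tauto
    calc B.card = ∑ u ∈ F \ GB, (B.filter (fun p => p.1 = u)).card :=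
          Finset.card_eq_sum_card_fiberwise hmaps
      _ ≤ ∑ u ∈ F \ GB, 2 := Finset.sum_le_sum hfib
      _ = 2 * (F.card - GB.card) := by
          rw [Finset.sum_const, smul_eq_mul, Finset.card_sdiff_of_subset hGBF, mul_comm]
  have hoff : F.offDiag.card = F.card * F.card - F.card := Finset.offDiag_card F
  have h1 : F.offDiag.card ≤ (GP F w).card + (GP F (-w)).card + B.card :=
    (Finset.card_le_card hcover).trans ((Finset.card_union_le _ _).trans
      (Nat.add_le_add_right (Finset.card_union_le _ _) _))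
  have hGBle : GB.card ≤ F.card := Finset.card_le_card hGBF
  have hle : F.card ≤ F.card * F.card := Nat.le_mul_self _
  have h2 : ((F.card * F.card - F.card : ℕ) : ℤ) ≤ (GP F w).card + (GP F (-w)).card
      + 2 * ((F.card : ℤ) - GB.card) := by
    rw [← hoff]
    have hBz : (B.card : ℤ) ≤ 2 * ((F.card : ℤ) - GB.card) := by
      have : (B.card : ℤ) ≤ ((2 * (F.card - GB.card) : ℕ) : ℤ) := by exact_mod_cast hBcard
      rw [Nat.cast_mul, Nat.cast_sub hGBle] at this
      exact_mod_cast this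
    have h1z : (F.offDiag.card : ℤ) ≤ (GP F w).card + (GP F (-w)).card + B.card := by
      exact_mod_cast h1
    linarith
  rw [Nat.cast_sub hle, Nat.cast_mul, hGBcard, Nat.cast_add] at h2
  linarith

/-- The core inequality. -/
theorem core [Nontrivial E] (hdim : Module.finrank ℝ E = 4) {W : Finset E}
    (h0 : (0 : E) ∈ interior (convexHull ℝ (W : Set E))) (hW : ConvPos W)
    {Fs : Finset (Finset E)} {h : Finset E → (E →ₗ[ℝ] ℝ)}
    (hFs : ∀ F ∈ Fs, IsFct W F (h F)) (hall : ∀ F f, IsFct W F f → F ∈ Fs) :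
    ∑ F ∈ Fs, (F.card : ℤ) * (F.card - 3) ≤ 2 * (W.card * (W.card - 3)) := by
  classical
  have hne : ∀ F ∈ Fs, ∀ G ∈ Fs, F ≠ G → h F ≠ h G := by
    intro F hF G hG hFG he
    apply hFG
    ext v
    constructor
    · intro hv
      have := (hFs F hF).one v hv
      rw [he] at this
      exact ((hFs G hG).iff v ((hFs F hF).sub hv)).1 this
    · intro hv
      have := (hFs G hG).one v hv
      rw [← he] at this
      exact ((hFs F hF).iff v ((hFs G hG).sub hv)).1 this
  obtain ⟨w, hw1, hw2⟩ := exists_generic hdim W Fs h hne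
  have hw1' : ∀ F ∈ Fs, ∀ G ∈ Fs, F ≠ G → h F (-w) ≠ h G (-w) := by
    intro F hF G hG hFG he
    apply hw1 F hF G hG hFG
    simpa using he
  have hw2' : ∀ T ∈ W.powerset, Module.finrank ℝ (Submodule.span ℝ (T : Set E)) ≤ 3 →
        -w ∉ Submodule.span ℝ (T : Set E) := by
    intro T hT hr hm
    exact hw2 T hT hr (by simpa using neg_mem hm)
  have A1 := GP_card_le Fs W h hFs hw1
  have A2 := GP_card_le Fs W h hFs hw1'
  have B : ∀ z : E, (∀ T ∈ W.powerset, Module.finrank ℝ (Submodule.span ℝ (T : Set E)) ≤ 3 →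
        z ∉ Submodule.span ℝ (T : Set E)) → W.card ≤ ∑ F ∈ Fs, (GV F z).card := by
    intro z hz
    refine le_trans (Finset.card_le_card ?_) Finset.card_biUnion_le
    intro v hv
    obtain ⟨F, hF, hvF, hg⟩ := exists_fct_good hdim h0 hW hFs hall hz hv
    rw [Finset.mem_biUnion]
    exact ⟨F, hF, by rw [GV, Finset.mem_filter]; exact ⟨hvF, hg⟩⟩
  have B1 := B w hw2
  have B2 := B (-w) hw2'
  have C : ∑ F ∈ Fs, ((F.card : ℤ) * (F.card - 1) + 2 * ((GV F w).card + (GV F (-w)).card))
      ≤ ∑ F ∈ Fs, (((GP F w).card + (GP F (-w)).card) + 2 * (F.card : ℤ)) :=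
    Finset.sum_le_sum (fun F hF => facet_count hdim hW (hFs F hF) hw2)
  have hle : W.card ≤ W.card * W.card := Nat.le_mul_self _
  have A1z : (∑ F ∈ Fs, ((GP F w).card : ℤ)) ≤ (W.card : ℤ) * W.card - W.card := by
    have : ((∑ F ∈ Fs, (GP F w).card : ℕ) : ℤ) ≤ ((W.card * W.card - W.card : ℕ) : ℤ) := by
      exact_mod_cast A1
    rw [Nat.cast_sub hle, Nat.cast_mul, Nat.cast_sum] at this
    exact this
  have A2z : (∑ F ∈ Fs, ((GP F (-w)).card : ℤ)) ≤ (W.card : ℤ) * W.card - W.card := by
    have : ((∑ F ∈ Fs, (GP F (-w)).card : ℕ) : ℤ) ≤ ((W.card * W.card - W.card : ℕ) : ℤ) := by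
      exact_mod_cast A2
    rw [Nat.cast_sub hle, Nat.cast_mul, Nat.cast_sum] at this
    exact this
  have B1z : (W.card : ℤ) ≤ ∑ F ∈ Fs, ((GV F w).card : ℤ) := by exact_mod_cast B1
  have B2z : (W.card : ℤ) ≤ ∑ F ∈ Fs, ((GV F (-w)).card : ℤ) := by exact_mod_cast B2
  rw [Finset.sum_add_distrib, ← Finset.mul_sum, Finset.sum_add_distrib, Finset.sum_add_distrib,
    Finset.sum_add_distrib, ← Finset.mul_sum] at C
  have D : ∑ F ∈ Fs, (F.card : ℤ) * (F.card - 3)
      = ∑ F ∈ Fs, (F.card : ℤ) * (F.card - 1) - 2 * ∑ F ∈ Fs, (F.card : ℤ) := by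
    rw [Finset.mul_sum, ← Finset.sum_sub_distrib]
    refine Finset.sum_congr rfl (fun F _ => ?_)
    ring
  rw [D]
  nlinarith [A1z, A2z, B1z, B2z, C]

end Pool.Agent.Lib_helper82.Facets4
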