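import Mathlib
import Pool.Agent.Lib_helper82.Facets4D

/-! Counting facets of a 4-dimensional polytope, part E: from polytopes as sets to vertex sets. -/

open scoped BigOperators Topology
open Filter

namespace Pool.Agent.Lib_helper82.Facets4

variable {E : Type*} [NormedAddCommGroup E] [NormedSpace ℝ E] [FiniteDimensional ℝ E]

/-- A finite-dimensional compact convex set with finitely many extreme points is their hull. -/
theorem convexHull_extremePoints_of_finite {A : Set E} (hA : IsCompact A) (hc : Convex ℝ A)
    (hf : (A.extremePoints ℝ).Finite) : convexHull ℝ (A.extremePoints ℝ) = A := by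
  have h := closure_convexHull_extremePoints hA hc
  rwa [(hf.isClosed_convexHull ℝ).closure_eq] at h

/-- The set of facets of the vertex set. -/
theorem exists_facetFinset (W : Finset E) : ∃ Fs : Finset (Finset E),
    ∃ h : Finset E → (E →ₗ[ℝ] ℝ), (∀ F ∈ Fs, IsFct W F (h F)) ∧
      (∀ F f, IsFct W F f → F ∈ Fs) := by
  classical
  refine ⟨W.powerset.filter (fun F => ∃ f : E →ₗ[ℝ] ℝ, IsFct W F f),
    fun F => if hF : ∃ f : E →ₗ[ℝ] ℝ, IsFct W F f then hF.choose else 0, ?_, ?_⟩
  · intro F hF
    rw [Finset.mem_filter] at hF
    simp only [hF.2, dif_pos]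
    exact hF.2.choose_spec
  · intro F f hf
    rw [Finset.mem_filter, Finset.mem_powerset]
    exact ⟨hf.sub, f, hf⟩

/-- Data attached to a polytope with nonempty interior. -/
theorem transfer [Nontrivial E] (hdim : Module.finrank ℝ E = 4) {S P : Set E} (hS : S.Finite)
    (hspan : affineSpan ℝ S = ⊤) (hP : P = convexHull ℝ S) :
    (P.extremePoints ℝ).Finite ∧ ∃ (Fs : Finset (Finset E)) (Φ : Set E → Finset E),
      (∑ F ∈ Fs, (F.card : ℤ) * (F.card - 3) ≤
        2 * ((P.extremePoints ℝ).ncard * ((P.extremePoints ℝ).ncard - 3))) ∧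
      (∀ F ∈ Fs, 4 ≤ F.card) ∧
      (∀ G : Set E, IsExposed ℝ P G → Module.finrank ℝ (vectorSpan ℝ G) = 3 →
        Φ G ∈ Fs ∧ ((Φ G).card : ℕ∞) = (G.extremePoints ℝ).encard) ∧
      (∀ G G' : Set E, IsExposed ℝ P G → Module.finrank ℝ (vectorSpan ℝ G) = 3 →
        IsExposed ℝ P G' → Module.finrank ℝ (vectorSpan ℝ G') = 3 → Φ G = Φ G' → G = G') := by
  classical
  have hPc : IsCompact P := by rw [hP]; exact hS.isCompact_convexHull ℝ
  have hPconv : Convex ℝ P := by rw [hP]; exact convex_convexHull _ _
  have hVS : P.extremePoints ℝ ⊆ S := by rw [hP]; exact extremePoints_convexHull_subset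
  set V : Set E := P.extremePoints ℝ with hV
  have hVf : V.Finite := hS.subset hVS
  have hPV : convexHull ℝ V = P := convexHull_extremePoints_of_finite hPc hPconv hVf
  refine ⟨hVf, ?_⟩
  have hint : (interior P).Nonempty := by
    rw [hP, interior_convexHull_nonempty_iff_affineSpan_eq_top]; exact hspan
  obtain ⟨p, hp⟩ := hint
  -- the translated vertex set
  set τ : E ≃ᵃ[ℝ] E := AffineEquiv.constVAdd ℝ E (-p) with hτ
  have hτx : ∀ x, τ x = x - p := by
    intro x
    simp [hτ, sub_eq_neg_add]
  set W : Finset E := hVf.toFinset.image (fun x => x - p) with hW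
  have hWset : (W : Set E) = τ '' V := by
    rw [hW, Finset.coe_image, Set.Finite.coe_toFinset]
    apply Set.image_congr
    intro x _
    rw [hτx]
  have hWmem : ∀ x, x - p ∈ W ↔ x ∈ V := by
    intro x
    rw [hW, Finset.mem_image]
    constructor
    · rintro ⟨y, hy, he⟩
      have : y = x := sub_left_injective he
      rw [← this]
      exact hVf.mem_toFinset.1 hy
    · intro hx
      exact ⟨x, hVf.mem_toFinset.2 hx, rfl⟩
  have hWcard : W.card = V.ncard := by
    rw [hW, Finset.card_image_of_injective _ sub_left_injective, ← Set.ncard_eq_toFinset_card V hVf]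
  have hWhull : convexHull ℝ (W : Set E) = τ '' P := by
    rw [hWset, ← hPV]
    exact ((τ : E →ᵃ[ℝ] E).image_convexHull V).symm
  have h0 : (0 : E) ∈ interior (convexHull ℝ (W : Set E)) := by
    rw [hWhull]
    have hh : τ '' P = (Homeomorph.addRight (-p)) '' P := by
      apply Set.image_congr
      intro x _
      rw [hτx]
      simp [sub_eq_add_neg]
    rw [hh, ← Homeomorph.image_interior]
    exact ⟨p, hp, by simp⟩
  have hWpos : ConvPos W := by
    intro v hv hcv
    rw [← sub_add_cancel v (-p), sub_neg_eq_add] at hv
    have hv' : v + p ∈ V := by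
      rw [← hWmem]
      have : v + p - p = v := by abel
      rw [this]
      have h2 : v + p + -p = v := by abel
      rw [h2] at hv
      exact hv
    have hex := (hPconv.mem_extremePoints_iff_mem_sdiff_convexHull_sdiff).1 hv'
    apply hex.2
    -- pull back
    have h1 : (W : Set E) \ {v} = τ '' (V \ {v + p}) := by
      rw [Set.image_sdiff τ.injective, Set.image_singleton, hτx, hWset]
      congr 2
      abel
    rw [h1] at hcv
    have h2 : convexHull ℝ (τ '' (V \ {v + p})) = τ '' convexHull ℝ (V \ {v + p}) :=
      ((τ : E →ᵃ[ℝ] E).image_convexHull _).symm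
    rw [h2] at hcv
    obtain ⟨y, hy, hye⟩ := hcv
    rw [hτx] at hye
    have hye' : y = v + p := by rw [← hye]; abel
    rw [hye'] at hy
    refine convexHull_mono ?_ hy
    intro x hx
    exact ⟨extremePoints_subset hx.1, hx.2⟩
  obtain ⟨Fs, h, hFs, hall⟩ := exists_facetFinset W
  have hcore := core hdim h0 hWpos hFs hall
  rw [hWcard] at hcore
  refine ⟨Fs, fun G => W.filter (fun v => v + p ∈ G), hcore, ?_, ?_, ?_⟩
  · intro F hF
    have h1 := (hFs F hF).span
    have h2 := finrank_span_finset_le_card (R := ℝ) (M := E) F
    rw [Set.finrank, h1, finrank_top, hdim] at h2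
    exact h2
  · intro G hG hGr
    have hGne : G.Nonempty := by
      by_contra hcon
      rw [Set.not_nonempty_iff_eq_empty] at hcon
      rw [hcon, vectorSpan_empty, finrank_bot] at hGr
      omega
    obtain ⟨l, hl⟩ := hG hGne
    have hGP : G ⊆ P := by rw [hl]; exact Set.sep_subset _ _
    have hGext : G.extremePoints ℝ = G ∩ V := hG.isExtreme.extremePoints_eq
    have hGcpt : IsCompact G := hG.isCompact hPc
    have hGconv : Convex ℝ G := hG.convex hPconv
    have hGfin : (G.extremePoints ℝ).Finite := by
      rw [hGext]; exact hVf.subset Set.inter_subset_right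
    have hGhull := convexHull_extremePoints_of_finite hGcpt hGconv hGfin
    -- the value of l on G
    obtain ⟨g0, hg0⟩ := hGne
    have hg0' : g0 ∈ P ∧ ∀ y ∈ P, l y ≤ l g0 := by rw [hl] at hg0; exact hg0
    have hGiff : ∀ x ∈ P, x ∈ G ↔ l x = l g0 := by
      intro x hx
      constructor
      · intro hxG
        have : x ∈ P ∧ ∀ y ∈ P, l y ≤ l x := by rw [hl] at hxG; exact hxG
        exact le_antisymm (hg0'.2 x hx) (this.2 g0 hg0'.1)
      · intro he
        rw [hl]
        refine ⟨hx, fun y hy => ?_⟩
        rw [he]
        exact hg0'.2 y hy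
    have hl0 : (l : E →ₗ[ℝ] ℝ) ≠ 0 := by
      intro hz
      have hGPeq : G = P := by
        apply Set.Subset.antisymm hGP
        intro x hx
        rw [hGiff x hx]
        have e1 : l x = 0 := LinearMap.congr_fun hz x
        have e2 : l g0 = 0 := LinearMap.congr_fun hz g0
        rw [e1, e2]
      rw [hGPeq, hP] at hGr
      have hvs : vectorSpan ℝ (convexHull ℝ S) = ⊤ := by
        rw [← direction_affineSpan, affineSpan_convexHull, hspan, AffineSubspace.direction_top]
      rw [hvs, finrank_top, hdim] at hGr
      omega
    have hc : l p < l g0 := by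
      obtain ⟨v, hv, hv0⟩ := exists_pos_of_interior h0 (l : E →ₗ[ℝ] ℝ) hl0
      have hvP : v + p ∈ P := by
        have : v + p ∈ V := by
          rw [← hWmem]
          simpa using hv
        exact extremePoints_subset this
      have h1 := hg0'.2 _ hvP
      rw [map_add] at h1
      have h2 : 0 < l v := hv0
      linarith
    set f : E →ₗ[ℝ] ℝ := (l g0 - l p)⁻¹ • (l : E →ₗ[ℝ] ℝ) with hf
    have hcpos : 0 < l g0 - l p := by linarith
    have hfx : ∀ v, f v = (l g0 - l p)⁻¹ * l v := by
      intro v
      simp [hf]
    set F : Finset E := W.filter (fun v => v + p ∈ G) with hFdef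
    have hWP : ∀ v ∈ W, v + p ∈ P ∧ v + p ∈ V := by
      intro v hv
      have : v + p ∈ V := by
        rw [← hWmem]
        simpa using hv
      exact ⟨extremePoints_subset this, this⟩
    have hfl : ∀ v ∈ W, l v = l (v + p) - l p := by
      intro v _
      rw [map_add]; ring
    have hFct : IsFct W F f := by
      refine ⟨Finset.filter_subset _ _, ?_, ?_, ?_⟩
      · intro v hv
        rw [hfx, inv_mul_le_iff₀ hcpos, mul_one, hfl v hv]
        have := hg0'.2 _ (hWP v hv).1
        linarith
      · intro v hv
        rw [hfx, hFdef, Finset.mem_filter, hGiff _ (hWP v hv).1, inv_mul_eq_one₀ hcpos.ne', hfl v hv]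
        constructor
        · intro he
          exact ⟨hv, by linarith⟩
        · rintro ⟨_, he⟩
          linarith
      · -- span
        have hvs : vectorSpan ℝ (G ∩ V) = vectorSpan ℝ G := by
          conv_rhs => rw [← hGhull, ← direction_affineSpan, affineSpan_convexHull,
            direction_affineSpan, hGext]
        have hle : vectorSpan ℝ (G ∩ V) ≤ Submodule.span ℝ (F : Set E) := by
          rw [vectorSpan_def]
          apply Submodule.span_le.2
          rintro _ ⟨x, hx, y, hy, rfl⟩
          have hx' : x - p ∈ F := by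
            rw [hFdef, Finset.mem_filter, hWmem]
            exact ⟨hx.2, by simpa using hx.1⟩
          have hy' : y - p ∈ F := by
            rw [hFdef, Finset.mem_filter, hWmem]
            exact ⟨hy.2, by simpa using hy.1⟩
          have := sub_mem (Submodule.subset_span (R := ℝ) (s := (F : Set E)) hx')
            (Submodule.subset_span (R := ℝ) (s := (F : Set E)) hy')
          simpa using this
        have hker : vectorSpan ℝ (G ∩ V) ≤ LinearMap.ker f := by
          rw [vectorSpan_def]
          apply Submodule.span_le.2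
          rintro _ ⟨x, hx, y, hy, rfl⟩
          have e1 := (hGiff x (hGP hx.1)).1 hx.1
          have e2 := (hGiff y (hGP hy.1)).1 hy.1
          simp [hfx, map_sub, e1, e2]
        -- G ∩ V is nonempty
        have hne : (G ∩ V).Nonempty := by
          by_contra hcon
          rw [Set.not_nonempty_iff_eq_empty] at hcon
          rw [hcon, vectorSpan_empty] at hvs
          rw [← hvs, finrank_bot] at hGr
          omega
        obtain ⟨x, hxG, hxV⟩ := hne
        have hxF : x - p ∈ F := by
          rw [hFdef, Finset.mem_filter, hWmem]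
          exact ⟨hxV, by simpa using hxG⟩
        have hlt : vectorSpan ℝ (G ∩ V) < Submodule.span ℝ (F : Set E) := by
          refine lt_of_le_of_ne hle ?_
          intro he
          have h1 : x - p ∈ vectorSpan ℝ (G ∩ V) := by
            rw [he]
            exact Submodule.subset_span hxF
          have h2 := hker h1
          rw [LinearMap.mem_ker, hfx, map_sub, (hGiff x (hGP hxG)).1 hxG,
            inv_mul_cancel₀ hcpos.ne'] at h2
          exact one_ne_zero h2
        have hfr := Submodule.finrank_lt_finrank_of_lt hlt
        rw [hvs, hGr] at hfr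
        apply Submodule.eq_top_of_finrank_eq
        have := Submodule.finrank_le (Submodule.span ℝ (F : Set E))
        rw [hdim] at this ⊢
        omega
    refine ⟨hall F f hFct, ?_⟩
    -- cardinalities
    have himg : (F : Set E) = (fun x => x - p) '' (G ∩ V) := by
      ext v
      rw [hFdef]
      simp only [Finset.coe_filter, Set.mem_setOf_eq, Set.mem_image, Set.mem_inter_iff]
      constructor
      · rintro ⟨hv, hvG⟩
        exact ⟨v + p, ⟨hvG, (hWP v hv).2⟩, by abel⟩
      · rintro ⟨x, ⟨hxG, hxV⟩, rfl⟩
        exact ⟨(hWmem x).2 hxV, by simpa using hxG⟩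
    show ((F.card : ℕ) : ℕ∞) = _
    rw [← Set.encard_coe_eq_coe_finsetCard, himg, hGext, Set.InjOn.encard_image
      (sub_left_injective.injOn)]
  · intro G G' hG hGr hG' hGr' he
    have key : ∀ H : Set E, IsExposed ℝ P H → Module.finrank ℝ (vectorSpan ℝ H) = 3 →
        convexHull ℝ ((fun v => v + p) '' ((W.filter (fun v => v + p ∈ H) : Finset E) : Set E))
          = H := by
      intro H hH hHr
      have hHext : H.extremePoints ℝ = H ∩ V := hH.isExtreme.extremePoints_eq
      have hHcpt : IsCompact H := hH.isCompact hPc
      have hHconv : Convex ℝ H := hH.convex hPconv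
      have hHfin : (H.extremePoints ℝ).Finite := by
        rw [hHext]; exact hVf.subset Set.inter_subset_right
      have hHhull := convexHull_extremePoints_of_finite hHcpt hHconv hHfin
      conv_rhs => rw [← hHhull, hHext]
      congr 1
      ext x
      simp only [Finset.coe_filter, Set.mem_image, Set.mem_setOf_eq, Set.mem_inter_iff]
      constructor
      · rintro ⟨v, ⟨hv, hvH⟩, rfl⟩
        refine ⟨hvH, ?_⟩
        rw [← hWmem]
        simpa using hv
      · rintro ⟨hxH, hxV⟩
        exact ⟨x - p, ⟨(hWmem x).2 hxV, by simpa using hxH⟩, by abel⟩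
    have he' : W.filter (fun v => v + p ∈ G) = W.filter (fun v => v + p ∈ G') := he
    rw [← key G hG hGr, ← key G' hG' hGr', he']

end Pool.Agent.Lib_helper82.Facets4
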