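import Mathlib

/-! Facets through a plane, part A: linear algebra of facet functionals. -/

open scoped BigOperators

namespace Pool.Agent.Lib_helper82.Plane

variable {H : Type*} [AddCommGroup H] [Module ℝ H]

theorem finrank_ann [FiniteDimensional ℝ H] (hH : Module.finrank ℝ H = 5) (U : Submodule ℝ H)
    (hU : Module.finrank ℝ U = 3) : Module.finrank ℝ U.dualAnnihilator = 2 := by
  have h := Subspace.finrank_add_finrank_dualAnnihilator_eq U
  rw [hU, hH] at h
  omega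

theorem dep_ann [FiniteDimensional ℝ H] (hH : Module.finrank ℝ H = 5) (U : Submodule ℝ H)
    (hU : Module.finrank ℝ U = 3)
    (f₁ f₂ f₃ : H →ₗ[ℝ] ℝ) (h1 : ∀ u ∈ U, f₁ u = 0) (h2 : ∀ u ∈ U, f₂ u = 0)
    (h3 : ∀ u ∈ U, f₃ u = 0) :
    ∃ a b c : ℝ, ¬ (a = 0 ∧ b = 0 ∧ c = 0) ∧ a • f₁ + b • f₂ + c • f₃ = 0 := by
  by_contra hcon
  have hcon' : ∀ a b c : ℝ, a • f₁ + b • f₂ + c • f₃ = 0 → a = 0 ∧ b = 0 ∧ c = 0 :=
    fun a b c h => by_contra (fun hn => hcon ⟨a, b, c, hn, h⟩)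
  have hli : LinearIndependent ℝ (![f₁, f₂, f₃] : Fin 3 → (H →ₗ[ℝ] ℝ)) := by
    rw [Fintype.linearIndependent_iff]
    intro g hg
    simp only [Fin.sum_univ_three, Matrix.cons_val_zero, Matrix.cons_val_one, Matrix.cons_val] at hg
    obtain ⟨c1, c2, c3⟩ := hcon' (g 0) (g 1) (g 2) (by simpa using hg)
    intro i
    fin_cases i
    · exact c1
    · exact c2
    · exact c3
  have h := finrank_span_eq_card hli
  have hle : Submodule.span ℝ (Set.range (![f₁, f₂, f₃] : Fin 3 → (H →ₗ[ℝ] ℝ)))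
      ≤ (U.dualAnnihilator : Submodule ℝ (Module.Dual ℝ H)) := by
    rw [Submodule.span_le]
    rintro _ ⟨i, rfl⟩
    rw [SetLike.mem_coe, Submodule.mem_dualAnnihilator]
    fin_cases i
    · exact h1
    · exact h2
    · exact h3
  have h' := Submodule.finrank_mono hle
  rw [h, finrank_ann hH U hU] at h'
  simp at h'

section facets

variable {ι : Type*} {G : Finset ι} {Ψ : ι → (H →ₗ[ℝ] ℝ)} {V : Finset H}

/-- Three different facet functionals are linearly independent. -/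
theorem li_three (hnn : ∀ g ∈ G, ∀ v ∈ V, 0 ≤ Ψ g v)
    (hinj : ∀ g ∈ G, ∀ g' ∈ G, (∀ v ∈ V, Ψ g v = 0 → Ψ g' v = 0) → g = g')
    {g₁ g₂ g₃ : ι} (h1 : g₁ ∈ G) (h2 : g₂ ∈ G) (h3 : g₃ ∈ G)
    (n12 : g₁ ≠ g₂) (n13 : g₁ ≠ g₃) (n23 : g₂ ≠ g₃) {a b c : ℝ}
    (hrel : a • Ψ g₁ + b • Ψ g₂ + c • Ψ g₃ = 0) : a = 0 ∧ b = 0 ∧ c = 0 := by
  -- all of the same sign
  have key2 : ∀ g g' g'' : ι, g ∈ G → g' ∈ G → g'' ∈ G → g ≠ g' → ∀ a b c : ℝ, 0 < a → 0 ≤ b →
      0 ≤ c → a • Ψ g + b • Ψ g' + c • Ψ g'' = 0 → False := by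
    intro g g' g'' hg hg' hg'' hne a b c ha hb hc hr
    apply hne
    refine (hinj g' hg' g hg ?_).symm
    intro v hv _
    have e := LinearMap.congr_fun hr v
    simp only [LinearMap.add_apply, LinearMap.smul_apply, smul_eq_mul, LinearMap.zero_apply] at e
    have l1 := mul_nonneg hb (hnn g' hg' v hv)
    have l2 := mul_nonneg hc (hnn g'' hg'' v hv)
    have l3 := hnn g hg v hv
    have l4 : a * Ψ g v ≤ 0 := by linarith
    nlinarith
  -- one positive, two nonpositive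
  have key1 : ∀ g g' g'' : ι, g ∈ G → g' ∈ G → g'' ∈ G → g ≠ g' → g ≠ g'' → ∀ a b c : ℝ, 0 < a →
      b ≤ 0 → c ≤ 0 → a • Ψ g + b • Ψ g' + c • Ψ g'' = 0 → False := by
    intro g g' g'' hg hg' hg'' hne hne' a b c ha hb hc hr
    rcases hb.lt_or_eq with hb' | hb'
    · apply hne
      refine hinj g hg g' hg' ?_
      intro v hv hv0
      have e := LinearMap.congr_fun hr v
      simp only [LinearMap.add_apply, LinearMap.smul_apply, smul_eq_mul, LinearMap.zero_apply] at e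
      rw [hv0, mul_zero, zero_add] at e
      have l1 := mul_nonpos_of_nonpos_of_nonneg hb (hnn g' hg' v hv)
      have l2 := mul_nonpos_of_nonpos_of_nonneg hc (hnn g'' hg'' v hv)
      have l3 : b * Ψ g' v = 0 := by linarith
      exact (mul_eq_zero.1 l3).resolve_left hb'.ne
    · rcases hc.lt_or_eq with hc' | hc'
      · apply hne'
        refine hinj g hg g'' hg'' ?_
        intro v hv hv0
        have e := LinearMap.congr_fun hr v
        simp only [LinearMap.add_apply, LinearMap.smul_apply, smul_eq_mul,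
          LinearMap.zero_apply] at e
        rw [hv0, mul_zero, zero_add] at e
        have l1 := mul_nonpos_of_nonpos_of_nonneg hb (hnn g' hg' v hv)
        have l2 := mul_nonpos_of_nonpos_of_nonneg hc (hnn g'' hg'' v hv)
        have l3 : c * Ψ g'' v = 0 := by linarith
        exact (mul_eq_zero.1 l3).resolve_left hc'.ne
      · exact key2 g g' g'' hg hg' hg'' hne a b c ha hb'.ge hc'.ge hr
  -- a positive coefficient somewhere
  have main : ∀ g g' g'' : ι, g ∈ G → g' ∈ G → g'' ∈ G → g ≠ g' → g ≠ g'' → g' ≠ g'' →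
      ∀ a b c : ℝ, 0 < a → a • Ψ g + b • Ψ g' + c • Ψ g'' = 0 → False := by
    intro g g' g'' hg hg' hg'' n1 n2 n3 a b c ha hr
    rcases le_or_gt b 0 with hb | hb <;> rcases le_or_gt c 0 with hc | hc
    · exact key1 g g' g'' hg hg' hg'' n1 n2 a b c ha hb hc hr
    · refine key1 g' g g'' hg' hg hg'' n1.symm n3 (-b) (-a) (-c) ?_ (by linarith) (by linarith) ?_
        |>.elim
      · by_contra hb0
        have hb1 : b = 0 := le_antisymm hb (by linarith)
        exact key2 g g' g'' hg hg' hg'' n1 a b c ha hb1.ge hc.le hr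
      · have : (-b) • Ψ g' + (-a) • Ψ g + (-c) • Ψ g''
          = -(a • Ψ g + b • Ψ g' + c • Ψ g'') := by module
        rw [this, hr, neg_zero]
    · refine key1 g'' g g' hg'' hg hg' n2.symm n3.symm (-c) (-a) (-b) ?_ (by linarith)
        (by linarith) ?_ |>.elim
      · by_contra hc0
        have hc1 : c = 0 := le_antisymm hc (by linarith)
        exact key2 g g' g'' hg hg' hg'' n1 a b c ha hb.le hc1.ge hr
      · have : (-c) • Ψ g'' + (-a) • Ψ g + (-b) • Ψ g'
          = -(a • Ψ g + b • Ψ g' + c • Ψ g'') := by module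
        rw [this, hr, neg_zero]
    · exact key2 g g' g'' hg hg' hg'' n1 a b c ha hb.le hc.le hr
  have main' : ∀ g g' g'' : ι, g ∈ G → g' ∈ G → g'' ∈ G → g ≠ g' → g ≠ g'' → g' ≠ g'' →
      ∀ a b c : ℝ, a ≠ 0 → a • Ψ g + b • Ψ g' + c • Ψ g'' = 0 → False := by
    intro g g' g'' hg hg' hg'' n1 n2 n3 a b c ha hr
    rcases lt_or_gt_of_ne ha with h | h
    · refine main g g' g'' hg hg' hg'' n1 n2 n3 (-a) (-b) (-c) (by linarith) ?_
      have : (-a) • Ψ g + (-b) • Ψ g' + (-c) • Ψ g''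
          = -(a • Ψ g + b • Ψ g' + c • Ψ g'') := by module
      rw [this, hr, neg_zero]
    · exact main g g' g'' hg hg' hg'' n1 n2 n3 a b c h hr
  refine ⟨?_, ?_, ?_⟩
  · by_contra h
    exact main' g₁ g₂ g₃ h1 h2 h3 n12 n13 n23 a b c h hrel
  · by_contra h
    refine main' g₂ g₁ g₃ h2 h1 h3 n12.symm n23 n13 b a c h ?_
    rw [← hrel]; module
  · by_contra h
    refine main' g₃ g₁ g₂ h3 h1 h2 n13.symm n23.symm n12 c a b h ?_
    rw [← hrel]; module

/-- At most two facet functionals vanish on a given 3-space. -/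
theorem card_vanish_le_two [FiniteDimensional ℝ H] (hH : Module.finrank ℝ H = 5)
    (hnn : ∀ g ∈ G, ∀ v ∈ V, 0 ≤ Ψ g v)
    (hinj : ∀ g ∈ G, ∀ g' ∈ G, (∀ v ∈ V, Ψ g v = 0 → Ψ g' v = 0) → g = g')
    (U : Submodule ℝ H) (hU : Module.finrank ℝ U = 3) (S : Finset ι) (hS : S ⊆ G)
    (hv : ∀ g ∈ S, ∀ u ∈ U, Ψ g u = 0) : S.card ≤ 2 := by
  classical
  by_contra hcon
  push Not at hcon
  obtain ⟨g1, h1, g2, h2, g3, h3, h12, h13, h23⟩ := Finset.two_lt_card.1 hcon
  obtain ⟨a, b, c, hne, hrel⟩ := dep_ann hH U hU _ _ _ (hv g1 h1) (hv g2 h2) (hv g3 h3)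
  exact hne (li_three hnn hinj (hS h1) (hS h2) (hS h3) h12 h13 h23 hrel)

/-- At most two facet functionals vanish at three given independent vectors. -/
theorem card_three_le_two [FiniteDimensional ℝ H] (hH : Module.finrank ℝ H = 5)
    (hnn : ∀ g ∈ G, ∀ v ∈ V, 0 ≤ Ψ g v)
    (hinj : ∀ g ∈ G, ∀ g' ∈ G, (∀ v ∈ V, Ψ g v = 0 → Ψ g' v = 0) → g = g')
    {x y z : H} (hli : ∀ a b c : ℝ, a • x + b • y + c • z = 0 → a = 0 ∧ b = 0 ∧ c = 0)
    (S : Finset ι) (hS : S ⊆ G)
    (hv : ∀ g ∈ S, Ψ g x = 0 ∧ Ψ g y = 0 ∧ Ψ g z = 0) : S.card ≤ 2 := by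
  have hli' : LinearIndependent ℝ (![x, y, z] : Fin 3 → H) := by
    rw [Fintype.linearIndependent_iff]
    intro c hc
    simp only [Fin.sum_univ_three, Matrix.cons_val_zero, Matrix.cons_val_one,
      Matrix.cons_val] at hc
    obtain ⟨c1, c2, c3⟩ := hli (c 0) (c 1) (c 2) (by simpa using hc)
    intro i
    fin_cases i
    · exact c1
    · exact c2
    · exact c3
  refine card_vanish_le_two hH hnn hinj (Submodule.span ℝ (Set.range ![x, y, z])) ?_ S hS ?_
  · rw [finrank_span_eq_card hli']; simp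
  · intro g hg u hu
    have hle' : Submodule.span ℝ (Set.range ![x, y, z]) ≤ LinearMap.ker (Ψ g) := by
      rw [Submodule.span_le]
      rintro _ ⟨i, rfl⟩
      rw [SetLike.mem_coe, LinearMap.mem_ker]
      fin_cases i
      · exact (hv g hg).1
      · exact (hv g hg).2.1
      · exact (hv g hg).2.2
    exact hle' hu

end facets

/-- Three vectors of `U` are dependent modulo `K` when `dim U = dim K + 2`. -/
theorem dep_mod [FiniteDimensional ℝ H] (K U : Submodule ℝ H) (hKU : K ≤ U)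
    (hfin : Module.finrank ℝ U = Module.finrank ℝ K + 2) {x y z : H} (hx : x ∈ U) (hy : y ∈ U)
    (hz : z ∈ U) : ∃ a b c : ℝ, ¬ (a = 0 ∧ b = 0 ∧ c = 0) ∧ a • x + b • y + c • z ∈ K := by
  by_contra hcon
  have hcon' : ∀ a b c : ℝ, a • x + b • y + c • z ∈ K → a = 0 ∧ b = 0 ∧ c = 0 :=
    fun a b c h => by_contra (fun hn => hcon ⟨a, b, c, hn, h⟩)
  set f : U →ₗ[ℝ] (H ⧸ K) := K.mkQ.comp U.subtype with hf
  have hker : Module.finrank ℝ (LinearMap.ker f) = Module.finrank ℝ K := by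
    have e : LinearMap.ker f = K.comap U.subtype := by
      rw [hf, LinearMap.ker_comp, Submodule.ker_mkQ]
    rw [e]
    exact (Submodule.comapSubtypeEquivOfLe hKU).finrank_eq
  have hrk := LinearMap.finrank_range_add_finrank_ker f
  rw [hker, hfin] at hrk
  have hli : LinearIndependent ℝ (![f ⟨x, hx⟩, f ⟨y, hy⟩, f ⟨z, hz⟩] : Fin 3 → (H ⧸ K)) := by
    rw [Fintype.linearIndependent_iff]
    intro g hg
    simp only [Fin.sum_univ_three, Matrix.cons_val_zero, Matrix.cons_val_one,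
      Matrix.cons_val] at hg
    have hmem : g 0 • x + g 1 • y + g 2 • z ∈ K := by
      rw [← Submodule.Quotient.mk_eq_zero K]
      exact hg
    obtain ⟨c1, c2, c3⟩ := hcon' _ _ _ hmem
    intro i
    fin_cases i
    · exact c1
    · exact c2
    · exact c3
  have h := finrank_span_eq_card hli
  have hle : Submodule.span ℝ (Set.range (![f ⟨x, hx⟩, f ⟨y, hy⟩, f ⟨z, hz⟩] : Fin 3 → (H ⧸ K)))
      ≤ LinearMap.range f := by
    rw [Submodule.span_le]
    rintro _ ⟨i, rfl⟩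
    rw [SetLike.mem_coe, LinearMap.mem_range]
    fin_cases i
    · exact ⟨_, rfl⟩
    · exact ⟨_, rfl⟩
    · exact ⟨_, rfl⟩
  have h' := Submodule.finrank_mono hle
  rw [h, Fintype.card_fin] at h'
  omega

/-- Nonnegative functionals vanishing on `K`, with zeros `α g` outside `K`: two zeros suffice. -/
theorem exists_two [FiniteDimensional ℝ H] {ι : Type*} (R : Finset ι) (δ : ι → (H →ₗ[ℝ] ℝ))
    (K U : Submodule ℝ H) (hKU : K ≤ U) (hfin : Module.finrank ℝ U = Module.finrank ℝ K + 2)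
    (α : ι → H) (hαU : ∀ g ∈ R, α g ∈ U) (hαK : ∀ g ∈ R, α g ∉ K)
    (hα0 : ∀ g ∈ R, δ g (α g) = 0) (hK : ∀ g ∈ R, ∀ k ∈ K, δ g k = 0)
    (hnon : ∀ g ∈ R, ∃ u ∈ U, δ g u ≠ 0) (hpos : ∀ g ∈ R, ∀ g' ∈ R, 0 ≤ δ g (α g')) :
    ∃ T : Finset H, T.card ≤ 2 ∧ (∀ t ∈ T, ∃ g ∈ R, t = α g) ∧ ∀ g ∈ R, ∃ t ∈ T, δ g t = 0 := by
  classical
  -- symmetry
  have symm : ∀ g ∈ R, ∀ g' ∈ R, δ g (α g') = 0 → δ g' (α g) = 0 := by
    intro g hg g' hg' h
    obtain ⟨u, hu, hδu⟩ := hnon g hg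
    obtain ⟨a, b, c, hne, hrel⟩ := dep_mod K U hKU hfin hu (hαU g hg) (hαU g' hg')
    have ha : a = 0 := by
      have := hK g hg _ hrel
      simpa [hα0 g hg, h, hδu] using this
    rw [ha, zero_smul, zero_add] at hrel
    have hb : b ≠ 0 := by
      intro hb
      rw [hb, zero_smul, zero_add] at hrel
      by_cases hc : c = 0
      · exact hne ⟨ha, hb, hc⟩
      · exact hαK g' hg' ((Submodule.smul_mem_iff K hc).1 hrel)
    have := hK g' hg' _ hrel
    simpa [hα0 g' hg', hb] using this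
  rcases R.eq_empty_or_nonempty with hR | ⟨g1, hg1⟩
  · refine ⟨∅, by simp, by simp, ?_⟩
    rw [hR]; simp
  by_cases hall : ∀ g ∈ R, δ g (α g1) = 0
  · refine ⟨{α g1}, by simp, ?_, ?_⟩
    · intro t ht
      rw [Finset.mem_singleton] at ht
      exact ⟨g1, hg1, ht⟩
    · intro g hg
      exact ⟨α g1, Finset.mem_singleton_self _, hall g hg⟩
  push Not at hall
  obtain ⟨g2, hg2, h21⟩ := hall
  refine ⟨{α g1, α g2}, Finset.card_le_two, ?_, ?_⟩
  · intro t ht
    rw [Finset.mem_insert, Finset.mem_singleton] at ht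
    rcases ht with rfl | rfl
    · exact ⟨g1, hg1, rfl⟩
    · exact ⟨g2, hg2, rfl⟩
  · intro g hg
    by_contra hcon
    push Not at hcon
    have hg1' := hcon (α g1) (by simp)
    have hg2' := hcon (α g2) (by simp)
    have h12 : δ g1 (α g2) ≠ 0 := fun h => h21 (symm g1 hg1 g2 hg2 h)
    have h1g : δ g1 (α g) ≠ 0 := fun h => hg1' (symm g1 hg1 g hg h)
    have h2g : δ g2 (α g) ≠ 0 := fun h => hg2' (symm g2 hg2 g hg h)
    have p12 := lt_of_le_of_ne (hpos g1 hg1 g2 hg2) h12.symm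
    have p1g := lt_of_le_of_ne (hpos g1 hg1 g hg) h1g.symm
    have p21 := lt_of_le_of_ne (hpos g2 hg2 g1 hg1) h21.symm
    have p2g := lt_of_le_of_ne (hpos g2 hg2 g hg) h2g.symm
    have pg1 := lt_of_le_of_ne (hpos g hg g1 hg1) hg1'.symm
    have pg2 := lt_of_le_of_ne (hpos g hg g2 hg2) hg2'.symm
    obtain ⟨y, z, w, hne, hrel⟩ := dep_mod K U hKU hfin (hαU g1 hg1) (hαU g2 hg2) (hαU g hg)
    have e1 : z * δ g1 (α g2) + w * δ g1 (α g) = 0 := by
      have := hK g1 hg1 _ hrel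
      simpa [hα0 g1 hg1] using this
    have e2 : y * δ g2 (α g1) + w * δ g2 (α g) = 0 := by
      have := hK g2 hg2 _ hrel
      simpa [hα0 g2 hg2] using this
    have e3 : y * δ g (α g1) + z * δ g (α g2) = 0 := by
      have := hK g hg _ hrel
      simpa [hα0 g hg] using this
    have sgn : ∀ {p q r s : ℝ}, 0 < q → 0 < s → p * q + r * s = 0 → 0 < p → r < 0 := by
      intro p q r s hq hs h hp
      by_contra hr
      push Not at hr
      have := mul_pos hp hq
      have := mul_nonneg hr hs.le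
      linarith
    have sgn' : ∀ {p q r s : ℝ}, 0 < q → 0 < s → p * q + r * s = 0 → p < 0 → 0 < r := by
      intro p q r s hq hs h hp
      by_contra hr
      push Not at hr
      have := mul_neg_of_neg_of_pos hp hq
      have := mul_nonpos_of_nonpos_of_nonneg hr hs.le
      linarith
    have hy : y = 0 := by
      rcases lt_trichotomy y 0 with h | h | h
      · have hw := sgn' p21 p2g e2 h
        have hz := sgn' pg1 pg2 e3 h
        have hz' := sgn p12 p1g e1 hz
        linarith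
      · exact h
      · have hw := sgn p21 p2g e2 h
        have hz := sgn pg1 pg2 e3 h
        have hz' := sgn' p12 p1g e1 hz
        linarith
    have hw : w = 0 := by
      rw [hy, zero_mul, zero_add] at e2
      exact (mul_eq_zero.1 e2).resolve_right p2g.ne'
    have hz : z = 0 := by
      rw [hy, zero_mul, zero_add] at e3
      exact (mul_eq_zero.1 e3).resolve_right pg2.ne'
    exact hne ⟨hy, hz, hw⟩

end Pool.Agent.Lib_helper82.Plane
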