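import Mathlib
import Pool.Agent.Lib_helper82.Facets4E
import Pool.Agent.Lib_helper82.PlaneA

/-! Facets through a plane, part B: facets with three vertices in a given set of vertices. -/

open scoped BigOperators Topology
open Filter

namespace Pool.Agent.Lib_helper82.Plane

open Pool.Agent.Lib_helper82.Facets4

variable {E : Type*} [NormedAddCommGroup E] [NormedSpace ℝ E] [FiniteDimensional ℝ E]

/-- Every contact set of a supporting functional is contained in a facet. -/
theorem exists_fct_cont (hdim : Module.finrank ℝ E = 4) {W : Finset E}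
    (h0 : (0 : E) ∈ interior (convexHull ℝ (W : Set E)))
    {Fs : Finset (Finset E)} {h : Finset E → (E →ₗ[ℝ] ℝ)}
    (hFs : ∀ F ∈ Fs, IsFct W F (h F)) (hall : ∀ F f, IsFct W F f → F ∈ Fs)
    {T : Finset E} (hTW : T ⊆ W) {f0 : E →ₗ[ℝ] ℝ} (hf0 : ∀ x ∈ W, f0 x ≤ 1)
    (hf0T : ∀ t ∈ T, f0 t = 1) : ∃ F ∈ Fs, T ⊆ F := by
  classical
  have hne : ∀ F ∈ Fs, ∀ G ∈ Fs, F ≠ G → h F ≠ h G := by
    intro F hF G hG hFG he
    apply hFG
    ext v
    constructor
    · intro hv
      have := (hFs F hF).one v hv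
      rw [he] at this
      exact ((hFs G hG).iff v ((hFs F hF).sub hv)).1 this
    · intro hv
      have := (hFs G hG).one v hv
      rw [← he] at this
      exact ((hFs F hF).iff v ((hFs G hG).sub hv)).1 this
  obtain ⟨z, _, hz⟩ := exists_generic hdim W Fs h hne
  set y : E := ∑ t ∈ T, t with hy
  have hf0y : f0 y = T.card := by
    rw [hy, map_sum, Finset.sum_congr rfl hf0T, Finset.sum_const, nsmul_eq_mul, mul_one]
  have E1 : ∀ F ∈ Fs, ¬ T ⊆ F → ∀ᶠ N : ℝ in atTop, N * h F y + h F z < N * T.card + f0 z := by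
    intro F hF hTF
    have hlt : h F y < T.card := by
      obtain ⟨t0, ht0, ht0F⟩ := Finset.not_subset.1 hTF
      have hle : ∀ t ∈ T, h F t ≤ 1 := fun t ht => (hFs F hF).le t (hTW ht)
      have hlt0 : h F t0 < 1 := lt_of_le_of_ne (hle t0 ht0)
        (fun he => ht0F (((hFs F hF).iff t0 (hTW ht0)).1 he))
      have : ∑ t ∈ T, h F t < ∑ t ∈ T, (1 : ℝ) := Finset.sum_lt_sum hle ⟨t0, ht0, hlt0⟩
      rw [hy, map_sum]
      simpa using this
    filter_upwards [eventually_gt_atTop ((h F z - f0 z) / (T.card - h F y))] with N hN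
    rw [div_lt_iff₀ (by linarith)] at hN
    linarith
  have E1' : ∀ᶠ N : ℝ in atTop, ∀ F ∈ Fs, ¬ T ⊆ F → N * h F y + h F z < N * T.card + f0 z := by
    rw [Filter.eventually_all_finset]
    intro F hF
    by_cases hTF : T ⊆ F
    · exact Eventually.of_forall (fun N hn => absurd hTF hn)
    · filter_upwards [E1 F hF hTF] with N hN _ using hN
  have E2 : ∀ᶠ N : ℝ in atTop, ∀ T' ∈ W.powerset,
      Module.finrank ℝ (Submodule.span ℝ (T' : Set E)) ≤ 3 →
        N • y + z ∉ Submodule.span ℝ (T' : Set E) := by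
    rw [Filter.eventually_all_finset]
    intro T' hT'
    by_cases hr : Module.finrank ℝ (Submodule.span ℝ (T' : Set E)) ≤ 3
    · by_cases hex : ∃ N0 : ℝ, N0 • y + z ∈ Submodule.span ℝ (T' : Set E)
      · obtain ⟨N0, hN0⟩ := hex
        filter_upwards [eventually_gt_atTop N0] with N hN _ hmem
        have h1 : (N - N0) • y ∈ Submodule.span ℝ (T' : Set E) := by
          have := sub_mem hmem hN0
          have e : (N • y + z) - (N0 • y + z) = (N - N0) • y := by module
          rwa [e] at this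
        have h2 : y ∈ Submodule.span ℝ (T' : Set E) := by
          rwa [Submodule.smul_mem_iff _ (by linarith : N - N0 ≠ 0)] at h1
        apply hz T' hT' hr
        have := sub_mem hN0 (Submodule.smul_mem _ N0 h2)
        simpa using this
      · push Not at hex
        exact Eventually.of_forall (fun N _ => hex N)
    · exact Eventually.of_forall (fun N hn => absurd hn hr)
  obtain ⟨N, ⟨hN1, hN2⟩, hN0⟩ := ((E1'.and E2).and (eventually_gt_atTop (0 : ℝ))).exists
  have hx : N • y + z ≠ 0 := by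
    intro he
    have hfr : Module.finrank ℝ (Submodule.span ℝ ((∅ : Finset E) : Set E)) ≤ 3 := by
      rw [Finset.coe_empty, Submodule.span_empty, finrank_bot]
      norm_num
    have := hN2 ∅ (Finset.empty_mem_powerset W) hfr
    rw [he] at this
    exact this (zero_mem _)
  obtain ⟨f, hfle, hfF⟩ := exists_support h0 hx
  set F : Finset E := W.filter (fun v => f v = 1) with hF
  have hcone : InCone F (N • y + z) := hfF F (fun v => by rw [hF, Finset.mem_filter])
  have hFW : F ⊆ W := Finset.filter_subset _ _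
  have hspan : Submodule.span ℝ (F : Set E) = ⊤ := by
    apply Submodule.eq_top_of_finrank_eq
    rw [hdim]
    have h1 : Module.finrank ℝ (Submodule.span ℝ (F : Set E)) ≤ 4 := by
      rw [← hdim]; exact Submodule.finrank_le _
    have h2 : ¬ Module.finrank ℝ (Submodule.span ℝ (F : Set E)) ≤ 3 := by
      intro hr
      exact hN2 F (Finset.mem_powerset.2 hFW) hr hcone.mem_span
    omega
  have hfct : IsFct W F f := ⟨hFW, hfle, fun v hv => by rw [hF, Finset.mem_filter]; tauto, hspan⟩
  have hFm := hall F f hfct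
  refine ⟨F, hFm, ?_⟩
  by_contra hTF
  have h1 := hN1 F hFm hTF
  have h2 := hcone.le (hFs F hFm).one (fun x hx => hf0 x (hFW hx))
  simp only [map_add, map_smul, smul_eq_mul, hf0y] at h2
  linarith

omit [FiniteDimensional ℝ E] in
/-- Translation preserves convex position. -/
theorem convPos_translate [DecidableEq E] {W : Finset E} (hW : ConvPos W) (p : E) :
    ConvPos (W.image (fun x => x - p)) := by
  intro v hv hcv
  rw [Finset.mem_image] at hv
  obtain ⟨x, hx, rfl⟩ := hv
  apply hW x hx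
  set τ : E ≃ᵃ[ℝ] E := AffineEquiv.constVAdd ℝ E (-p) with hτ
  have hτx : ∀ x, τ x = x - p := by
    intro x
    simp [hτ, sub_eq_neg_add]
  have h1 : ((W.image (fun x => x - p) : Finset E) : Set E) \ {x - p} = τ '' ((W : Set E) \ {x}) := by
    rw [Set.image_sdiff τ.injective, Set.image_singleton, hτx, Finset.coe_image]
    congr 1
    apply Set.image_congr
    intro y _
    rw [hτx]
  rw [h1] at hcv
  have h2 : convexHull ℝ (τ '' ((W : Set E) \ {x})) = τ '' convexHull ℝ ((W : Set E) \ {x}) :=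
    ((τ : E →ᵃ[ℝ] E).image_convexHull _).symm
  rw [h2] at hcv
  obtain ⟨y, hy, hye⟩ := hcv
  rw [hτx] at hye
  rwa [sub_left_injective hye] at hy

/-- Translation moves an interior point of the hull to the origin. -/
theorem interior_translate [DecidableEq E] {W : Finset E} {p : E}
    (hp : p ∈ interior (convexHull ℝ (W : Set E))) :
    (0 : E) ∈ interior (convexHull ℝ ((W.image (fun x => x - p) : Finset E) : Set E)) := by
  set τ : E ≃ᵃ[ℝ] E := AffineEquiv.constVAdd ℝ E (-p) with hτ
  have hτx : ∀ x, τ x = x - p := by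
    intro x
    simp [hτ, sub_eq_neg_add]
  have hWset : ((W.image (fun x => x - p) : Finset E) : Set E) = τ '' (W : Set E) := by
    rw [Finset.coe_image]
    apply Set.image_congr
    intro y _
    rw [hτx]
  have hWhull : convexHull ℝ ((W.image (fun x => x - p) : Finset E) : Set E)
      = τ '' convexHull ℝ (W : Set E) := by
    rw [hWset]
    exact ((τ : E →ᵃ[ℝ] E).image_convexHull _).symm
  rw [hWhull]
  have hh : τ '' convexHull ℝ (W : Set E) = (Homeomorph.addRight (-p)) '' convexHull ℝ (W : Set E) := by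
    apply Set.image_congr
    intro x _
    rw [hτx]
    simp [sub_eq_add_neg]
  rw [hh, ← Homeomorph.image_interior]
  exact ⟨p, hp, by simp⟩

/-- Bound for the facets through two given vertices inside one facet of the small polytope. -/
theorem pair_count (hdim : Module.finrank ℝ E = 4) {ι : Type*} (G : Finset ι)
    (Ψ : ι → (E × ℝ →ₗ[ℝ] ℝ)) (V : Finset E)
    (hnn : ∀ g ∈ G, ∀ v ∈ V, 0 ≤ Ψ g (v, 1))
    (hinj : ∀ g ∈ G, ∀ g' ∈ G, (∀ v ∈ V, Ψ g (v, 1) = 0 → Ψ g' (v, 1) = 0) → g = g')
    (hV3 : ∀ x ∈ V, ∀ y ∈ V, ∀ z ∈ V, x ≠ y → x ≠ z → y ≠ z → ∀ a b c : ℝ,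
      a • ((x, 1) : E × ℝ) + b • (y, 1) + c • (z, 1) = 0 → a = 0 ∧ b = 0 ∧ c = 0)
    {W₀ F : Finset E} {p : E} (hWV : ∀ x ∈ W₀, x + p ∈ V) (hconv : ConvPos W₀)
    {hF : E →ₗ[ℝ] ℝ} (hfct : IsFct W₀ F hF) (f : ι → (E →ₗ[ℝ] ℝ)) (q : ι → ℝ)
    (hq : ∀ g ∈ G, 0 < q g)
    (hval : ∀ g ∈ G, ∀ w : E, Ψ g (w, 1) = q g * (1 - f g (w - p)))
    (hle : ∀ g ∈ G, ∀ x ∈ W₀, f g x ≤ 1)
    (T : ι → Finset E) (hT : ∀ g ∈ G, ∀ x, x ∈ T g ↔ x ∈ W₀ ∧ f g x = 1)
    (hT3 : ∀ g ∈ G, 3 ≤ (T g).card) {u v : E} (huv : u ≠ v)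
    (R : Finset ι) (hRG : R ⊆ G) (hRF : ∀ g ∈ R, T g ⊆ F) (hRu : ∀ g ∈ R, u ∈ T g)
    (hRv : ∀ g ∈ R, v ∈ T g) : R.card ≤ 5 := by
  classical
  have hfr5 : Module.finrank ℝ (E × ℝ) = 5 := by
    rw [Module.finrank_prod, hdim, Module.finrank_self]
  have hzero : ∀ g ∈ G, ∀ w : E, Ψ g (w, 1) = 0 ↔ f g (w - p) = 1 := by
    intro g hg w
    rw [hval g hg w, mul_eq_zero, or_iff_right (hq g hg).ne', sub_eq_zero, eq_comm]
  set R0 := R.filter (fun g => f g = hF) with hR0
  set R1 := R.filter (fun g => ¬ f g = hF) with hR1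
  have hsplit : R0.card + R1.card = R.card := Finset.card_filter_add_card_filter_not _
  have hc0 : R0.card ≤ 1 := by
    rw [Finset.card_le_one]
    intro g hg g' hg'
    rw [hR0, Finset.mem_filter] at hg hg'
    apply hinj g (hRG hg.1) g' (hRG hg'.1)
    intro w _ hw
    rw [hzero g (hRG hg.1), hg.2, ← hg'.2] at hw
    rw [hzero g' (hRG hg'.1)]
    exact hw
  have hc1 : R1.card ≤ 4 := by
    rcases R1.eq_empty_or_nonempty with he | ⟨g0, hg0⟩
    · rw [he]; simp
    have hR1R : R1 ⊆ R := Finset.filter_subset _ _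
    have huF : u ∈ F := hRF g0 (hR1R hg0) (hRu g0 (hR1R hg0))
    have hvF : v ∈ F := hRF g0 (hR1R hg0) (hRv g0 (hR1R hg0))
    have hFc : ConvPos F := hconv.mono hfct.sub
    -- the third vertices
    have hex : ∀ g, ∃ t : E, g ∈ R1 → t ∈ T g ∧ t ≠ u ∧ t ≠ v := by
      intro g
      by_cases hg : g ∈ R1
      · have hcard : ({u, v} : Finset E).card < (T g).card :=
          lt_of_le_of_lt Finset.card_le_two (hT3 g (hRG (hR1R hg)))
        obtain ⟨t, ht, htn⟩ := Finset.exists_mem_notMem_of_card_lt_card hcard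
        rw [Finset.mem_insert, Finset.mem_singleton, not_or] at htn
        exact ⟨t, fun _ => ⟨ht, htn⟩⟩
      · exact ⟨0, fun h => absurd h hg⟩
    choose α hα using hex
    set K : Submodule ℝ E := Submodule.span ℝ (Set.range ![u, v]) with hK
    have hli : LinearIndependent ℝ ![u, v] := by
      rw [LinearIndependent.pair_iff]
      intro s t hst
      have h1 := congrArg hF hst
      simp only [map_add, map_smul, smul_eq_mul, hfct.one u huF, hfct.one v hvF, mul_one,
        map_zero] at h1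
      have ht : t = -s := by linarith
      rw [ht, neg_smul, ← sub_eq_add_neg, ← smul_sub, smul_eq_zero] at hst
      rcases hst with h | h
      · exact ⟨h, by rw [ht, h, neg_zero]⟩
      · exact absurd (sub_eq_zero.1 h) huv
    have hKr : Module.finrank ℝ K = 2 := by
      rw [hK, finrank_span_eq_card hli]; simp
    have hKmem : ∀ k ∈ K, ∃ s t : ℝ, s • u + t • v = k := by
      intro k hk
      rw [hK, Matrix.range_cons, Matrix.range_cons, Matrix.range_empty, Set.union_empty,
        Set.singleton_union, Submodule.mem_span_pair] at hk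
      exact hk
    obtain ⟨T2, hT2c, hT2, hT2z⟩ := exists_two R1 (fun g => hF - f g) K ⊤ le_top
      (by rw [finrank_top, hdim, hKr]) α (fun g _ => Submodule.mem_top)
      (by
        intro g hg hk
        obtain ⟨s, t, hst⟩ := hKmem _ hk
        have := hFc.li hfct.one huF hvF (hRF g (hR1R hg) (hα g hg).1) huv (hα g hg).2.1.symm
          (hα g hg).2.2.symm (a := s) (b := t) (c := -1) (by rw [hst]; simp)
        exact absurd this.2.2 (by norm_num))
      (by
        intro g hg
        have hFα := hRF g (hR1R hg) (hα g hg).1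
        rw [LinearMap.sub_apply, hfct.one _ hFα,
          ((hT g (hRG (hR1R hg)) _).1 (hα g hg).1).2, sub_self])
      (by
        intro g hg k hk
        obtain ⟨s, t, rfl⟩ := hKmem _ hk
        have e1 := ((hT g (hRG (hR1R hg)) _).1 (hRu g (hR1R hg))).2
        have e2 := ((hT g (hRG (hR1R hg)) _).1 (hRv g (hR1R hg))).2
        simp only [LinearMap.sub_apply, map_add, map_smul, smul_eq_mul, hfct.one u huF,
          hfct.one v hvF, e1, e2, sub_self, mul_zero, add_zero])
      (by
        intro g hg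
        rw [hR1, Finset.mem_filter] at hg
        by_contra hcon
        push Not at hcon
        apply hg.2
        ext x
        have := hcon x Submodule.mem_top
        rw [LinearMap.sub_apply, sub_eq_zero] at this
        exact this.symm)
      (by
        intro g hg g' hg'
        have hFα := hRF g' (hR1R hg') (hα g' hg').1
        rw [LinearMap.sub_apply, hfct.one _ hFα, sub_nonneg]
        exact hle g (hRG (hR1R hg)) _ (hfct.sub hFα))
    have hsub : R1 ⊆ T2.biUnion (fun t => R1.filter (fun g => f g t = 1)) := by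
      intro g hg
      obtain ⟨t, ht, e⟩ := hT2z g hg
      rw [Finset.mem_biUnion]
      refine ⟨t, ht, ?_⟩
      rw [Finset.mem_filter]
      refine ⟨hg, ?_⟩
      obtain ⟨g', hg', rfl⟩ := hT2 t ht
      rw [LinearMap.sub_apply, hfct.one _ (hRF g' (hR1R hg') (hα g' hg').1), sub_eq_zero] at e
      exact e.symm
    have hle2 : ∀ t ∈ T2, (R1.filter (fun g => f g t = 1)).card ≤ 2 := by
      intro t ht
      obtain ⟨g', hg', rfl⟩ := hT2 t ht
      have hαg := hα g' hg'
      have htF := hRF g' (hR1R hg') hαg.1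
      set V' : Finset (E × ℝ) := V.image (fun v => (v, (1 : ℝ))) with hV'
      refine card_three_le_two (V := V') (x := (u + p, 1)) (y := (v + p, 1))
        (z := (α g' + p, 1)) hfr5 (G := G) (Ψ := Ψ) ?_ ?_ ?_ _
        ((Finset.filter_subset _ _).trans (hR1R.trans hRG)) ?_
      · intro g hg w hw
        rw [hV', Finset.mem_image] at hw
        obtain ⟨w', hw', rfl⟩ := hw
        exact hnn g hg w' hw'
      · intro g hg g1 hg1 hz
        apply hinj g hg g1 hg1
        intro w hw hw0
        exact hz (w, 1) (Finset.mem_image_of_mem _ hw) hw0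
      · refine hV3 _ (hWV u (hfct.sub huF)) _ (hWV v (hfct.sub hvF)) _
          (hWV _ (hfct.sub htF)) ?_ ?_ ?_
        · intro he; exact huv (add_right_cancel he)
        · intro he; exact hαg.2.1 (add_right_cancel he).symm
        · intro he; exact hαg.2.2 (add_right_cancel he).symm
      · intro g hg
        rw [Finset.mem_filter] at hg
        have hgG := hRG (hR1R hg.1)
        refine ⟨?_, ?_, ?_⟩
        · rw [hzero g hgG, add_sub_cancel_right]
          exact ((hT g hgG _).1 (hRu g (hR1R hg.1))).2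
        · rw [hzero g hgG, add_sub_cancel_right]
          exact ((hT g hgG _).1 (hRv g (hR1R hg.1))).2
        · rw [hzero g hgG, add_sub_cancel_right]
          exact hg.2
    calc R1.card ≤ _ := Finset.card_le_card hsub
      _ ≤ T2.card * 2 := Finset.card_biUnion_le_card_mul _ _ _ hle2
      _ ≤ 2 * 2 := Nat.mul_le_mul_right _ hT2c
      _ = 4 := by norm_num
  omega

/-- The count of facets with at least three vertices in `W`. -/
theorem local_count (hdim : Module.finrank ℝ E = 4) {ι : Type*} (G : Finset ι)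
    (Ψ : ι → (E × ℝ →ₗ[ℝ] ℝ)) (V : Finset E) (hconv : ConvPos V)
    (hnz : ∀ g ∈ G, Ψ g ≠ 0)
    (hnn : ∀ g ∈ G, ∀ v ∈ V, 0 ≤ Ψ g (v, 1))
    (hinj : ∀ g ∈ G, ∀ g' ∈ G, (∀ v ∈ V, Ψ g (v, 1) = 0 → Ψ g' (v, 1) = 0) → g = g')
    (hV3 : ∀ x ∈ V, ∀ y ∈ V, ∀ z ∈ V, x ≠ y → x ≠ z → y ≠ z → ∀ a b c : ℝ,
      a • ((x, 1) : E × ℝ) + b • (y, 1) + c • (z, 1) = 0 → a = 0 ∧ b = 0 ∧ c = 0)
    (W : Finset E) (hWV : W ⊆ V) (hW : (interior (convexHull ℝ (W : Set E))).Nonempty)
    (h3 : ∀ g ∈ G, 3 ≤ (W.filter (fun v => Ψ g (v, 1) = 0)).card) :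
    (G.card : ℤ) ≤ 5 * (W.card * (W.card - 3)) := by
  classical
  have hnt : Nontrivial E := Module.nontrivial_of_finrank_pos (R := ℝ) (by rw [hdim]; norm_num)
  obtain ⟨p, hp⟩ := hW
  set W₀ : Finset E := W.image (fun x => x - p) with hW₀
  have h0 : (0 : E) ∈ interior (convexHull ℝ (W₀ : Set E)) := interior_translate hp
  have hconv0 : ConvPos W₀ := convPos_translate (hconv.mono hWV) p
  have hWcard : W₀.card = W.card := Finset.card_image_of_injective _ sub_left_injective
  obtain ⟨Fs, h, hFs, hall⟩ := exists_facetFinset W₀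
  have hcore := core hdim h0 hconv0 hFs hall
  rw [hWcard] at hcore
  set q : ι → ℝ := fun g => Ψ g (p, 1) with hqd
  set f : ι → (E →ₗ[ℝ] ℝ) := fun g => (-(q g)⁻¹) • (Ψ g).comp (LinearMap.inl ℝ E ℝ) with hf
  have hfx : ∀ g x, f g x = -(q g)⁻¹ * Ψ g (x, 0) := fun g x => rfl
  have hdiff : ∀ g (w : E), Ψ g (w, 1) = Ψ g (w - p, 0) + q g := by
    intro g w
    rw [hqd]
    simp only
    rw [← map_add]
    congr 1
    simp
  have hWmem : ∀ x ∈ W₀, x + p ∈ W := by
    intro x hx
    rw [hW₀, Finset.mem_image] at hx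
    obtain ⟨y, hy, rfl⟩ := hx
    rwa [sub_add_cancel]
  have hq : ∀ g ∈ G, 0 < q g := by
    intro g hg
    by_cases hz : (Ψ g).comp (LinearMap.inl ℝ E ℝ) = 0
    · have hz' : ∀ x : E, Ψ g (x, 0) = 0 := fun x => LinearMap.congr_fun hz x
      have hWne : W.Nonempty := by
        by_contra hcon
        rw [Finset.not_nonempty_iff_eq_empty] at hcon
        have := h3 g hg
        rw [hcon] at this
        simp at this
      obtain ⟨v, hv⟩ := hWne
      have h1 := hnn g hg v (hWV hv)
      rw [hdiff, hz', zero_add] at h1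
      refine lt_of_le_of_ne h1 (fun he => hnz g hg ?_)
      apply LinearMap.ext
      rintro ⟨x, r⟩
      have e1 : ((x, r) : E × ℝ) = (x - r • p, 0) + r • (p, 1) := by simp
      rw [e1, map_add, map_smul, hz', zero_add]
      have e2 : Ψ g (p, 1) = 0 := he.symm
      rw [e2, smul_zero]
      rfl
    · have hz' : -(Ψ g).comp (LinearMap.inl ℝ E ℝ) ≠ 0 := neg_ne_zero.2 hz
      obtain ⟨x, hx, hxpos⟩ := exists_pos_of_interior h0 _ hz'
      have h1 := hnn g hg _ (hWV (hWmem x hx))
      rw [hdiff, add_sub_cancel_right] at h1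
      have h2 : 0 < -(Ψ g (x, 0)) := hxpos
      linarith
  have hval : ∀ g ∈ G, ∀ w : E, Ψ g (w, 1) = q g * (1 - f g (w - p)) := by
    intro g hg w
    rw [hdiff, hfx]
    have := (hq g hg).ne'
    field_simp
    ring
  have hle : ∀ g ∈ G, ∀ x ∈ W₀, f g x ≤ 1 := by
    intro g hg x hx
    have h1 := hnn g hg _ (hWV (hWmem x hx))
    rw [hval g hg, add_sub_cancel_right] at h1
    have := nonneg_of_mul_nonneg_right h1 (hq g hg)
    linarith
  set T : ι → Finset E := fun g => W₀.filter (fun x => f g x = 1) with hT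
  have hTm : ∀ g ∈ G, ∀ x, x ∈ T g ↔ x ∈ W₀ ∧ f g x = 1 := by
    intro g _ x
    rw [hT, Finset.mem_filter]
  have hT3 : ∀ g ∈ G, 3 ≤ (T g).card := by
    intro g hg
    refine (h3 g hg).trans ?_
    rw [← Finset.card_image_of_injective (W.filter (fun v => Ψ g (v, 1) = 0))
      (sub_left_injective (b := p))]
    apply Finset.card_le_card
    intro x hx
    rw [Finset.mem_image] at hx
    obtain ⟨y, hy, rfl⟩ := hx
    rw [Finset.mem_filter] at hy
    rw [hTm g hg, hW₀]
    refine ⟨Finset.mem_image_of_mem _ hy.1, ?_⟩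
    have h1 := hy.2
    rw [hval g hg, mul_eq_zero, or_iff_right (hq g hg).ne', sub_eq_zero] at h1
    exact h1.symm
  have hex : ∀ g, ∃ F : Finset E, g ∈ G → F ∈ Fs ∧ T g ⊆ F := by
    intro g
    by_cases hg : g ∈ G
    · obtain ⟨F, hF, hTF⟩ := exists_fct_cont hdim h0 hFs hall (T := T g) (Finset.filter_subset _ _)
        (f0 := f g) (hle g hg) (fun t ht => ((hTm g hg t).1 ht).2)
      exact ⟨F, fun _ => ⟨hF, hTF⟩⟩
    · exact ⟨∅, fun hn => absurd hn hg⟩
  choose Γ hΓ using hex
  have hcount : ∀ F ∈ Fs, 6 * (G.filter (fun g => Γ g = F)).card ≤ 5 * (F.card * F.card - F.card) := by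
    intro F hF
    set GF := G.filter (fun g => Γ g = F) with hGF
    have hGFm : ∀ g ∈ GF, g ∈ G ∧ T g ⊆ F := by
      intro g hg
      rw [hGF, Finset.mem_filter] at hg
      refine ⟨hg.1, ?_⟩
      rw [← hg.2]
      exact (hΓ g hg.1).2
    have e1 : ∑ g ∈ GF, 6 ≤ ∑ g ∈ GF, (F.offDiag.filter (fun p => p.1 ∈ T g ∧ p.2 ∈ T g)).card := by
      refine Finset.sum_le_sum (fun g hg => ?_)
      obtain ⟨hgG, hTF⟩ := hGFm g hg
      have e : F.offDiag.filter (fun p => p.1 ∈ T g ∧ p.2 ∈ T g) = (T g).offDiag := by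
        ext ⟨x, y⟩
        rw [Finset.mem_filter, Finset.mem_offDiag, Finset.mem_offDiag]
        constructor
        · rintro ⟨⟨_, _, hne⟩, h1, h2⟩
          exact ⟨h1, h2, hne⟩
        · rintro ⟨h1, h2, hne⟩
          exact ⟨⟨hTF h1, hTF h2, hne⟩, h1, h2⟩
      rw [e, Finset.offDiag_card]
      have h3' := hT3 g hgG
      have : 3 * (T g).card ≤ (T g).card * (T g).card := Nat.mul_le_mul_right _ h3'
      omega
    have e2 : ∑ g ∈ GF, (F.offDiag.filter (fun p => p.1 ∈ T g ∧ p.2 ∈ T g)).card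
        = ∑ p ∈ F.offDiag, (GF.filter (fun g => p.1 ∈ T g ∧ p.2 ∈ T g)).card := by
      simp only [Finset.card_filter]
      exact Finset.sum_comm
    have e3 : ∑ p ∈ F.offDiag, (GF.filter (fun g => p.1 ∈ T g ∧ p.2 ∈ T g)).card
        ≤ ∑ p ∈ F.offDiag, 5 := by
      refine Finset.sum_le_sum (fun pr hpr => ?_)
      rw [Finset.mem_offDiag] at hpr
      refine pair_count hdim G Ψ V hnn hinj hV3 (W₀ := W₀) (F := F) (p := p)
        (fun x hx => hWV (hWmem x hx)) hconv0 (hFs F hF) f q hq hval hle T hTm hT3 hpr.2.2 _ ?_ ?_ ?_ ?_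
      · exact (Finset.filter_subset _ _).trans (Finset.filter_subset _ _)
      · intro g hg
        rw [Finset.mem_filter] at hg
        exact (hGFm g hg.1).2
      · intro g hg
        rw [Finset.mem_filter] at hg
        exact hg.2.1
      · intro g hg
        rw [Finset.mem_filter] at hg
        exact hg.2.2
    rw [Finset.sum_const, smul_eq_mul] at e1 e3
    rw [Finset.offDiag_card] at e3
    omega
  have hmaps : ∀ g ∈ G, Γ g ∈ Fs := fun g hg => (hΓ g hg).1
  have htot : (6 * G.card : ℤ) ≤ ∑ F ∈ Fs, 5 * ((F.card : ℤ) * F.card - F.card) := by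
    have h1 : 6 * G.card ≤ ∑ F ∈ Fs, 5 * (F.card * F.card - F.card) := by
      rw [Finset.card_eq_sum_card_fiberwise hmaps, Finset.mul_sum]
      exact Finset.sum_le_sum hcount
    have h2 : ((∑ F ∈ Fs, 5 * (F.card * F.card - F.card) : ℕ) : ℤ)
        = ∑ F ∈ Fs, 5 * ((F.card : ℤ) * F.card - F.card) := by
      rw [Nat.cast_sum]
      refine Finset.sum_congr rfl (fun F _ => ?_)
      rw [Nat.cast_mul, Nat.cast_sub (Nat.le_mul_self _)]
      push_cast
      ring
    rw [← h2]
    exact_mod_cast h1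
  have hfin : ∑ F ∈ Fs, 5 * ((F.card : ℤ) * F.card - F.card)
      ≤ 15 * ∑ F ∈ Fs, (F.card : ℤ) * (F.card - 3) := by
    rw [Finset.mul_sum]
    refine Finset.sum_le_sum (fun F hF => ?_)
    have h4 : (4 : ℤ) ≤ F.card := by
      have h1 := (hFs F hF).span
      have h2 := finrank_span_finset_le_card (R := ℝ) (M := E) F
      rw [Set.finrank, h1, finrank_top, hdim] at h2
      exact_mod_cast h2
    nlinarith
  linarith

end Pool.Agent.Lib_helper82.Plane
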