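import Mathlib
import Pool.Agent.Lib_helper82.PlaneA

/-! Facets through a plane, part C: the angular order around the plane. -/

open scoped BigOperators

namespace Pool.Agent.Lib_helper82.Plane

/-- Covering short sets by few windows. -/
theorem exists_window {β K : Type*} [DecidableEq β] [LinearOrder K] (B : Finset β) (key : β → K)
    (hinj : Set.InjOn key (B : Set β)) (M : ℕ) (hM : 0 < M) :
    ∃ W : ℕ → Finset β, (∀ j, W j ⊆ B ∧ (W j).card ≤ 2 * M) ∧
      ∀ T ⊆ B, T.Nonempty →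
        (∀ v₁ ∈ T, ∀ v₃ ∈ T, (B.filter (fun v => key v₁ ≤ key v ∧ key v ≤ key v₃)).card ≤ M) →
        ∃ j ∈ Finset.range (B.card / M + 1), T ⊆ W j := by
  classical
  set r : β → ℕ := fun v => (B.filter (fun u => key u < key v)).card with hr
  have hmono : ∀ v ∈ B, ∀ v' ∈ B, key v < key v' → r v < r v' := by
    intro v hv v' _ hlt
    apply Finset.card_lt_card
    rw [Finset.ssubset_iff_of_subset]
    · refine ⟨v, Finset.mem_filter.2 ⟨hv, hlt⟩, ?_⟩
      rw [Finset.mem_filter]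
      exact fun h => lt_irrefl _ h.2
    · intro u hu
      rw [Finset.mem_filter] at hu ⊢
      exact ⟨hu.1, hu.2.trans hlt⟩
  have hmono' : ∀ v v', key v ≤ key v' → r v ≤ r v' := by
    intro v v' hle
    apply Finset.card_le_card
    intro u hu
    rw [Finset.mem_filter] at hu ⊢
    exact ⟨hu.1, hu.2.trans_le hle⟩
  have hrinj : ∀ v ∈ B, ∀ v' ∈ B, r v = r v' → v = v' := by
    intro v hv v' hv' he
    apply hinj hv hv'
    rcases lt_trichotomy (key v) (key v') with h | h | h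
    · exact absurd he (hmono v hv v' hv' h).ne
    · exact h
    · exact absurd he (hmono v' hv' v hv h).ne'
  refine ⟨fun j => B.filter (fun v => j * M ≤ r v ∧ r v < (j + 2) * M), ?_, ?_⟩
  · intro j
    refine ⟨Finset.filter_subset _ _, ?_⟩
    have h1 : (B.filter (fun v => j * M ≤ r v ∧ r v < (j + 2) * M)).card
        ≤ (Finset.Ico (j * M) ((j + 2) * M)).card := by
      apply Finset.card_le_card_of_injOn r
      · intro v hv
        rw [Finset.mem_coe, Finset.mem_filter] at hv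
        rw [Finset.mem_coe, Finset.mem_Ico]
        exact hv.2
      · intro v hv v' hv' he
        rw [Finset.mem_coe, Finset.mem_filter] at hv hv'
        exact hrinj v hv.1 v' hv'.1 he
    rw [Nat.card_Ico] at h1
    refine h1.trans (le_of_eq ?_)
    rw [add_mul]
    omega
  · intro T hTB hT hD
    obtain ⟨v₁, h1, hmin⟩ := T.exists_min_image key hT
    obtain ⟨v₃, h3, hmax⟩ := T.exists_max_image key hT
    have hD' := hD v₁ h1 v₃ h3
    have hlt : r v₃ + 1 ≤ r v₁ + M := by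
      have hsub : insert v₃ (B.filter (fun u => key u < key v₃))
          ⊆ (B.filter (fun u => key u < key v₁)) ∪
            (B.filter (fun v => key v₁ ≤ key v ∧ key v ≤ key v₃)) := by
        intro u hu
        rw [Finset.mem_insert, Finset.mem_filter] at hu
        rw [Finset.mem_union, Finset.mem_filter, Finset.mem_filter]
        rcases hu with rfl | ⟨hu, hlt⟩
        · exact Or.inr ⟨hTB h3, hmin _ h3, le_rfl⟩
        · rcases lt_or_ge (key u) (key v₁) with h | h
          · exact Or.inl ⟨hu, h⟩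
          · exact Or.inr ⟨hu, h, hlt.le⟩
      have h4 := Finset.card_le_card hsub
      rw [Finset.card_insert_of_notMem (by
        rw [Finset.mem_filter]; exact fun h => lt_irrefl _ h.2)] at h4
      have h5 := h4.trans (Finset.card_union_le _ _)
      have h6 : r v₃ = (B.filter (fun u => key u < key v₃)).card := rfl
      have h7 : r v₁ = (B.filter (fun u => key u < key v₁)).card := rfl
      omega
    have hr1 : r v₁ < B.card := by
      apply Finset.card_lt_card
      rw [Finset.ssubset_iff_of_subset (Finset.filter_subset _ _)]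
      refine ⟨v₁, hTB h1, ?_⟩
      rw [Finset.mem_filter]
      exact fun h => lt_irrefl _ h.2
    refine ⟨r v₁ / M, ?_, ?_⟩
    · rw [Finset.mem_range]
      exact Nat.lt_succ_of_le (Nat.div_le_div_right hr1.le)
    · intro u hu
      rw [Finset.mem_filter]
      have e1 : r v₁ / M * M ≤ r v₁ := Nat.div_mul_le_self _ _
      have e2 : r v₁ < (r v₁ / M + 1) * M := Nat.lt_mul_of_div_lt (Nat.lt_succ_self _) hM
      have e3 := hmono' v₁ u (hmin u hu)
      have e4 := hmono' u v₃ (hmax u hu)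
      refine ⟨hTB hu, e1.trans e3, ?_⟩
      have e5 : (r v₁ / M + 2) * M = (r v₁ / M + 1) * M + M := by ring
      omega

variable {H : Type*} [AddCommGroup H] [Module ℝ H] [FiniteDimensional ℝ H]

/-- Coordinates of `H / U`, with no relevant vertex on the line `s = 0`. -/
theorem exists_coords (hH : Module.finrank ℝ H = 5) (U : Submodule ℝ H)
    (hU : Module.finrank ℝ U = 3) (V : Finset H) :
    ∃ (s t : H →ₗ[ℝ] ℝ) (l : H), (∀ h, h ∈ U ↔ s h = 0 ∧ t h = 0) ∧
      (∀ v ∈ V, v ∉ U → s v ≠ 0) ∧ s l = 0 ∧ t l = 1 := by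
  classical
  have hQ : Module.finrank ℝ (H ⧸ U) = 2 := by
    have := Submodule.finrank_quotient_add_finrank U
    omega
  set b : Module.Basis (Fin 2) ℝ (H ⧸ U) := Module.finBasisOfFinrankEq ℝ (H ⧸ U) hQ with hb
  set s₀ : H →ₗ[ℝ] ℝ := (b.coord 0).comp U.mkQ with hs₀
  set t₀ : H →ₗ[ℝ] ℝ := (b.coord 1).comp U.mkQ with ht₀
  have hmem : ∀ h, h ∈ U ↔ s₀ h = 0 ∧ t₀ h = 0 := by
    intro h
    rw [← Submodule.Quotient.mk_eq_zero U, ← b.forall_coord_eq_zero_iff]
    constructor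
    · intro hh
      exact ⟨hh 0, hh 1⟩
    · rintro ⟨h1, h2⟩ i
      fin_cases i
      · exact h1
      · exact h2
  obtain ⟨l₀, hl₀⟩ := U.mkQ_surjective (b 0)
  obtain ⟨l₁, hl₁⟩ := U.mkQ_surjective (b 1)
  have e00 : s₀ l₀ = 1 := by
    rw [hs₀, LinearMap.comp_apply, hl₀, Module.Basis.coord_apply, b.repr_self]; simp
  have e01 : t₀ l₀ = 0 := by
    rw [ht₀, LinearMap.comp_apply, hl₀, Module.Basis.coord_apply, b.repr_self]; simp
  have e10 : s₀ l₁ = 0 := by
    rw [hs₀, LinearMap.comp_apply, hl₁, Module.Basis.coord_apply, b.repr_self]; simp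
  have e11 : t₀ l₁ = 1 := by
    rw [ht₀, LinearMap.comp_apply, hl₁, Module.Basis.coord_apply, b.repr_self]; simp
  obtain ⟨c, hc⟩ := (V.image (fun v => -(s₀ v / t₀ v))).exists_notMem
  refine ⟨s₀ + c • t₀, t₀, l₁ - c • l₀, ?_, ?_, ?_, ?_⟩
  · intro h
    rw [hmem]
    simp only [LinearMap.add_apply, LinearMap.smul_apply, smul_eq_mul]
    constructor
    · rintro ⟨h1, h2⟩
      rw [h1, h2]; simp
    · rintro ⟨h1, h2⟩
      rw [h2] at h1
      exact ⟨by linarith, h2⟩
  · intro v hv hvU h0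
    simp only [LinearMap.add_apply, LinearMap.smul_apply, smul_eq_mul] at h0
    by_cases ht : t₀ v = 0
    · rw [ht, mul_zero, add_zero] at h0
      exact hvU ((hmem v).2 ⟨h0, ht⟩)
    · apply hc
      rw [Finset.mem_image]
      refine ⟨v, hv, ?_⟩
      field_simp
      linarith
  · simp only [LinearMap.add_apply, LinearMap.smul_apply, smul_eq_mul, map_sub, map_smul, e00, e01,
      e10, e11]
    ring
  · simp only [map_sub, map_smul, e01, e11, smul_eq_mul]
    ring

/-- Facets through `a, a'` (a pair in `U`) hitting a given direction outside `U`: at most two on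
each side. -/
theorem mult_le_two {ι : Type*} (hH : Module.finrank ℝ H = 5) {G : Finset ι}
    {Ψ : ι → (H →ₗ[ℝ] ℝ)} {V : Finset H}
    (hnn : ∀ g ∈ G, ∀ v ∈ V, 0 ≤ Ψ g v)
    (hinj : ∀ g ∈ G, ∀ g' ∈ G, (∀ v ∈ V, Ψ g v = 0 → Ψ g' v = 0) → g = g')
    (U : Submodule ℝ H) {a a' u₀ : H} (ha : a ∈ U) (ha' : a' ∈ U)
    (hU : ∀ d ∈ U, ∃ α β γ : ℝ, d = α • a + β • a' + γ • u₀)
    (hli : ∀ α β : ℝ, α • a + β • a' = 0 → α = 0 ∧ β = 0)
    {h : H} (hh : h ∉ U) (S : Finset ι) (hS : S ⊆ G)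
    (hza : ∀ g ∈ S, Ψ g a = 0) (hza' : ∀ g ∈ S, Ψ g a' = 0) (hu₀ : ∀ g ∈ S, 0 < Ψ g u₀)
    (hy : ∀ g ∈ S, ∃ y, Ψ g y = 0 ∧ (∀ g' ∈ S, 0 ≤ Ψ g' y) ∧ h - y ∈ U) : S.card ≤ 2 := by
  rcases S.eq_empty_or_nonempty with he | ⟨g0, hg0⟩
  · rw [he]; simp
  obtain ⟨y0, hy0, hy0p, hy0U⟩ := hy g0 hg0
  have hy0nU : y0 ∉ U := by
    intro hn
    apply hh
    have := add_mem hy0U hn
    rwa [sub_add_cancel] at this
  have hall : ∀ g ∈ S, Ψ g y0 = 0 := by
    intro g hg
    obtain ⟨y, hyz, hyp, hyU⟩ := hy g hg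
    have hd : y0 - y ∈ U := by
      have := sub_mem hyU hy0U
      have e : h - y - (h - y0) = y0 - y := by abel
      rwa [e] at this
    obtain ⟨α, β, γ, hd'⟩ := hU _ hd
    have e1 : Ψ g y0 = γ * Ψ g u₀ := by
      have h1 := congrArg (Ψ g) hd'
      simp only [map_sub, map_add, map_smul, smul_eq_mul, hyz, hza g hg, hza' g hg] at h1
      linarith
    have e2 : Ψ g0 y = -(γ * Ψ g0 u₀) := by
      have h1 := congrArg (Ψ g0) hd'
      simp only [map_sub, map_add, map_smul, smul_eq_mul, hy0, hza g0 hg0, hza' g0 hg0] at h1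
      linarith
    have p1 := hy0p g hg
    have p2 := hyp g0 hg0
    rw [e1] at p1
    rw [e2] at p2
    have q1 := nonneg_of_mul_nonneg_left p1 (hu₀ g hg)
    have q2 : γ ≤ 0 := by
      by_contra hcon
      push Not at hcon
      have := mul_pos hcon (hu₀ g0 hg0)
      linarith
    have : γ = 0 := le_antisymm q2 q1
    rw [e1, this, zero_mul]
  refine card_three_le_two hH hnn hinj (x := a) (y := a') (z := y0) ?_ S hS ?_
  · intro α β γ hrel
    have hγ : γ = 0 := by
      by_contra hne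
      apply hy0nU
      have h1 : γ • y0 = -(α • a + β • a') := by
        rw [eq_neg_iff_add_eq_zero, add_comm]; exact hrel
      rw [← Submodule.smul_mem_iff U hne, h1]
      exact neg_mem (add_mem (Submodule.smul_mem _ _ ha) (Submodule.smul_mem _ _ ha'))
    rw [hγ, zero_smul, add_zero] at hrel
    obtain ⟨h1, h2⟩ := hli _ _ hrel
    exact ⟨h1, h2, hγ⟩
  · intro g hg
    exact ⟨hza g hg, hza' g hg, hall g hg⟩

/-- A facet hits the direction `h` around `U`. -/
def Hit (Ψ : H →ₗ[ℝ] ℝ) (V : Finset H) (U : Submodule ℝ H) (h : H) : Prop :=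
  ∃ u ∈ V, ∃ u' ∈ V, Ψ u = 0 ∧ Ψ u' = 0 ∧ ∃ α β : ℝ, 0 ≤ α ∧ 0 ≤ β ∧ h - (α • u + β • u') ∈ U

theorem hit_le_four {ι : Type*} (hH : Module.finrank ℝ H = 5) {G : Finset ι}
    {Ψ : ι → (H →ₗ[ℝ] ℝ)} {V : Finset H}
    (hnn : ∀ g ∈ G, ∀ v ∈ V, 0 ≤ Ψ g v)
    (hinj : ∀ g ∈ G, ∀ g' ∈ G, (∀ v ∈ V, Ψ g v = 0 → Ψ g' v = 0) → g = g')
    (U : Submodule ℝ H) (hU3 : Module.finrank ℝ U = 3) {a a' : H} (ha : a ∈ U) (ha' : a' ∈ U)
    (hli : ∀ α β : ℝ, α • a + β • a' = 0 → α = 0 ∧ β = 0)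
    {h : H} (hh : h ∉ U) (S : Finset ι) (hS : S ⊆ G)
    (hza : ∀ g ∈ S, Ψ g a = 0) (hza' : ∀ g ∈ S, Ψ g a' = 0) (hne : ∀ g ∈ S, ∃ u ∈ U, Ψ g u ≠ 0)
    (hy : ∀ g ∈ S, Hit (Ψ g) V U h) : S.card ≤ 4 := by
  classical
  -- a third basis vector
  obtain ⟨u₀, hu₀, hu₀'⟩ : ∃ u₀ ∈ U, u₀ ∉ Submodule.span ℝ (Set.range ![a, a']) := by
    by_contra hcon
    push Not at hcon
    have h1 : U ≤ Submodule.span ℝ (Set.range ![a, a']) := fun x hx => hcon x hx
    have h2 := Submodule.finrank_mono h1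
    have hli' : LinearIndependent ℝ ![a, a'] := by
      rw [LinearIndependent.pair_iff]; exact hli
    rw [finrank_span_eq_card hli', hU3] at h2
    simp at h2
  have hpair : ∀ α β : ℝ, α • a + β • a' ∈ Submodule.span ℝ (Set.range ![a, a']) := by
    intro α β
    rw [Matrix.range_cons, Matrix.range_cons, Matrix.range_empty, Set.union_empty,
      Set.singleton_union, Submodule.mem_span_pair]
    exact ⟨α, β, rfl⟩
  have hli3 : LinearIndependent ℝ (![⟨a, ha⟩, ⟨a', ha'⟩, ⟨u₀, hu₀⟩] : Fin 3 → U) := by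
    rw [Fintype.linearIndependent_iff]
    intro c hc
    simp only [Fin.sum_univ_three, Matrix.cons_val_zero, Matrix.cons_val_one,
      Matrix.cons_val] at hc
    have hc' : c 0 • a + c 1 • a' + c 2 • u₀ = 0 := congrArg Subtype.val hc
    have h2 : c 2 = 0 := by
      by_contra hne
      apply hu₀'
      have h1 : c 2 • u₀ = -(c 0 • a + c 1 • a') := by
        rw [eq_neg_iff_add_eq_zero, add_comm]; exact hc'
      rw [← Submodule.smul_mem_iff _ hne, h1]
      exact neg_mem (hpair _ _)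
    rw [h2, zero_smul, add_zero] at hc'
    obtain ⟨h0, h1⟩ := hli _ _ hc'
    intro i
    fin_cases i
    · exact h0
    · exact h1
    · exact h2
  have hspan := hli3.span_eq_top_of_card_eq_finrank (by simp [hU3])
  have hUall : ∀ d ∈ U, ∃ α β γ : ℝ, d = α • a + β • a' + γ • u₀ := by
    intro d hd
    have hm : (⟨d, hd⟩ : U) ∈ Submodule.span ℝ
        (Set.range (![⟨a, ha⟩, ⟨a', ha'⟩, ⟨u₀, hu₀⟩] : Fin 3 → U)) := by rw [hspan]; trivial
    rw [Submodule.mem_span_range_iff_exists_fun] at hm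
    obtain ⟨c, hc⟩ := hm
    simp only [Fin.sum_univ_three, Matrix.cons_val_zero, Matrix.cons_val_one,
      Matrix.cons_val] at hc
    exact ⟨c 0, c 1, c 2, (congrArg Subtype.val hc).symm⟩
  have hyy : ∀ S' ⊆ S, ∀ g ∈ S', ∃ y, Ψ g y = 0 ∧ (∀ g' ∈ S', 0 ≤ Ψ g' y) ∧ h - y ∈ U := by
    intro S' hS' g hg
    obtain ⟨u, hu, u', hu', e, e', α, β, hα, hβ, hm⟩ := hy g (hS' hg)
    refine ⟨α • u + β • u', ?_, ?_, hm⟩
    · rw [map_add, map_smul, map_smul, e, e', smul_zero, smul_zero, add_zero]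
    · intro g' hg'
      have hg'G := hS (hS' hg')
      rw [map_add, map_smul, map_smul, smul_eq_mul, smul_eq_mul]
      exact add_nonneg (mul_nonneg hα (hnn g' hg'G u hu)) (mul_nonneg hβ (hnn g' hg'G u' hu'))
  have h1 : (S.filter (fun g => 0 < Ψ g u₀)).card ≤ 2 :=
    mult_le_two hH hnn hinj U ha ha' hUall hli hh _ ((Finset.filter_subset _ _).trans hS)
      (fun g hg => hza g (Finset.filter_subset _ _ hg))
      (fun g hg => hza' g (Finset.filter_subset _ _ hg))
      (fun g hg => (Finset.mem_filter.1 hg).2) (hyy _ (Finset.filter_subset _ _))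
  have h2 : (S.filter (fun g => ¬ 0 < Ψ g u₀)).card ≤ 2 := by
    refine mult_le_two hH hnn hinj U (u₀ := -u₀) ha ha' ?_ hli hh _
      ((Finset.filter_subset _ _).trans hS)
      (fun g hg => hza g (Finset.filter_subset _ _ hg))
      (fun g hg => hza' g (Finset.filter_subset _ _ hg)) ?_ (hyy _ (Finset.filter_subset _ _))
    · intro d hd
      obtain ⟨α, β, γ, rfl⟩ := hUall d hd
      exact ⟨α, β, -γ, by simp⟩
    · intro g hg
      rw [Finset.mem_filter] at hg
      rw [map_neg]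
      refine neg_pos.2 (lt_of_le_of_ne (not_lt.1 hg.2) ?_)
      intro h0
      obtain ⟨u, hu, hun⟩ := hne g hg.1
      apply hun
      obtain ⟨α, β, γ, rfl⟩ := hUall u hu
      simp only [map_add, map_smul, hza g hg.1, hza' g hg.1, h0, smul_zero, add_zero]
  have h3 : (S.filter (fun g => 0 < Ψ g u₀)).card + (S.filter (fun g => ¬ 0 < Ψ g u₀)).card
      = S.card := Finset.card_filter_add_card_filter_not _
  omega

end Pool.Agent.Lib_helper82.Plane
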