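import Mathlib
import Pool.Agent.Lib_helper82.PlaneC

/-! Facets through a plane, part D: the count (cone version). -/

open scoped BigOperators

namespace Pool.Agent.Lib_helper82.Plane

variable {H : Type*} [AddCommGroup H] [Module ℝ H] [FiniteDimensional ℝ H]

/-- The number of pairs cut out of the plane by facets is at most the number of its vertices. -/
theorem pairs_le {ι : Type*} {G : Finset ι}
    {Ψ : ι → (H →ₗ[ℝ] ℝ)} {V : Finset H} (hV0 : ∀ v ∈ V, v ≠ 0)
    (hV2 : ∀ x ∈ V, ∀ y ∈ V, x ≠ y → ∀ a b : ℝ, a • x + b • y = 0 → a = 0 ∧ b = 0)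
    (hnn : ∀ g ∈ G, ∀ v ∈ V, 0 ≤ Ψ g v)
    (U : Submodule ℝ H) (hU3 : Module.finrank ℝ U = 3)
    (hne : ∀ g ∈ G, ∃ u ∈ U, Ψ g u ≠ 0) (A : Finset H) (hA : ∀ v, v ∈ A ↔ v ∈ V ∧ v ∈ U)
    (XS : Finset (Finset H))
    (hXS : ∀ x ∈ XS, ∃ g ∈ G, x.card = 2 ∧ ∀ v, v ∈ x ↔ v ∈ A ∧ Ψ g v = 0) :
    XS.card ≤ A.card := by
  classical
  rcases XS.eq_empty_or_nonempty with he | ⟨x0, hx0⟩
  · rw [he]; simp
  obtain ⟨g₀, _⟩ := hXS x0 hx0
  have hg' : ∀ x : Finset H, ∃ g, x ∈ XS → g ∈ G ∧ x.card = 2 ∧
      ∀ v, v ∈ x ↔ v ∈ A ∧ Ψ g v = 0 := by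
    intro x
    by_cases hx : x ∈ XS
    · obtain ⟨g, hg⟩ := hXS x hx
      exact ⟨g, fun _ => hg⟩
    · exact ⟨g₀, fun h => absurd h hx⟩
  choose γ hγ using hg'
  -- double counting
  have hxA : ∀ x ∈ XS, x ⊆ A := by
    intro x hx v hv
    exact (((hγ x hx).2.2 v).1 hv).1
  have e1 : ∑ x ∈ XS, 2 = ∑ x ∈ XS, (A.filter (fun a => a ∈ x)).card := by
    refine Finset.sum_congr rfl (fun x hx => ?_)
    have : A.filter (fun a => a ∈ x) = x := by
      ext a
      rw [Finset.mem_filter]
      exact ⟨fun h => h.2, fun h => ⟨hxA x hx h, h⟩⟩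
    rw [this, (hγ x hx).2.1]
  have e2 : ∑ x ∈ XS, (A.filter (fun a => a ∈ x)).card
      = ∑ a ∈ A, (XS.filter (fun x => a ∈ x)).card := by
    simp only [Finset.card_filter]
    exact Finset.sum_comm
  have e3 : ∑ a ∈ A, (XS.filter (fun x => a ∈ x)).card ≤ ∑ a ∈ A, 2 := by
    refine Finset.sum_le_sum (fun a ha => ?_)
    set R := XS.filter (fun x => a ∈ x) with hR
    have haV := (hA a).1 ha
    have hRm : ∀ x ∈ R, x ∈ XS ∧ a ∈ x := fun x hx => Finset.mem_filter.1 hx
    -- the other element
    have hoth : ∀ x : Finset H, ∃ b : H, x ∈ R → b ≠ a ∧ x = {a, b} := by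
      intro x
      by_cases hx : x ∈ R
      · obtain ⟨hxS, hax⟩ := hRm x hx
        obtain ⟨y, z, hyz, he⟩ := Finset.card_eq_two.1 (hγ x hxS).2.1
        rw [he, Finset.mem_insert, Finset.mem_singleton] at hax
        rcases hax with rfl | rfl
        · exact ⟨z, fun _ => ⟨hyz.symm, he⟩⟩
        · exact ⟨y, fun _ => ⟨hyz, by rw [he, Finset.pair_comm]⟩⟩
      · exact ⟨0, fun h => absurd h hx⟩
    choose β hβ using hoth
    have hβx : ∀ x ∈ R, β x ∈ x := by
      intro x hx
      have h2 := (hβ x hx).2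
      have : β x ∈ ({a, β x} : Finset H) := by simp
      rw [← h2] at this
      exact this
    have hβA : ∀ x ∈ R, β x ∈ A ∧ Ψ (γ x) (β x) = 0 := by
      intro x hx
      exact ((hγ x (hRm x hx).1).2.2 _).1 (hβx x hx)
    have haz : ∀ x ∈ R, Ψ (γ x) a = 0 := by
      intro x hx
      exact (((hγ x (hRm x hx).1).2.2 _).1 (hRm x hx).2).2
    obtain ⟨T, hTc, hT, hTz⟩ := exists_two R (fun x => Ψ (γ x)) (Submodule.span ℝ {a}) U
      (by
        rw [Submodule.span_singleton_le_iff_mem]
        exact haV.2)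
      (by rw [finrank_span_singleton (hV0 a haV.1), hU3])
      β (fun x hx => ((hA _).1 (hβA x hx).1).2)
      (by
        intro x hx hk
        obtain ⟨c, hc⟩ := Submodule.mem_span_singleton.1 hk
        have := hV2 (β x) ((hA _).1 (hβA x hx).1).1 a haV.1 (hβ x hx).1 1 (-c)
          (by rw [← hc]; simp)
        exact one_ne_zero this.1)
      (fun x hx => (hβA x hx).2)
      (by
        intro x hx k hk
        obtain ⟨c, rfl⟩ := Submodule.mem_span_singleton.1 hk
        rw [map_smul, haz x hx, smul_zero])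
      (fun x hx => hne _ (hγ x (hRm x hx).1).1)
      (fun x hx x' hx' => hnn _ (hγ x (hRm x hx).1).1 _ ((hA _).1 (hβA x' hx').1).1)
    have hsub : R ⊆ T.image (fun t => ({a, t} : Finset H)) := by
      intro x hx
      obtain ⟨t, ht, ht0⟩ := hTz x hx
      rw [Finset.mem_image]
      refine ⟨t, ht, ?_⟩
      obtain ⟨x', hx', rfl⟩ := hT t ht
      have hmem : β x' ∈ x := by
        rw [(hγ x (hRm x hx).1).2.2]
        exact ⟨(hβA x' hx').1, ht0⟩
      have h2 := (hβ x hx).2
      have h3 : β x' = β x := by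
        have h4 : β x' ∈ ({a, β x} : Finset H) := by rw [← h2]; exact hmem
        rw [Finset.mem_insert, Finset.mem_singleton] at h4
        rcases h4 with h4 | h4
        · exact absurd h4 (hβ x' hx').1
        · exact h4
      rw [h3]
      exact h2.symm
    exact (Finset.card_le_card hsub).trans (Finset.card_image_le.trans hTc)
  rw [Finset.sum_const, smul_eq_mul] at e1 e3
  omega

/-- The cone version of the count of facets with two vertices in a plane. -/
theorem plane_count {ι : Type*} (hH : Module.finrank ℝ H = 5) (G : Finset ι)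
    (Ψ : ι → (H →ₗ[ℝ] ℝ)) (V : Finset H) (hV0 : ∀ v ∈ V, v ≠ 0)
    (hV2 : ∀ x ∈ V, ∀ y ∈ V, x ≠ y → ∀ a b : ℝ, a • x + b • y = 0 → a = 0 ∧ b = 0)
    (hV3 : ∀ x ∈ V, ∀ y ∈ V, ∀ z ∈ V, x ≠ y → x ≠ z → y ≠ z → ∀ a b c : ℝ,
      a • x + b • y + c • z = 0 → a = 0 ∧ b = 0 ∧ c = 0)
    (hnn : ∀ g ∈ G, ∀ v ∈ V, 0 ≤ Ψ g v)
    (hinj : ∀ g ∈ G, ∀ g' ∈ G, (∀ v ∈ V, Ψ g v = 0 → Ψ g' v = 0) → g = g')
    (hspan : ∀ g ∈ G, ∀ φ : H →ₗ[ℝ] ℝ, (∀ v ∈ V, Ψ g v = 0 → φ v = 0) → ∃ c : ℝ, φ = c • Ψ g)
    (U : Submodule ℝ H) (hU3 : Module.finrank ℝ U = 3)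
    (h2 : ∀ g ∈ G, ∃ a ∈ V, ∃ a' ∈ V, a ≠ a' ∧ a ∈ U ∧ a' ∈ U ∧ Ψ g a = 0 ∧ Ψ g a' = 0)
    (h5 : ∀ g ∈ G, 5 ≤ (V.filter (fun v => Ψ g v = 0)).card)
    (n₁ : ℕ) (hn1 : ∀ A : Finset H, (∀ v ∈ A, v ∈ V ∧ v ∈ U) → A.card ≤ n₁)
    (M Λ : ℕ) (hM : 0 < M)
    (hL : ∀ W ⊆ V, W.card ≤ 2 * M →
      (G.filter (fun g => 3 ≤ (W.filter (fun v => Ψ g v = 0)).card)).card ≤ Λ) :
    G.card ≤ 2 + 8 * n₁ + 4 * V.card * n₁ / (M + 1) + (V.card / M + 1) * Λ := by
  classical
  obtain ⟨s, t, l, hst, hsv, hsl, htl⟩ := exists_coords hH U hU3 V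
  have hlU : l ∉ U := by
    intro h
    have := ((hst l).1 h).2
    rw [htl] at this
    exact one_ne_zero this
  set A : Finset H := V.filter (fun v => v ∈ U) with hA
  have hAm : ∀ v, v ∈ A ↔ v ∈ V ∧ v ∈ U := fun v => Finset.mem_filter
  have hAn : A.card ≤ n₁ := hn1 A (fun v hv => (hAm v).1 hv)
  set B : Finset H := V.filter (fun v => v ∉ U) with hB
  have hBm : ∀ v, v ∈ B ↔ v ∈ V ∧ v ∉ U := fun v => Finset.mem_filter
  have hBn : B.card ≤ V.card := Finset.card_filter_le _ _
  set X : ι → Finset H := fun g => A.filter (fun v => Ψ g v = 0) with hX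
  have hXm : ∀ g v, v ∈ X g ↔ v ∈ A ∧ Ψ g v = 0 := fun g v => Finset.mem_filter
  set Y : ι → Finset H := fun g => B.filter (fun v => Ψ g v = 0) with hY
  have hYm : ∀ g v, v ∈ Y g ↔ v ∈ B ∧ Ψ g v = 0 := fun g v => Finset.mem_filter
  -- facets containing the plane
  set Z := G.filter (fun g => ∀ u ∈ U, Ψ g u = 0) with hZ
  set G' := G.filter (fun g => ¬ ∀ u ∈ U, Ψ g u = 0) with hG'
  have hZG : Z.card + G'.card = G.card := Finset.card_filter_add_card_filter_not _
  have hZc : Z.card ≤ 2 := card_vanish_le_two hH hnn hinj U hU3 Z (Finset.filter_subset _ _)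
    (fun g hg => (Finset.mem_filter.1 hg).2)
  have hG'G : G' ⊆ G := Finset.filter_subset _ _
  have hG'ne : ∀ g ∈ G', ∃ u ∈ U, Ψ g u ≠ 0 := by
    intro g hg
    have := (Finset.mem_filter.1 hg).2
    push Not at this
    exact this
  -- exactly two vertices in the plane
  have hX2 : ∀ g ∈ G', (X g).card = 2 := by
    intro g hg
    obtain ⟨a, ha, a', ha', hne, haU, haU', e, e'⟩ := h2 g (hG'G hg)
    have hXeq : X g = {a, a'} := by
      ext v
      rw [hXm, hAm, Finset.mem_insert, Finset.mem_singleton]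
      constructor
      · rintro ⟨⟨hv, hvU⟩, hv0⟩
        by_contra hcon
        push Not at hcon
        obtain ⟨u, hu, hun⟩ := hG'ne g hg
        obtain ⟨x, y, z, hne', hrel⟩ := dep_mod (⊥ : Submodule ℝ H)
          (U ⊓ LinearMap.ker (Ψ g)) bot_le (by
            rw [finrank_bot]
            have h1 := Submodule.finrank_sup_add_finrank_inf_eq U (LinearMap.ker (Ψ g))
            have h3 : U ⊔ LinearMap.ker (Ψ g) = ⊤ := by
              rw [Submodule.eq_top_iff']
              intro w
              have : w = (Ψ g w / Ψ g u) • u + (w - (Ψ g w / Ψ g u) • u) := by abel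
              rw [this]
              apply Submodule.add_mem_sup (Submodule.smul_mem _ _ hu)
              rw [LinearMap.mem_ker, map_sub, map_smul, smul_eq_mul, div_mul_cancel₀ _ hun, sub_self]
            have h4 : Module.finrank ℝ (LinearMap.ker (Ψ g)) = 4 := by
              have hr := LinearMap.finrank_range_add_finrank_ker (Ψ g)
              have hsurj : LinearMap.range (Ψ g) = ⊤ := by
                rw [LinearMap.range_eq_top]
                exact LinearMap.surjective (fun h => hun (by rw [h]; rfl))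
              rw [hsurj, finrank_top, Module.finrank_self, hH] at hr
              omega
            rw [h3, finrank_top, hH, hU3, h4] at h1
            omega)
          (x := a) (y := a') (z := v) ⟨haU, e⟩ ⟨haU', e'⟩ ⟨hvU, hv0⟩
        rw [Submodule.mem_bot] at hrel
        exact hne' (hV3 a ha a' ha' v hv hne (Ne.symm hcon.1) (Ne.symm hcon.2) x y z hrel)
      · rintro (rfl | rfl)
        · exact ⟨⟨ha, haU⟩, e⟩
        · exact ⟨⟨ha', haU'⟩, e'⟩
    rw [hXeq, Finset.card_pair hne]
  have hY3 : ∀ g ∈ G', 3 ≤ (Y g).card := by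
    intro g hg
    have h1 := h5 g (hG'G hg)
    have h3 : V.filter (fun v => Ψ g v = 0) ⊆ X g ∪ Y g := by
      intro v hv
      rw [Finset.mem_filter] at hv
      rw [Finset.mem_union, hXm, hYm, hAm, hBm]
      by_cases hvU : v ∈ U
      · exact Or.inl ⟨⟨hv.1, hvU⟩, hv.2⟩
      · exact Or.inr ⟨⟨hv.1, hvU⟩, hv.2⟩
    have h4 := (Finset.card_le_card h3).trans (Finset.card_union_le _ _)
    rw [hX2 g hg] at h4
    omega
  -- the pairs
  set XS := G'.image X with hXSd
  have hXSc : XS.card ≤ n₁ := by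
    refine (pairs_le (G := G') hV0 hV2 (fun g hg => hnn g (hG'G hg)) U hU3 hG'ne A hAm XS ?_).trans hAn
    intro x hx
    obtain ⟨g, hg, rfl⟩ := Finset.mem_image.1 hx
    exact ⟨g, hg, hX2 g hg, hXm g⟩
  have hfour : ∀ x ∈ XS, ∀ h : H, h ∉ U → ∀ S ⊆ G', (∀ g ∈ S, X g = x) →
      (∀ g ∈ S, Hit (Ψ g) V U h) → S.card ≤ 4 := by
    intro x hx h hh S hS hSx hSh
    obtain ⟨g0, hg0, hg0x⟩ := Finset.mem_image.1 hx
    obtain ⟨a, a', hne, hx2⟩ := Finset.card_eq_two.1 (hX2 g0 hg0)
    rw [hg0x] at hx2
    have hmem : ∀ g ∈ S, (a ∈ A ∧ Ψ g a = 0) ∧ (a' ∈ A ∧ Ψ g a' = 0) := by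
      intro g hg
      have h1 := hSx g hg
      constructor
      · rw [← hXm, h1, hx2]; simp
      · rw [← hXm, h1, hx2]; simp
    have ha : a ∈ A := by
      have : a ∈ X g0 := by rw [hg0x, hx2]; simp
      exact ((hXm _ _).1 this).1
    have ha' : a' ∈ A := by
      have : a' ∈ X g0 := by rw [hg0x, hx2]; simp
      exact ((hXm _ _).1 this).1
    exact hit_le_four hH hnn hinj U hU3 ((hAm a).1 ha).2 ((hAm a').1 ha').2
      (hV2 a ((hAm a).1 ha).1 a' ((hAm a').1 ha').1 hne) hh S (hS.trans hG'G)
      (fun g hg => (hmem g hg).1.2) (fun g hg => (hmem g hg).2.2)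
      (fun g hg => hG'ne g (hS hg)) hSh
  set D : ι → Finset H := fun g => B.filter (fun v => Hit (Ψ g) V U v) with hD
  set Str := G'.filter (fun g => ∃ u ∈ Y g, ∃ u' ∈ Y g, 0 < s u ∧ s u' < 0) with hStr
  set Lng := G'.filter (fun g => ¬ (∃ u ∈ Y g, ∃ u' ∈ Y g, 0 < s u ∧ s u' < 0) ∧ M < (D g).card)
    with hLng
  set Sht := G'.filter (fun g => ¬ (∃ u ∈ Y g, ∃ u' ∈ Y g, 0 < s u ∧ s u' < 0) ∧ ¬ M < (D g).card)
    with hSht
  have hcov : G'.card ≤ Str.card + Lng.card + Sht.card := by
    have hsub : G' ⊆ Str ∪ Lng ∪ Sht := by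
      intro g hg
      rw [Finset.mem_union, Finset.mem_union]
      by_cases hs : ∃ u ∈ Y g, ∃ u' ∈ Y g, 0 < s u ∧ s u' < 0
      · exact Or.inl (Or.inl (Finset.mem_filter.2 ⟨hg, hs⟩))
      · by_cases hl : M < (D g).card
        · exact Or.inl (Or.inr (Finset.mem_filter.2 ⟨hg, hs, hl⟩))
        · exact Or.inr (Finset.mem_filter.2 ⟨hg, hs, hl⟩)
    exact (Finset.card_le_card hsub).trans ((Finset.card_union_le _ _).trans
      (Nat.add_le_add_right (Finset.card_union_le _ _) _))
  -- straddling facets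
  have hStrHit : ∀ g ∈ Str, Hit (Ψ g) V U l ∨ Hit (Ψ g) V U (-l) := by
    intro g hg
    rw [hStr, Finset.mem_filter] at hg
    obtain ⟨hgG', u, hu, u', hu', hsu, hsu'⟩ := hg
    -- a pair with different slopes
    have hpair : ∃ u ∈ Y g, ∃ u' ∈ Y g, 0 < s u ∧ s u' < 0 ∧ -s u' * t u + s u * t u' ≠ 0 := by
      by_cases h0 : -s u' * t u + s u * t u' = 0
      · set κ : ℝ := t u / s u with hκ
        have hex : ∃ v ∈ V, Ψ g v = 0 ∧ (t - κ • s) v ≠ 0 := by
          by_contra hcon
          push Not at hcon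
          obtain ⟨c, hc⟩ := hspan g (hG'G hgG') (t - κ • s) hcon
          obtain ⟨w, hw, hwn⟩ := hG'ne g hgG'
          have h1 := LinearMap.congr_fun hc w
          have hw' := (hst w).1 hw
          simp only [LinearMap.sub_apply, LinearMap.smul_apply, smul_eq_mul, hw'.1, hw'.2,
            mul_zero, sub_zero] at h1
          have hc0 : c = 0 := (mul_eq_zero.1 h1.symm).resolve_right hwn
          have h3 := LinearMap.congr_fun hc l
          simp only [LinearMap.sub_apply, LinearMap.smul_apply, smul_eq_mul, hsl, htl, hc0,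
            mul_zero, sub_zero, zero_mul] at h3
          exact one_ne_zero h3
        obtain ⟨v, hv, hv0, hvn⟩ := hex
        simp only [LinearMap.sub_apply, LinearMap.smul_apply, smul_eq_mul] at hvn
        have hvU : v ∉ U := by
          intro hvU
          have := (hst v).1 hvU
          apply hvn
          rw [this.1, this.2]; ring
        have hvY : v ∈ Y g := (hYm _ _).2 ⟨(hBm _).2 ⟨hv, hvU⟩, hv0⟩
        have htu : t u = κ * s u := by rw [hκ, div_mul_cancel₀ _ hsu.ne']
        have htu' : t u' = κ * s u' := by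
          rw [htu] at h0
          have : s u * (t u' - κ * s u') = 0 := by linarith
          rcases mul_eq_zero.1 this with h | h
          · exact absurd h hsu.ne'
          · linarith
        rcases lt_or_gt_of_ne (hsv v hv hvU) with h | h
        · refine ⟨u, hu, v, hvY, hsu, h, ?_⟩
          intro h1
          apply hvn
          rw [htu] at h1
          have : s u * (t v - κ * s v) = 0 := by linarith
          exact (mul_eq_zero.1 this).resolve_left hsu.ne'
        · refine ⟨v, hvY, u', hu', h, hsu', ?_⟩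
          intro h1
          apply hvn
          rw [htu'] at h1
          have : s u' * (t v - κ * s v) = 0 := by linarith
          exact (mul_eq_zero.1 this).resolve_left hsu'.ne
      · exact ⟨u, hu, u', hu', hsu, hsu', h0⟩
    obtain ⟨u, hu, u', hu', hsu, hsu', hne⟩ := hpair
    have huV := ((hBm _).1 ((hYm _ _).1 hu).1).1
    have hu0 := ((hYm _ _).1 hu).2
    have huV' := ((hBm _).1 ((hYm _ _).1 hu').1).1
    have hu0' := ((hYm _ _).1 hu').2
    set τ := -s u' * t u + s u * t u' with hτ
    rcases lt_or_gt_of_ne hne with h | h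
    · right
      refine ⟨u, huV, u', huV', hu0, hu0', s u' / τ, -s u / τ, div_nonneg_of_nonpos hsu'.le h.le,
        div_nonneg_of_nonpos (by linarith) h.le, ?_⟩
      rw [hst]
      simp only [map_sub, map_add, map_neg, map_smul, smul_eq_mul, hsl, htl]
      constructor
      · field_simp
        ring
      · have : s u' / τ * t u + -s u / τ * t u' = -(τ / τ) := by
          rw [hτ]; field_simp; ring
        rw [this, div_self hne]; ring
    · left
      refine ⟨u, huV, u', huV', hu0, hu0', -s u' / τ, s u / τ, div_nonneg (by linarith) h.le,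
        div_nonneg hsu.le h.le, ?_⟩
      rw [hst]
      simp only [map_sub, map_add, map_smul, smul_eq_mul, hsl, htl]
      constructor
      · field_simp
        ring
      · have : -s u' / τ * t u + s u / τ * t u' = τ / τ := by
          rw [hτ]; field_simp
        rw [this, div_self hne]; ring
  have hmapsX : ∀ S ⊆ G', ∀ g ∈ S, X g ∈ XS := fun S hS g hg => Finset.mem_image_of_mem X (hS hg)
  have hStrc : Str.card ≤ 8 * n₁ := by
    have hsubS : Str ⊆ G' := Finset.filter_subset _ _
    have h1 : ∀ x ∈ XS, (Str.filter (fun g => X g = x)).card ≤ 8 := by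
      intro x hx
      set S := Str.filter (fun g => X g = x) with hS
      have hSG : S ⊆ G' := (Finset.filter_subset _ _).trans hsubS
      have hc : S ⊆ S.filter (fun g => Hit (Ψ g) V U l) ∪ S.filter (fun g => Hit (Ψ g) V U (-l)) := by
        intro g hg
        rw [Finset.mem_union]
        rcases hStrHit g (Finset.mem_filter.1 hg).1 with h | h
        · exact Or.inl (Finset.mem_filter.2 ⟨hg, h⟩)
        · exact Or.inr (Finset.mem_filter.2 ⟨hg, h⟩)
      have h4 := hfour x hx l hlU (S.filter (fun g => Hit (Ψ g) V U l))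
        ((Finset.filter_subset _ _).trans hSG)
        (fun g hg => (Finset.mem_filter.1 (Finset.mem_filter.1 hg).1).2)
        (fun g hg => (Finset.mem_filter.1 hg).2)
      have h4' := hfour x hx (-l) (fun h => hlU (by simpa using neg_mem h))
        (S.filter (fun g => Hit (Ψ g) V U (-l)))
        ((Finset.filter_subset _ _).trans hSG)
        (fun g hg => (Finset.mem_filter.1 (Finset.mem_filter.1 hg).1).2)
        (fun g hg => (Finset.mem_filter.1 hg).2)
      have := (Finset.card_le_card hc).trans (Finset.card_union_le _ _)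
      omega
    calc Str.card = ∑ x ∈ XS, (Str.filter (fun g => X g = x)).card :=
          Finset.card_eq_sum_card_fiberwise (hmapsX Str hsubS)
      _ ≤ ∑ x ∈ XS, 8 := Finset.sum_le_sum h1
      _ = 8 * XS.card := by rw [Finset.sum_const, smul_eq_mul, mul_comm]
      _ ≤ 8 * n₁ := Nat.mul_le_mul_left _ hXSc
  -- long facets
  have hLngc : Lng.card ≤ 4 * V.card * n₁ / (M + 1) := by
    have hsubS : Lng ⊆ G' := Finset.filter_subset _ _
    have h1 : ∀ x ∈ XS, (M + 1) * (Lng.filter (fun g => X g = x)).card ≤ 4 * V.card := by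
      intro x hx
      set S := Lng.filter (fun g => X g = x) with hS
      have hSG : S ⊆ G' := (Finset.filter_subset _ _).trans hsubS
      have f1 : ∑ g ∈ S, (M + 1) ≤ ∑ g ∈ S, (D g).card := by
        refine Finset.sum_le_sum (fun g hg => ?_)
        have := (Finset.mem_filter.1 (Finset.mem_filter.1 hg).1).2.2
        exact this
      have f2 : ∑ g ∈ S, (D g).card = ∑ v ∈ B, (S.filter (fun g => Hit (Ψ g) V U v)).card := by
        simp only [hD, Finset.card_filter]
        exact Finset.sum_comm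
      have f3 : ∑ v ∈ B, (S.filter (fun g => Hit (Ψ g) V U v)).card ≤ ∑ v ∈ B, 4 := by
        refine Finset.sum_le_sum (fun v hv => ?_)
        exact hfour x hx v ((hBm v).1 hv).2 _ ((Finset.filter_subset _ _).trans hSG)
          (fun g hg => (Finset.mem_filter.1 (Finset.mem_filter.1 hg).1).2)
          (fun g hg => (Finset.mem_filter.1 hg).2)
      rw [Finset.sum_const, smul_eq_mul] at f1 f3
      rw [f2] at f1
      have f4 := f1.trans f3
      calc (M + 1) * S.card = S.card * (M + 1) := mul_comm _ _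
        _ ≤ B.card * 4 := f4
        _ ≤ 4 * V.card := by omega
    rw [Nat.le_div_iff_mul_le (Nat.succ_pos M)]
    calc Lng.card * (M + 1) = ∑ x ∈ XS, (M + 1) * (Lng.filter (fun g => X g = x)).card := by
          rw [← Finset.mul_sum, ← Finset.card_eq_sum_card_fiberwise (hmapsX Lng hsubS), mul_comm]
      _ ≤ ∑ x ∈ XS, 4 * V.card := Finset.sum_le_sum h1
      _ = 4 * V.card * XS.card := by rw [Finset.sum_const, smul_eq_mul, mul_comm]
      _ ≤ 4 * V.card * n₁ := Nat.mul_le_mul_left _ hXSc
  -- short facets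
  have hShtc : Sht.card ≤ (V.card / M + 1) * Λ := by
    obtain ⟨e, he⟩ := Set.countable_iff_exists_injOn.1 (B.finite_toSet.countable)
    set key : H → Bool ×ₗ ℝ ×ₗ ℕ := fun v => toLex (decide (0 < s v), toLex (t v / s v, e v))
      with hkey
    have hkinj : Set.InjOn key (B : Set H) := by
      intro v hv v' hv' hk
      apply he hv hv'
      rw [hkey] at hk
      simp only [EmbeddingLike.apply_eq_iff_eq, Prod.mk.injEq] at hk
      exact hk.2.2
    obtain ⟨W, hW, hWc⟩ := exists_window B key hkinj M hM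
    have hsub : Sht ⊆ (Finset.range (B.card / M + 1)).biUnion
        (fun j => G.filter (fun g => 3 ≤ ((W j).filter (fun v => Ψ g v = 0)).card)) := by
      intro g hg
      rw [hSht, Finset.mem_filter] at hg
      obtain ⟨hgG', hns, hDM⟩ := hg
      have hYne : (Y g).Nonempty := by
        rw [← Finset.card_pos]
        have := hY3 g hgG'
        omega
      have hcond : ∀ v₁ ∈ Y g, ∀ v₃ ∈ Y g,
          (B.filter (fun v => key v₁ ≤ key v ∧ key v ≤ key v₃)).card ≤ M := by
        intro v₁ hv₁ v₃ hv₃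
        refine (Finset.card_le_card ?_).trans (not_lt.1 hDM)
        intro v hv
        rw [Finset.mem_filter] at hv
        obtain ⟨hvB, hk1, hk3⟩ := hv
        rw [hD, Finset.mem_filter]
        refine ⟨hvB, ?_⟩
        have hvB' := (hBm v).1 hvB
        have h1Y := (hYm _ _).1 hv₁
        have h3Y := (hYm _ _).1 hv₃
        have h1B := (hBm _).1 h1Y.1
        have h3B := (hBm _).1 h3Y.1
        have n1 := hsv v₁ h1B.1 h1B.2
        have n3 := hsv v₃ h3B.1 h3B.2
        have n := hsv v hvB'.1 hvB'.2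
        have hsgn13 : (0 < s v₁ ↔ 0 < s v₃) := by
          push Not at hns
          constructor
          · intro h
            have := hns v₁ hv₁ v₃ hv₃ h
            exact lt_of_le_of_ne this n3.symm
          · intro h
            have := hns v₃ hv₃ v₁ hv₁ h
            exact lt_of_le_of_ne this n1.symm
        rw [hkey] at hk1 hk3
        simp only [Prod.Lex.toLex_le_toLex] at hk1 hk3
        have hd13 : decide (0 < s v₁) = decide (0 < s v₃) := by
          rw [decide_eq_decide]; exact hsgn13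
        have hkk : decide (0 < s v₁) = decide (0 < s v) ∧ t v₁ / s v₁ ≤ t v / s v ∧
            t v / s v ≤ t v₃ / s v₃ := by
          rcases hk1 with hk1 | ⟨hk1, hk1'⟩
          · rcases hk3 with hk3 | ⟨hk3, hk3'⟩
            · have := hk1.trans hk3
              rw [hd13] at this
              exact absurd this (lt_irrefl _)
            · rw [hd13, ← hk3] at hk1
              exact absurd hk1 (lt_irrefl _)
          · rcases hk3 with hk3 | ⟨hk3, hk3'⟩
            · rw [← hk1, hd13] at hk3
              exact absurd hk3 (lt_irrefl _)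
            · refine ⟨hk1, ?_, ?_⟩
              · rcases hk1' with h | h
                · exact h.le
                · exact h.1.le
              · rcases hk3' with h | h
                · exact h.le
                · exact h.1.le
        obtain ⟨hd, hκ1, hκ3⟩ := hkk
        rw [decide_eq_decide] at hd
        have hpos1 : 0 < s v / s v₁ := by
          rcases lt_or_gt_of_ne n with h | h
          · have : s v₁ < 0 := lt_of_le_of_ne (not_lt.1 (fun h' => not_lt.2 h.le (hd.1 h'))) n1
            exact div_pos_of_neg_of_neg h this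
          · exact div_pos h (hd.2 h)
        have hpos3 : 0 < s v / s v₃ := by
          rcases lt_or_gt_of_ne n with h | h
          · have : s v₃ < 0 := lt_of_le_of_ne
              (not_lt.1 (fun h' => not_lt.2 h.le (hd.1 (hsgn13.2 h')))) n3
            exact div_pos_of_neg_of_neg h this
          · exact div_pos h (hsgn13.1 (hd.2 h))
        set κ := t v / s v with hκ
        set κ₁ := t v₁ / s v₁ with hκ₁
        set κ₃ := t v₃ / s v₃ with hκ₃
        have ht : t v = κ * s v := by rw [hκ, div_mul_cancel₀ _ n]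
        have ht1 : t v₁ = κ₁ * s v₁ := by rw [hκ₁, div_mul_cancel₀ _ n1]
        have ht3 : t v₃ = κ₃ * s v₃ := by rw [hκ₃, div_mul_cancel₀ _ n3]
        rcases hκ1.trans hκ3 |>.lt_or_eq with hlt | heq
        · have hpos : 0 < κ₃ - κ₁ := by linarith
          refine ⟨v₁, h1B.1, v₃, h3B.1, h1Y.2, h3Y.2, s v / s v₁ * ((κ₃ - κ) / (κ₃ - κ₁)),
            s v / s v₃ * ((κ - κ₁) / (κ₃ - κ₁)), ?_, ?_, ?_⟩
          · exact mul_nonneg hpos1.le (div_nonneg (by linarith) hpos.le)
          · exact mul_nonneg hpos3.le (div_nonneg (by linarith) hpos.le)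
          · rw [hst]
            simp only [map_sub, map_add, map_smul, smul_eq_mul]
            have hne := hpos.ne'
            constructor
            · field_simp
              ring
            · rw [ht, ht1, ht3]
              field_simp
              ring
        · have hκe : κ = κ₁ := le_antisymm (by rw [heq]; exact hκ3) hκ1
          refine ⟨v₁, h1B.1, v₃, h3B.1, h1Y.2, h3Y.2, s v / s v₁, 0, hpos1.le, le_rfl, ?_⟩
          rw [hst]
          simp only [map_sub, map_add, map_smul, smul_eq_mul, zero_mul, add_zero]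
          constructor
          · field_simp
            ring
          · rw [ht, ht1, hκe]
            field_simp
            ring
      obtain ⟨j, hj, hYW⟩ := hWc (Y g) (Finset.filter_subset _ _) hYne hcond
      rw [Finset.mem_biUnion]
      refine ⟨j, hj, ?_⟩
      rw [Finset.mem_filter]
      refine ⟨hG'G hgG', (hY3 g hgG').trans (Finset.card_le_card ?_)⟩
      intro v hv
      rw [Finset.mem_filter]
      exact ⟨hYW hv, ((hYm _ _).1 hv).2⟩
    calc Sht.card ≤ _ := Finset.card_le_card hsub
      _ ≤ (Finset.range (B.card / M + 1)).card * Λ := by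
          apply Finset.card_biUnion_le_card_mul
          intro j _
          exact hL (W j) ((hW j).1.trans (Finset.filter_subset _ _)) (hW j).2
      _ ≤ (V.card / M + 1) * Λ := by
          rw [Finset.card_range]
          exact Nat.mul_le_mul_right _ (Nat.add_le_add_right (Nat.div_le_div_right hBn) _)
  omega

end Pool.Agent.Lib_helper82.Plane
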