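import Mathlib
import Pool.Agent.Lib_helper82.PlaneB
import Pool.Agent.Lib_helper82.PlaneD

/-! Facets through a plane, part E: from polytopes to cones. -/

open scoped BigOperators Topology
open Filter

namespace Pool.Agent.Lib_helper82.Plane

open Pool.Agent.Lib_helper82.Facets4

variable {E : Type*} [NormedAddCommGroup E] [NormedSpace ℝ E] [FiniteDimensional ℝ E]

/-- The functional data of the facets of a 4-polytope. -/
theorem exists_data (hdim : Module.finrank ℝ E = 4) {S P : Set E} (hS : S.Finite)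
    (hspan : affineSpan ℝ S = ⊤) (hP : P = convexHull ℝ S) :
    ∃ V : Finset E, (V : Set E) = P.extremePoints ℝ ∧ ConvPos V ∧
      affineSpan ℝ (V : Set E) = ⊤ ∧
      ∃ Ψ : Set E → (E × ℝ →ₗ[ℝ] ℝ), ∀ F : Set E, IsExposed ℝ P F →
        Module.finrank ℝ (vectorSpan ℝ F) = 3 →
          Ψ F ≠ 0 ∧ (∀ v ∈ V, 0 ≤ Ψ F (v, 1)) ∧
          (∀ v ∈ V, Ψ F (v, 1) = 0 ↔ v ∈ F.extremePoints ℝ) ∧
          (F.extremePoints ℝ ⊆ V) ∧ 4 ≤ (F.extremePoints ℝ).encard ∧
          (∀ φ : E × ℝ →ₗ[ℝ] ℝ, (∀ v ∈ V, Ψ F (v, 1) = 0 → φ (v, 1) = 0) →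
            ∃ c : ℝ, φ = c • Ψ F) ∧
          (∀ F' : Set E, IsExposed ℝ P F' → Module.finrank ℝ (vectorSpan ℝ F') = 3 →
            (∀ v ∈ V, Ψ F (v, 1) = 0 → Ψ F' (v, 1) = 0) → F = F') := by
  classical
  have hPc : IsCompact P := by rw [hP]; exact hS.isCompact_convexHull ℝ
  have hPconv : Convex ℝ P := by rw [hP]; exact convex_convexHull _ _
  have hVS : P.extremePoints ℝ ⊆ S := by rw [hP]; exact extremePoints_convexHull_subset
  have hVf : (P.extremePoints ℝ).Finite := hS.subset hVS
  have hPV : convexHull ℝ (P.extremePoints ℝ) = P := convexHull_extremePoints_of_finite hPc hPconv hVf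
  set V : Finset E := hVf.toFinset with hV
  have hVs : (V : Set E) = P.extremePoints ℝ := hVf.coe_toFinset
  have hVm : ∀ v, v ∈ V ↔ v ∈ P.extremePoints ℝ := fun v => hVf.mem_toFinset
  refine ⟨V, hVs, ?_, ?_, ?_⟩
  · intro v hv
    have hex := (hPconv.mem_extremePoints_iff_mem_sdiff_convexHull_sdiff).1 ((hVm v).1 hv)
    intro hc
    apply hex.2
    refine convexHull_mono ?_ hc
    intro x hx
    exact ⟨extremePoints_subset ((hVm x).1 hx.1), hx.2⟩
  · rw [hVs, ← affineSpan_convexHull, hPV, hP, affineSpan_convexHull, hspan]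
  -- the functionals
  have hfac : ∀ F : Set E, ∃ ψ : E × ℝ →ₗ[ℝ] ℝ, (IsExposed ℝ P F →
      Module.finrank ℝ (vectorSpan ℝ F) = 3 →
        ψ ≠ 0 ∧ (∀ x ∈ P, 0 ≤ ψ (x, 1)) ∧ (∀ x ∈ P, ψ (x, 1) = 0 ↔ x ∈ F)) := by
    intro F
    by_cases hF : IsExposed ℝ P F ∧ Module.finrank ℝ (vectorSpan ℝ F) = 3
    · obtain ⟨hFe, hFr⟩ := hF
      have hFne : F.Nonempty := by
        by_contra hcon
        rw [Set.not_nonempty_iff_eq_empty] at hcon
        rw [hcon, vectorSpan_empty, finrank_bot] at hFr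
        omega
      obtain ⟨l, hl⟩ := hFe hFne
      obtain ⟨g0, hg0⟩ := hFne
      have hg0' : g0 ∈ P ∧ ∀ y ∈ P, l y ≤ l g0 := by rw [hl] at hg0; exact hg0
      have hval : ∀ x : E, (l g0 • LinearMap.snd ℝ E ℝ - (l : E →ₗ[ℝ] ℝ).comp (LinearMap.fst ℝ E ℝ))
          (x, 1) = l g0 - l x := by
        intro x
        simp
      have hiff : ∀ x ∈ P, l g0 - l x = 0 ↔ x ∈ F := by
        intro x hx
        constructor
        · intro he
          rw [hl]
          refine ⟨hx, fun y hy => ?_⟩
          have := hg0'.2 y hy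
          linarith
        · intro hxF
          have : x ∈ P ∧ ∀ y ∈ P, l y ≤ l x := by rw [hl] at hxF; exact hxF
          have h1 := this.2 g0 hg0'.1
          have h2 := hg0'.2 x hx
          linarith
      refine ⟨l g0 • LinearMap.snd ℝ E ℝ - (l : E →ₗ[ℝ] ℝ).comp (LinearMap.fst ℝ E ℝ),
        fun _ _ => ⟨?_, ?_, ?_⟩⟩
      · intro h0
        have hFP : F = P := by
          apply Set.Subset.antisymm
          · rw [hl]; exact Set.sep_subset _ _
          · intro x hx
            rw [← hiff x hx, ← hval x, h0]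
            rfl
        rw [hFP, hP] at hFr
        have hvs : vectorSpan ℝ (convexHull ℝ S) = ⊤ := by
          rw [← direction_affineSpan, affineSpan_convexHull, hspan, AffineSubspace.direction_top]
        rw [hvs, finrank_top, hdim] at hFr
        omega
      · intro x hx
        rw [hval x]
        have := hg0'.2 x hx
        linarith
      · intro x hx
        rw [hval x]
        exact hiff x hx
    · exact ⟨0, fun h1 h2 => absurd ⟨h1, h2⟩ hF⟩
  choose Ψ hΨ using hfac
  refine ⟨Ψ, ?_⟩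
  have hVP : ∀ v ∈ V, v ∈ P := fun v hv => extremePoints_subset ((hVm v).1 hv)
  have hext : ∀ F : Set E, IsExposed ℝ P F → F.extremePoints ℝ = F ∩ P.extremePoints ℝ :=
    fun F hF => hF.isExtreme.extremePoints_eq
  have hzero : ∀ F : Set E, IsExposed ℝ P F → Module.finrank ℝ (vectorSpan ℝ F) = 3 →
      ∀ v ∈ V, Ψ F (v, 1) = 0 ↔ v ∈ F.extremePoints ℝ := by
    intro F hF hFr v hv
    rw [(hΨ F hF hFr).2.2 v (hVP v hv), hext F hF]
    exact ⟨fun h => ⟨h, (hVm v).1 hv⟩, fun h => h.1⟩
  -- the span of the vertices of a facet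
  have hsp : ∀ F : Set E, IsExposed ℝ P F → Module.finrank ℝ (vectorSpan ℝ F) = 3 →
      4 ≤ (F.extremePoints ℝ).encard ∧
      ∀ φ : E × ℝ →ₗ[ℝ] ℝ, (∀ v ∈ V, Ψ F (v, 1) = 0 → φ (v, 1) = 0) → ∃ c : ℝ, φ = c • Ψ F := by
    intro F hF hFr
    have hFcpt : IsCompact F := hF.isCompact hPc
    have hFconv : Convex ℝ F := hF.convex hPconv
    have hFfin : (F.extremePoints ℝ).Finite := by
      rw [hext F hF]; exact hVf.subset Set.inter_subset_right
    have hFhull := convexHull_extremePoints_of_finite hFcpt hFconv hFfin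
    have hvs : vectorSpan ℝ (F.extremePoints ℝ) = vectorSpan ℝ F := by
      conv_rhs => rw [← hFhull, ← direction_affineSpan, affineSpan_convexHull,
        direction_affineSpan]
    set K : Submodule ℝ (E × ℝ) := Submodule.span ℝ ((fun v : E => ((v, 1) : E × ℝ)) ''
      (F.extremePoints ℝ)) with hK
    have hne : (F.extremePoints ℝ).Nonempty := by
      by_contra hcon
      rw [Set.not_nonempty_iff_eq_empty] at hcon
      rw [hcon, vectorSpan_empty] at hvs
      rw [← hvs, finrank_bot] at hFr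
      omega
    obtain ⟨v0, hv0⟩ := hne
    have hmapK : (vectorSpan ℝ F).map (LinearMap.inl ℝ E ℝ) ≤ K := by
      rw [← hvs, vectorSpan_def, Submodule.map_span, Submodule.span_le]
      rintro _ ⟨_, ⟨x, hx, y, hy, rfl⟩, rfl⟩
      have h1 : ((x, 1) : E × ℝ) ∈ K := Submodule.subset_span ⟨x, hx, rfl⟩
      have h2 : ((y, 1) : E × ℝ) ∈ K := Submodule.subset_span ⟨y, hy, rfl⟩
      have := sub_mem h1 h2
      simpa using this
    have hlt : (vectorSpan ℝ F).map (LinearMap.inl ℝ E ℝ) < K := by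
      refine lt_of_le_of_ne hmapK ?_
      intro he
      have h1 : ((v0, 1) : E × ℝ) ∈ K := Submodule.subset_span ⟨v0, hv0, rfl⟩
      rw [← he, Submodule.mem_map] at h1
      obtain ⟨z, _, hz⟩ := h1
      have := congrArg Prod.snd hz
      simp at this
    have hKr : 4 ≤ Module.finrank ℝ K := by
      have h1 := Submodule.finrank_lt_finrank_of_lt hlt
      have h2 := (Submodule.equivMapOfInjective (LinearMap.inl ℝ E ℝ) LinearMap.inl_injective
        (vectorSpan ℝ F)).finrank_eq
      rw [← h2, hFr] at h1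
      omega
    have hΨF := hΨ F hF hFr
    constructor
    · have h1 : K = Submodule.span ℝ ((hFfin.toFinset.image (fun v : E => ((v, 1) : E × ℝ)) :
          Finset (E × ℝ)) : Set (E × ℝ)) := by
        rw [hK, Finset.coe_image, hFfin.coe_toFinset]
      have h2 := finrank_span_finset_le_card (R := ℝ)
        (hFfin.toFinset.image (fun v : E => ((v, 1) : E × ℝ)))
      rw [Set.finrank, ← h1] at h2
      have h3 : 4 ≤ hFfin.toFinset.card := hKr.trans (h2.trans Finset.card_image_le)
      rw [hFfin.encard_eq_coe_toFinset_card]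
      exact_mod_cast h3
    · intro φ hφ
      have hKker : K ≤ LinearMap.ker (Ψ F) := by
        rw [hK, Submodule.span_le]
        rintro _ ⟨v, hv, rfl⟩
        have hvP : v ∈ P.extremePoints ℝ := by rw [hext F hF] at hv; exact hv.2
        exact (hzero F hF hFr v ((hVm v).2 hvP)).2 hv
      have hker4 : Module.finrank ℝ (LinearMap.ker (Ψ F)) = 4 := by
        have hr := LinearMap.finrank_range_add_finrank_ker (Ψ F)
        have hsurj : LinearMap.range (Ψ F) = ⊤ := by
          rw [LinearMap.range_eq_top]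
          exact LinearMap.surjective hΨF.1
        rw [hsurj, finrank_top, Module.finrank_self, Module.finrank_prod, hdim,
          Module.finrank_self] at hr
        omega
      have hKeq : K = LinearMap.ker (Ψ F) :=
        Submodule.eq_of_le_of_finrank_le hKker (by rw [hker4]; exact hKr)
      have hφK : K ≤ LinearMap.ker φ := by
        rw [hK, Submodule.span_le]
        rintro _ ⟨v, hv, rfl⟩
        have hvP : v ∈ P.extremePoints ℝ := by rw [hext F hF] at hv; exact hv.2
        have hvV := (hVm v).2 hvP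
        exact hφ v hvV ((hzero F hF hFr v hvV).2 hv)
      rw [hKeq] at hφK
      obtain ⟨e, he⟩ : ∃ e, Ψ F e ≠ 0 := by
        by_contra hcon
        push Not at hcon
        exact hΨF.1 (LinearMap.ext hcon)
      refine ⟨φ e / Ψ F e, ?_⟩
      apply LinearMap.ext
      intro h
      have h1 : h - (Ψ F h / Ψ F e) • e ∈ LinearMap.ker (Ψ F) := by
        rw [LinearMap.mem_ker, map_sub, map_smul, smul_eq_mul, div_mul_cancel₀ _ he, sub_self]
      have h2 := hφK h1
      rw [LinearMap.mem_ker, map_sub, map_smul, smul_eq_mul, sub_eq_zero] at h2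
      rw [h2, LinearMap.smul_apply, smul_eq_mul]
      ring
  intro F hF hFr
  obtain ⟨h1, h2, h3⟩ := hΨ F hF hFr
  refine ⟨h1, fun v hv => h2 v (hVP v hv), hzero F hF hFr, ?_, (hsp F hF hFr).1,
    (hsp F hF hFr).2, ?_⟩
  · intro v hv
    rw [hext F hF] at hv
    rw [hVs]
    exact hv.2
  · intro F' hF' hFr' hz
    obtain ⟨c, hc⟩ := (hsp F hF hFr).2 (Ψ F') hz
    obtain ⟨h1', h2', h3'⟩ := hΨ F' hF' hFr'
    have hc0 : c ≠ 0 := by
      intro h0
      rw [h0, zero_smul] at hc
      exact h1' hc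
    have hFP : F ⊆ P := hF.subset
    have hFP' : F' ⊆ P := hF'.subset
    ext x
    constructor
    · intro hx
      rw [← h3' x (hFP hx), hc, LinearMap.smul_apply, (h3 x (hFP hx)).2 hx, smul_zero]
    · intro hx
      have := (h3' x (hFP' hx)).2 hx
      rw [hc, LinearMap.smul_apply, smul_eq_mul, mul_eq_zero, or_iff_right hc0] at this
      exact (h3 x (hFP' hx)).1 this

end Pool.Agent.Lib_helper82.Plane
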