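import Mathlib
import Pool.Agent.Lib_helper82.PlaneE

/-! Facets through a plane, part F: the bound for polytopes. -/

open scoped BigOperators Topology
open Filter

namespace Pool.Agent.Lib_helper82.Plane

open Pool.Agent.Lib_helper82.Facets4

section cone

variable {E : Type*} [AddCommGroup E] [Module ℝ E] [FiniteDimensional ℝ E]

/-- The lifting of a plane. -/
def liftMap (D : Submodule ℝ E) (q : E) : (D × ℝ) →ₗ[ℝ] (E × ℝ) where
  toFun p := ((p.1 : E) + p.2 • q, p.2)
  map_add' := by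
    intro x y
    ext
    · simp only [Prod.fst_add, Prod.snd_add, Submodule.coe_add, add_smul]; abel
    · simp
  map_smul' := by
    intro r x
    ext
    · simp [mul_smul]
    · simp

theorem liftMap_injective (D : Submodule ℝ E) (q : E) : Function.Injective (liftMap D q) := by
  rintro ⟨⟨d, hd⟩, t⟩ ⟨⟨d', hd'⟩, t'⟩ h
  have h2 : t = t' := congrArg Prod.snd h
  have h1 : d + t • q = d' + t' • q := congrArg Prod.fst h
  subst h2
  have : d = d' := add_right_cancel h1
  subst this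
  rfl

theorem exists_cone (Q : AffineSubspace ℝ E) (hQ : Module.finrank ℝ Q.direction = 2) :
    ∃ U : Submodule ℝ (E × ℝ), Module.finrank ℝ U = 3 ∧ ∀ x : E, ((x, 1) : E × ℝ) ∈ U ↔ x ∈ Q := by
  have hne : (Q : Set E).Nonempty := by
    by_contra hcon
    rw [Set.not_nonempty_iff_eq_empty] at hcon
    have : Q = ⊥ := by
      apply SetLike.coe_injective
      rw [hcon]
      simp
    rw [this, AffineSubspace.direction_bot, finrank_bot] at hQ
    omega
  obtain ⟨q, hq⟩ := hne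
  refine ⟨LinearMap.range (liftMap Q.direction q), ?_, ?_⟩
  · rw [LinearMap.finrank_range_of_inj (liftMap_injective _ _), Module.finrank_prod, hQ,
      Module.finrank_self]
  · intro x
    rw [← AffineSubspace.vsub_right_mem_direction_iff_mem hq x, LinearMap.mem_range]
    constructor
    · rintro ⟨⟨⟨d, hd⟩, t⟩, h⟩
      have h2 : t = 1 := congrArg Prod.snd h
      have h1 : d + t • q = x := congrArg Prod.fst h
      rw [h2, one_smul] at h1
      rw [← h1, vsub_eq_sub, add_sub_cancel_right]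
      exact hd
    · intro h
      refine ⟨(⟨x -ᵥ q, h⟩, 1), ?_⟩
      show ((x -ᵥ q) + (1 : ℝ) • q, (1 : ℝ)) = (x, 1)
      rw [one_smul, vsub_eq_sub, sub_add_cancel]

end cone

variable {E : Type*} [NormedAddCommGroup E] [NormedSpace ℝ E] [FiniteDimensional ℝ E]

/-- The lifts of points in convex position are in convex position. -/
theorem convPos_lift [DecidableEq (E × ℝ)] {V : Finset E} (hV : ConvPos V) :
    ConvPos (V.image (fun v => ((v, 1) : E × ℝ))) := by
  intro w hw hc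
  rw [Finset.mem_image] at hw
  obtain ⟨v, hv, rfl⟩ := hw
  apply hV v hv
  have h1 : v ∈ LinearMap.fst ℝ E ℝ '' convexHull ℝ
      (((V.image (fun v => ((v, 1) : E × ℝ)) : Finset (E × ℝ)) : Set (E × ℝ)) \ {(v, 1)}) :=
    ⟨_, hc, rfl⟩
  rw [(LinearMap.fst ℝ E ℝ).isLinear.image_convexHull] at h1
  refine convexHull_mono ?_ h1
  rintro _ ⟨⟨y, r⟩, ⟨hy, hyn⟩, rfl⟩
  rw [Finset.coe_image] at hy
  obtain ⟨z, hz, he⟩ := hy
  have e1 : z = y := congrArg Prod.fst he
  have e2 : (1 : ℝ) = r := congrArg Prod.snd he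
  subst e1 e2
  refine ⟨hz, ?_⟩
  intro h
  apply hyn
  rw [Set.mem_singleton_iff] at h ⊢
  have : z = v := h
  rw [this]

/-- The count with the window parameter `M`. -/
theorem count_param (hdim : Module.finrank ℝ E = 4) {V : Finset E} (hconv : ConvPos V)
    (hVspan : affineSpan ℝ (V : Set E) = ⊤) {ι : Type*} (G : Finset ι)
    (Ψ : ι → (E × ℝ →ₗ[ℝ] ℝ)) (hnz : ∀ g ∈ G, Ψ g ≠ 0) (hnn : ∀ g ∈ G, ∀ v ∈ V, 0 ≤ Ψ g (v, 1))
    (hinj : ∀ g ∈ G, ∀ g' ∈ G, (∀ v ∈ V, Ψ g (v, 1) = 0 → Ψ g' (v, 1) = 0) → g = g')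
    (hspan : ∀ g ∈ G, ∀ φ : E × ℝ →ₗ[ℝ] ℝ, (∀ v ∈ V, Ψ g (v, 1) = 0 → φ (v, 1) = 0) →
      ∃ c : ℝ, φ = c • Ψ g)
    (Q : AffineSubspace ℝ E) (hQ : Module.finrank ℝ Q.direction = 2)
    (h2 : ∀ g ∈ G, ∃ a ∈ V, ∃ a' ∈ V, a ≠ a' ∧ a ∈ Q ∧ a' ∈ Q ∧ Ψ g (a, 1) = 0 ∧ Ψ g (a', 1) = 0)
    (h5 : ∀ g ∈ G, 5 ≤ (V.filter (fun v => Ψ g (v, 1) = 0)).card)
    (n₁ : ℕ) (hn1 : ∀ A : Finset E, (∀ v ∈ A, v ∈ V ∧ v ∈ Q) → A.card ≤ n₁)
    (M : ℕ) (hM : 0 < M) :
    G.card ≤ 2 + 8 * n₁ + 4 * V.card * n₁ / (M + 1)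
      + (V.card / M + 1) * (5 * ((2 * M + 5) * (2 * M + 2))) := by
  classical
  have hH : Module.finrank ℝ (E × ℝ) = 5 := by
    rw [Module.finrank_prod, hdim, Module.finrank_self]
  obtain ⟨U, hU3, hU⟩ := exists_cone Q hQ
  set L : E → E × ℝ := fun v => (v, 1) with hL
  have hLinj : Function.Injective L := fun x y h => congrArg Prod.fst h
  set V' : Finset (E × ℝ) := V.image L with hV'
  have hV'm : ∀ w ∈ V', ∃ v ∈ V, (v, (1 : ℝ)) = w := fun w hw => Finset.mem_image.1 hw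
  have hVcard : V'.card = V.card := Finset.card_image_of_injective _ hLinj
  have hconv' : ConvPos V' := convPos_lift hconv
  have hsnd : ∀ w ∈ V', (LinearMap.snd ℝ E ℝ) w = 1 := by
    intro w hw
    obtain ⟨v, _, rfl⟩ := hV'm w hw
    rfl
  have hV3' : ∀ x ∈ V', ∀ y ∈ V', ∀ z ∈ V', x ≠ y → x ≠ z → y ≠ z → ∀ a b c : ℝ,
      a • x + b • y + c • z = 0 → a = 0 ∧ b = 0 ∧ c = 0 :=
    fun x hx y hy z hz hxy hxz hyz a b c h => hconv'.li hsnd hx hy hz hxy hxz hyz h
  have hV3 : ∀ x ∈ V, ∀ y ∈ V, ∀ z ∈ V, x ≠ y → x ≠ z → y ≠ z → ∀ a b c : ℝ,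
      a • ((x, 1) : E × ℝ) + b • (y, 1) + c • (z, 1) = 0 → a = 0 ∧ b = 0 ∧ c = 0 := by
    intro x hx y hy z hz hxy hxz hyz
    exact hV3' (L x) (Finset.mem_image_of_mem L hx) (L y) (Finset.mem_image_of_mem L hy)
      (L z) (Finset.mem_image_of_mem L hz) (hLinj.ne hxy) (hLinj.ne hxz) (hLinj.ne hyz)
  have hV2' : ∀ x ∈ V', ∀ y ∈ V', x ≠ y → ∀ a b : ℝ, a • x + b • y = 0 → a = 0 ∧ b = 0 := by
    intro x hx y hy hxy a b h
    have h1 := congrArg (LinearMap.snd ℝ E ℝ) h
    rw [map_add, map_smul, map_smul, hsnd x hx, hsnd y hy, map_zero, smul_eq_mul, smul_eq_mul,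
      mul_one, mul_one] at h1
    have hb : b = -a := by linarith
    rw [hb, neg_smul, ← sub_eq_add_neg, ← smul_sub, smul_eq_zero] at h
    rcases h with h | h
    · exact ⟨h, by rw [hb, h, neg_zero]⟩
    · exact absurd (sub_eq_zero.1 h) hxy
  have hV0' : ∀ v ∈ V', v ≠ 0 := by
    intro v hv h0
    have := hsnd v hv
    rw [h0, map_zero] at this
    exact zero_ne_one this
  -- a small spanning set
  obtain ⟨X, hXV, hXspan, hXcard⟩ : ∃ X ⊆ V, affineSpan ℝ (X : Set E) = ⊤ ∧ X.card ≤ 5 := by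
    obtain ⟨t, ht, hts, hti⟩ := exists_affineIndependent ℝ E (V : Set E)
    have htf : t.Finite := V.finite_toSet.subset ht
    refine ⟨htf.toFinset, ?_, ?_, ?_⟩
    · intro x hx
      exact ht (htf.mem_toFinset.1 hx)
    · rw [htf.coe_toFinset, hts, hVspan]
    · have : Fintype t := htf.fintype
      have h1 : Fintype.card t ≤ Module.finrank ℝ (vectorSpan ℝ (Set.range ((↑) : t → E))) + 1 :=
        hti.card_le_finrank_succ
      have h2 : Module.finrank ℝ (vectorSpan ℝ (Set.range ((↑) : t → E))) ≤ 4 := by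
        rw [← hdim]; exact Submodule.finrank_le _
      have h3 : htf.toFinset.card = Fintype.card t := by
        rw [Set.Finite.toFinset_eq_toFinset, Set.toFinset_card]
      rw [h3]
      exact h1.trans (Nat.add_le_add_right h2 1)
  have hmain := plane_count hH G Ψ V' hV0' hV2' hV3'
    (by
      intro g hg w hw
      obtain ⟨v, hv, rfl⟩ := hV'm w hw
      exact hnn g hg v hv)
    (by
      intro g hg g' hg' hz
      exact hinj g hg g' hg' (fun v hv h0 => hz (L v) (Finset.mem_image_of_mem L hv) h0))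
    (by
      intro g hg φ hφ
      exact hspan g hg φ (fun v hv h0 => hφ (L v) (Finset.mem_image_of_mem L hv) h0))
    U hU3
    (by
      intro g hg
      obtain ⟨a, ha, a', ha', hne, haQ, haQ', e, e'⟩ := h2 g hg
      exact ⟨L a, Finset.mem_image_of_mem L ha, L a', Finset.mem_image_of_mem L ha', hLinj.ne hne,
        (hU a).2 haQ, (hU a').2 haQ', e, e'⟩)
    (by
      intro g hg
      refine (h5 g hg).trans ?_
      rw [← Finset.card_image_of_injective (V.filter (fun v => Ψ g (v, 1) = 0)) hLinj]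
      apply Finset.card_le_card
      intro w hw
      obtain ⟨v, hv, rfl⟩ := Finset.mem_image.1 hw
      rw [Finset.mem_filter] at hv ⊢
      exact ⟨Finset.mem_image_of_mem L hv.1, hv.2⟩)
    n₁
    (by
      intro A hA
      have h1 : (A.image Prod.fst).card = A.card := by
        apply Finset.card_image_of_injOn
        intro x hx y hy he
        obtain ⟨x', _, rfl⟩ := hV'm x (hA x hx).1
        obtain ⟨y', _, rfl⟩ := hV'm y (hA y hy).1
        have : x' = y' := he
        rw [this]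
      rw [← h1]
      apply hn1
      intro v hv
      obtain ⟨w, hw, rfl⟩ := Finset.mem_image.1 hv
      obtain ⟨hwV, hwU⟩ := hA w hw
      obtain ⟨v', hv', rfl⟩ := hV'm w hwV
      exact ⟨hv', (hU v').1 hwU⟩)
    M (5 * ((2 * M + 5) * (2 * M + 2))) hM
    (by
      intro W hW hWM
      set G3 := G.filter (fun g => 3 ≤ (W.filter (fun v => Ψ g v = 0)).card) with hG3
      have hG3G : G3 ⊆ G := Finset.filter_subset _ _
      set WE : Finset E := W.image Prod.fst ∪ X with hWE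
      have hWEV : WE ⊆ V := by
        apply Finset.union_subset _ hXV
        intro v hv
        obtain ⟨w, hw, rfl⟩ := Finset.mem_image.1 hv
        obtain ⟨v', hv', rfl⟩ := hV'm w (hW hw)
        exact hv'
      have hint : (interior (convexHull ℝ (WE : Set E))).Nonempty := by
        rw [interior_convexHull_nonempty_iff_affineSpan_eq_top]
        apply top_unique
        rw [← hXspan]
        apply affineSpan_mono
        rw [hWE, Finset.coe_union]
        exact Set.subset_union_right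
      have hWEc : WE.card ≤ 2 * M + 5 := by
        refine (Finset.card_union_le _ _).trans ?_
        have := Finset.card_image_le (s := W) (f := Prod.fst)
        omega
      have hloc := local_count hdim G3 Ψ V hconv (fun g hg => hnz g (hG3G hg))
        (fun g hg => hnn g (hG3G hg)) (fun g hg g' hg' => hinj g (hG3G hg) g' (hG3G hg')) hV3
        WE hWEV hint
        (by
          intro g hg
          rw [hG3, Finset.mem_filter] at hg
          refine hg.2.trans ?_
          have h1 : ((W.filter (fun v => Ψ g v = 0)).image Prod.fst).card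
              = (W.filter (fun v => Ψ g v = 0)).card := by
            apply Finset.card_image_of_injOn
            intro x hx y hy he
            rw [Finset.mem_coe, Finset.mem_filter] at hx hy
            obtain ⟨x', _, rfl⟩ := hV'm x (hW hx.1)
            obtain ⟨y', _, rfl⟩ := hV'm y (hW hy.1)
            have : x' = y' := he
            rw [this]
          rw [← h1]
          apply Finset.card_le_card
          intro v hv
          obtain ⟨w, hw, rfl⟩ := Finset.mem_image.1 hv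
          rw [Finset.mem_filter] at hw
          rw [Finset.mem_filter, hWE, Finset.mem_union]
          refine ⟨Or.inl (Finset.mem_image_of_mem _ hw.1), ?_⟩
          obtain ⟨x', _, hx'⟩ := hV'm w (hW hw.1)
          rw [← hx'] at hw ⊢
          exact hw.2)
      have hz : (G3.card : ℤ) ≤ 5 * ((2 * M + 5) * (2 * M + 2)) := by
        have h1 : (WE.card : ℤ) ≤ 2 * M + 5 := by exact_mod_cast hWEc
        have h0 : (0 : ℤ) ≤ WE.card := Int.natCast_nonneg _
        have hM0 : (0 : ℤ) ≤ M := Int.natCast_nonneg _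
        refine hloc.trans ?_
        rcases le_or_gt (3 : ℤ) WE.card with h3 | h3
        · nlinarith
        · nlinarith
      exact_mod_cast hz)
  rw [hVcard] at hmain
  exact hmain

/-- Numerical optimisation. -/
theorem numeric {N n n₁ : ℕ} (hn : 5 ≤ n) (h1 : 1 ≤ n₁) (hle : n₁ ≤ n)
    (h : ∀ M : ℕ, 0 < M → N ≤ 2 + 8 * n₁ + 4 * n * n₁ / (M + 1)
      + (n / M + 1) * (5 * ((2 * M + 5) * (2 * M + 2)))) :
    (N : ℝ) ≤ 24 * n * √n₁ + 200 * n := by
  set M := Nat.sqrt n₁ with hM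
  have hM1 : 0 < M := Nat.sqrt_pos.2 h1
  have hN := h M hM1
  have hM2 : M * M ≤ n₁ := Nat.sqrt_le n₁
  have hM3 : n₁ < (M + 1) * (M + 1) := Nat.lt_succ_sqrt n₁
  have hNr : (N : ℝ) ≤ 2 + 8 * n₁ + 4 * n * n₁ / (M + 1)
      + (n / M + 1) * (5 * ((2 * M + 5) * (2 * M + 2))) := by
    have e1 : ((4 * n * n₁ / (M + 1) : ℕ) : ℝ) ≤ 4 * n * n₁ / (M + 1) := by
      have := Nat.cast_div_le (α := ℝ) (m := 4 * n * n₁) (n := M + 1)
      push_cast at this
      exact this
    have e2 : ((n / M : ℕ) : ℝ) ≤ n / M := Nat.cast_div_le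
    have e3 : (N : ℝ) ≤ ((2 + 8 * n₁ + 4 * n * n₁ / (M + 1)
      + (n / M + 1) * (5 * ((2 * M + 5) * (2 * M + 2))) : ℕ) : ℝ) := by exact_mod_cast hN
    refine e3.trans ?_
    rw [Nat.cast_add, Nat.cast_add, Nat.cast_mul (n / M + 1), Nat.cast_add (n / M)]
    push_cast
    have e4 : (0 : ℝ) ≤ 5 * ((2 * M + 5) * (2 * M + 2)) := by positivity
    have e5 := mul_le_mul_of_nonneg_right (add_le_add_left e2 (1 : ℝ)) e4
    linarith
  set s : ℝ := √n₁ with hs
  have hs2 : s * s = n₁ := Real.mul_self_sqrt (Nat.cast_nonneg _)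
  have hs0 : 0 ≤ s := Real.sqrt_nonneg _
  have hm1 : (1 : ℝ) ≤ M := by exact_mod_cast hM1
  have hm0 : (0 : ℝ) < M := by linarith
  have hms : (M : ℝ) ≤ s := by
    rw [hs]
    apply Real.le_sqrt_of_sq_le
    have : ((M * M : ℕ) : ℝ) ≤ n₁ := by exact_mod_cast hM2
    push_cast at this
    nlinarith
  have hsm : s ≤ M + 1 := by
    rw [hs, Real.sqrt_le_left (by linarith)]
    have : (n₁ : ℝ) < (((M + 1) * (M + 1) : ℕ) : ℝ) := by exact_mod_cast hM3
    push_cast at this
    nlinarith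
  have hn5 : (5 : ℝ) ≤ n := by exact_mod_cast hn
  have hn1n : (n₁ : ℝ) ≤ n := by exact_mod_cast hle
  have hn0 : (0 : ℝ) ≤ n := by linarith
  have t1 : 4 * (n : ℝ) * n₁ / (M + 1) ≤ 4 * n * s := by
    rw [div_le_iff₀ (by linarith), ← hs2]
    have : 0 ≤ 4 * (n : ℝ) * s := by positivity
    nlinarith
  have t2 : ((n : ℝ) / M + 1) * (5 * ((2 * M + 5) * (2 * M + 2)))
      ≤ 20 * n * s + 120 * n + (20 * (s * s) + 70 * s + 50) := by
    have e1 : ((n : ℝ) / M + 1) * (5 * ((2 * M + 5) * (2 * M + 2)))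
        = 20 * n * M + 70 * n + 50 * (n / M) + (20 * (M * M) + 70 * M + 50) := by
      field_simp
      ring
    rw [e1]
    have e2 : (n : ℝ) / M ≤ n := by
      rw [div_le_iff₀ hm0]
      nlinarith
    have e3 : (M : ℝ) * M ≤ s * s := mul_le_mul hms hms hm0.le hs0
    have e4 : (n : ℝ) * M ≤ n * s := mul_le_mul_of_nonneg_left hms hn0
    nlinarith
  have t3 : 2 * s ≤ n := by
    have h1 : (2 * s) * (2 * s) ≤ (n : ℝ) * n := by nlinarith
    nlinarith
  have hfin : (N : ℝ) ≤ 2 + 8 * n₁ + 4 * n * s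
      + (20 * n * s + 120 * n + (20 * (s * s) + 70 * s + 50)) := by linarith
  rw [hs2] at hfin
  nlinarith

/-- The bound for polytopes. -/
theorem plane_bound (hdim : Module.finrank ℝ E = 4) {S P : Set E} (hS : S.Finite)
    (hspan : affineSpan ℝ S = ⊤) (hP : P = convexHull ℝ S)
    (Q : AffineSubspace ℝ E) (hQ : Module.finrank ℝ Q.direction = 2) (n n₁ : ℕ)
    (hn : (P.extremePoints ℝ).encard = n) (hn₁ : (P.extremePoints ℝ ∩ Q).encard = n₁) :
    ∃ N : ℕ, {F : Set E | IsExposed ℝ P F ∧ Module.finrank ℝ (vectorSpan ℝ F) = 3 ∧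
      (F.extremePoints ℝ).encard ≠ 4 ∧ 2 ≤ (F.extremePoints ℝ ∩ Q).encard}.encard = N ∧
      (N : ℝ) ≤ 24 * n * √n₁ + 200 * n := by
  classical
  obtain ⟨V, hV, hconv, hVspan, Ψ, hΨ⟩ := exists_data hdim hS hspan hP
  set 𝓕 : Set (Set E) := {F : Set E | IsExposed ℝ P F ∧ Module.finrank ℝ (vectorSpan ℝ F) = 3 ∧
      (F.extremePoints ℝ).encard ≠ 4 ∧ 2 ≤ (F.extremePoints ℝ ∩ Q).encard} with h𝓕
  have hVcard : V.card = n := by
    have : (V.card : ℕ∞) = n := by rw [← Set.encard_coe_eq_coe_finsetCard, hV, hn]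
    exact_mod_cast this
  have hinj : ∀ F ∈ 𝓕, ∀ F' ∈ 𝓕, (∀ v ∈ V, Ψ F (v, 1) = 0 → Ψ F' (v, 1) = 0) → F = F' := by
    intro F hF F' hF' hz
    exact (hΨ F hF.1 hF.2.1).2.2.2.2.2.2 F' hF'.1 hF'.2.1 hz
  have hfin : 𝓕.Finite := by
    apply Set.Finite.of_finite_image (f := fun F : Set E => F.extremePoints ℝ)
    · apply V.finite_toSet.finite_subsets.subset
      rintro _ ⟨F, hF, rfl⟩
      exact (hΨ F hF.1 hF.2.1).2.2.2.1
    · intro F hF F' hF' he
      have he' : F.extremePoints ℝ = F'.extremePoints ℝ := he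
      apply hinj F hF F' hF'
      intro v hv h0
      rw [(hΨ F hF.1 hF.2.1).2.2.1 v hv, he'] at h0
      exact ((hΨ F' hF'.1 hF'.2.1).2.2.1 v hv).2 h0
  set G : Finset (Set E) := hfin.toFinset with hG
  have hGm : ∀ F, F ∈ G ↔ F ∈ 𝓕 := fun F => hfin.mem_toFinset
  refine ⟨G.card, ?_, ?_⟩
  · rw [hfin.encard_eq_coe_toFinset_card]
  have h2 : ∀ F ∈ G, ∃ a ∈ V, ∃ a' ∈ V, a ≠ a' ∧ a ∈ Q ∧ a' ∈ Q ∧ Ψ F (a, 1) = 0 ∧
      Ψ F (a', 1) = 0 := by
    intro F hF
    have hF' := (hGm F).1 hF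
    obtain ⟨h1, h3, h4, h5⟩ := hF'
    have h6 : 1 < (F.extremePoints ℝ ∩ Q).encard := lt_of_lt_of_le (by norm_num) h5
    obtain ⟨a, a', ha, ha', hne⟩ := Set.one_lt_encard_iff.1 h6
    have hd := hΨ F h1 h3
    have haV : a ∈ V := by exact_mod_cast hd.2.2.2.1 ha.1
    have haV' : a' ∈ V := by exact_mod_cast hd.2.2.2.1 ha'.1
    exact ⟨a, haV, a', haV', hne, ha.2, ha'.2, (hd.2.2.1 a haV).2 ha.1, (hd.2.2.1 a' haV').2 ha'.1⟩
  have h5 : ∀ F ∈ G, 5 ≤ (V.filter (fun v => Ψ F (v, 1) = 0)).card := by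
    intro F hF
    obtain ⟨h1, h3, h4, _⟩ := (hGm F).1 hF
    have hd := hΨ F h1 h3
    have he : ((V.filter (fun v => Ψ F (v, 1) = 0) : Finset E) : Set E) = F.extremePoints ℝ := by
      ext v
      rw [Finset.coe_filter, Set.mem_setOf_eq]
      constructor
      · rintro ⟨hv, h0⟩
        exact (hd.2.2.1 v hv).1 h0
      · intro hv
        have hvV : v ∈ V := by exact_mod_cast hd.2.2.2.1 hv
        exact ⟨hvV, (hd.2.2.1 v hvV).2 hv⟩
    have hc : (F.extremePoints ℝ).encard = ((V.filter (fun v => Ψ F (v, 1) = 0)).card : ℕ∞) := by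
      rw [← he, Set.encard_coe_eq_coe_finsetCard]
    have h7 := hd.2.2.2.2.1
    rw [hc] at h7 h4
    have h8 : 4 ≤ (V.filter (fun v => Ψ F (v, 1) = 0)).card := by exact_mod_cast h7
    have h9 : (V.filter (fun v => Ψ F (v, 1) = 0)).card ≠ 4 := by
      intro h
      apply h4
      rw [h]
      rfl
    omega
  have hn1' : ∀ A : Finset E, (∀ v ∈ A, v ∈ V ∧ v ∈ Q) → A.card ≤ n₁ := by
    intro A hA
    have : (A.card : ℕ∞) ≤ n₁ := by
      rw [← Set.encard_coe_eq_coe_finsetCard, ← hn₁]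
      apply Set.encard_le_encard
      intro v hv
      have := hA v hv
      refine ⟨?_, this.2⟩
      rw [← hV]
      exact this.1
    exact_mod_cast this
  rcases G.eq_empty_or_nonempty with hGe | ⟨F, hF⟩
  · rw [hGe, Finset.card_empty, Nat.cast_zero]
    positivity
  · have hn5 : 5 ≤ n := by
      rw [← hVcard]
      exact (h5 F hF).trans (Finset.card_filter_le _ _)
    have hn11 : 1 ≤ n₁ := by
      obtain ⟨a, ha, _, _, _, haQ, _⟩ := h2 F hF
      have := hn1' {a} (fun v hv => by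
        rw [Finset.mem_singleton] at hv
        rw [hv]
        exact ⟨ha, haQ⟩)
      simpa using this
    have hle : n₁ ≤ n := by
      have : (n₁ : ℕ∞) ≤ n := by
        rw [← hn₁, ← hn]
        exact Set.encard_le_encard Set.inter_subset_left
      exact_mod_cast this
    refine numeric hn5 hn11 hle (fun M hM => ?_)
    rw [← hVcard]
    exact count_param hdim hconv hVspan G Ψ
      (fun F hF => (hΨ F ((hGm F).1 hF).1 ((hGm F).1 hF).2.1).1)
      (fun F hF => (hΨ F ((hGm F).1 hF).1 ((hGm F).1 hF).2.1).2.1)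
      (fun F hF F' hF' => hinj F ((hGm F).1 hF) F' ((hGm F').1 hF'))
      (fun F hF => (hΨ F ((hGm F).1 hF).1 ((hGm F).1 hF).2.1).2.2.2.2.2.1)
      Q hQ h2 h5 n₁ hn1' M hM

end Pool.Agent.Lib_helper82.Plane
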