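import Mathlib

set_option autoImplicit false

open scoped commutatorElement

/-!
# Elementary operations on functions from nodes to a space over the field with two elements
-/

namespace Pool.Agent.Lib_helper82

section Ambient

variable {N W : Type} [DecidableEq N] [AddCommGroup W] [Module (ZMod 2) W]

theorem add_self' (w : W) : w + w = 0 := ZModModule.add_self w

omit [Module (ZMod 2) W] in
theorem end_add_apply (r s : AddMonoid.End W) (w : W) : (r + s) w = r w + s w := rfl

omit [Module (ZMod 2) W] in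
theorem end_mul_apply (r s : AddMonoid.End W) (w : W) : (r * s) w = r (s w) := rfl

omit [DecidableEq N] in
theorem perm_apply_inv (σ : Equiv.Perm N) (k : N) : σ (σ⁻¹ k) = k := σ.apply_symm_apply k

omit [DecidableEq N] in
theorem perm_inv_apply (σ : Equiv.Perm N) (k : N) : σ⁻¹ (σ k) = k := σ.symm_apply_apply k

/-- A column operation: `f k` is replaced by `f k + ρ k (f g)` for `k ≠ g`. -/
def colFun (g : N) (ρ : N → AddMonoid.End W) (f : N → W) : N → W :=
  fun k => f k + if k = g then 0 else ρ k (f g)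

omit [Module (ZMod 2) W] in
theorem colFun_self (g : N) (ρ : N → AddMonoid.End W) (f : N → W) : colFun g ρ f g = f g := by
  simp [colFun]

theorem colFun_colFun (g : N) (ρ : N → AddMonoid.End W) (f : N → W) :
    colFun g ρ (colFun g ρ f) = f := by
  funext k
  by_cases h : k = g
  · subst h
    rw [colFun_self, colFun_self]
  · have e : colFun g ρ (colFun g ρ f) k = colFun g ρ f k + ρ k (colFun g ρ f g) := by
      rw [colFun, if_neg h]
    rw [e, colFun_self, colFun, if_neg h, add_assoc, add_self', add_zero]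

/-- A column operation. -/
def Col (g : N) (ρ : N → AddMonoid.End W) : Equiv.Perm (N → W) where
  toFun := colFun g ρ
  invFun := colFun g ρ
  left_inv := colFun_colFun g ρ
  right_inv := colFun_colFun g ρ

theorem Col_apply (g : N) (ρ : N → AddMonoid.End W) (f : N → W) (k : N) :
    Col g ρ f k = f k + if k = g then 0 else ρ k (f g) := rfl

theorem Col_apply_self (g : N) (ρ : N → AddMonoid.End W) (f : N → W) :
    Col g ρ f g = f g := colFun_self g ρ f

theorem Col_apply_ne (g : N) (ρ : N → AddMonoid.End W) (f : N → W) {k : N} (h : k ≠ g) :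
    Col g ρ f k = f k + ρ k (f g) := by
  rw [Col_apply, if_neg h]

theorem Col_apply_zero (g : N) (ρ : N → AddMonoid.End W) (f : N → W) {k : N} (h : ρ k = 0) :
    Col g ρ f k = f k := by
  rw [Col_apply, h]
  simp

theorem Col_inv (g : N) (ρ : N → AddMonoid.End W) : (Col g ρ)⁻¹ = Col g ρ := rfl

theorem Col_mul (g : N) (ρ ρ' : N → AddMonoid.End W) : Col g ρ * Col g ρ' = Col g (ρ + ρ') := by
  ext f k
  rw [Equiv.Perm.mul_apply]
  by_cases h : k = g
  · subst h
    rw [Col_apply_self, Col_apply_self, Col_apply_self]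
  · rw [Col_apply_ne _ _ _ h, Col_apply_self, Col_apply_ne _ _ _ h, Col_apply_ne _ _ _ h,
      Pi.add_apply, end_add_apply]
    abel

theorem Col_zero (g : N) : Col g (0 : N → AddMonoid.End W) = 1 := by
  ext f k
  rw [Col_apply_zero _ _ _ (by simp)]
  rfl

theorem Col_sq (g : N) (ρ : N → AddMonoid.End W) : Col g ρ * Col g ρ = 1 := by
  nth_rewrite 1 [← Col_inv]
  exact inv_mul_cancel _

/-- The elementary operation `f i += r (f j)`. -/
def EE (i j : N) (r : AddMonoid.End W) : Equiv.Perm (N → W) := Col j (Pi.single i r)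

/-- Permutation of the nodes. -/
def PP : Equiv.Perm N →* Equiv.Perm (N → W) where
  toFun σ := Equiv.arrowCongr σ (Equiv.refl W)
  map_one' := by
    ext f k
    rfl
  map_mul' σ τ := by
    ext f k
    rfl

omit [DecidableEq N] [AddCommGroup W] [Module (ZMod 2) W] in
theorem PP_apply (σ : Equiv.Perm N) (f : N → W) (k : N) : PP σ f k = f (σ⁻¹ k) := rfl

theorem conj_Col (σ : Equiv.Perm N) (g : N) (ρ : N → AddMonoid.End W) :
    PP σ * Col g ρ * (PP σ)⁻¹ = Col (σ g) (fun k => ρ (σ⁻¹ k)) := by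
  ext f k
  rw [← map_inv, Equiv.Perm.mul_apply, Equiv.Perm.mul_apply, PP_apply]
  by_cases h : k = σ g
  · subst h
    rw [Col_apply_self, perm_inv_apply, Col_apply_self, PP_apply, inv_inv]
  · have h' : σ⁻¹ k ≠ g := by
      rintro rfl
      exact h (by simp)
    rw [Col_apply_ne _ _ _ h, Col_apply_ne _ _ _ h', PP_apply, PP_apply, inv_inv,
      perm_apply_inv]

theorem conj_EE (σ : Equiv.Perm N) (i j : N) (r : AddMonoid.End W) :
    PP σ * EE i j r * (PP σ)⁻¹ = EE (σ i) (σ j) r := by
  unfold EE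
  rw [conj_Col]
  congr 1
  funext k
  by_cases h : k = σ i
  · subst h
    simp
  · have h' : σ⁻¹ k ≠ i := by
      rintro rfl
      exact h (by simp)
    rw [Pi.single_eq_of_ne h', Pi.single_eq_of_ne h]

theorem EE_inv (i j : N) (r : AddMonoid.End W) : (EE i j r)⁻¹ = EE i j r := Col_inv _ _

theorem EE_sq (i j : N) (r : AddMonoid.End W) : EE i j r * EE i j r = 1 := Col_sq _ _

theorem EE_self (i : N) (r : AddMonoid.End W) : EE i i r = 1 := by
  ext f k
  unfold EE
  by_cases h : k = i
  · subst h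
    rw [Col_apply_self]
    rfl
  · rw [Col_apply_zero _ _ _ (Pi.single_eq_of_ne h _)]
    rfl

theorem EE_zero (i j : N) : EE i j (0 : AddMonoid.End W) = 1 := by
  unfold EE
  rw [Pi.single_zero]
  exact Col_zero j

theorem EE_apply_self {i j : N} (h : i ≠ j) (r : AddMonoid.End W) (f : N → W) :
    EE i j r f i = f i + r (f j) := by
  unfold EE
  rw [Col_apply_ne _ _ _ h, Pi.single_eq_same]

theorem EE_apply_ne (i j : N) (r : AddMonoid.End W) (f : N → W) {k : N} (h : k ≠ i) :
    EE i j r f k = f k := by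
  unfold EE
  exact Col_apply_zero _ _ _ (Pi.single_eq_of_ne h _)

/-- Column operations with independent data commute. -/
theorem Col_commute {g h : N} {ρ ρ' : N → AddMonoid.End W} (h1 : ρ h = 0) (h2 : ρ' g = 0) :
    Commute (Col g ρ) (Col h ρ') := by
  by_cases hgh : g = h
  · subst hgh
    show Col g ρ * Col g ρ' = Col g ρ' * Col g ρ
    rw [Col_mul, Col_mul, add_comm]
  · show Col g ρ * Col h ρ' = Col h ρ' * Col g ρ
    ext f k
    rw [Equiv.Perm.mul_apply, Equiv.Perm.mul_apply]
    have e1 : Col h ρ' f g = f g := Col_apply_zero _ _ _ h2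
    have e2 : Col g ρ f h = f h := Col_apply_zero _ _ _ h1
    by_cases hk1 : k = g
    · subst hk1
      rw [Col_apply_self, Col_apply_zero _ _ _ h2, Col_apply_zero _ _ _ h2, Col_apply_self]
    · by_cases hk2 : k = h
      · subst hk2
        rw [Col_apply_zero _ _ _ h1, Col_apply_self, Col_apply_self, Col_apply_zero _ _ _ h1]
      · rw [Col_apply_ne _ _ _ hk1, Col_apply_ne _ _ _ hk2, Col_apply_ne _ _ _ hk2,
          Col_apply_ne _ _ _ hk1, e1, e2]
        abel

theorem EE_commute {i j k l : N} (h1 : j ≠ k) (h2 : i ≠ l) (r s : AddMonoid.End W) :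
    Commute (EE i j r) (EE k l s) :=
  Col_commute (Pi.single_eq_of_ne (Ne.symm h2) _) (Pi.single_eq_of_ne h1 _)

/-- The commutator of two elementary operations. -/
theorem EE_commutator {i j k : N} (h1 : i ≠ j) (h2 : j ≠ k) (h3 : i ≠ k)
    (r s : AddMonoid.End W) : ⁅EE i j r, EE j k s⁆ = EE i k (r * s) := by
  rw [commutatorElement_def, EE_inv, EE_inv]
  ext f l
  simp only [Equiv.Perm.mul_apply]
  by_cases hi : l = i
  · subst hi
    rw [EE_apply_self h1, EE_apply_ne j k s _ h1, EE_apply_self h1, EE_apply_self h2,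
      EE_apply_ne _ _ _ _ h1, EE_apply_self h3, EE_apply_self h2, EE_apply_ne l j r _ h1.symm,
      EE_apply_ne l j r _ h3.symm, EE_apply_ne j k s _ h2.symm, EE_apply_self h2]
    rw [end_mul_apply, map_add, map_add, map_add]
    have e1 : f l + (r (f j) + r (s (f k))) + (r (f j) + r (s (f k)) + r (s (f k)))
      = f l + r (s (f k)) + (r (f j) + r (f j)) + (r (s (f k)) + r (s (f k))) := by abel
    rw [e1, add_self', add_self', add_zero, add_zero]
  · rw [EE_apply_ne _ _ _ _ hi, EE_apply_ne _ _ _ _ hi]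
    by_cases hj : l = j
    · subst hj
      rw [EE_apply_self h2, EE_apply_ne _ _ _ _ hi, EE_apply_ne _ _ _ _ h3.symm,
        EE_apply_self h2, EE_apply_ne _ _ _ _ h2.symm, add_assoc, add_self', add_zero]
    · rw [EE_apply_ne _ _ _ _ hj, EE_apply_ne _ _ _ _ hi, EE_apply_ne _ _ _ _ hj]

/-- Transpositions of nodes. -/
theorem PP_swap {i j : N} (h : i ≠ j) :
    (PP (Equiv.swap i j) : Equiv.Perm (N → W)) = EE i j 1 * EE j i 1 * EE i j 1 := by
  ext f l
  simp only [Equiv.Perm.mul_apply, PP_apply, Equiv.swap_inv]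
  by_cases hi : l = i
  · subst hi
    rw [Equiv.swap_apply_left, EE_apply_self h, EE_apply_ne _ _ _ _ h, EE_apply_self h,
      EE_apply_self h.symm, EE_apply_ne _ _ _ _ h.symm, EE_apply_self h]
    simp only [AddMonoid.End.one_apply]
    have e1 : f l + f j + (f j + (f l + f j)) = f j + (f l + f l) + (f j + f j) := by abel
    rw [e1, add_self', add_self', add_zero, add_zero]
  · rw [EE_apply_ne _ _ _ _ hi]
    by_cases hj : l = j
    · subst hj
      rw [Equiv.swap_apply_right, EE_apply_self h.symm, EE_apply_ne _ _ _ _ hi,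
        EE_apply_self h]
      simp only [AddMonoid.End.one_apply]
      have e1 : f l + (f i + f l) = f i + (f l + f l) := by abel
      rw [e1, add_self', add_zero]
    · rw [Equiv.swap_apply_of_ne_of_ne hi hj, EE_apply_ne _ _ _ _ hj, EE_apply_ne _ _ _ _ hi]

section Group

variable {A : Type} [Group A]

theorem commutator_mul_left {a b c : A} (h : Commute b c) : ⁅a * b, c⁆ = ⁅a, c⁆ := by
  rw [commutatorElement_def, commutatorElement_def]
  have : a * b * c * (a * b)⁻¹ = a * (b * c * b⁻¹) * a⁻¹ := by group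
  rw [this, h.eq, mul_inv_cancel_right]

theorem commutator_mul_right {a b c : A} (h : Commute c b) : ⁅c, a * b⁆ = ⁅c, a⁆ := by
  rw [commutatorElement_def, commutatorElement_def]
  have : c * (a * b) * c⁻¹ * (a * b)⁻¹ = c * a * (b * c⁻¹ * b⁻¹) * a⁻¹ := by group
  rw [this]
  have h2 : b * c⁻¹ * b⁻¹ = c⁻¹ := by
    rw [← h.inv_left.eq, mul_inv_cancel_right]
  rw [h2]

end Group

/-- Source pairs. -/
theorem row_pair {f g g' h : N} (h1 : f ≠ g) (h3 : g ≠ g') (h4 : g ≠ h)
    (h5 : f ≠ h) : ⁅EE f g (1 : AddMonoid.End W) * EE f g' 1, EE g h (1 : AddMonoid.End W)⁆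
      = EE f h (1 : AddMonoid.End W) := by
  rw [commutator_mul_left (EE_commute (W := W) h3.symm h5 1 1), EE_commutator h1 h4 h5, mul_one]

theorem col_pair {f f' g h : N} (r : AddMonoid.End W) (h1 : h ≠ f) (h2 : h ≠ g) (h3 : f ≠ g)
    (h4 : f ≠ f') : ⁅EE h f (1 : AddMonoid.End W), EE f g r * EE f' g r⁆ = EE h g r := by
  rw [commutator_mul_right (EE_commute (W := W) h4 h2 1 r), EE_commutator h1 h3 h2, one_mul]

/-- Supports. -/
def SuppOn (F : Set N) (a : Equiv.Perm (N → W)) : Prop :=
  (∀ f, ∀ i, i ∉ F → a f i = f i) ∧ ∀ f f' : N → W, (∀ i ∈ F, f i = f' i) → ∀ i ∈ F, a f i = a f' i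

omit [DecidableEq N] [AddCommGroup W] [Module (ZMod 2) W] in
theorem SuppOn.commute {F F' : Set N} {a b : Equiv.Perm (N → W)} (ha : SuppOn F a)
    (hb : SuppOn F' b) (h : Disjoint F F') : Commute a b := by
  show a * b = b * a
  ext f i
  rw [Equiv.Perm.mul_apply, Equiv.Perm.mul_apply]
  by_cases hi : i ∈ F
  · have hi' : i ∉ F' := fun h' => Set.disjoint_left.1 h hi h'
    rw [hb.1 _ i hi']
    apply ha.2 _ _ _ i hi
    intro k hk
    exact hb.1 f k (fun h' => Set.disjoint_left.1 h hk h')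
  · rw [ha.1 _ i hi]
    by_cases hi' : i ∈ F'
    · apply Eq.symm
      apply hb.2 _ _ _ i hi'
      intro k hk
      exact ha.1 f k (fun h' => Set.disjoint_left.1 h h' hk)
    · rw [hb.1 _ i hi', hb.1 _ i hi', ha.1 _ i hi]

omit [DecidableEq N] [AddCommGroup W] [Module (ZMod 2) W] in
theorem SuppOn.mono {F F' : Set N} {a : Equiv.Perm (N → W)} (ha : SuppOn F a) (h : F ⊆ F') :
    SuppOn F' a := by
  refine ⟨fun f i hi => ha.1 f i (fun h' => hi (h h')), ?_⟩
  intro f f' hff i hi
  by_cases hiF : i ∈ F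
  · exact ha.2 f f' (fun k hk => hff k (h hk)) i hiF
  · rw [ha.1 f i hiF, ha.1 f' i hiF]
    exact hff i hi

omit [DecidableEq N] [AddCommGroup W] [Module (ZMod 2) W] in
theorem SuppOn.mul {F : Set N} {a b : Equiv.Perm (N → W)} (ha : SuppOn F a) (hb : SuppOn F b) :
    SuppOn F (a * b) := by
  constructor
  · intro f i hi
    rw [Equiv.Perm.mul_apply, ha.1 _ i hi, hb.1 _ i hi]
  · intro f f' hff i hi
    rw [Equiv.Perm.mul_apply, Equiv.Perm.mul_apply]
    exact ha.2 _ _ (hb.2 f f' hff) i hi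

theorem suppOn_Col {F : Set N} {g : N} {ρ : N → AddMonoid.End W} (hg : g ∈ F)
    (hρ : ∀ k, k ∉ F → ρ k = 0) : SuppOn F (Col g ρ) := by
  constructor
  · intro f i hi
    exact Col_apply_zero _ _ _ (hρ i hi)
  · intro f f' hff i hi
    rw [Col_apply, Col_apply, hff i hi, hff g hg]

theorem suppOn_EE {F : Set N} {i j : N} (r : AddMonoid.End W) (hi : i ∈ F) (hj : j ∈ F) :
    SuppOn F (EE i j r) := by
  apply suppOn_Col hj
  intro k hk
  apply Pi.single_eq_of_ne
  rintro rfl
  exact hk hi

omit [DecidableEq N] [AddCommGroup W] [Module (ZMod 2) W] in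
theorem suppOn_PP {F : Set N} {σ : Equiv.Perm N} (h : ∀ k, k ∉ F → σ k = k) :
    SuppOn F (PP σ : Equiv.Perm (N → W)) := by
  constructor
  · intro f i hi
    rw [PP_apply]
    congr 1
    rw [Equiv.Perm.inv_eq_iff_eq]
    exact (h i hi).symm
  · intro f f' hff i hi
    rw [PP_apply, PP_apply]
    apply hff
    by_contra hn
    have := h _ hn
    rw [perm_apply_inv] at this
    exact hn (this ▸ hi)

omit [DecidableEq N] [AddCommGroup W] [Module (ZMod 2) W] in
theorem SuppOn.conj {F : Set N} {a : Equiv.Perm (N → W)} (ha : SuppOn F a) (σ : Equiv.Perm N) :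
    SuppOn (σ '' F) (PP σ * a * (PP σ)⁻¹) := by
  rw [← map_inv]
  constructor
  · intro f i hi
    rw [Equiv.Perm.mul_apply, Equiv.Perm.mul_apply, PP_apply]
    have h1 : σ⁻¹ i ∉ F := by
      intro h
      exact hi ⟨_, h, by simp⟩
    rw [ha.1 _ _ h1, PP_apply, inv_inv, perm_apply_inv]
  · intro f f' hff i hi
    obtain ⟨k, hk, rfl⟩ := hi
    rw [Equiv.Perm.mul_apply, Equiv.Perm.mul_apply, PP_apply, Equiv.Perm.mul_apply,
      Equiv.Perm.mul_apply, PP_apply, perm_inv_apply]
    apply ha.2 _ _ _ k hk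
    intro l hl
    rw [PP_apply, PP_apply, inv_inv]
    exact hff _ ⟨l, hl, rfl⟩

end Ambient

end Pool.Agent.Lib_helper82
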