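import Mathlib

set_option autoImplicit false

open scoped commutatorElement

/-!
# Prescribing the values of finitely many independent homomorphisms to a perfect group
-/

namespace Pool.Agent.Lib_helper82

section Goursat

variable {F G I : Type} [Group F] [Group G]

theorem goursat_aux (hG : commutator G = ⊤) (φ : I → F →* G)
    (hind : ∀ i j, i ≠ j → ∀ g : G, ∃ w : F, φ i w = g ∧ φ j w = 1)
    (K : Subgroup F) (hKn : K.Normal) (hK : ∀ i, ∀ g : G, ∃ w ∈ K, φ i w = g) (s : Finset I) :
    ∃ N : Subgroup F, N.Normal ∧ N ≤ K ∧ (∀ j ∈ s, N ≤ (φ j).ker) ∧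
      ∀ i, i ∉ s → N.map (φ i) = ⊤ := by
  classical
  induction s using Finset.induction_on with
  | empty =>
    refine ⟨K, hKn, le_rfl, by simp, ?_⟩
    intro i _
    rw [eq_top_iff]
    intro g _
    obtain ⟨w, hw, rfl⟩ := hK i g
    exact Subgroup.mem_map_of_mem _ hw
  | insert j s hj ih =>
    obtain ⟨N, hN, hNK, hNs, hNt⟩ := ih
    refine ⟨⁅N, (φ j).ker⁆, inferInstance, ?_, ?_, ?_⟩
    · exact (Subgroup.commutator_le_left N (φ j).ker).trans hNK
    · intro k hk
      rcases Finset.mem_insert.1 hk with rfl | hk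
      · exact Subgroup.commutator_le_right N (φ k).ker
      · exact (Subgroup.commutator_le_left N (φ j).ker).trans (hNs k hk)
    · intro i hi
      have hij : i ≠ j := by
        rintro rfl
        exact hi (Finset.mem_insert_self _ _)
      have his : i ∉ s := fun h => hi (Finset.mem_insert_of_mem h)
      rw [Subgroup.map_commutator, hNt i his]
      have h2 : (φ j).ker.map (φ i) = ⊤ := by
        rw [eq_top_iff]
        intro g _
        obtain ⟨w, hw1, hw2⟩ := hind i j hij g
        rw [← hw1]
        exact Subgroup.mem_map_of_mem _ (by rwa [MonoidHom.mem_ker])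
      rw [h2]
      exact hG

theorem goursat [Finite I] (hG : commutator G = ⊤) (φ : I → F →* G)
    (hind : ∀ i j, i ≠ j → ∀ g : G, ∃ w : F, φ i w = g ∧ φ j w = 1)
    (K : Subgroup F) (hKn : K.Normal) (hK : ∀ i, ∀ g : G, ∃ w ∈ K, φ i w = g) (t : I → G) :
    ∃ w ∈ K, ∀ i, φ i w = t i := by
  classical
  have : Fintype I := Fintype.ofFinite I
  have h1 : ∀ i, ∃ w ∈ K, φ i w = t i ∧ ∀ j, j ≠ i → φ j w = 1 := by
    intro i
    obtain ⟨N, -, hNK, hNs, hNt⟩ := goursat_aux hG φ hind K hKn hK (Finset.univ.erase i)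
    have h2 : t i ∈ N.map (φ i) := by
      rw [hNt i (by simp)]
      trivial
    obtain ⟨w, hw, hwt⟩ := Subgroup.mem_map.1 h2
    refine ⟨w, hNK hw, hwt, ?_⟩
    intro j hj
    have h3 := hNs j (by simp [hj]) hw
    rwa [MonoidHom.mem_ker] at h3
  choose w hwK hwt hw1 using h1
  have h4 : ∀ s : Finset I, ∃ v ∈ K, ∀ i, φ i v = if i ∈ s then t i else 1 := by
    intro s
    induction s using Finset.induction_on with
    | empty => exact ⟨1, K.one_mem, by simp⟩
    | insert j s hj ih =>
      obtain ⟨v, hv, hvt⟩ := ih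
      refine ⟨v * w j, K.mul_mem hv (hwK j), ?_⟩
      intro i
      rw [map_mul, hvt]
      by_cases hij : i = j
      · subst hij
        rw [if_neg hj, one_mul, hwt, if_pos (Finset.mem_insert_self _ _)]
      · rw [hw1 j i hij, mul_one]
        by_cases his : i ∈ s
        · rw [if_pos his, if_pos (Finset.mem_insert_of_mem his)]
        · rw [if_neg his, if_neg (by simp [hij, his])]
  obtain ⟨v, hv, hvt⟩ := h4 Finset.univ
  exact ⟨v, hv, fun i => by simpa using hvt i⟩

end Goursat

end Pool.Agent.Lib_helper82
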