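import Mathlib

set_option autoImplicit false

open scoped commutatorElement

/-!
# Perfect groups generated by an involution and an element of odd prime order
-/

namespace Pool.Agent.Lib_helper82

section TwoGen

/-- A nontrivial perfect group generated by `x` and `y` with `x ^ 2 = 1` and `y ^ q = 1`. -/
structure Base2 (G : Type) [Group G] (x y : G) (q : ℕ) : Prop where
  prime : q.Prime
  odd : q ≠ 2
  hx : x ^ 2 = 1
  hy : y ^ q = 1
  gen : Subgroup.closure {x, y} = ⊤
  perf : commutator G = ⊤
  nontriv : ∃ g : G, g ≠ 1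

/-- The powers of `x` and of `y`. -/
def TT {G : Type} [Group G] (x y : G) : Set G := {g | g = x ∨ ∃ n : ℕ, g = y ^ n}

variable {G Q : Type} [Group G] [Group Q] {x y : G} {q : ℕ}

theorem one_mem_TT : (1 : G) ∈ TT x y := Or.inr ⟨0, by simp⟩

theorem x_mem_TT : x ∈ TT x y := Or.inl rfl

theorem y_mem_TT : y ∈ TT x y := Or.inr ⟨1, by simp⟩

theorem trivial_of_commute (B : Base2 G x y q) (f : G →* Q) (h : Commute (f x) (f y)) :
    ∀ g, f g = 1 := by
  have h1 : ∀ g, Commute (f g) (f x) ∧ Commute (f g) (f y) := by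
    intro g
    have : Subgroup.closure {x, y} ≤ (Subgroup.centralizer {f x, f y}).comap f := by
      rw [Subgroup.closure_le]
      rintro z (rfl | rfl)
      · rw [SetLike.mem_coe, Subgroup.mem_comap, Subgroup.mem_centralizer_iff]
        rintro w (rfl | rfl)
        · rfl
        · exact h.symm.eq
      · rw [SetLike.mem_coe, Subgroup.mem_comap, Subgroup.mem_centralizer_iff]
        rintro w (rfl | rfl)
        · exact h.eq
        · rfl
    have hg : g ∈ Subgroup.closure {x, y} := by rw [B.gen]; trivial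
    have h2 := this hg
    rw [Subgroup.mem_comap, Subgroup.mem_centralizer_iff] at h2
    exact ⟨(h2 (f x) (by simp)).symm, (h2 (f y) (by simp)).symm⟩
  have h3 : ∀ g k, Commute (f g) (f k) := by
    intro g k
    have : Subgroup.closure {x, y} ≤ (Subgroup.centralizer {f g}).comap f := by
      rw [Subgroup.closure_le]
      rintro z (rfl | rfl)
      · rw [SetLike.mem_coe, Subgroup.mem_comap, Subgroup.mem_centralizer_iff]
        rintro w rfl
        exact (h1 g).1.eq
      · rw [SetLike.mem_coe, Subgroup.mem_comap, Subgroup.mem_centralizer_iff]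
        rintro w rfl
        exact (h1 g).2.eq
    have hk : k ∈ Subgroup.closure {x, y} := by rw [B.gen]; trivial
    have h2 := this hk
    rw [Subgroup.mem_comap, Subgroup.mem_centralizer_iff] at h2
    exact h2 (f g) rfl
  have h4 : commutator G ≤ f.ker := by
    rw [commutator_def, Subgroup.commutator_le]
    intro g _ k _
    rw [MonoidHom.mem_ker, map_commutatorElement, commutatorElement_eq_one_iff_commute]
    exact h3 g k
  intro g
  have hg : g ∈ commutator G := by rw [B.perf]; trivial
  exact h4 hg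

theorem trivial_of_y (B : Base2 G x y q) (f : G →* Q) (h : f y = 1) : ∀ g, f g = 1 :=
  trivial_of_commute B f (by rw [h]; exact Commute.one_right _)

theorem trivial_of_x (B : Base2 G x y q) (f : G →* Q) (h : f x = 1) : ∀ g, f g = 1 :=
  trivial_of_commute B f (by rw [h]; exact Commute.one_left _)

theorem not_commute (B : Base2 G x y q) : ¬ Commute x y := by
  intro h
  obtain ⟨g, hg⟩ := B.nontriv
  exact hg (trivial_of_commute B (MonoidHom.id G) h g)

theorem x_ne_one (B : Base2 G x y q) : x ≠ 1 := by
  intro h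
  exact not_commute B (by rw [h]; exact Commute.one_left _)

theorem y_ne_one (B : Base2 G x y q) : y ≠ 1 := by
  intro h
  exact not_commute B (by rw [h]; exact Commute.one_right _)

/-- If two powers of `y` get equal then `y` becomes trivial. -/
theorem pow_collapse (B : Base2 G x y q) (f : G →* Q) {m n : ℕ} (h : y ^ m ≠ y ^ n)
    (hf : f y ^ m = f y ^ n) : f y = 1 := by
  have h1 : orderOf (f y) ∣ q := orderOf_dvd_of_pow_eq_one (by rw [← map_pow, B.hy, map_one])
  rcases (Nat.dvd_prime B.prime).1 h1 with h2 | h2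
  · exact orderOf_eq_one_iff.1 h2
  · exfalso
    apply h
    have h3 : m % q = n % q := by
      rw [← h2]
      exact (pow_inj_mod).1 hf
    rw [pow_eq_pow_mod m B.hy, h3, ← pow_eq_pow_mod n B.hy]

theorem inv_x (B : Base2 G x y q) (f : G →* Q) : (f x)⁻¹ = f x := by
  rw [inv_eq_iff_mul_eq_one, ← map_mul, ← pow_two, B.hx, map_one]

/-- An element killed by `2` and by `q` is trivial. -/
theorem eq_one_of_pow (B : Base2 G x y q) {g : Q} (h2 : g ^ 2 = 1) (hq : g ^ q = 1) : g = 1 := by
  have h1 : orderOf g ∣ 2 := orderOf_dvd_of_pow_eq_one h2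
  have h3 : orderOf g ∣ q := orderOf_dvd_of_pow_eq_one hq
  have h4 : Nat.Coprime 2 q := (Nat.coprime_primes Nat.prime_two B.prime).2 (Ne.symm B.odd)
  have h5 : orderOf g ∣ 1 := by
    have := Nat.dvd_gcd h1 h3
    rwa [h4] at this
  exact orderOf_eq_one_iff.1 (Nat.dvd_one.1 h5)

/-- If `x` normalises the powers of `y` then everything is trivial. -/
theorem trivial_of_normal (B : Base2 G x y q) (f : G →* Q)
    (h : f x * f y * (f x)⁻¹ ∈ Subgroup.zpowers (f y)) : ∀ g, f g = 1 := by
  set N : Subgroup G := (Subgroup.zpowers (f y)).comap f with hN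
  have hconj : ∀ n, n ∈ N → x * n * x⁻¹ ∈ N := by
    intro n hn
    rw [hN, Subgroup.mem_comap] at hn ⊢
    obtain ⟨k, hk⟩ := Subgroup.mem_zpowers_iff.1 hn
    rw [map_mul, map_mul, map_inv, ← hk, ← conj_zpow]
    exact Subgroup.zpow_mem _ h k
  have hx1 : x⁻¹ = x := inv_x B (MonoidHom.id G)
  have hnorm : N.Normal := by
    rw [← Subgroup.normalizer_eq_top_iff, eq_top_iff, ← B.gen, Subgroup.closure_le]
    rintro z (rfl | rfl)
    · rw [SetLike.mem_coe, Subgroup.mem_normalizer_iff]
      intro n
      refine ⟨hconj n, fun hn => ?_⟩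
      have := hconj _ hn
      rw [hx1] at this
      have e : z * (z * n * z) * z = z ^ 2 * n * z ^ 2 := by
        simp only [pow_two, mul_assoc]
      rw [e, B.hx, one_mul, mul_one] at this
      exact this
    · have hy : z ∈ N := by
        rw [hN, Subgroup.mem_comap]
        exact Subgroup.mem_zpowers _
      exact Subgroup.le_normalizer hy
  have h1 : ∀ g, QuotientGroup.mk' N g = 1 := by
    apply trivial_of_y B
    rw [QuotientGroup.mk'_apply, QuotientGroup.eq_one_iff, hN, Subgroup.mem_comap]
    exact Subgroup.mem_zpowers _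
  have h2 : x ∈ N := by
    have := h1 x
    rwa [QuotientGroup.mk'_apply, QuotientGroup.eq_one_iff] at this
  rw [hN, Subgroup.mem_comap] at h2
  obtain ⟨k, hk⟩ := Subgroup.mem_zpowers_iff.1 h2
  apply trivial_of_commute B
  rw [← hk]
  exact Commute.zpow_self (f y) k

/-- Collapse of two elements of `TT`. -/
theorem collapse_pair (B : Base2 G x y q) (f : G →* Q) {c d : G} (hc : c ∈ TT x y)
    (hd : d ∈ TT x y) (hcd : c ≠ d) (h : f c = f d) : ∀ g, f g = 1 := by
  rcases hc with rfl | ⟨m, rfl⟩
  · rcases hd with rfl | ⟨n, rfl⟩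
    · exact absurd rfl hcd
    · apply trivial_of_commute B
      rw [h, map_pow]
      exact Commute.pow_self _ _
  · rcases hd with rfl | ⟨n, rfl⟩
    · apply trivial_of_commute B
      rw [← h, map_pow]
      exact Commute.pow_self _ _
    · apply trivial_of_y B
      apply pow_collapse B f hcd
      rwa [map_pow, map_pow] at h

/-- Collapse if an element of `TT` becomes `x * y`. -/
theorem collapse_xy (B : Base2 G x y q) (f : G →* Q) {c : G} (hc : c ∈ TT x y)
    (h : f c = f x * f y) : ∀ g, f g = 1 := by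
  rcases hc with rfl | ⟨m, rfl⟩
  · apply trivial_of_y B
    exact mul_left_cancel (show f c * f y = f c * 1 by rw [mul_one, ← h])
  · apply trivial_of_commute B
    have : f x = f y ^ m * (f y)⁻¹ := by
      rw [← map_pow, h]
      group
    rw [this]
    exact (Commute.pow_self _ _).mul_left ((Commute.refl _).inv_left)

/-- Collapse if an element of `TT` becomes conjugate to another by `x * y`. -/
theorem collapse_conj (B : Base2 G x y q) (f : G →* Q) {c d : G} (hc : c ∈ TT x y)
    (hd : d ∈ TT x y) (hcd : ¬ (c = 1 ∧ d = 1))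
    (h : f d = (f x * f y)⁻¹ * f c * (f x * f y)) : ∀ g, f g = 1 := by
  by_cases hc1 : c = 1
  · subst hc1
    rw [map_one, mul_one, inv_mul_cancel] at h
    have hd1 : d ≠ 1 := fun hd1 => hcd ⟨rfl, hd1⟩
    exact collapse_pair B f hd one_mem_TT hd1 (by rw [h, map_one])
  by_cases hd1 : d = 1
  · subst hd1
    rw [map_one] at h
    have h' : f c = 1 := by
      have : f c = (f x * f y) * ((f x * f y)⁻¹ * f c * (f x * f y)) * (f x * f y)⁻¹ := by group
      rw [this, ← h]
      group
    exact collapse_pair B f hc one_mem_TT hc1 (by rw [h', map_one])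
  have hX := inv_x B f
  have hX2 : f x ^ 2 = 1 := by rw [← map_pow, B.hx, map_one]
  have hYq : f y ^ q = 1 := by rw [← map_pow, B.hy, map_one]
  rcases hc with rfl | ⟨m, rfl⟩
  · rcases hd with rfl | ⟨n, rfl⟩
    · apply trivial_of_commute B
      have h1 : (f d * f y)⁻¹ * f d * (f d * f y) = (f y)⁻¹ * f d * f y := by
        group
      rw [h1] at h
      have h2 : f y * f d = f d * f y := by
        calc f y * f d = f y * ((f y)⁻¹ * f d * f y) := by rw [← h]
          _ = f d * f y := by group
      exact h2.symm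
    · -- `f y ^ n` is conjugate to `f x`
      have h1 : (f y ^ n) ^ 2 = 1 := by
        rw [← map_pow f y n, h]
        have : ((f c * f y)⁻¹ * f c * (f c * f y)) ^ 2
            = (f c * f y)⁻¹ * (f c ^ 2) * (f c * f y) := by
          rw [pow_two, pow_two]
          group
        rw [this, hX2]
        group
      have h2 : (f y ^ n) ^ q = 1 := by rw [← pow_mul, mul_comm, pow_mul, hYq, one_pow]
      have h3 : f y ^ n = 1 := eq_one_of_pow B h1 h2
      exact collapse_pair B f (Or.inr ⟨n, rfl⟩) one_mem_TT hd1 (by rw [map_pow, h3, map_one])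
  · rcases hd with rfl | ⟨n, rfl⟩
    · apply trivial_of_x B
      apply eq_one_of_pow B hX2
      have h1 : ((f d * f y)⁻¹ * f (y ^ m) * (f d * f y)) ^ q
          = (f d * f y)⁻¹ * (f (y ^ m)) ^ q * (f d * f y) := by
        have := conj_pow (i := q) (a := (f d * f y)⁻¹) (b := f (y ^ m))
        rw [inv_inv] at this
        exact this
      have h3 : f (y ^ m) ^ q = 1 := by rw [map_pow, ← pow_mul, mul_comm, pow_mul, hYq, one_pow]
      rw [h, h1, h3]
      group
    · by_cases hY : f y = 1
      · exact trivial_of_y B f hY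
      · -- the order of `f y` is `q`
        have h4 : orderOf (f y) = q := by
          rcases (Nat.dvd_prime B.prime).1 (orderOf_dvd_of_pow_eq_one hYq) with h5 | h5
          · exact absurd (orderOf_eq_one_iff.1 h5) hY
          · exact h5
        have h5 : ¬ q ∣ m := by
          intro h6
          apply hc1
          obtain ⟨k, rfl⟩ := h6
          rw [pow_mul, B.hy, one_pow]
        have h6 : Nat.Coprime m q := ((Nat.Prime.coprime_iff_not_dvd B.prime).2 h5).symm
        obtain ⟨m', -, hm'⟩ := Nat.exists_mul_mod_eq_one_of_coprime h6 B.prime.one_lt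
        have h7 : (f y ^ m) ^ m' = f y := by
          rw [← pow_mul, pow_eq_pow_mod (m * m') hYq, hm', pow_one]
        apply trivial_of_normal B
        have h8 : f y ^ n = (f x) * f y ^ m * (f x)⁻¹ := by
          rw [map_pow, map_pow] at h
          have h9 : f y ^ n = f y * f y ^ n * (f y)⁻¹ := by
            rw [← pow_succ', pow_succ]; group
          rw [h9, h]
          have : f y * ((f x * f y)⁻¹ * f y ^ m * (f x * f y)) * (f y)⁻¹
              = (f x)⁻¹ * f y ^ m * f x := by group
          rw [this, hX]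
        have h9 : f x * f y * (f x)⁻¹ = (f y ^ n) ^ m' := by
          rw [h8, conj_pow, h7]
        rw [h9]
        exact Subgroup.pow_mem _ (Subgroup.pow_mem _ (Subgroup.mem_zpowers _) _) _

/-- Two noncommuting elements of `TT`. -/
theorem mixed_cases {s t : G} (hs : s ∈ TT x y) (ht : t ∈ TT x y)
    (h : ¬ Commute s t) : (s = x ∧ ∃ n : ℕ, t = y ^ n) ∨ (t = x ∧ ∃ n : ℕ, s = y ^ n) := by
  rcases hs with rfl | ⟨m, rfl⟩
  · rcases ht with rfl | ⟨n, rfl⟩
    · exact absurd (Commute.refl _) h
    · exact Or.inl ⟨rfl, n, rfl⟩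
  · rcases ht with rfl | ⟨n, rfl⟩
    · exact Or.inr ⟨rfl, m, rfl⟩
    · exact absurd (Commute.pow_pow_self y m n) h

theorem pow_generates (B : Base2 G x y q) {n : ℕ} (hn : y ^ n ≠ 1) : ∃ m : ℕ, (y ^ n) ^ m = y := by
  have h5 : ¬ q ∣ n := by
    intro h6
    apply hn
    obtain ⟨k, rfl⟩ := h6
    rw [pow_mul, B.hy, one_pow]
  have h6 : Nat.Coprime n q := ((Nat.Prime.coprime_iff_not_dvd B.prime).2 h5).symm
  obtain ⟨m, -, hm⟩ := Nat.exists_mul_mod_eq_one_of_coprime h6 B.prime.one_lt
  refine ⟨m, ?_⟩
  rw [← pow_mul, pow_eq_pow_mod (n * m) B.hy, hm, pow_one]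

theorem mixed_closure (B : Base2 G x y q) {s t : G} (hs : s ∈ TT x y) (ht : t ∈ TT x y)
    (h : ¬ Commute s t) : Subgroup.closure {s, t} = ⊤ := by
  rw [eq_top_iff, ← B.gen, Subgroup.closure_le]
  rcases mixed_cases hs ht h with ⟨rfl, n, rfl⟩ | ⟨rfl, n, rfl⟩
  · have hn : y ^ n ≠ 1 := by
      intro hn
      exact h (by rw [hn]; exact Commute.one_right _)
    obtain ⟨m, hm⟩ := pow_generates B hn
    rintro z (rfl | rfl)
    · exact Subgroup.subset_closure (by simp)
    · rw [SetLike.mem_coe, ← hm]
      apply Subgroup.pow_mem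
      exact Subgroup.subset_closure (by simp [hm])
  · have hn : y ^ n ≠ 1 := by
      intro hn
      exact h (by rw [hn]; exact Commute.one_left _)
    obtain ⟨m, hm⟩ := pow_generates B hn
    rintro z (rfl | rfl)
    · exact Subgroup.subset_closure (by simp)
    · rw [SetLike.mem_coe, ← hm]
      apply Subgroup.pow_mem
      exact Subgroup.subset_closure (by simp [hm])

/-- Collapse of a noncommuting pair of `TT`. -/
theorem collapse_mixed (B : Base2 G x y q) (f : G →* Q) {s t : G} (hs : s ∈ TT x y)
    (ht : t ∈ TT x y) (h : ¬ Commute s t) (hf : Commute (f s) (f t)) : ∀ g, f g = 1 := by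
  rcases mixed_cases hs ht h with ⟨rfl, n, rfl⟩ | ⟨rfl, n, rfl⟩
  · have hn : y ^ n ≠ 1 := by
      intro hn
      exact h (by rw [hn]; exact Commute.one_right _)
    obtain ⟨m, hm⟩ := pow_generates B hn
    apply trivial_of_commute B
    rw [← hm, map_pow]
    exact hf.pow_right m
  · have hn : y ^ n ≠ 1 := by
      intro hn
      exact h (by rw [hn]; exact Commute.one_left _)
    obtain ⟨m, hm⟩ := pow_generates B hn
    apply trivial_of_commute B
    rw [← hm, map_pow]
    exact hf.symm.pow_right m

/-- A normal closure is everything if the quotient collapses. -/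
theorem normalClosure_eq_top {g : G}
    (h : ∀ f : G →* G ⧸ Subgroup.normalClosure {g}, f g = 1 → ∀ k, f k = 1) :
    Subgroup.normalClosure {g} = ⊤ := by
  have h1 := h (QuotientGroup.mk' (Subgroup.normalClosure {g})) (by
    rw [QuotientGroup.mk'_apply, QuotientGroup.eq_one_iff]
    exact Subgroup.subset_normalClosure (by simp))
  rw [eq_top_iff]
  intro k _
  have := h1 k
  rwa [QuotientGroup.mk'_apply, QuotientGroup.eq_one_iff] at this

theorem xy_not_mem (B : Base2 G x y q) : x * y ∉ TT x y := by
  intro h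
  obtain ⟨g, hg⟩ := B.nontriv
  exact hg (collapse_xy B (MonoidHom.id G) h (by simp) g)

theorem pow_mem_TT (B : Base2 G x y q) {g : G} (hg : g ∈ TT x y) (n : ℕ) : g ^ n ∈ TT x y := by
  rcases hg with rfl | ⟨m, rfl⟩
  · rcases Nat.even_or_odd' n with ⟨k, rfl | rfl⟩
    · rw [pow_mul, B.hx, one_pow]
      exact one_mem_TT
    · rw [pow_succ, pow_mul, B.hx, one_pow, one_mul]
      exact x_mem_TT
  · rw [← pow_mul]
    exact Or.inr ⟨_, rfl⟩

theorem inv_mem_TT (B : Base2 G x y q) {g : G} (hg : g ∈ TT x y) : g⁻¹ ∈ TT x y := by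
  have h : g ^ (2 * q) = 1 := by
    rcases hg with rfl | ⟨m, rfl⟩
    · rw [pow_mul, B.hx, one_pow]
    · rw [← pow_mul, show m * (2 * q) = q * (2 * m) by ring, pow_mul, B.hy, one_pow]
  have h2 : g⁻¹ = g ^ (2 * q - 1) := by
    rw [inv_eq_iff_mul_eq_one, ← pow_succ', Nat.sub_add_cancel, h]
    have := B.prime.pos
    omega
  rw [h2]
  exact pow_mem_TT B hg _

theorem zpow_mem_TT (B : Base2 G x y q) {g : G} (hg : g ∈ TT x y) (n : ℤ) : g ^ n ∈ TT x y := by
  cases n with
  | ofNat n =>
    rw [Int.ofNat_eq_natCast, zpow_natCast]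
    exact pow_mem_TT B hg n
  | negSucc n =>
    rw [zpow_negSucc]
    exact inv_mem_TT B (pow_mem_TT B hg _)

/-- The product of two commuting elements of `TT` is in `TT`. -/
theorem mul_mem_TT (B : Base2 G x y q) {s t : G} (hs : s ∈ TT x y) (ht : t ∈ TT x y)
    (h : Commute s t) : s * t ∈ TT x y := by
  rcases hs with rfl | ⟨m, rfl⟩
  · rcases ht with rfl | ⟨n, rfl⟩
    · rw [← pow_two]
      exact pow_mem_TT B x_mem_TT 2
    · by_cases hn : y ^ n = 1
      · rw [hn, mul_one]
        exact x_mem_TT
      · exfalso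
        obtain ⟨k, hk⟩ := pow_generates B hn
        exact not_commute B (by rw [← hk]; exact h.pow_right k)
  · rcases ht with rfl | ⟨n, rfl⟩
    · by_cases hn : y ^ m = 1
      · rw [hn, one_mul]
        exact x_mem_TT
      · exfalso
        obtain ⟨k, hk⟩ := pow_generates B hn
        exact not_commute B (by rw [← hk]; exact h.symm.pow_right k)
    · rw [← pow_add]
      exact Or.inr ⟨_, rfl⟩

theorem finite_TT (B : Base2 G x y q) : (TT x y).Finite := by
  have h : TT x y ⊆ insert x ((fun n => y ^ n) '' (Finset.range q : Set ℕ)) := by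
    rintro g (rfl | ⟨n, rfl⟩)
    · exact Set.mem_insert _ _
    · apply Set.mem_insert_of_mem
      refine ⟨n % q, ?_, (pow_eq_pow_mod n B.hy).symm⟩
      rw [Finset.mem_coe, Finset.mem_range]
      exact Nat.mod_lt _ B.prime.pos
  exact Set.Finite.subset ((Set.Finite.image _ (Finset.finite_toSet _)).insert x) h

end TwoGen

end Pool.Agent.Lib_helper82
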