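import Mathlib
import Pool.Agent.Lib_helper82.Goursat
import Pool.Agent.Lib_helper82.PerfectTwoGen

set_option autoImplicit false

open scoped commutatorElement

/-!
# Words with prescribed values
-/

namespace Pool.Agent.Lib_helper82

section Eval

variable {H : Type} [Group H]

/-- Value of a word in two letters. -/
def ev2 (α β : H) : FreeGroup (Fin 2) →* H := FreeGroup.lift ![α, β]

/-- Value of a word in four letters. -/
def ev4 (α β γ ζ : H) : FreeGroup (Fin 4) →* H := FreeGroup.lift ![α, β, γ, ζ]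

@[simp] theorem ev2_zero (α β : H) : ev2 α β (FreeGroup.of 0) = α := by simp [ev2]
@[simp] theorem ev2_one (α β : H) : ev2 α β (FreeGroup.of 1) = β := by simp [ev2]
@[simp] theorem ev4_zero (α β γ ζ : H) : ev4 α β γ ζ (FreeGroup.of 0) = α := by simp [ev4]
@[simp] theorem ev4_one (α β γ ζ : H) : ev4 α β γ ζ (FreeGroup.of 1) = β := by simp [ev4]
@[simp] theorem ev4_two (α β γ ζ : H) : ev4 α β γ ζ (FreeGroup.of 2) = γ := by simp [ev4]
@[simp] theorem ev4_three (α β γ ζ : H) : ev4 α β γ ζ (FreeGroup.of 3) = ζ := by simp [ev4]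

/-- Words in the first two letters. -/
def up : FreeGroup (Fin 2) →* FreeGroup (Fin 4) := ev2 (FreeGroup.of 0) (FreeGroup.of 1)

theorem hom2_ext {f g : FreeGroup (Fin 2) →* H} (h0 : f (FreeGroup.of 0) = g (FreeGroup.of 0))
    (h1 : f (FreeGroup.of 1) = g (FreeGroup.of 1)) : f = g := by
  apply FreeGroup.ext_hom
  intro i
  fin_cases i
  · exact h0
  · exact h1

@[simp] theorem ev4_up (α β γ ζ : H) (w : FreeGroup (Fin 2)) :
    ev4 α β γ ζ (up w) = ev2 α β w := by
  have : (ev4 α β γ ζ).comp up = ev2 α β := by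
    apply hom2_ext <;> simp [up]
  exact DFunLike.congr_fun this w

theorem ev2_map {H' : Type} [Group H'] (f : H →* H') (α β : H) (w : FreeGroup (Fin 2)) :
    f (ev2 α β w) = ev2 (f α) (f β) w := by
  have : f.comp (ev2 α β) = ev2 (f α) (f β) := by
    apply hom2_ext <;> simp
  exact DFunLike.congr_fun this w

theorem ev2_commute {α β : H} (h : Commute α β) {w : FreeGroup (Fin 2)}
    (hw : w ∈ commutator (FreeGroup (Fin 2))) : ev2 α β w = 1 := by
  have h3 : ∀ u v : FreeGroup (Fin 2), Commute (ev2 α β u) (ev2 α β v) := by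
    have h1 : ∀ u : FreeGroup (Fin 2), Commute (ev2 α β u) α ∧ Commute (ev2 α β u) β := by
      intro u
      induction u using FreeGroup.induction_on with
      | C1 => simp
      | of i =>
        fin_cases i
        · exact ⟨by simp, by simpa using h⟩
        · exact ⟨by simpa using h.symm, by simp⟩
      | inv_of i ih =>
        rw [map_inv]
        exact ⟨ih.1.inv_left, ih.2.inv_left⟩
      | mul a b iha ihb =>
        rw [map_mul]
        exact ⟨iha.1.mul_left ihb.1, iha.2.mul_left ihb.2⟩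
    intro u v
    induction v using FreeGroup.induction_on with
    | C1 => simp
    | of i =>
      fin_cases i
      · simpa using (h1 u).1
      · simpa using (h1 u).2
    | inv_of i ih =>
      rw [map_inv]
      exact ih.inv_right
    | mul a b iha ihb =>
      rw [map_mul]
      exact iha.mul_right ihb
  have h4 : commutator (FreeGroup (Fin 2)) ≤ (ev2 α β).ker := by
    rw [commutator_def, Subgroup.commutator_le]
    intro g _ k _
    rw [MonoidHom.mem_ker, map_commutatorElement, commutatorElement_eq_one_iff_commute]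
    exact h3 g k
  exact h4 hw

end Eval

section Exist

variable {G : Type} [Group G] {x y : G} {q : ℕ}

/-- Independence of the noncommuting pairs of `TT`. -/
def PairInd (x y : G) : Prop :=
  ∀ s ∈ TT x y, ∀ t ∈ TT x y, ∀ s' ∈ TT x y, ∀ t' ∈ TT x y, ¬ Commute s t → ¬ Commute s' t' →
    (s, t) ≠ (s', t') → ∀ g : G, ∃ w : FreeGroup (Fin 2), ev2 s t w = g ∧ ev2 s' t' w = 1

theorem ev2_surj (B : Base2 G x y q) {s t : G} (hs : s ∈ TT x y) (ht : t ∈ TT x y)
    (h : ¬ Commute s t) : Function.Surjective (ev2 s t) := by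
  rw [← MonoidHom.range_eq_top]
  unfold ev2
  rw [FreeGroup.range_lift_eq_closure]
  have : Set.range ![s, t] = {s, t} := by
    ext z
    simp only [Set.mem_range, Fin.exists_fin_two, Matrix.cons_val_zero, Matrix.cons_val_one,
      Set.mem_insert_iff, Set.mem_singleton_iff]
    constructor
    · rintro (h | h)
      · exact Or.inl h.symm
      · exact Or.inr h.symm
    · rintro (h | h)
      · exact Or.inl h.symm
      · exact Or.inr h.symm
  rw [this]
  exact mixed_closure B hs ht h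

theorem ev4_surj (B : Base2 G x y q) {s t : G} (hs : s ∈ TT x y) (ht : t ∈ TT x y)
    (h : ¬ Commute s t) (c d : G) : Function.Surjective (ev4 s t c d) := by
  intro g
  obtain ⟨w, hw⟩ := ev2_surj B hs ht h g
  exact ⟨up w, by rw [ev4_up, hw]⟩

theorem exists_XY (B : Base2 G x y q) (hind : PairInd x y) :
    ∃ X ∈ commutator (FreeGroup (Fin 2)), ∃ Y ∈ commutator (FreeGroup (Fin 2)),
      ∀ s ∈ TT x y, ∀ t ∈ TT x y, ¬ Commute s t → ev2 s t X = x ∧ ev2 s t Y = y := by
  let I := {p : G × G // p.1 ∈ TT x y ∧ p.2 ∈ TT x y ∧ ¬ Commute p.1 p.2}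
  have hfin : Finite I := by
    have h1 : ((TT x y) ×ˢ (TT x y)).Finite := (finite_TT B).prod (finite_TT B)
    have h2 : {p : G × G | p.1 ∈ TT x y ∧ p.2 ∈ TT x y ∧ ¬ Commute p.1 p.2}.Finite :=
      h1.subset (fun p hp => ⟨hp.1, hp.2.1⟩)
    exact h2.to_subtype
  have key : ∀ g : G, ∃ X ∈ commutator (FreeGroup (Fin 2)),
      ∀ i : I, ev2 i.1.1 i.1.2 X = g := by
    intro g
    apply goursat (I := I) B.perf (fun i => ev2 i.1.1 i.1.2) ?_ _ inferInstance ?_ (fun _ => g)
    · intro i j hij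
      apply hind _ i.2.1 _ i.2.2.1 _ j.2.1 _ j.2.2.1 i.2.2.2 j.2.2.2
      intro h
      exact hij (Subtype.ext h)
    · intro i g
      have h1 : (commutator (FreeGroup (Fin 2))).map (ev2 i.1.1 i.1.2) = ⊤ := by
        rw [commutator_def, Subgroup.map_commutator,
          Subgroup.map_top_of_surjective _ (ev2_surj B i.2.1 i.2.2.1 i.2.2.2), ← commutator_def]
        exact B.perf
      have h2 : g ∈ (commutator (FreeGroup (Fin 2))).map (ev2 i.1.1 i.1.2) := by
        rw [h1]; trivial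
      exact Subgroup.mem_map.1 h2
  obtain ⟨X, hX, hX'⟩ := key x
  obtain ⟨Y, hY, hY'⟩ := key y
  exact ⟨X, hX, Y, hY, fun s hs t ht hst => ⟨hX' ⟨(s, t), hs, ht, hst⟩, hY' ⟨(s, t), hs, ht, hst⟩⟩⟩

/-- Quadruples are independent. -/
theorem quad_ind (B : Base2 G x y q) (hind : PairInd x y) {s t c d s' t' c' d' : G}
    (hs : s ∈ TT x y) (ht : t ∈ TT x y) (hc : c ∈ TT x y) (hd : d ∈ TT x y)
    (hs' : s' ∈ TT x y) (ht' : t' ∈ TT x y) (hc' : c' ∈ TT x y) (hd' : d' ∈ TT x y)
    (h : ¬ Commute s t) (h' : ¬ Commute s' t') (hne : (s, t, c, d) ≠ (s', t', c', d')) (g : G) :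
    ∃ w : FreeGroup (Fin 4), ev4 s t c d w = g ∧ ev4 s' t' c' d' w = 1 := by
  by_cases hst : (s, t) = (s', t')
  · have hss : s = s' := congrArg Prod.fst hst
    have htt : t = t' := congrArg Prod.snd hst
    subst hss
    subst htt
    set N : Subgroup G := (ev4 s t c' d').ker.map (ev4 s t c d) with hN
    have hNn : N.Normal := Subgroup.Normal.map inferInstance _ (ev4_surj B hs ht h c d)
    have htop : N = ⊤ := by
      by_cases hcc : c = c'
      · subst hcc
        have hdd : d ≠ d' := by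
          rintro rfl
          exact hne rfl
        obtain ⟨w, hw⟩ := ev2_surj B hs ht h d'
        have h1 : d'⁻¹ * d ∈ N := by
          rw [hN, Subgroup.mem_map]
          refine ⟨(up w)⁻¹ * FreeGroup.of 3, ?_, ?_⟩
          · rw [MonoidHom.mem_ker, map_mul, map_inv, ev4_up, ev4_three, hw, inv_mul_cancel]
          · rw [map_mul, map_inv, ev4_up, ev4_three, hw]
        have h2 : Subgroup.normalClosure {d'⁻¹ * d} = ⊤ := by
          apply normalClosure_eq_top
          intro f hf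
          apply collapse_pair B f hd hd' hdd
          rw [map_mul, map_inv, inv_mul_eq_one] at hf
          exact hf.symm
        rw [eq_top_iff, ← h2]
        exact Subgroup.normalClosure_le_normal (by simpa using h1)
      · obtain ⟨w, hw⟩ := ev2_surj B hs ht h c'
        have h1 : c'⁻¹ * c ∈ N := by
          rw [hN, Subgroup.mem_map]
          refine ⟨(up w)⁻¹ * FreeGroup.of 2, ?_, ?_⟩
          · rw [MonoidHom.mem_ker, map_mul, map_inv, ev4_up, ev4_two, hw, inv_mul_cancel]
          · rw [map_mul, map_inv, ev4_up, ev4_two, hw]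
        have h2 : Subgroup.normalClosure {c'⁻¹ * c} = ⊤ := by
          apply normalClosure_eq_top
          intro f hf
          apply collapse_pair B f hc hc' hcc
          rw [map_mul, map_inv, inv_mul_eq_one] at hf
          exact hf.symm
        rw [eq_top_iff, ← h2]
        exact Subgroup.normalClosure_le_normal (by simpa using h1)
    have hg : g ∈ N := by rw [htop]; trivial
    rw [hN, Subgroup.mem_map] at hg
    obtain ⟨w, hw1, hw2⟩ := hg
    exact ⟨w, hw2, hw1⟩
  · obtain ⟨w, hw1, hw2⟩ := hind s hs t ht s' hs' t' ht' h h' hst g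
    exact ⟨up w, by rw [ev4_up, hw1], by rw [ev4_up, hw2]⟩

/-- The correction words. -/
theorem exists_delta (B : Base2 G x y q) (hind : PairInd x y) (g : FreeGroup (Fin 4))
    (good : G → G → G → G → Prop) (t : G → G → G → G → G)
    (hgood : ∀ s ∈ TT x y, ∀ r ∈ TT x y, ∀ c ∈ TT x y, ∀ d ∈ TT x y, ¬ Commute s r →
      good s r c d → Subgroup.normalClosure {ev4 s r c d g} = ⊤) :
    ∃ δ : FreeGroup (Fin 4),
      (∀ (H : Type) [Group H] (α β γ ζ : H), ev4 α β γ ζ g = 1 → ev4 α β γ ζ δ = 1) ∧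
      (∀ (H : Type) [Group H] (α β γ ζ : H), Commute α β → ev4 α β γ ζ δ = 1) ∧
      (∀ s ∈ TT x y, ∀ r ∈ TT x y, ∀ c ∈ TT x y, ∀ d ∈ TT x y, ¬ Commute s r →
        good s r c d → ev4 s r c d δ = t s r c d) := by
  let I := {p : G × G × G × G // (p.1 ∈ TT x y ∧ p.2.1 ∈ TT x y ∧ p.2.2.1 ∈ TT x y ∧
    p.2.2.2 ∈ TT x y) ∧ ¬ Commute p.1 p.2.1 ∧ good p.1 p.2.1 p.2.2.1 p.2.2.2}
  have hfin : Finite I := by
    have hT := finite_TT B
    have h1 : ((TT x y) ×ˢ (TT x y) ×ˢ (TT x y) ×ˢ (TT x y)).Finite :=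
      hT.prod (hT.prod (hT.prod hT))
    have h2 : {p : G × G × G × G | (p.1 ∈ TT x y ∧ p.2.1 ∈ TT x y ∧ p.2.2.1 ∈ TT x y ∧
      p.2.2.2 ∈ TT x y) ∧ ¬ Commute p.1 p.2.1 ∧ good p.1 p.2.1 p.2.2.1 p.2.2.2}.Finite :=
      h1.subset (fun p hp => ⟨hp.1.1, hp.1.2.1, hp.1.2.2.1, hp.1.2.2.2⟩)
    exact h2.to_subtype
  set K : Subgroup (FreeGroup (Fin 4)) := ⁅Subgroup.normalClosure {g},
    Subgroup.normalClosure {⁅(FreeGroup.of 0 : FreeGroup (Fin 4)), FreeGroup.of 1⁆}⁆ with hK
  have hKn : K.Normal := by rw [hK]; infer_instance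
  obtain ⟨δ, hδ, hδt⟩ := goursat (I := I) B.perf
    (fun i => ev4 i.1.1 i.1.2.1 i.1.2.2.1 i.1.2.2.2)
    (by
      rintro ⟨⟨s, r, c, d⟩, ⟨hs, hr, hc, hd⟩, hsr, hg⟩ ⟨⟨s', r', c', d'⟩, ⟨hs', hr', hc', hd'⟩, hsr', hg'⟩
        hne k
      exact quad_ind B hind hs hr hc hd hs' hr' hc' hd' hsr hsr'
        (fun h => hne (Subtype.ext h)) k)
    K hKn
    (by
      rintro ⟨⟨s, r, c, d⟩, ⟨hs, hr, hc, hd⟩, hsr, hg⟩ k
      have hsurj := ev4_surj B hs hr hsr c d
      have h1 : K.map (ev4 s r c d) = ⊤ := by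
        rw [hK, Subgroup.map_commutator, Subgroup.map_normalClosure _ _ hsurj,
          Subgroup.map_normalClosure _ _ hsurj, Set.image_singleton, Set.image_singleton,
          hgood s hs r hr c hc d hd hsr hg]
        have h2 : Subgroup.normalClosure
            {(ev4 s r c d) ⁅(FreeGroup.of 0 : FreeGroup (Fin 4)), FreeGroup.of 1⁆} = ⊤ := by
          have e0 : (ev4 s r c d) ⁅(FreeGroup.of 0 : FreeGroup (Fin 4)), FreeGroup.of 1⁆
              = ⁅s, r⁆ := by
            rw [map_commutatorElement, ev4_zero, ev4_one]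
          rw [e0]
          apply normalClosure_eq_top
          intro f hf
          apply collapse_mixed B f hs hr hsr
          rw [map_commutatorElement, commutatorElement_eq_one_iff_commute] at hf
          exact hf
        rw [h2]
        exact B.perf
      have h2 : k ∈ K.map (ev4 s r c d) := by rw [h1]; trivial
      exact Subgroup.mem_map.1 h2)
    (fun i => t i.1.1 i.1.2.1 i.1.2.2.1 i.1.2.2.2)
  refine ⟨δ, ?_, ?_, ?_⟩
  · intro H _ α β γ ζ hg
    have h1 : K ≤ (ev4 α β γ ζ).ker := by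
      rw [hK]
      refine (Subgroup.commutator_le_left _ _).trans ?_
      apply Subgroup.normalClosure_le_normal
      simpa [MonoidHom.mem_ker] using hg
    exact h1 hδ
  · intro H _ α β γ ζ hg
    have h1 : K ≤ (ev4 α β γ ζ).ker := by
      rw [hK]
      refine (Subgroup.commutator_le_right _ _).trans ?_
      apply Subgroup.normalClosure_le_normal
      rw [Set.singleton_subset_iff, SetLike.mem_coe, MonoidHom.mem_ker, map_commutatorElement,
        ev4_zero, ev4_one, commutatorElement_eq_one_iff_commute]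
      exact hg
    exact h1 hδ
  · intro s hs r hr c hc d hd hsr hg
    exact hδt ⟨(s, r, c, d), ⟨hs, hr, hc, hd⟩, hsr, hg⟩

/-- The product word. -/
theorem exists_D (B : Base2 G x y q) (hind : PairInd x y) {X Y : FreeGroup (Fin 2)}
    (hXY : ∀ s ∈ TT x y, ∀ t ∈ TT x y, ¬ Commute s t → ev2 s t X = x ∧ ev2 s t Y = y) :
    ∃ D : FreeGroup (Fin 4),
      (∀ (H : Type) [Group H] (α β γ ζ : H), γ = ev2 α β (X * Y) → ev4 α β γ ζ D = α * β) ∧
      (∀ (H : Type) [Group H] (α β γ ζ : H), Commute α β → ev4 α β γ ζ D = α * β) ∧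
      (∀ s ∈ TT x y, ∀ r ∈ TT x y, ∀ c ∈ TT x y, ∀ d ∈ TT x y, ¬ Commute s r →
        ev4 s r c d D = 1) := by
  obtain ⟨δ, h1, h2, h3⟩ := exists_delta B hind ((FreeGroup.of 2)⁻¹ * up (X * Y))
    (fun _ _ _ _ => True) (fun s r _ _ => (s * r)⁻¹) (by
      intro s hs r hr c hc d hd hsr _
      obtain ⟨hX, hY⟩ := hXY s hs r hr hsr
      rw [map_mul, map_inv, ev4_two, ev4_up, map_mul, hX, hY]
      apply normalClosure_eq_top
      intro f hf
      apply collapse_xy B f hc
      rw [map_mul, map_inv, inv_mul_eq_one, map_mul] at hf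
      exact hf)
  refine ⟨FreeGroup.of 0 * FreeGroup.of 1 * δ, ?_, ?_, ?_⟩
  · intro H _ α β γ ζ hγ
    rw [map_mul, map_mul, ev4_zero, ev4_one, h1 H α β γ ζ (by
      rw [map_mul, map_inv, ev4_two, ev4_up, ← hγ, inv_mul_cancel]), mul_one]
  · intro H _ α β γ ζ hαβ
    rw [map_mul, map_mul, ev4_zero, ev4_one, h2 H α β γ ζ hαβ, mul_one]
  · intro s hs r hr c hc d hd hsr
    rw [map_mul, map_mul, ev4_zero, ev4_one, h3 s hs r hr c hc d hd hsr trivial, mul_inv_cancel]

/-- The conjugation words. -/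
theorem exists_W (B : Base2 G x y q) (hind : PairInd x y) {X Y : FreeGroup (Fin 2)}
    (hXY : ∀ s ∈ TT x y, ∀ t ∈ TT x y, ¬ Commute s t → ev2 s t X = x ∧ ev2 s t Y = y)
    {C : FreeGroup (Fin 2)} (hC : C ∈ commutator (FreeGroup (Fin 2))) :
    ∃ W : FreeGroup (Fin 4),
      (∀ (H : Type) [Group H] (α β γ ζ : H),
        ζ = (ev2 α β (X * Y))⁻¹ * γ * ev2 α β (X * Y) →
          ev4 α β γ ζ W = (ev2 α β C)⁻¹ * γ * ev2 α β C) ∧
      (∀ (H : Type) [Group H] (α β γ ζ : H), Commute α β → ev4 α β γ ζ W = γ) ∧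
      (∀ s ∈ TT x y, ∀ r ∈ TT x y, ∀ c ∈ TT x y, ∀ d ∈ TT x y, ¬ Commute s r →
        ev4 s r c d W = 1) := by
  classical
  obtain ⟨δ, h1, h2, h3⟩ := exists_delta B hind
    ((FreeGroup.of 3)⁻¹ * ((up (X * Y))⁻¹ * FreeGroup.of 2 * up (X * Y)))
    (fun _ _ c d => ¬ (c = 1 ∧ d = 1))
    (fun s r c _ => ((ev2 s r C)⁻¹ * c * ev2 s r C)⁻¹) (by
      intro s hs r hr c hc d hd hsr hcd
      obtain ⟨hX, hY⟩ := hXY s hs r hr hsr
      have e1 : ev4 s r c d ((FreeGroup.of 3)⁻¹ *
          ((up (X * Y))⁻¹ * FreeGroup.of 2 * up (X * Y)))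
          = d⁻¹ * ((x * y)⁻¹ * c * (x * y)) := by
        simp only [map_mul, map_inv, ev4_two, ev4_three, ev4_up, hX, hY]
      rw [e1]
      apply normalClosure_eq_top
      intro f hf
      apply collapse_conj B f hc hd hcd
      rw [map_mul, map_inv, inv_mul_eq_one] at hf
      rw [hf]
      simp only [map_mul, map_inv])
  refine ⟨(up C)⁻¹ * FreeGroup.of 2 * up C * δ, ?_, ?_, ?_⟩
  · intro H _ α β γ ζ hζ
    have e1 : ev4 α β γ ζ ((FreeGroup.of 3)⁻¹ *
        ((up (X * Y))⁻¹ * FreeGroup.of 2 * up (X * Y))) = 1 := by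
      rw [map_mul, map_inv, ev4_three, map_mul, map_mul, map_inv, ev4_two, ev4_up, ← hζ,
        inv_mul_cancel]
    rw [map_mul, h1 H α β γ ζ e1, mul_one, map_mul, map_mul, map_inv, ev4_two, ev4_up]
  · intro H _ α β γ ζ hαβ
    rw [map_mul, h2 H α β γ ζ hαβ, mul_one, map_mul, map_mul, map_inv, ev4_two, ev4_up,
      ev2_commute hαβ hC]
    simp
  · intro s hs r hr c hc d hd hsr
    by_cases hcd : c = 1 ∧ d = 1
    · obtain ⟨rfl, rfl⟩ := hcd
      have e1 : ev4 s r 1 1 ((FreeGroup.of 3)⁻¹ *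
          ((up (X * Y))⁻¹ * FreeGroup.of 2 * up (X * Y))) = 1 := by
        simp only [map_mul, map_inv, ev4_two, ev4_three, ev4_up]
        simp
      rw [map_mul, h1 G s r 1 1 e1, mul_one, map_mul, map_mul, map_inv, ev4_two, ev4_up]
      simp
    · rw [map_mul, h3 s hs r hr c hc d hd hsr hcd, map_mul, map_mul, map_inv, ev4_two, ev4_up]
      simp

end Exist

section Indep

variable {G : Type} [Group G] {x y : G} {q : ℕ}

/-- The pairwise independence follows from separating words. -/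
theorem pairInd_of_sep (B : Base2 G x y q)
    (hsep : ∀ m n : ℕ, y ^ m ≠ 1 → y ^ n ≠ 1 → y ^ m ≠ y ^ n →
      ∃ w : FreeGroup (Fin 2), ev2 x (y ^ m) w = 1 ∧
        Subgroup.normalClosure {ev2 x (y ^ n) w} = ⊤) : PairInd x y := by
  intro s hs t ht s' hs' t' ht' h h' hne g
  -- it is enough to find one word
  have red : ∀ w : FreeGroup (Fin 2), ev2 s' t' w = 1 →
      Subgroup.normalClosure {ev2 s t w} = ⊤ →
      ∃ w : FreeGroup (Fin 2), ev2 s t w = g ∧ ev2 s' t' w = 1 := by
    intro w hw1 hw2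
    set N : Subgroup G := (ev2 s' t').ker.map (ev2 s t) with hN
    have hNn : N.Normal := Subgroup.Normal.map inferInstance _ (ev2_surj B hs ht h)
    have htop : N = ⊤ := by
      rw [eq_top_iff, ← hw2]
      apply Subgroup.normalClosure_le_normal
      rw [Set.singleton_subset_iff, SetLike.mem_coe, hN, Subgroup.mem_map]
      exact ⟨w, hw1, rfl⟩
    have hg : g ∈ N := by rw [htop]; trivial
    rw [hN, Subgroup.mem_map] at hg
    obtain ⟨v, hv1, hv2⟩ := hg
    exact ⟨v, hv2, hv1⟩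
  have hpow : ∀ n : ℕ, y ^ n ≠ 1 → Subgroup.normalClosure {(y ^ n) ^ 2} = ⊤ := by
    intro n hn
    apply normalClosure_eq_top
    intro f hf
    have h1 : f (y ^ n) = 1 := by
      apply eq_one_of_pow B
      · rw [← map_pow]; exact hf
      · have h0 : (y ^ n) ^ q = 1 := by rw [← pow_mul, mul_comm, pow_mul, B.hy, one_pow]
        rw [← map_pow, h0, map_one]
    exact collapse_pair B f (Or.inr ⟨n, rfl⟩) one_mem_TT hn (by rw [h1, map_one])
  have nne : ∀ {n : ℕ}, ¬ Commute x (y ^ n) → y ^ n ≠ 1 := by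
    intro n h1 h2
    exact h1 (by rw [h2]; exact Commute.one_right _)
  have nne' : ∀ {n : ℕ}, ¬ Commute (y ^ n) x → y ^ n ≠ 1 := by
    intro n h1 h2
    exact h1 (by rw [h2]; exact Commute.one_left _)
  rcases mixed_cases hs ht h with ⟨rfl, n, rfl⟩ | ⟨rfl, n, rfl⟩
  · rcases mixed_cases hs' ht' h' with ⟨rfl, m, rfl⟩ | ⟨rfl, m, rfl⟩
    · have hmn : y ^ m ≠ y ^ n := by
        intro h1
        exact hne (by rw [h1])
      obtain ⟨w, hw1, hw2⟩ := hsep m n (nne h') (nne h) hmn
      exact red w hw1 hw2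
    · apply red ((FreeGroup.of 1) ^ 2)
      · rw [map_pow, ev2_one, B.hx]
      · rw [map_pow, ev2_one]
        exact hpow n (nne h)
  · rcases mixed_cases hs' ht' h' with ⟨rfl, m, rfl⟩ | ⟨rfl, m, rfl⟩
    · apply red ((FreeGroup.of 0) ^ 2)
      · rw [map_pow, ev2_zero, B.hx]
      · rw [map_pow, ev2_zero]
        exact hpow n (nne' h)
    · have hmn : y ^ m ≠ y ^ n := by
        intro h1
        exact hne (by rw [h1])
      obtain ⟨w, hw1, hw2⟩ := hsep m n (nne' h') (nne' h) hmn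
      have hswap : ∀ (a b : G), ev2 b a (ev2 (FreeGroup.of 1) (FreeGroup.of 0) w) = ev2 a b w := by
        intro a b
        rw [ev2_map]
        simp
      apply red (ev2 (FreeGroup.of 1) (FreeGroup.of 0) w)
      · rw [hswap, hw1]
      · rw [hswap]
        exact hw2

end Indep

end Pool.Agent.Lib_helper82
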