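import Mathlib
import Pool.Agent.Lib_helper82.Words

set_option autoImplicit false

open scoped commutatorElement

/-!
# The reduction: from relators to a single word
-/

namespace Pool.Agent.Lib_helper82

section CloneDefs

/-- Sets of words containing the variables and closed under substitution. -/
structure IsClone (S : Set (FreeGroup ℕ)) : Prop where
  var : ∀ i, FreeGroup.of i ∈ S
  sub : ∀ C ∈ S, ∀ σ : ℕ → FreeGroup ℕ, (∀ i, σ i ∈ S) → FreeGroup.lift σ C ∈ S

/-- The word generates all words. -/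
def Complete (B : FreeGroup ℕ) : Prop := ∀ S : Set (FreeGroup ℕ), IsClone S → B ∈ S → ∀ A, A ∈ S

/-- Words in four letters as words in the first four variables. -/
def n4 : FreeGroup (Fin 4) →* FreeGroup ℕ :=
  ev4 (FreeGroup.of 0) (FreeGroup.of 1) (FreeGroup.of 2) (FreeGroup.of 3)

theorem hom4_ext {H : Type} [Group H] {f g : FreeGroup (Fin 4) →* H}
    (h0 : f (FreeGroup.of 0) = g (FreeGroup.of 0))
    (h1 : f (FreeGroup.of 1) = g (FreeGroup.of 1))
    (h2 : f (FreeGroup.of 2) = g (FreeGroup.of 2))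
    (h3 : f (FreeGroup.of 3) = g (FreeGroup.of 3)) : f = g := by
  apply FreeGroup.ext_hom
  intro i
  fin_cases i
  · exact h0
  · exact h1
  · exact h2
  · exact h3

theorem ev4_map {H H' : Type} [Group H] [Group H'] (f : H →* H') (α β γ ζ : H)
    (w : FreeGroup (Fin 4)) : f (ev4 α β γ ζ w) = ev4 (f α) (f β) (f γ) (f ζ) w := by
  have : f.comp (ev4 α β γ ζ) = ev4 (f α) (f β) (f γ) (f ζ) := by
    apply hom4_ext <;> simp
  exact DFunLike.congr_fun this w

theorem lift_n4 {H : Type} [Group H] (f : ℕ → H) (w : FreeGroup (Fin 4)) :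
    FreeGroup.lift f (n4 w) = ev4 (f 0) (f 1) (f 2) (f 3) w := by
  unfold n4
  rw [ev4_map]
  simp

/-- Gluing of two words along the product word, with separate variables. -/
def glue (D : FreeGroup (Fin 4)) (u v : FreeGroup ℕ) : FreeGroup ℕ :=
  ev4 (FreeGroup.map (fun i => 2 * i) u) (FreeGroup.map (fun i => 2 * i + 1) v) 1 1 D

theorem lift_glue {H : Type} [Group H] (D : FreeGroup (Fin 4)) (f : ℕ → H) (u v : FreeGroup ℕ) :
    FreeGroup.lift f (glue D u v) =
      ev4 (FreeGroup.lift (fun i => f (2 * i)) u) (FreeGroup.lift (fun i => f (2 * i + 1)) v)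
        1 1 D := by
  unfold glue
  rw [ev4_map]
  have h1 : FreeGroup.lift f (FreeGroup.map (fun i => 2 * i) u)
      = FreeGroup.lift (fun i => f (2 * i)) u := by
    rw [FreeGroup.map_eq_lift]
    have : (FreeGroup.lift f).comp (FreeGroup.lift (FreeGroup.of ∘ fun i => 2 * i))
        = FreeGroup.lift (fun i => f (2 * i)) := by
      apply FreeGroup.ext_hom
      intro i
      simp
    exact DFunLike.congr_fun this u
  have h2 : FreeGroup.lift f (FreeGroup.map (fun i => 2 * i + 1) v)
      = FreeGroup.lift (fun i => f (2 * i + 1)) v := by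
    rw [FreeGroup.map_eq_lift]
    have : (FreeGroup.lift f).comp (FreeGroup.lift (FreeGroup.of ∘ fun i => 2 * i + 1))
        = FreeGroup.lift (fun i => f (2 * i + 1)) := by
      apply FreeGroup.ext_hom
      intro i
      simp
    exact DFunLike.congr_fun this v
  rw [h1, h2, map_one]

/-- The product property on commuting elements. -/
def DComm (D : FreeGroup (Fin 4)) : Prop :=
  ∀ (H : Type) [Group H] (α β γ ζ : H), Commute α β → ev4 α β γ ζ D = α * β

variable {D : FreeGroup (Fin 4)}

theorem glue_mem_left (hD : DComm D) {S : Set (FreeGroup ℕ)} (hS : IsClone S) (h1 : (1 : FreeGroup ℕ) ∈ S)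
    {u v : FreeGroup ℕ} (h : glue D u v ∈ S) : u ∈ S := by
  have h2 := hS.sub _ h (fun i => if i % 2 = 0 then FreeGroup.of (i / 2) else 1) (by
    intro i
    split_ifs
    · exact hS.var _
    · exact h1)
  rw [lift_glue] at h2
  have e1 : (fun i : ℕ => if (2 * i) % 2 = 0 then FreeGroup.of ((2 * i) / 2)
      else (1 : FreeGroup ℕ)) = FreeGroup.of := by
    funext i
    simp
  have e2 : (fun i : ℕ => if (2 * i + 1) % 2 = 0 then FreeGroup.of ((2 * i + 1) / 2)
      else (1 : FreeGroup ℕ)) = fun _ => 1 := by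
    funext i
    simp
  rw [e1, e2, FreeGroup.lift_of_apply] at h2
  have e3 : FreeGroup.lift (fun _ : ℕ => (1 : FreeGroup ℕ)) v = 1 := by
    have : FreeGroup.lift (fun _ : ℕ => (1 : FreeGroup ℕ)) = (1 : FreeGroup ℕ →* FreeGroup ℕ) := by
      apply FreeGroup.ext_hom
      intro i
      simp
    rw [this]
    rfl
  rw [e3, hD _ _ _ _ _ (Commute.one_right _), mul_one] at h2
  exact h2

theorem glue_mem_right (hD : DComm D) {S : Set (FreeGroup ℕ)} (hS : IsClone S) (h1 : (1 : FreeGroup ℕ) ∈ S)
    {u v : FreeGroup ℕ} (h : glue D u v ∈ S) : v ∈ S := by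
  have h2 := hS.sub _ h (fun i => if i % 2 = 1 then FreeGroup.of (i / 2) else 1) (by
    intro i
    split_ifs
    · exact hS.var _
    · exact h1)
  rw [lift_glue] at h2
  have e1 : (fun i : ℕ => if (2 * i) % 2 = 1 then FreeGroup.of ((2 * i) / 2)
      else (1 : FreeGroup ℕ)) = fun _ => 1 := by
    funext i
    simp
  have e2 : (fun i : ℕ => if (2 * i + 1) % 2 = 1 then FreeGroup.of ((2 * i + 1) / 2)
      else (1 : FreeGroup ℕ)) = FreeGroup.of := by
    funext i
    have h3 : (2 * i + 1) % 2 = 1 := by omega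
    have h4 : (2 * i + 1) / 2 = i := by omega
    simp [h3, h4]
  rw [e1, e2, FreeGroup.lift_of_apply] at h2
  have e3 : FreeGroup.lift (fun _ : ℕ => (1 : FreeGroup ℕ)) u = 1 := by
    have : FreeGroup.lift (fun _ : ℕ => (1 : FreeGroup ℕ)) = (1 : FreeGroup ℕ →* FreeGroup ℕ) := by
      apply FreeGroup.ext_hom
      intro i
      simp
    rw [this]
    rfl
  rw [e3, hD _ _ _ _ _ (Commute.one_left _), one_mul] at h2
  exact h2

/-- All variables identified. -/
def co : FreeGroup ℕ →* FreeGroup ℕ := FreeGroup.lift (fun _ => FreeGroup.of 0)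

theorem co_zpow (u : FreeGroup ℕ) : ∃ k : ℤ, co u = (FreeGroup.of 0) ^ k := by
  induction u using FreeGroup.induction_on with
  | C1 => exact ⟨0, by simp⟩
  | of i => exact ⟨1, by simp [co]⟩
  | inv_of i ih => exact ⟨-1, by simp [co]⟩
  | mul a b iha ihb =>
    obtain ⟨k, hk⟩ := iha
    obtain ⟨l, hl⟩ := ihb
    exact ⟨k + l, by rw [map_mul, hk, hl, zpow_add]⟩

theorem co_glue (hD : DComm D) (u v : FreeGroup ℕ) : co (glue D u v) = co u * co v := by
  unfold co
  rw [lift_glue]
  apply hD
  obtain ⟨k, hk⟩ := co_zpow u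
  obtain ⟨l, hl⟩ := co_zpow v
  unfold co at hk hl
  rw [hk, hl]
  exact Commute.zpow_zpow_self _ _ _

theorem co_foldr (hD : DComm D) (ws : List (FreeGroup ℕ)) :
    ∃ K : ℤ, ∀ k : ℤ, co (ws.foldr (glue D) ((FreeGroup.of 0) ^ k)) = (FreeGroup.of 0) ^ (K + k) := by
  induction ws with
  | nil => exact ⟨0, fun k => by simp [co]⟩
  | cons w ws ih =>
    obtain ⟨K, hK⟩ := ih
    obtain ⟨l, hl⟩ := co_zpow w
    refine ⟨l + K, fun k => ?_⟩
    rw [List.foldr_cons, co_glue hD, hK, hl, ← zpow_add, add_assoc]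

theorem foldr_mem (hD : DComm D) {S : Set (FreeGroup ℕ)} (hS : IsClone S) (h1 : (1 : FreeGroup ℕ) ∈ S)
    (v : FreeGroup ℕ) : ∀ ws : List (FreeGroup ℕ), ws.foldr (glue D) v ∈ S → ∀ w ∈ ws, w ∈ S
  | [], _ => by simp
  | (w :: ws), h => by
    rw [List.foldr_cons] at h
    intro w' hw'
    rcases List.mem_cons.1 hw' with rfl | hw'
    · exact glue_mem_left hD hS h1 h
    · exact foldr_mem hD hS h1 v ws (glue_mem_right hD hS h1 h) w' hw'

end CloneDefs

section Preserve

variable {G : Type} [Group G] {x y : G} {q : ℕ}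

/-- The word maps `TT` to itself. -/
def Pres (x y : G) (w : FreeGroup ℕ) : Prop :=
  ∀ f : ℕ → G, (∀ i, f i ∈ TT x y) → FreeGroup.lift f w ∈ TT x y

/-- The word in four letters maps `TT` to itself. -/
def Pres4 (x y : G) (w : FreeGroup (Fin 4)) : Prop :=
  ∀ s ∈ TT x y, ∀ r ∈ TT x y, ∀ c ∈ TT x y, ∀ d ∈ TT x y, ev4 s r c d w ∈ TT x y

theorem pres_n4 {w : FreeGroup (Fin 4)} (h : Pres4 x y w) : Pres x y (n4 w) := by
  intro f hf
  rw [lift_n4]
  exact h _ (hf 0) _ (hf 1) _ (hf 2) _ (hf 3)

theorem pres_glue {D : FreeGroup (Fin 4)} (hD : Pres4 x y D) {u v : FreeGroup ℕ}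
    (hu : Pres x y u) (hv : Pres x y v) : Pres x y (glue D u v) := by
  intro f hf
  rw [lift_glue]
  exact hD _ (hu _ fun i => hf _) _ (hv _ fun i => hf _) _ one_mem_TT _ one_mem_TT

theorem pres_foldr {D : FreeGroup (Fin 4)} (hD : Pres4 x y D) {v : FreeGroup ℕ}
    (hv : Pres x y v) : ∀ ws : List (FreeGroup ℕ), (∀ w ∈ ws, Pres x y w) →
      Pres x y (ws.foldr (glue D) v)
  | [], _ => hv
  | (w :: ws), h => by
    rw [List.foldr_cons]
    exact pres_glue hD (h w (by simp)) (pres_foldr hD hv ws fun w hw => h w (by simp [hw]))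

theorem pres_zpow (B : Base2 G x y q) (k : ℤ) : Pres x y ((FreeGroup.of 0) ^ k) := by
  intro f hf
  rw [map_zpow, FreeGroup.lift_apply_of]
  exact zpow_mem_TT B (hf 0) k

theorem not_complete (B : Base2 G x y q) {w : FreeGroup ℕ} (h : Pres x y w) : ¬ Complete w := by
  intro hc
  have h1 := hc {A | Pres x y A} ⟨fun i f hf => by
    rw [FreeGroup.lift_apply_of]; exact hf i, by
    intro C hC σ hσ f hf
    have : (FreeGroup.lift f) (FreeGroup.lift σ C)
        = FreeGroup.lift (fun i => FreeGroup.lift f (σ i)) C := by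
      have h2 : (FreeGroup.lift f).comp (FreeGroup.lift σ)
          = FreeGroup.lift (fun i => FreeGroup.lift f (σ i)) := by
        apply FreeGroup.ext_hom
        intro i
        simp
      exact DFunLike.congr_fun h2 C
    rw [this]
    exact hC _ fun i => hσ i f hf⟩ h (FreeGroup.of 0 * FreeGroup.of 1)
  have h2 := h1 (fun i => if i = 0 then x else y) (by
    intro i
    split_ifs
    · exact x_mem_TT
    · exact y_mem_TT)
  rw [map_mul, FreeGroup.lift_apply_of, FreeGroup.lift_apply_of] at h2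
  exact xy_not_mem B (by simpa using h2)

end Preserve

section Normal

/-- A set closed under right multiplication by the relators, conjugation and inversion contains
the normal closure. -/
theorem normalClosure_subset {F : Type} [Group F] (gens : Set F) (hgen : Subgroup.closure gens = ⊤)
    (R : Set F) (S : Set F) (h1 : (1 : F) ∈ S) (hinv : ∀ h ∈ S, h⁻¹ ∈ S)
    (hR : ∀ h ∈ S, ∀ r ∈ R, h * r ∈ S)
    (hconj : ∀ h ∈ S, ∀ c ∈ gens, c⁻¹ * h * c ∈ S ∧ c * h * c⁻¹ ∈ S) :
    ∀ g ∈ Subgroup.normalClosure R, g ∈ S := by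
  -- conjugation by everything
  have hc : ∀ c : F, (∀ h ∈ S, c⁻¹ * h * c ∈ S) ∧ (∀ h ∈ S, c * h * c⁻¹ ∈ S) := by
    intro c
    have hcm : c ∈ Subgroup.closure gens := by rw [hgen]; trivial
    induction hcm using Subgroup.closure_induction with
    | mem c hc => exact ⟨fun h hh => (hconj h hh c hc).1, fun h hh => (hconj h hh c hc).2⟩
    | one => exact ⟨fun h hh => by simpa using hh, fun h hh => by simpa using hh⟩
    | mul a b _ _ iha ihb =>
      refine ⟨fun h hh => ?_, fun h hh => ?_⟩
      · have := ihb.1 _ (iha.1 h hh)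
        have e : (a * b)⁻¹ * h * (a * b) = b⁻¹ * (a⁻¹ * h * a) * b := by group
        rw [e]
        exact this
      · have := iha.2 _ (ihb.2 h hh)
        have e : (a * b) * h * (a * b)⁻¹ = a * (b * h * b⁻¹) * a⁻¹ := by group
        rw [e]
        exact this
    | inv a _ iha =>
      exact ⟨fun h hh => by simpa using iha.2 h hh, fun h hh => by simpa using iha.1 h hh⟩
  let N : Subgroup F :=
    { carrier := {g | ∀ c : F, ∀ h ∈ S, h * (c * g * c⁻¹) ∈ S}
      mul_mem' := by
        intro a b ha hb c h hh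
        have := hb c _ (ha c h hh)
        have e : h * (c * (a * b) * c⁻¹) = h * (c * a * c⁻¹) * (c * b * c⁻¹) := by group
        rw [e]
        exact this
      one_mem' := by
        intro c h hh
        simpa using hh
      inv_mem' := by
        intro a ha c h hh
        have h2 := hinv _ (ha (h * c) h⁻¹ (hinv h hh))
        have e : (h⁻¹ * (h * c * a * (h * c)⁻¹))⁻¹ = h * (c * a⁻¹ * c⁻¹) := by group
        rwa [e] at h2 }
  have hN : N.Normal := by
    constructor
    intro a ha k c h hh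
    have := ha (c * k) h hh
    have e : h * (c * (k * a * k⁻¹) * c⁻¹) = h * (c * k * a * (c * k)⁻¹) := by group
    rw [e]
    exact this
  have hRN : R ⊆ N := by
    intro r hr c h hh
    have h2 := (hc c).2 _ (hR _ ((hc c).1 h hh) r hr)
    have e : c * (c⁻¹ * h * c * r) * c⁻¹ = h * (c * r * c⁻¹) := by group
    rwa [e] at h2
  intro g hg
  have h2 := Subgroup.normalClosure_le_normal hRN hg 1 1 h1
  simpa using h2

end Normal

section Main

/-- The operation of a relator. -/
def opR (X Y r : FreeGroup (Fin 2)) : FreeGroup (Fin 4) := FreeGroup.of 2 * up (ev2 X Y r)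

/-- The second operation of a relator. -/
def opR' (X Y r : FreeGroup (Fin 2)) : FreeGroup (Fin 4) :=
  FreeGroup.of 3 * ((up (X * Y))⁻¹ * up (ev2 X Y r) * up (X * Y))

/-- The second operation of a conjugation. -/
def opW' (X Y : FreeGroup (Fin 2)) (W : FreeGroup (Fin 4)) : FreeGroup (Fin 4) :=
  (up (X * Y))⁻¹ * W * up (X * Y)

/-- The formal properties of the words. -/
structure Formal (X Y : FreeGroup (Fin 2)) (D WX WX' WY WY' : FreeGroup (Fin 4)) : Prop where
  D1 : ∀ (H : Type) [Group H] (α β γ ζ : H), γ = ev2 α β (X * Y) → ev4 α β γ ζ D = α * β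
  D2 : DComm D
  wX : ∀ (H : Type) [Group H] (α β γ ζ : H),
    ζ = (ev2 α β (X * Y))⁻¹ * γ * ev2 α β (X * Y) →
      ev4 α β γ ζ WX = (ev2 α β X)⁻¹ * γ * ev2 α β X
  wX' : ∀ (H : Type) [Group H] (α β γ ζ : H),
    ζ = (ev2 α β (X * Y))⁻¹ * γ * ev2 α β (X * Y) →
      ev4 α β γ ζ WX' = ev2 α β X * γ * (ev2 α β X)⁻¹
  wY : ∀ (H : Type) [Group H] (α β γ ζ : H),
    ζ = (ev2 α β (X * Y))⁻¹ * γ * ev2 α β (X * Y) →
      ev4 α β γ ζ WY = (ev2 α β Y)⁻¹ * γ * ev2 α β Y
  wY' : ∀ (H : Type) [Group H] (α β γ ζ : H),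
    ζ = (ev2 α β (X * Y))⁻¹ * γ * ev2 α β (X * Y) →
      ev4 α β γ ζ WY' = ev2 α β Y * γ * (ev2 α β Y)⁻¹

theorem closure_of_fin2 : Subgroup.closure ({FreeGroup.of 0, FreeGroup.of 1} :
    Set (FreeGroup (Fin 2))) = ⊤ := by
  rw [← FreeGroup.closure_range_of]
  congr 1
  ext z
  simp only [Set.mem_insert_iff, Set.mem_singleton_iff, Set.mem_range, Fin.exists_fin_two]
  constructor
  · rintro (h | h)
    · exact Or.inl h.symm
    · exact Or.inr h.symm
  · rintro (h | h)
    · exact Or.inl h.symm
    · exact Or.inr h.symm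

/-- Sets closed under the operations contain everything if the relators generate everything. -/
theorem all_mem {X Y : FreeGroup (Fin 2)} {D WX WX' WY WY' : FreeGroup (Fin 4)}
    (F : Formal X Y D WX WX' WY WY') (R : Set (FreeGroup (Fin 2)))
    (hR : Subgroup.normalClosure R = ⊤) {S : Set (FreeGroup ℕ)} (hS : IsClone S)
    (h1 : (1 : FreeGroup ℕ) ∈ S) (hinv : n4 (FreeGroup.of 0)⁻¹ ∈ S) (hD : n4 D ∈ S)
    (hWX : n4 WX ∈ S) (hWX' : n4 WX' ∈ S) (hWY : n4 WY ∈ S) (hWY' : n4 WY' ∈ S)
    (hVX : n4 (opW' X Y WX) ∈ S) (hVX' : n4 (opW' X Y WX') ∈ S)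
    (hVY : n4 (opW' X Y WY) ∈ S) (hVY' : n4 (opW' X Y WY') ∈ S)
    (hr : ∀ r ∈ R, n4 (opR X Y r) ∈ S) (hr' : ∀ r ∈ R, n4 (opR' X Y r) ∈ S)
    (A : FreeGroup ℕ) : A ∈ S := by
  -- closure under the operations
  have cl : ∀ w : FreeGroup (Fin 4), n4 w ∈ S → ∀ α ∈ S, ∀ β ∈ S, ∀ γ ∈ S, ∀ ζ ∈ S,
      ev4 α β γ ζ w ∈ S := by
    intro w hw α hα β hβ γ hγ ζ hζ
    have h2 := hS.sub _ hw (fun i => if i = 0 then α else if i = 1 then β else
      if i = 2 then γ else if i = 3 then ζ else 1) (by
      intro i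
      split_ifs <;> assumption)
    rw [lift_n4] at h2
    simpa using h2
  have hinv' : ∀ h ∈ S, h⁻¹ ∈ S := by
    intro h hh
    have := cl _ hinv h hh 1 h1 1 h1 1 h1
    simpa using this
  set α : FreeGroup ℕ := FreeGroup.of 0 with hα
  set β : FreeGroup ℕ := FreeGroup.of 1 with hβ
  have hαS : α ∈ S := hS.var 0
  have hβS : β ∈ S := hS.var 1
  set X' := ev2 α β X with hX'
  set Y' := ev2 α β Y with hY'
  set P := ev2 α β (X * Y) with hP
  have hPXY : P = X' * Y' := by rw [hP, map_mul]
  have hev : ∀ r : FreeGroup (Fin 2), ev2 α β (ev2 X Y r) = ev2 X' Y' r := by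
    intro r
    rw [ev2_map]
  let Sg : Set (FreeGroup (Fin 2)) := {h | ev2 X' Y' h ∈ S ∧ P⁻¹ * ev2 X' Y' h * P ∈ S}
  have key : ∀ g ∈ Subgroup.normalClosure R, g ∈ Sg := by
    apply normalClosure_subset {FreeGroup.of 0, FreeGroup.of 1} closure_of_fin2 R Sg
    · exact ⟨by simpa using h1, by simpa using h1⟩
    · rintro h ⟨hh1, hh2⟩
      refine ⟨by rw [map_inv]; exact hinv' _ hh1, ?_⟩
      have e : P⁻¹ * ev2 X' Y' h⁻¹ * P = (P⁻¹ * ev2 X' Y' h * P)⁻¹ := by
        rw [map_inv]; group
      rw [e]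
      exact hinv' _ hh2
    · rintro h ⟨hh1, hh2⟩ r hrR
      constructor
      · have := cl _ (hr r hrR) α hαS β hβS _ hh1 1 h1
        unfold opR at this
        rw [map_mul, ev4_two, ev4_up, hev, ← map_mul] at this
        exact this
      · have := cl _ (hr' r hrR) α hαS β hβS 1 h1 _ hh2
        unfold opR' at this
        rw [map_mul, ev4_three, map_mul, map_mul, map_inv, ev4_up, ev4_up, hev, ← hP] at this
        have e : P⁻¹ * ev2 X' Y' (h * r) * P
            = P⁻¹ * ev2 X' Y' h * P * (P⁻¹ * ev2 X' Y' r * P) := by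
          rw [map_mul]; group
        rw [e]
        exact this
    · rintro h ⟨hh1, hh2⟩ c (rfl | rfl)
      · refine ⟨⟨?_, ?_⟩, ⟨?_, ?_⟩⟩
        · have := cl _ hWX α hαS β hβS _ hh1 _ hh2
          rw [F.wX _ _ _ _ _ rfl, ← hX'] at this
          rw [map_mul, map_mul, map_inv, ev2_zero]
          exact this
        · have := cl _ hVX α hαS β hβS _ hh1 _ hh2
          unfold opW' at this
          rw [map_mul, map_mul, map_inv, ev4_up, F.wX _ _ _ _ _ rfl, ← hX', ← hP] at this
          rw [map_mul, map_mul, map_inv, ev2_zero]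
          exact this
        · have := cl _ hWX' α hαS β hβS _ hh1 _ hh2
          rw [F.wX' _ _ _ _ _ rfl, ← hX'] at this
          rw [map_mul, map_mul, map_inv, ev2_zero]
          exact this
        · have := cl _ hVX' α hαS β hβS _ hh1 _ hh2
          unfold opW' at this
          rw [map_mul, map_mul, map_inv, ev4_up, F.wX' _ _ _ _ _ rfl, ← hX', ← hP] at this
          rw [map_mul, map_mul, map_inv, ev2_zero]
          exact this
      · refine ⟨⟨?_, ?_⟩, ⟨?_, ?_⟩⟩
        · have := cl _ hWY α hαS β hβS _ hh1 _ hh2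
          rw [F.wY _ _ _ _ _ rfl, ← hY'] at this
          rw [map_mul, map_mul, map_inv, ev2_one]
          exact this
        · have := cl _ hVY α hαS β hβS _ hh1 _ hh2
          unfold opW' at this
          rw [map_mul, map_mul, map_inv, ev4_up, F.wY _ _ _ _ _ rfl, ← hY', ← hP] at this
          rw [map_mul, map_mul, map_inv, ev2_one]
          exact this
        · have := cl _ hWY' α hαS β hβS _ hh1 _ hh2
          rw [F.wY' _ _ _ _ _ rfl, ← hY'] at this
          rw [map_mul, map_mul, map_inv, ev2_one]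
          exact this
        · have := cl _ hVY' α hαS β hβS _ hh1 _ hh2
          unfold opW' at this
          rw [map_mul, map_mul, map_inv, ev4_up, F.wY' _ _ _ _ _ rfl, ← hY', ← hP] at this
          rw [map_mul, map_mul, map_inv, ev2_one]
          exact this
  have hPS : P ∈ S := by
    have h2 : (FreeGroup.of 0 * FreeGroup.of 1 : FreeGroup (Fin 2)) ∈ Sg :=
      key _ (by rw [hR]; trivial)
    have h3 := h2.1
    rw [map_mul, ev2_zero, ev2_one, ← hPXY] at h3
    exact h3
  have hmul : α * β ∈ S := by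
    have := cl _ hD α hαS β hβS P hPS 1 h1
    rwa [F.D1 _ _ _ _ _ rfl] at this
  have hmul' : ∀ a ∈ S, ∀ b ∈ S, a * b ∈ S := by
    intro a ha b hb
    have h2 := hS.sub _ hmul (fun i => if i = 0 then a else b) (by
      intro i
      split_ifs <;> assumption)
    rw [map_mul, hα, hβ, FreeGroup.lift_apply_of, FreeGroup.lift_apply_of] at h2
    simpa using h2
  induction A using FreeGroup.induction_on with
  | C1 => exact h1
  | of i => exact hS.var i
  | inv_of i ih => exact hinv' _ ih
  | mul a b iha ihb => exact hmul' a iha b ihb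

end Main

section Lists

/-- Substitution of lists. -/
def substL {ι : Type} (s : ι → List (ℕ × Bool)) (l : List (ι × Bool)) : List (ℕ × Bool) :=
  l.flatMap (fun p => bif p.2 then s p.1 else FreeGroup.invRev (s p.1))

theorem mk_substL {ι : Type} (s : ι → List (ℕ × Bool)) (l : List (ι × Bool)) :
    FreeGroup.mk (substL s l) = FreeGroup.lift (fun i => FreeGroup.mk (s i)) (FreeGroup.mk l) := by
  rw [FreeGroup.lift_mk]
  induction l with
  | nil => rfl
  | cons p l ih =>
    have e : substL s (p :: l)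
        = (bif p.2 then s p.1 else FreeGroup.invRev (s p.1)) ++ substL s l := rfl
    rw [e, ← FreeGroup.mul_mk, List.map_cons, List.prod_cons, ih]
    congr 1
    cases h : p.2 with
    | true => simp
    | false =>
      simp only [cond_false]
      rw [FreeGroup.inv_mk]

theorem primrec_invRev : Primrec (FreeGroup.invRev : List (ℕ × Bool) → List (ℕ × Bool)) := by
  unfold FreeGroup.invRev
  apply Primrec.list_reverse.comp
  apply Primrec.list_map Primrec.id
  exact (Primrec.pair (Primrec.fst.comp Primrec.snd)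
    (Primrec.not.comp (Primrec.snd.comp Primrec.snd))).to₂

theorem primrec_substL_left {ι : Type} (s : ι → ℕ → List (ℕ × Bool))
    (hs : ∀ i, Primrec (s i)) (l : List (ι × Bool)) :
    Primrec (fun n => substL (fun i => s i n) l) := by
  induction l with
  | nil => exact Primrec.const []
  | cons p l ih =>
    have e : (fun n => substL (fun i => s i n) (p :: l))
        = fun n => (bif p.2 then s p.1 n else FreeGroup.invRev (s p.1 n))
          ++ substL (fun i => s i n) l := rfl
    rw [e]
    apply Primrec.list_append.comp _ ih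
    cases p.2 with
    | true => exact hs p.1
    | false => exact primrec_invRev.comp (hs p.1)

theorem primrec_substL_right (s : Fin 2 → List (ℕ × Bool)) {r : ℕ → List (Fin 2 × Bool)}
    (hr : Primrec r) : Primrec (fun n => substL s (r n)) := by
  unfold substL
  apply Primrec.list_flatMap hr
  exact ((Primrec.dom_finite (fun p : Fin 2 × Bool =>
    bif p.2 then s p.1 else FreeGroup.invRev (s p.1))).comp Primrec.snd).to₂

/-- Gluing of lists. -/
def glueL (Dl : List (Fin 4 × Bool)) (u v : List (ℕ × Bool)) : List (ℕ × Bool) :=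
  substL (fun i : Fin 4 => if i = 0 then u.map (fun p => (2 * p.1, p.2))
    else if i = 1 then v.map (fun p => (2 * p.1 + 1, p.2)) else []) Dl

theorem mk_glueL (Dl : List (Fin 4 × Bool)) (u v : List (ℕ × Bool)) :
    FreeGroup.mk (glueL Dl u v) = glue (FreeGroup.mk Dl) (FreeGroup.mk u) (FreeGroup.mk v) := by
  unfold glueL glue
  rw [mk_substL, FreeGroup.map.mk, FreeGroup.map.mk]
  have : FreeGroup.lift (fun i : Fin 4 => FreeGroup.mk
      (if i = 0 then u.map (fun p => (2 * p.1, p.2))
        else if i = 1 then v.map (fun p => (2 * p.1 + 1, p.2)) else []))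
      = ev4 (FreeGroup.mk (u.map fun p => (2 * p.1, p.2)))
        (FreeGroup.mk (v.map fun p => (2 * p.1 + 1, p.2))) 1 1 := by
    apply hom4_ext
    · simp
    · simp
    · simp [FreeGroup.one_eq_mk]
    · simp [FreeGroup.one_eq_mk]
  rw [this]

theorem primrec_glueL (Dl : List (Fin 4 × Bool)) {u v : ℕ → List (ℕ × Bool)} (hu : Primrec u)
    (hv : Primrec v) : Primrec (fun n => glueL Dl (u n) (v n)) := by
  unfold glueL
  apply primrec_substL_left (fun (i : Fin 4) n => if i = 0 then (u n).map (fun p => (2 * p.1, p.2))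
    else if i = 1 then (v n).map (fun p => (2 * p.1 + 1, p.2)) else [])
  intro i
  have h2 : Primrec (fun a : ℕ => 2 * a) := Primrec.nat_mul.comp (Primrec.const 2) Primrec.id
  by_cases h0 : i = 0
  · simp only [h0, if_true]
    apply Primrec.list_map hu
    exact (Primrec.pair (h2.comp (Primrec.fst.comp Primrec.snd))
      (Primrec.snd.comp Primrec.snd)).to₂
  · by_cases h1 : i = 1
    · simp only [h1]
      apply Primrec.list_map hv
      exact (Primrec.pair (Primrec.succ.comp (h2.comp (Primrec.fst.comp Primrec.snd)))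
        (Primrec.snd.comp Primrec.snd)).to₂
    · simp only [h0, h1, if_false]
      exact Primrec.const []

end Lists

section Reduction

variable {G : Type} [Group G] {x y : G} {q : ℕ}

/-- The reduction. -/
theorem reduction (B : Base2 G x y q) (hind : PairInd x y) (R₀ : List (FreeGroup (Fin 2)))
    (hR₀ : ∀ r ∈ R₀, ev2 x y r = 1) (r : ℕ → List (Fin 2 × Bool)) (hr : Primrec r) :
    ∃ W : ℕ → List (ℕ × Bool), Primrec W ∧ ∀ n,
      (ev2 x y (FreeGroup.mk (r n)) = 1 → ¬ Complete (FreeGroup.mk (W n))) ∧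
      (Subgroup.normalClosure {s | s ∈ R₀ ∨ s = FreeGroup.mk (r n)} = ⊤ →
        Complete (FreeGroup.mk (W n))) := by
  obtain ⟨X, hX, Y, hY, hXY⟩ := exists_XY B hind
  obtain ⟨D, hD1, hD2, hD3⟩ := exists_D B hind hXY
  obtain ⟨WX, hWX1, hWX2, hWX3⟩ := exists_W B hind hXY hX
  obtain ⟨WX', hWX'1, hWX'2, hWX'3⟩ := exists_W B hind hXY (Subgroup.inv_mem _ hX)
  obtain ⟨WY, hWY1, hWY2, hWY3⟩ := exists_W B hind hXY hY
  obtain ⟨WY', hWY'1, hWY'2, hWY'3⟩ := exists_W B hind hXY (Subgroup.inv_mem _ hY)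
  have F : Formal X Y D WX WX' WY WY' := by
    refine ⟨hD1, hD2, hWX1, ?_, hWY1, ?_⟩
    · intro H _ α β γ ζ hζ
      rw [hWX'1 H α β γ ζ hζ, map_inv, inv_inv]
    · intro H _ α β γ ζ hζ
      rw [hWY'1 H α β γ ζ hζ, map_inv, inv_inv]
  have hP : X * Y ∈ commutator (FreeGroup (Fin 2)) := Subgroup.mul_mem _ hX hY
  -- preservation
  have pD : Pres4 x y D := by
    intro s hs t ht c hc d hd
    by_cases h : Commute s t
    · rw [hD2 G s t c d h]
      exact mul_mem_TT B hs ht h
    · rw [hD3 s hs t ht c hc d hd h]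
      exact one_mem_TT
  have pW : ∀ W : FreeGroup (Fin 4),
      (∀ (H : Type) [Group H] (α β γ ζ : H), Commute α β → ev4 α β γ ζ W = γ) →
      (∀ s ∈ TT x y, ∀ r ∈ TT x y, ∀ c ∈ TT x y, ∀ d ∈ TT x y, ¬ Commute s r →
        ev4 s r c d W = 1) → Pres4 x y W ∧ Pres4 x y (opW' X Y W) := by
    intro W h1 h2
    constructor
    · intro s hs t ht c hc d hd
      by_cases h : Commute s t
      · rw [h1 G s t c d h]
        exact hc
      · rw [h2 s hs t ht c hc d hd h]
        exact one_mem_TT
    · intro s hs t ht c hc d hd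
      unfold opW'
      rw [map_mul, map_mul, map_inv, ev4_up]
      by_cases h : Commute s t
      · rw [h1 G s t c d h, ev2_commute h hP]
        simpa using hc
      · rw [h2 s hs t ht c hc d hd h]
        simpa using one_mem_TT
  have hval : ∀ r : FreeGroup (Fin 2), ev2 x y r = 1 → ∀ s ∈ TT x y, ∀ t ∈ TT x y,
      ev2 s t (ev2 X Y r) = 1 := by
    intro r hr s hs t ht
    rw [ev2_map]
    by_cases h : Commute s t
    · rw [ev2_commute h hX, ev2_commute h hY]
      have : (ev2 1 1 : FreeGroup (Fin 2) →* G) = 1 := by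
        apply hom2_ext <;> simp
      rw [this]
      rfl
    · rw [(hXY s hs t ht h).1, (hXY s hs t ht h).2, hr]
  have pR : ∀ r : FreeGroup (Fin 2), ev2 x y r = 1 → Pres4 x y (opR X Y r) ∧
      Pres4 x y (opR' X Y r) := by
    intro r hr
    constructor
    · intro s hs t ht c hc d hd
      unfold opR
      rw [map_mul, ev4_two, ev4_up, hval r hr s hs t ht, mul_one]
      exact hc
    · intro s hs t ht c hc d hd
      unfold opR'
      rw [map_mul, ev4_three, map_mul, map_mul, map_inv, ev4_up, ev4_up, hval r hr s hs t ht]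
      simpa using hd
  -- the fixed part
  let ops : List (FreeGroup (Fin 4)) :=
    [(FreeGroup.of 0)⁻¹, D, WX, WX', WY, WY', opW' X Y WX, opW' X Y WX', opW' X Y WY,
      opW' X Y WY'] ++ (R₀.map (opR X Y) ++ R₀.map (opR' X Y))
  have hops : ∀ w ∈ ops, Pres4 x y w := by
    intro w hw
    simp only [ops, List.mem_append, List.mem_cons, List.not_mem_nil, or_false,
      List.mem_map] at hw
    rcases hw with (rfl | rfl | rfl | rfl | rfl | rfl | rfl | rfl | rfl | rfl) |
      ⟨r, hr, rfl⟩ | ⟨r, hr, rfl⟩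
    · intro s hs t ht c hc d hd
      rw [map_inv, ev4_zero]
      exact inv_mem_TT B hs
    · exact pD
    · exact (pW _ hWX2 hWX3).1
    · exact (pW _ hWX'2 hWX'3).1
    · exact (pW _ hWY2 hWY3).1
    · exact (pW _ hWY'2 hWY'3).1
    · exact (pW _ hWX2 hWX3).2
    · exact (pW _ hWX'2 hWX'3).2
    · exact (pW _ hWY2 hWY3).2
    · exact (pW _ hWY'2 hWY'3).2
    · exact (pR r (hR₀ r hr)).1
    · exact (pR r (hR₀ r hr)).2
  obtain ⟨K, hK⟩ := co_foldr hD2 (ops.map n4)
  set v : FreeGroup ℕ := (FreeGroup.of 0) ^ (-2 - K) with hv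
  set rest : FreeGroup ℕ := (ops.map n4).foldr (glue D) v with hrest
  have hco : co rest = (FreeGroup.of 0) ^ (-2 : ℤ) := by
    rw [hrest, hv, hK]
    congr 1
    ring
  -- the words as lists
  let Dl := D.toWord
  have hDl : FreeGroup.mk Dl = D := FreeGroup.mk_toWord
  let Xl : Fin 2 → List (ℕ × Bool) := fun i =>
    (if i = 0 then ev2 (FreeGroup.of 0) (FreeGroup.of 1) X
      else ev2 (FreeGroup.of 0) (FreeGroup.of 1) Y : FreeGroup ℕ).toWord
  let Pl : List (ℕ × Bool) :=
    (ev2 (FreeGroup.of 0) (FreeGroup.of 1) (X * Y) : FreeGroup ℕ).toWord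
  let W1 : ℕ → List (ℕ × Bool) := fun n => (2, true) :: substL Xl (r n)
  let W2 : ℕ → List (ℕ × Bool) := fun n =>
    (3, true) :: ((FreeGroup.invRev Pl ++ substL Xl (r n)) ++ Pl)
  let W : ℕ → List (ℕ × Bool) := fun n =>
    glueL Dl (W1 n) (glueL Dl (W2 n) rest.toWord)
  have hn4up : ∀ w : FreeGroup (Fin 2), n4 (up w) = ev2 (FreeGroup.of 0) (FreeGroup.of 1) w := by
    intro w
    unfold n4
    rw [ev4_up]
  have hXl : ∀ n, FreeGroup.mk (substL Xl (r n)) = n4 (up (ev2 X Y (FreeGroup.mk (r n)))) := by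
    intro n
    rw [mk_substL, hn4up, ev2_map]
    have : FreeGroup.lift (fun i => FreeGroup.mk (Xl i))
        = ev2 (ev2 (FreeGroup.of 0) (FreeGroup.of 1) X)
          (ev2 (FreeGroup.of 0) (FreeGroup.of 1) Y) := by
      apply hom2_ext
      · simp only [FreeGroup.lift_apply_of, Xl, FreeGroup.mk_toWord, ev2_zero, if_true]
      · simp only [FreeGroup.lift_apply_of, Xl, FreeGroup.mk_toWord, ev2_one]
        rfl
    rw [this]
  have hW1 : ∀ n, FreeGroup.mk (W1 n) = n4 (opR X Y (FreeGroup.mk (r n))) := by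
    intro n
    have e : W1 n = [(2, true)] ++ substL Xl (r n) := rfl
    rw [e, ← FreeGroup.mul_mk, hXl]
    unfold opR
    rw [map_mul]
    congr 1
  have hW2 : ∀ n, FreeGroup.mk (W2 n) = n4 (opR' X Y (FreeGroup.mk (r n))) := by
    intro n
    have e : W2 n = [(3, true)] ++ ((FreeGroup.invRev Pl ++ substL Xl (r n)) ++ Pl) := rfl
    rw [e, ← FreeGroup.mul_mk, ← FreeGroup.mul_mk, ← FreeGroup.mul_mk, hXl, ← FreeGroup.inv_mk]
    unfold opR'
    rw [map_mul, map_mul, map_mul, map_inv, hn4up (X * Y)]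
    have e2 : FreeGroup.mk Pl = ev2 (FreeGroup.of 0) (FreeGroup.of 1) (X * Y) :=
      FreeGroup.mk_toWord
    rw [e2]
    congr 1
  have hW : ∀ n, FreeGroup.mk (W n) = glue D (n4 (opR X Y (FreeGroup.mk (r n))))
      (glue D (n4 (opR' X Y (FreeGroup.mk (r n)))) rest) := by
    intro n
    show FreeGroup.mk (glueL Dl (W1 n) (glueL Dl (W2 n) rest.toWord)) = _
    rw [mk_glueL, mk_glueL, hDl, hW1, hW2, FreeGroup.mk_toWord]
  refine ⟨W, ?_, ?_⟩
  · apply primrec_glueL
    · exact Primrec.list_cons.comp (Primrec.const _) (primrec_substL_right Xl hr)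
    · apply primrec_glueL
      · exact Primrec.list_cons.comp (Primrec.const _)
          (Primrec.list_append.comp (Primrec.list_append.comp (Primrec.const _)
            (primrec_substL_right Xl hr)) (Primrec.const _))
      · exact Primrec.const _
  · intro n
    constructor
    · intro hrn
      apply not_complete B
      rw [hW]
      apply pres_glue pD (pres_n4 (pR _ hrn).1)
      apply pres_glue pD (pres_n4 (pR _ hrn).2)
      rw [hrest]
      apply pres_foldr pD
      · rw [hv]
        exact pres_zpow B _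
      · intro w hw
        obtain ⟨w', hw', rfl⟩ := List.mem_map.1 hw
        exact pres_n4 (hops w' hw')
    · intro hnc S hS hWS
      rw [hW] at hWS
      -- the constant
      have hcoR : ∀ r : FreeGroup (Fin 2),
          co (n4 (opR X Y r)) = FreeGroup.of 0 ∧ co (n4 (opR' X Y r)) = FreeGroup.of 0 := by
        intro r
        have h0 : ev2 (FreeGroup.of 0 : FreeGroup ℕ) (FreeGroup.of 0) (ev2 X Y r) = 1 := by
          rw [ev2_map, ev2_commute (Commute.refl _) hX, ev2_commute (Commute.refl _) hY]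
          have : (ev2 1 1 : FreeGroup (Fin 2) →* FreeGroup ℕ) = 1 := by
            apply hom2_ext <;> simp
          rw [this]
          rfl
        unfold co
        rw [lift_n4, lift_n4]
        unfold opR opR'
        rw [map_mul, ev4_two, ev4_up, h0, mul_one, map_mul, ev4_three, map_mul, map_mul,
          map_inv, ev4_up, ev4_up, h0]
        simp
      have h1 : (1 : FreeGroup ℕ) ∈ S := by
        have h2 := hS.sub _ hWS (fun _ => FreeGroup.of 0) (fun _ => hS.var 0)
        have h3 : co (glue D (n4 (opR X Y (FreeGroup.mk (r n))))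
            (glue D (n4 (opR' X Y (FreeGroup.mk (r n)))) rest)) = 1 := by
          rw [co_glue hD2, co_glue hD2, hco, (hcoR _).1, (hcoR _).2]
          group
        unfold co at h3
        rwa [h3] at h2
      have hA := glue_mem_left hD2 hS h1 hWS
      have hB := glue_mem_right hD2 hS h1 hWS
      have hC := glue_mem_left hD2 hS h1 hB
      have hE := glue_mem_right hD2 hS h1 hB
      rw [hrest] at hE
      have hmem := foldr_mem hD2 hS h1 _ _ hE
      have hmem' : ∀ w ∈ ops, n4 w ∈ S := fun w hw => hmem _ (List.mem_map_of_mem hw)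
      apply all_mem F _ hnc hS h1
      · exact hmem' _ (by simp [ops])
      · exact hmem' _ (by simp [ops])
      · exact hmem' _ (by simp [ops])
      · exact hmem' _ (by simp [ops])
      · exact hmem' _ (by simp [ops])
      · exact hmem' _ (by simp [ops])
      · exact hmem' _ (by simp [ops])
      · exact hmem' _ (by simp [ops])
      · exact hmem' _ (by simp [ops])
      · exact hmem' _ (by simp [ops])
      · rintro s (hs | rfl)
        · exact hmem' _ (by
            simp only [ops, List.mem_append]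
            exact Or.inr (Or.inl (List.mem_map_of_mem hs)))
        · exact hA
      · rintro s (hs | rfl)
        · exact hmem' _ (by
            simp only [ops, List.mem_append]
            exact Or.inr (Or.inr (List.mem_map_of_mem hs)))
        · exact hC

end Reduction

end Pool.Agent.Lib_helper82
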