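import Mathlib

set_option autoImplicit false

open Turing

/-!
# The base of the reduction: an undecidable halting problem with inputs written in unary
-/

namespace Pool.Agent.Lib_helper82

/-- Test for the exponent. -/
def expTest (m n : ℕ) : Bool := decide (2 ^ n = m + 1)

/-- The partial function `2^n - 1 ↦ eval (code n) 0`. -/
noncomputable def baseFun (m : ℕ) : Part ℕ :=
  (Nat.rfind (expTest m : ℕ →. Bool)).bind
    (fun n => Nat.Partrec.Code.eval (Denumerable.ofNat Nat.Partrec.Code n) 0)

theorem primrec_pow : Primrec₂ (fun a b : ℕ => a ^ b) := Primrec₂.unpaired'.1 Nat.Primrec.pow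

theorem primrec_expTest : Primrec₂ expTest := by
  apply PrimrecRel.decide
  apply PrimrecRel.comp₂ Primrec.eq
  · exact (primrec_pow.comp (Primrec.const 2) Primrec.snd).to₂
  · exact (Primrec.succ.comp Primrec.fst).to₂

theorem baseFun_partrec : Partrec baseFun := by
  unfold baseFun
  apply Partrec.bind
  · apply Partrec.rfind
    exact primrec_expTest.to_comp.partrec₂
  · exact (Nat.Partrec.Code.eval_part.comp
      ((Computable.ofNat Nat.Partrec.Code).comp Computable.snd) (Computable.const 0)).to₂

theorem baseFun_dom (n : ℕ) : (baseFun (2 ^ n - 1)).Dom ↔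
    (Nat.Partrec.Code.eval (Denumerable.ofNat Nat.Partrec.Code n) 0).Dom := by
  unfold baseFun
  have h2 : 2 ^ n - 1 + 1 = 2 ^ n := Nat.sub_add_cancel Nat.one_le_two_pow
  have h1 : n ∈ Nat.rfind (expTest (2 ^ n - 1) : ℕ →. Bool) := by
    refine Nat.mem_rfind.2 ⟨?_, ?_⟩
    · have h4 : expTest (2 ^ n - 1) n = true := by
        unfold expTest
        rw [h2]
        simp
      exact Part.mem_some_iff.2 h4.symm
    · intro m hm
      have h3 : 2 ^ m ≠ 2 ^ n := by
        intro h
        have := Nat.pow_right_injective le_rfl h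
        omega
      have h4 : expTest (2 ^ n - 1) m = false := by
        unfold expTest
        rw [h2]
        simp [h3]
      exact Part.mem_some_iff.2 h4.symm
  rw [Part.eq_some_iff.2 h1, Part.bind_some]

theorem exists_base : ∃ c : ToPartrec.Code,
    ¬ ComputablePred (fun n : ℕ => (c.eval [2 ^ n - 1]).Dom) := by
  obtain ⟨c, hc⟩ := ToPartrec.Code.exists_code (Nat.Partrec'.part_iff₁.2 baseFun_partrec)
  refine ⟨c, fun h => ?_⟩
  have h1 : ∀ n : ℕ, (c.eval [2 ^ n - 1]).Dom ↔
      (Nat.Partrec.Code.eval (Denumerable.ofNat Nat.Partrec.Code n) 0).Dom := by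
    intro n
    have h2 := hc ⟨[2 ^ n - 1], rfl⟩
    have h3 : c.eval [2 ^ n - 1] = pure <$> baseFun (2 ^ n - 1) := h2
    rw [h3, ← baseFun_dom n]
    rfl
  apply ComputablePred.halting_problem 0
  apply ComputablePred.computable_of_manyOneReducible _ h
  refine ⟨Encodable.encode, Computable.encode, ?_⟩
  intro c'
  have h2 := h1 (Encodable.encode c')
  rw [Denumerable.ofNat_encode] at h2
  exact h2.symm

end Pool.Agent.Lib_helper82
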