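import Mathlib

set_option autoImplicit false

open scoped commutatorElement

/-!
# Words in a group with a Steinberg-like family of generators

`e i j a` (`i ≠ j` in `Fin 5`, `a` a letter) are elements of a group which satisfy the
commutation relations of elementary matrices; `Ew e i j w` is the element of the word `w`.
-/

namespace Pool.Agent.Lib_helper82

section Steinberg

variable {Γ 𝒜 : Type} [Group Γ]

/-- A node different from `i` and from `j`. -/
def mid (i j : Fin 5) : Fin 5 := if i ≠ 0 ∧ j ≠ 0 then 0 else if i ≠ 1 ∧ j ≠ 1 then 1 else 2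

theorem mid_ne_left : ∀ i j : Fin 5, mid i j ≠ i := by decide

theorem mid_ne_right : ∀ i j : Fin 5, mid i j ≠ j := by decide

theorem exists_fifth : ∀ i j k l : Fin 5, ∃ m : Fin 5, m ≠ i ∧ m ≠ j ∧ m ≠ k ∧ m ≠ l := by decide

/-- The element of a word: iterated commutators. -/
def Ew (e : Fin 5 → Fin 5 → 𝒜 → Γ) : Fin 5 → Fin 5 → List 𝒜 → Γ
  | _, _, [] => 1
  | i, j, [a] => e i j a
  | i, j, (a :: b :: w) => ⁅e i (mid i j) a, Ew e (mid i j) j (b :: w)⁆

/-- The relations between generators. -/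
structure SteinbergRel (e : Fin 5 → Fin 5 → 𝒜 → Γ) : Prop where
  comm : ∀ i j k l, i ≠ j → k ≠ l → j ≠ k → i ≠ l → ∀ a b, Commute (e i j a) (e k l b)
  mid : ∀ i k m m', i ≠ k → m ≠ i → m ≠ k → m' ≠ i → m' ≠ k → ∀ a b,
    ⁅e i m a, e m k b⁆ = ⁅e i m' a, e m' k b⁆

theorem comm_assoc {x y z : Γ} (h1 : Commute x z) (h2 : Commute ⁅y, z⁆ z)
    (h3 : Commute ⁅x, y⁆ ⁅y, z⁆) : ⁅x, ⁅y, z⁆⁆ = ⁅⁅x, y⁆, z⁆ := by
  have e1 : ⁅x, ⁅y, z⁆⁆ = ⁅x, y⁆ * ⁅y, z⁆ * (z * ⁅x, y⁆⁻¹ * z⁻¹) * ⁅y, z⁆⁻¹ := by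
    have hxz : x * z = z * x := h1.eq
    have hxz' : x⁻¹ * z = z * x⁻¹ := (h1.inv_left).eq
    have hxzi : x * z⁻¹ = z⁻¹ * x := (h1.inv_right).eq
    have hxzi' : x⁻¹ * z⁻¹ = z⁻¹ * x⁻¹ := (h1.inv_left.inv_right).eq
    simp only [commutatorElement_def, mul_inv_rev, inv_inv]
    calc x * (y * z * y⁻¹ * z⁻¹) * x⁻¹ * (z * (y * (z⁻¹ * y⁻¹)))
        = x * y * z * y⁻¹ * (z⁻¹ * x⁻¹) * z * y * z⁻¹ * y⁻¹ := by group
      _ = x * y * z * y⁻¹ * (x⁻¹ * z⁻¹) * z * y * z⁻¹ * y⁻¹ := by rw [hxzi']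
      _ = x * y * x⁻¹ * (x * z) * y⁻¹ * x⁻¹ * y * z⁻¹ * y⁻¹ := by group
      _ = x * y * x⁻¹ * (z * x) * y⁻¹ * x⁻¹ * y * z⁻¹ * y⁻¹ := by rw [hxz]
      _ = _ := by group
  have h4 : Commute ⁅y, z⁆ (z * ⁅x, y⁆⁻¹ * z⁻¹) :=
    (h2.mul_right h3.symm.inv_right).mul_right h2.inv_right
  rw [e1, mul_assoc ⁅x, y⁆, h4.eq, commutatorElement_def ⁅x, y⁆ z]
  group

variable {e : Fin 5 → Fin 5 → 𝒜 → Γ}

theorem Ew_singleton (i j : Fin 5) (a : 𝒜) : Ew e i j [a] = e i j a := by
  simp [Ew]

theorem Ew_cons_mid (i j : Fin 5) (a : 𝒜) (w : List 𝒜) (hw : w ≠ []) :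
    Ew e i j (a :: w) = ⁅e i (mid i j) a, Ew e (mid i j) j w⁆ := by
  cases w with
  | nil => exact absurd rfl hw
  | cons b w => rfl

/-- The two statements which are proved together by induction. -/
def Good (e : Fin 5 → Fin 5 → 𝒜 → Γ) (N : ℕ) : Prop :=
  (∀ u v : List 𝒜, u ≠ [] → v ≠ [] → u.length ≤ N → v.length ≤ N → ∀ i j k l, i ≠ j → k ≠ l →
    j ≠ k → i ≠ l → Commute (Ew e i j u) (Ew e k l v)) ∧
  (∀ (a : 𝒜) (w : List 𝒜), w ≠ [] → w.length + 1 ≤ N → ∀ i k m, i ≠ k → m ≠ i → m ≠ k →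
    Ew e i k (a :: w) = ⁅e i m a, Ew e m k w⁆)

theorem commute_commutator {x y z : Γ} (h1 : Commute x z) (h2 : Commute y z) :
    Commute ⁅x, y⁆ z := by
  rw [commutatorElement_def]
  exact ((h1.mul_left h2).mul_left h1.inv_left).mul_left h2.inv_left

theorem good_zero : Good e 0 := by
  refine ⟨?_, ?_⟩
  · intro u v hu hv hlu
    exact absurd (List.eq_nil_of_length_eq_zero (by omega)) hu
  · intro a w hw h
    omega

theorem good_one (h : SteinbergRel e) : Good e 1 := by
  refine ⟨?_, ?_⟩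
  · intro u v hu hv hlu hlv i j k l h1 h2 h3 h4
    obtain ⟨a, rfl⟩ := List.length_eq_one_iff.1
      (le_antisymm hlu (List.length_pos_iff.2 hu))
    obtain ⟨b, rfl⟩ := List.length_eq_one_iff.1
      (le_antisymm hlv (List.length_pos_iff.2 hv))
    simpa [Ew] using h.comm i j k l h1 h2 h3 h4 a b
  · intro a w hw h
    exact absurd (List.eq_nil_of_length_eq_zero (by omega)) hw

/-- The independence of the middle node gives the commutation relations. -/
theorem good_comm {N : ℕ} (hN : Good e N)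
    (hM : ∀ (a : 𝒜) (w : List 𝒜), w ≠ [] → w.length + 1 ≤ N + 1 → ∀ i k m, i ≠ k → m ≠ i →
      m ≠ k → Ew e i k (a :: w) = ⁅e i m a, Ew e m k w⁆) (h1N : 1 ≤ N) :
    ∀ u v : List 𝒜, u ≠ [] → v ≠ [] → u.length ≤ N + 1 → v.length ≤ N + 1 → ∀ i j k l, i ≠ j →
      k ≠ l → j ≠ k → i ≠ l → Commute (Ew e i j u) (Ew e k l v) := by
  -- first: `v` of length at most `N`, `u` of length at most `N + 1`
  have key : ∀ u v : List 𝒜, u ≠ [] → v ≠ [] → u.length ≤ N + 1 → v.length ≤ N →
      ∀ i j k l, i ≠ j → k ≠ l → j ≠ k → i ≠ l → Commute (Ew e i j u) (Ew e k l v) := by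
    intro u v hu hv hlu hlv i j k l h1 h2 h3 h4
    rcases Nat.lt_or_ge N u.length with hlt | hge
    · cases u with
      | nil => exact absurd rfl hu
      | cons a w =>
        have hw : w ≠ [] := by
          rintro rfl
          simp at hlt
          omega
        simp only [List.length_cons] at hlu hlt
        obtain ⟨m, hm1, hm2, hm3, hm4⟩ := exists_fifth i j k l
        rw [hM a w hw (by omega) i j m h1 hm1 hm2]
        apply commute_commutator
        · have := hN.1 [a] v (by simp) hv (by simpa using h1N) hlv i m k l hm1.symm h2 hm3 h4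
          rwa [Ew_singleton] at this
        · exact hN.1 w v hw hv (by omega) hlv m j k l hm2 h2 h3 hm4
    · exact hN.1 u v hu hv hge hlv i j k l h1 h2 h3 h4
  intro u v hu hv hlu hlv i j k l h1 h2 h3 h4
  rcases Nat.lt_or_ge N v.length with hlt | hge
  · cases v with
    | nil => exact absurd rfl hv
    | cons a w =>
      have hw : w ≠ [] := by
        rintro rfl
        simp at hlt
        omega
      simp only [List.length_cons] at hlv hlt
      obtain ⟨m, hm1, hm2, hm3, hm4⟩ := exists_fifth i j k l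
      rw [hM a w hw (by omega) k l m h2 hm3 hm4]
      apply Commute.symm
      apply commute_commutator
      · have := (key u [a] hu (by simp) hlu (by simpa using h1N) i j k m h1 hm3.symm h3
          hm1.symm).symm
        rwa [Ew_singleton] at this
      · exact (key u w hu hw hlu (by omega) i j m l h1 hm4 hm2.symm h4).symm
  · exact key u v hu hv hlu hge i j k l h1 h2 h3 h4

theorem good_succ (h : SteinbergRel e) {N : ℕ} (hN : Good e N) (h1N : 1 ≤ N) :
    Good e (N + 1) := by
  have hM : ∀ (a : 𝒜) (w : List 𝒜), w ≠ [] → w.length + 1 ≤ N + 1 → ∀ i k m, i ≠ k → m ≠ i →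
      m ≠ k → Ew e i k (a :: w) = ⁅e i m a, Ew e m k w⁆ := by
    intro a w hw hlw i k m h1 h2 h3
    rcases Nat.lt_or_ge w.length N with hlt | hge
    · exact hN.2 a w hw (by omega) i k m h1 h2 h3
    · rw [Ew_cons_mid i k a w hw]
      set m₀ := mid i k with hm₀
      have hm0i : m₀ ≠ i := mid_ne_left i k
      have hm0k : m₀ ≠ k := mid_ne_right i k
      cases w with
      | nil => exact absurd rfl hw
      | cons b w' =>
        simp only [List.length_cons] at hlw hge
        cases w' with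
        | nil =>
          rw [Ew_singleton, Ew_singleton]
          exact h.mid i k m₀ m h1 hm0i hm0k h2 h3 a b
        | cons c w'' =>
          have hw' : (c :: w'') ≠ [] := by simp
          set w' := c :: w'' with hw'def
          have hl' : 1 ≤ w'.length := by simp [hw'def]
          obtain ⟨p, hp1, hp2, hp3, hp4⟩ := exists_fifth i k m₀ m
          have aux : ∀ s : Fin 5, s ≠ i → s ≠ k → s ≠ p →
              ⁅e i s a, Ew e s k (b :: w')⁆ = ⁅⁅e i s a, e s p b⁆, Ew e p k w'⁆ := by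
            intro s hs1 hs2 hs3
            have hexp : Ew e s k (b :: w') = ⁅e s p b, Ew e p k w'⁆ :=
              hN.2 b w' hw' (by omega) s k p hs2 hs3.symm hp2
            rw [hexp]
            apply comm_assoc
            · have := hN.1 [a] w' (by simp) hw' (by simpa using h1N) (by omega) i s p k
                hs1.symm hp2 hs3 h1
              rwa [Ew_singleton] at this
            · rw [← hexp]
              exact hN.1 (b :: w') w' (by simp) hw' (by simpa using hlw) (by omega) s k p k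
                hs2 hp2 (Ne.symm hp2) hs2
            · rw [← hexp]
              have h2' : Ew e i p [a, b] = ⁅e i s a, e s p b⁆ := by
                have := hN.2 a [b] (by simp) (by simp; omega) i p s hp1.symm hs1 hs3
                rwa [Ew_singleton] at this
              rw [← h2']
              exact hN.1 [a, b] (b :: w') (by simp) (by simp) (by simp; omega)
                (by simpa using hlw) i p s k hp1.symm hs2 hs3.symm h1
          rw [aux m₀ hm0i hm0k hp3.symm, aux m h2 h3 hp4.symm,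
            h.mid i p m₀ m hp1.symm hm0i hp3.symm h2 hp4.symm a b]
  exact ⟨good_comm hN hM h1N, hM⟩

theorem good_all (h : SteinbergRel e) : ∀ N, Good e N
  | 0 => good_zero
  | 1 => good_one h
  | (N + 2) => good_succ h (good_all h (N + 1)) (by omega)

theorem Ew_commute (h : SteinbergRel e) {u v : List 𝒜} (hu : u ≠ []) (hv : v ≠ [])
    {i j k l : Fin 5} (h1 : i ≠ j) (h2 : k ≠ l) (h3 : j ≠ k) (h4 : i ≠ l) :
    Commute (Ew e i j u) (Ew e k l v) :=
  (good_all h (u.length + v.length)).1 u v hu hv (by omega) (by omega) i j k l h1 h2 h3 h4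

theorem Ew_cons (h : SteinbergRel e) (a : 𝒜) {w : List 𝒜} (hw : w ≠ []) {i k m : Fin 5}
    (h1 : i ≠ k) (h2 : m ≠ i) (h3 : m ≠ k) : Ew e i k (a :: w) = ⁅e i m a, Ew e m k w⁆ :=
  (good_all h (w.length + 1)).2 a w hw le_rfl i k m h1 h2 h3

/-- The element of a concatenation is a commutator. -/
theorem Ew_append (h : SteinbergRel e) {v : List 𝒜} (hv : v ≠ []) :
    ∀ (u : List 𝒜), u ≠ [] → ∀ (i k m : Fin 5), i ≠ k → m ≠ i → m ≠ k →
      Ew e i k (u ++ v) = ⁅Ew e i m u, Ew e m k v⁆
  | [], hu => absurd rfl hu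
  | [a], _ => by
    intro i k m h1 h2 h3
    rw [Ew_singleton]
    exact Ew_cons h a hv h1 h2 h3
  | (a :: b :: w), _ => by
    intro i k m h1 h2 h3
    obtain ⟨p, hp1, hp2, hp3, -⟩ := exists_fifth i k m m
    have hbw : (b :: w) ≠ [] := by simp
    have hbwv : (b :: w) ++ v ≠ [] := by simp
    have e1 : Ew e i m (a :: b :: w) = ⁅e i p a, Ew e p m (b :: w)⁆ :=
      Ew_cons h a hbw h2.symm hp1 hp3
    have e2 : Ew e i k (a :: ((b :: w) ++ v)) = ⁅e i p a, Ew e p k ((b :: w) ++ v)⁆ :=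
      Ew_cons h a hbwv h1 hp1 hp2
    have e3 : Ew e p k ((b :: w) ++ v) = ⁅Ew e p m (b :: w), Ew e m k v⁆ :=
      Ew_append h hv (b :: w) hbw p k m hp2 hp3.symm h3
    have e0 : a :: b :: w ++ v = a :: ((b :: w) ++ v) := rfl
    rw [e0, e2, e1, e3]
    apply comm_assoc
    · have := Ew_commute h (u := [a]) (v := v) (by simp) hv hp1.symm h3 hp3 h1
      rwa [Ew_singleton] at this
    · rw [← e3]
      exact Ew_commute h hbwv hv hp2 h3 (Ne.symm h3) hp2
    · rw [← e1, ← e3]
      exact Ew_commute h (by simp) hbwv h2.symm hp2 hp3.symm h1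

/-- Two words are equivalent if they have the same elements. -/
def WEq (e : Fin 5 → Fin 5 → 𝒜 → Γ) (u v : List 𝒜) : Prop :=
  ∀ i j, i ≠ j → Ew e i j u = Ew e i j v

theorem WEq.append_right (h : SteinbergRel e) {u u' : List 𝒜} (hu : u ≠ []) (hu' : u' ≠ [])
    (huu : WEq e u u') (v : List 𝒜) : WEq e (u ++ v) (u' ++ v) := by
  intro i j hij
  cases v with
  | nil => simpa using huu i j hij
  | cons b v =>
    have hbv : (b :: v) ≠ [] := by simp
    rw [Ew_append h hbv u hu i j _ hij (mid_ne_left i j) (mid_ne_right i j),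
      Ew_append h hbv u' hu' i j _ hij (mid_ne_left i j) (mid_ne_right i j),
      huu i (mid i j) (mid_ne_left i j).symm]

theorem WEq.append_left (h : SteinbergRel e) {u u' : List 𝒜} (hu : u ≠ []) (hu' : u' ≠ [])
    (huu : WEq e u u') (v : List 𝒜) : WEq e (v ++ u) (v ++ u') := by
  intro i j hij
  cases v with
  | nil => simpa using huu i j hij
  | cons b v =>
    have hbv : (b :: v) ≠ [] := by simp
    rw [Ew_append h hu (b :: v) hbv i j _ hij (mid_ne_left i j) (mid_ne_right i j),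
      Ew_append h hu' (b :: v) hbv i j _ hij (mid_ne_left i j) (mid_ne_right i j),
      huu (mid i j) j (mid_ne_right i j)]

theorem WEq.trans {u v w : List 𝒜} (h1 : WEq e u v) (h2 : WEq e v w) : WEq e u w :=
  fun i j hij => (h1 i j hij).trans (h2 i j hij)

theorem WEq.symm {u v : List 𝒜} (h1 : WEq e u v) : WEq e v u :=
  fun i j hij => (h1 i j hij).symm

theorem WEq.refl (u : List 𝒜) : WEq e u u := fun _ _ _ => rfl

/-- A word is null if its elements are trivial. -/
def WNull (e : Fin 5 → Fin 5 → 𝒜 → Γ) (u : List 𝒜) : Prop :=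
  ∀ i j, i ≠ j → Ew e i j u = 1

theorem WNull.append_right (h : SteinbergRel e) {u : List 𝒜} (hu : u ≠ [])
    (huu : WNull e u) (v : List 𝒜) : WNull e (u ++ v) := by
  intro i j hij
  cases v with
  | nil => simpa using huu i j hij
  | cons b v =>
    have hbv : (b :: v) ≠ [] := by simp
    rw [Ew_append h hbv u hu i j _ hij (mid_ne_left i j) (mid_ne_right i j),
      huu i (mid i j) (mid_ne_left i j).symm, commutatorElement_one_left]

theorem WEq.null {u v : List 𝒜} (h1 : WEq e u v) (h2 : WNull e v) : WNull e u :=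
  fun i j hij => (h1 i j hij).trans (h2 i j hij)

theorem map_Ew {Γ' : Type} [Group Γ'] (f : Γ →* Γ') :
    ∀ (i j : Fin 5) (w : List 𝒜), f (Ew e i j w) = Ew (fun i j a => f (e i j a)) i j w
  | _, _, [] => by simp [Ew]
  | i, j, [a] => by simp [Ew]
  | i, j, (a :: b :: w) => by
    rw [Ew, Ew, map_commutatorElement, map_Ew f (mid i j) j (b :: w)]

end Steinberg

end Pool.Agent.Lib_helper82
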