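import Mathlib
import Pool.Agent.Lib_helper82.Steinberg

set_option autoImplicit false

open scoped commutatorElement
open Turing

/-!
# A stack machine inside the endomorphisms of a vector space over the field with two elements

Letters: a letter for every pair (statement, local variable), a letter for every pair (stack,
symbol) (the symbol `none` is the mark of the bottom of a stack) and one last letter.
The word of a configuration acts as the identity if the machine does not halt from it and as `0`
if it does.
-/

namespace Pool.Agent.Lib_helper82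

section Machine

variable {K Γ Λ σ : Type} [DecidableEq K]

/-- Statements of the machine. -/
abbrev MStmt (K Γ Λ σ : Type) := TM2.Stmt (fun _ : K => Γ) Λ σ

/-- The letters. -/
inductive Letter (Q : Type) (K Γ σ : Type) where
  | st (q : Q) (v : σ)
  | tape (k : K) (c : Option Γ)
  | fin

variable (K Γ) in
/-- Behaviours. -/
abbrev Beh := (K → List (Option Γ)) → Bool

variable (K Γ) in
/-- The space. -/
abbrev WSp := List (Beh K Γ) → ZMod 2

/-- Evaluation at a behaviour. -/
def evOp (x : Beh K Γ) : AddMonoid.End (WSp K Γ) where
  toFun f := fun L => f (x :: L)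
  map_zero' := rfl
  map_add' _ _ := rfl

/-- Pushing a symbol on a stack, at the level of behaviours. -/
def pushB (k : K) (c : Option Γ) (x : Beh K Γ) : Beh K Γ :=
  fun T => x (Function.update T k (c :: T k))

/-- Pushing a symbol on a stack. -/
def tapeOp (k : K) (c : Option Γ) : AddMonoid.End (WSp K Γ) where
  toFun f := fun L => match L with
    | [] => 0
    | x :: L => f (pushB k c x :: L)
  map_zero' := by
    funext L
    cases L <;> rfl
  map_add' f g := by
    funext L
    cases L
    · simp
    · rfl

/-- Removing a behaviour. -/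
def finOp : AddMonoid.End (WSp K Γ) where
  toFun f := fun L => match L with
    | [] => 0
    | x :: L => if x (fun _ => []) then f L else 0
  map_zero' := by
    funext L
    cases L
    · rfl
    · simp
  map_add' f g := by
    funext L
    cases L with
    | nil => simp
    | cons x L =>
      simp only [Pi.add_apply]
      split_ifs <;> simp

theorem evOp_mul_tapeOp (x : Beh K Γ) (k : K) (c : Option Γ) :
    evOp x * tapeOp k c = evOp (pushB k c x) := by
  ext f L
  rfl

omit [DecidableEq K] in
theorem evOp_mul_finOp_true (x : Beh K Γ) (hx : x (fun _ => []) = true) :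
    evOp x * finOp = 1 := by
  ext f L
  show (if x (fun _ => []) then f L else 0) = f L
  rw [if_pos hx]

omit [DecidableEq K] in
theorem evOp_mul_finOp_false (x : Beh K Γ) (hx : x (fun _ => []) = false) :
    evOp x * finOp = 0 := by
  ext f L
  show (if x (fun _ => []) then f L else 0) = 0
  rw [hx]
  rfl

theorem pushB_comm {k k' : K} (h : k ≠ k') (c c' : Option Γ) (x : Beh K Γ) :
    pushB k c (pushB k' c' x) = pushB k' c' (pushB k c x) := by
  funext T
  unfold pushB
  congr 1
  rw [Function.update_of_ne h.symm, Function.update_of_ne h, Function.update_comm h]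

theorem tapeOp_comm {k k' : K} (h : k ≠ k') (c c' : Option Γ) :
    tapeOp k c * tapeOp k' c' = tapeOp k' c' * tapeOp k c := by
  apply AddMonoidHom.ext
  intro f
  funext L
  cases L with
  | nil => rfl
  | cons x L =>
    show f (pushB k' c' (pushB k c x) :: L) = f (pushB k c (pushB k' c' x) :: L)
    rw [pushB_comm h]

/-- Stacks with marked bottoms. -/
def enc (S : K → List Γ) : K → List (Option Γ) := fun k => (S k).map some ++ [none]

omit [DecidableEq K] in
theorem enc_injective : Function.Injective (enc : (K → List Γ) → K → List (Option Γ)) := by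
  intro S S' h
  funext k
  have := congrFun h k
  unfold enc at this
  have h2 := List.append_cancel_right this
  exact List.map_injective_iff.2 (Option.some_injective Γ) h2

theorem enc_update (S : K → List Γ) (k : K) (l : List Γ) :
    enc (Function.update S k l) = Function.update (enc S) k (l.map some ++ [none]) := by
  funext k'
  by_cases h : k' = k
  · subst h
    simp [enc]
  · simp [enc, h]

variable (M : Λ → MStmt K Γ Λ σ)

/-- The machine runs forever from the given statement. -/
def Runs (q : MStmt K Γ Λ σ) (v : σ) (S : K → List Γ) : Prop :=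
  ¬ (StateTransition.eval (TM2.step M) (TM2.stepAux q v S)).Dom

open Classical in
/-- The behaviour of a statement. -/
noncomputable def phi (q : MStmt K Γ Λ σ) (v : σ) : Beh K Γ :=
  fun T => decide (∃ S : K → List Γ, T = enc S ∧ Runs M q v S)

theorem phi_enc (q : MStmt K Γ Λ σ) (v : σ) (S : K → List Γ) :
    phi M q v (enc S) = true ↔ Runs M q v S := by
  classical
  unfold phi
  refine decide_eq_true_iff.trans ?_
  constructor
  · rintro ⟨S', h, h'⟩
    rwa [enc_injective h]
  · intro h
    exact ⟨S, rfl, h⟩

theorem phi_congr {q q' : MStmt K Γ Λ σ} {v v' : σ}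
    (h : ∀ S, Runs M q v S ↔ Runs M q' v' S) : phi M q v = phi M q' v' := by
  funext T
  unfold phi
  rw [decide_eq_decide]
  constructor
  · rintro ⟨S, h1, h2⟩
    exact ⟨S, h1, (h S).1 h2⟩
  · rintro ⟨S, h1, h2⟩
    exact ⟨S, h1, (h S).2 h2⟩

theorem phi_load (a : σ → σ) (q : MStmt K Γ Λ σ) (v : σ) :
    phi M (TM2.Stmt.load a q) v = phi M q (a v) :=
  phi_congr M fun S => by simp [Runs]

theorem phi_branch (f : σ → Bool) (q₁ q₂ : MStmt K Γ Λ σ) (v : σ) :
    phi M (TM2.Stmt.branch f q₁ q₂) v = phi M (cond (f v) q₁ q₂) v :=
  phi_congr M fun S => by cases h : f v <;> simp [Runs, h]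

theorem phi_goto (l : σ → Λ) (v : σ) :
    phi M (TM2.Stmt.goto l) v = phi M (M (l v)) v :=
  phi_congr M fun S => by
    unfold Runs
    have h : StateTransition.Reaches (TM2.step M) (TM2.stepAux (TM2.Stmt.goto l) v S)
        (TM2.stepAux (M (l v)) v S) := Relation.ReflTransGen.single (by simp)
    rw [StateTransition.reaches_eval h]

theorem phi_halt (v : σ) : phi M TM2.Stmt.halt v = fun _ => false := by
  funext T
  unfold phi
  rw [decide_eq_false_iff_not]
  rintro ⟨S, -, h⟩
  apply h
  rw [Part.dom_iff_mem]
  exact ⟨_, StateTransition.mem_eval.2 ⟨Relation.ReflTransGen.refl, by simp⟩⟩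

theorem phi_push (k : K) (f : σ → Γ) (q : MStmt K Γ Λ σ) (v : σ) :
    phi M (TM2.Stmt.push k f q) v = pushB k (some (f v)) (phi M q v) := by
  funext T
  unfold pushB phi
  rw [decide_eq_decide]
  constructor
  · rintro ⟨S, rfl, h⟩
    refine ⟨Function.update S k (f v :: S k), ?_, ?_⟩
    · rw [enc_update]
      rfl
    · unfold Runs at h ⊢
      simpa using h
  · rintro ⟨S, hT, h⟩
    have hk := congrFun hT k
    rw [Function.update_self] at hk
    unfold enc at hk
    cases hS : S k with
    | nil => rw [hS] at hk; simp at hk
    | cons γ s =>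
      rw [hS] at hk
      simp only [List.map_cons, List.cons_append, List.cons.injEq, Option.some.injEq] at hk
      refine ⟨Function.update S k s, ?_, ?_⟩
      · rw [enc_update, ← hk.2]
        funext k'
        by_cases hk' : k' = k
        · subst hk'; simp
        · have := congrFun hT k'
          simpa [hk'] using this
      · unfold Runs at h ⊢
        rw [TM2.stepAux.eq_1, Function.update_self, Function.update_idem, hk.1, ← hS,
          Function.update_eq_self]
        exact h

theorem phi_pop_some (k : K) (f : σ → Option Γ → σ) (q : MStmt K Γ Λ σ) (v : σ) (γ : Γ) :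
    pushB k (some γ) (phi M (TM2.Stmt.pop k f q) v) = phi M q (f v (some γ)) := by
  funext T
  unfold pushB phi
  rw [decide_eq_decide]
  constructor
  · rintro ⟨S, hT, h⟩
    have hk := congrFun hT k
    rw [Function.update_self] at hk
    unfold enc at hk
    cases hS : S k with
    | nil => rw [hS] at hk; simp at hk
    | cons γ' s =>
      rw [hS] at hk
      simp only [List.map_cons, List.cons_append, List.cons.injEq, Option.some.injEq] at hk
      refine ⟨Function.update S k s, ?_, ?_⟩
      · rw [enc_update, ← hk.2]
        funext k'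
        by_cases hk' : k' = k
        · subst hk'; simp
        · have := congrFun hT k'
          simpa [hk'] using this
      · unfold Runs at h ⊢
        rw [TM2.stepAux.eq_3, hS, List.head?_cons, List.tail_cons, ← hk.1] at h
        exact h
  · rintro ⟨S, rfl, h⟩
    refine ⟨Function.update S k (γ :: S k), ?_, ?_⟩
    · rw [enc_update]
      rfl
    · unfold Runs at h ⊢
      rw [TM2.stepAux.eq_3, Function.update_self, List.head?_cons, List.tail_cons,
        Function.update_idem, Function.update_eq_self]
      exact h

theorem phi_pop_none (k : K) (f : σ → Option Γ → σ) (q : MStmt K Γ Λ σ) (v : σ) :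
    pushB k none (phi M (TM2.Stmt.pop k f q) v) = pushB k none (phi M q (f v none)) := by
  funext T
  unfold pushB phi
  rw [decide_eq_decide]
  have key : ∀ S : K → List Γ, Function.update T k (none :: T k) = enc S →
      (Runs M (TM2.Stmt.pop k f q) v S ↔ Runs M q (f v none) S) := by
    intro S hT
    have hk := congrFun hT k
    rw [Function.update_self] at hk
    unfold enc at hk
    cases hS : S k with
    | cons γ' s => rw [hS] at hk; simp at hk
    | nil =>
      unfold Runs
      rw [TM2.stepAux.eq_3, hS, List.head?_nil, List.tail_nil, ← hS, Function.update_eq_self]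
  constructor
  · rintro ⟨S, hT, h⟩
    exact ⟨S, hT, (key S hT).1 h⟩
  · rintro ⟨S, hT, h⟩
    exact ⟨S, hT, (key S hT).2 h⟩

theorem phi_peek (k : K) (f : σ → Option Γ → σ) (q : MStmt K Γ Λ σ) (v : σ) (c : Option Γ) :
    pushB k c (phi M (TM2.Stmt.peek k f q) v) = pushB k c (phi M q (f v c)) := by
  funext T
  unfold pushB phi
  rw [decide_eq_decide]
  have key : ∀ S : K → List Γ, Function.update T k (c :: T k) = enc S →
      (Runs M (TM2.Stmt.peek k f q) v S ↔ Runs M q (f v c) S) := by
    intro S hT
    have hk := congrFun hT k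
    rw [Function.update_self] at hk
    unfold enc at hk
    cases hS : S k with
    | nil =>
      rw [hS] at hk
      simp only [List.map_nil, List.nil_append, List.cons.injEq] at hk
      unfold Runs
      rw [TM2.stepAux.eq_2, hS, List.head?_nil, hk.1]
    | cons γ' s =>
      rw [hS] at hk
      simp only [List.map_cons, List.cons_append, List.cons.injEq] at hk
      unfold Runs
      rw [TM2.stepAux.eq_2, hS, List.head?_cons, hk.1]
  constructor
  · rintro ⟨S, hT, h⟩
    exact ⟨S, hT, (key S hT).1 h⟩
  · rintro ⟨S, hT, h⟩
    exact ⟨S, hT, (key S hT).2 h⟩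

theorem pushB_const (k : K) (c : Option Γ) (b : Bool) :
    pushB k c (fun _ : K → List (Option Γ) => b) = fun _ => b := rfl

variable (Sf : Finset Λ)

/-- The statements that can be reached. -/
abbrev StT := {q : MStmt K Γ Λ σ // some q ∈ TM2.stmts M Sf}

/-- The letters of the machine. -/
abbrev Lt := Letter (StT M Sf) K Γ σ

/-- The operators of the letters. -/
noncomputable def rho : Lt M Sf → AddMonoid.End (WSp K Γ)
  | .st q v => evOp (phi M q.1 v)
  | .tape k c => tapeOp k c
  | .fin => finOp

/-- The operators of the words. -/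
noncomputable def rhoW (w : List (Lt M Sf)) : AddMonoid.End (WSp K Γ) := (w.map (rho M Sf)).prod

/-- The word of stacks. -/
def tw (ks : List K) (T : K → List (Option Γ)) : List (Lt M Sf) :=
  ks.flatMap (fun k => (T k).map (Letter.tape k))

/-- The word of a configuration. -/
def wd (ks : List K) (q : StT M Sf) (v : σ) (S : K → List Γ) : List (Lt M Sf) :=
  Letter.st q v :: (tw M Sf ks (enc S) ++ [Letter.fin])

section Value

/-- Pushing a list of symbols. -/
def pushList (k : K) : List (Option Γ) → Beh K Γ → Beh K Γ
  | [], x => x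
  | (c :: l), x => pushList k l (pushB k c x)

theorem pushList_apply (k : K) : ∀ (l : List (Option Γ)) (x : Beh K Γ) (T : K → List (Option Γ)),
    pushList k l x T = x (Function.update T k (l ++ T k))
  | [], x, T => by simp [pushList]
  | (c :: l), x, T => by
    rw [pushList, pushList_apply k l, pushB, Function.update_self, Function.update_idem]
    rfl

theorem ev_map_tape (k : K) : ∀ (l : List (Option Γ)) (x : Beh K Γ),
    evOp x * rhoW M Sf (l.map (Letter.tape k)) = evOp (pushList k l x)
  | [], x => by simp [rhoW, pushList]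
  | (c :: l), x => by
    have h := ev_map_tape k l (pushB k c x)
    unfold rhoW at h ⊢
    rw [List.map_cons, List.map_cons, List.prod_cons, ← mul_assoc]
    show evOp x * tapeOp k c * _ = _
    rw [evOp_mul_tapeOp, h]
    rfl

theorem ev_tw : ∀ (ks : List K) (_ : ks.Nodup) (T : K → List (Option Γ)) (x : Beh K Γ),
    ∃ y : Beh K Γ, evOp x * rhoW M Sf (tw M Sf ks T) = evOp y ∧
      ∀ U, y U = x (fun k => if k ∈ ks then T k ++ U k else U k)
  | [], _, T, x => ⟨x, by simp [rhoW, tw], by simp⟩
  | (k :: ks), hks, T, x => by
    obtain ⟨y, hy1, hy2⟩ := ev_tw ks (List.nodup_cons.1 hks).2 T (pushList k (T k) x)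
    refine ⟨y, ?_, ?_⟩
    · rw [← hy1, ← ev_map_tape M Sf k (T k) x, mul_assoc]
      congr 1
      simp [rhoW, tw]
    · intro U
      rw [hy2, pushList_apply]
      congr 1
      have hk : k ∉ ks := (List.nodup_cons.1 hks).1
      funext k'
      by_cases h : k' = k
      · subst h
        simp [hk]
      · simp [h]

theorem rhoW_wd (ks : List K) (hks : ks.Nodup) (hall : ∀ k, k ∈ ks) (q : StT M Sf) (v : σ)
    (S : K → List Γ) (h : Runs M q.1 v S) : rhoW M Sf (wd M Sf ks q v S) = 1 := by
  obtain ⟨y, hy1, hy2⟩ := ev_tw M Sf ks hks (enc S) (phi M q.1 v)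
  have h0 : rhoW M Sf (wd M Sf ks q v S)
      = evOp (phi M q.1 v) * rhoW M Sf (tw M Sf ks (enc S)) * finOp := by
    simp [rhoW, wd, rho, mul_assoc]
  rw [h0, hy1]
  apply evOp_mul_finOp_true
  rw [hy2]
  have : (fun k => if k ∈ ks then enc S k ++ [] else []) = enc S := by
    funext k
    simp [hall k]
  rw [this]
  exact (phi_enc M q.1 v S).2 h

end Value

section Formal

variable {G : Type} [Group G] {e : Fin 5 → Fin 5 → Lt M Sf → G}

/-- The relations of a family of elements. -/
structure MRel (e : Fin 5 → Fin 5 → Lt M Sf → G) : Prop where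
  st : SteinbergRel e
  rel : ∀ u v : List (Lt M Sf), u ≠ [] → v ≠ [] → u.length ≤ 2 → v.length ≤ 2 →
    rhoW M Sf u = rhoW M Sf v → WEq e u v
  zero : ∀ u : List (Lt M Sf), u ≠ [] → u.length ≤ 2 → rhoW M Sf u = 0 → WNull e u

variable {M Sf}

theorem tape_swap (h : MRel M Sf e) {k k' : K} (hk : k ≠ k') (c c' : Option Γ) :
    WEq e [Letter.tape k c, Letter.tape k' c'] [Letter.tape k' c', Letter.tape k c] := by
  apply h.rel _ _ (by simp) (by simp) (by simp) (by simp)
  simp only [rhoW, rho, List.map_cons, List.map_nil, List.prod_cons, List.prod_nil, mul_one]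
  exact tapeOp_comm hk c c'

theorem tape_move (h : MRel M Sf e) {k k' : K} (hk : k ≠ k') (c : Option Γ) :
    ∀ l : List (Option Γ), WEq e (Letter.tape k c :: l.map (Letter.tape k'))
      (l.map (Letter.tape k') ++ [Letter.tape k c])
  | [] => WEq.refl _
  | (c' :: l) => by
    have h1 : WEq e ([Letter.tape k c, Letter.tape k' c'] ++ l.map (Letter.tape k'))
        ([Letter.tape k' c', Letter.tape k c] ++ l.map (Letter.tape k')) :=
      WEq.append_right h.st (by simp) (by simp) (tape_swap h hk c c') _
    have h2 : WEq e ([Letter.tape k' c'] ++ (Letter.tape k c :: l.map (Letter.tape k')))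
        ([Letter.tape k' c'] ++ (l.map (Letter.tape k') ++ [Letter.tape k c])) :=
      WEq.append_left h.st (by simp) (by simp) (tape_move h hk c l) _
    exact h1.trans h2

theorem tape_tw (h : MRel M Sf e) (k : K) (c : Option Γ) :
    ∀ (ks : List K) (_ : ks.Nodup) (_ : k ∈ ks) (T : K → List (Option Γ)),
      WEq e (Letter.tape k c :: tw M Sf ks T)
        (tw M Sf ks (Function.update T k (c :: T k)))
  | [], _, hk, _ => absurd hk (by simp)
  | (k' :: ks), hks, hk, T => by
    by_cases hkk : k = k'
    · subst hkk
      have hk' : k ∉ ks := (List.nodup_cons.1 hks).1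
      have h1 : tw M Sf ks (Function.update T k (c :: T k)) = tw M Sf ks T := by
        unfold tw
        apply List.flatMap_congr
        intro k' hk''
        have : k' ≠ k := by
          rintro rfl
          exact hk' hk''
        rw [Function.update_of_ne this]
      have h2 : tw M Sf (k :: ks) (Function.update T k (c :: T k))
          = Letter.tape k c :: tw M Sf (k :: ks) T := by
        have e1 : tw M Sf (k :: ks) (Function.update T k (c :: T k))
          = ((Function.update T k (c :: T k)) k).map (Letter.tape k)
            ++ tw M Sf ks (Function.update T k (c :: T k)) := rfl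
        rw [e1, h1, Function.update_self]
        rfl
      rw [h2]
      exact WEq.refl _
    · have hk' : k ∈ ks := by
        rcases List.mem_cons.1 hk with h0 | h0
        · exact absurd h0 hkk
        · exact h0
      have h1 : WEq e ((Letter.tape k c :: (T k').map (Letter.tape k')) ++ tw M Sf ks T)
          (((T k').map (Letter.tape k') ++ [Letter.tape k c]) ++ tw M Sf ks T) :=
        WEq.append_right h.st (by simp) (by simp) (tape_move h hkk c (T k')) _
      have hne : tw M Sf ks (Function.update T k (c :: T k)) ≠ [] := by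
        intro h0
        unfold tw at h0
        rw [List.flatMap_eq_nil_iff] at h0
        have := h0 k hk'
        simp at this
      have h2 : WEq e ((T k').map (Letter.tape k') ++ (Letter.tape k c :: tw M Sf ks T))
          ((T k').map (Letter.tape k') ++ tw M Sf ks (Function.update T k (c :: T k))) :=
        WEq.append_left h.st (by simp) hne
          (tape_tw h k c ks (List.nodup_cons.1 hks).2 hk' T) _
      have e1 : tw M Sf (k' :: ks) (Function.update T k (c :: T k))
          = (T k').map (Letter.tape k')
            ++ tw M Sf ks (Function.update T k (c :: T k)) := by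
        have : tw M Sf (k' :: ks) (Function.update T k (c :: T k))
          = ((Function.update T k (c :: T k)) k').map (Letter.tape k')
            ++ tw M Sf ks (Function.update T k (c :: T k)) := rfl
        rw [this, Function.update_of_ne (Ne.symm hkk)]
      rw [e1]
      refine WEq.trans ?_ h2
      have e2 : (T k').map (Letter.tape k') ++ (Letter.tape k c :: tw M Sf ks T)
          = ((T k').map (Letter.tape k') ++ [Letter.tape k c]) ++ tw M Sf ks T := by simp
      rw [e2]
      exact h1

/-- Changing the state in front of a symbol. -/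
theorem step_some (h : MRel M Sf e) {ks : List K} (hks : ks.Nodup) {k : K} (hk : k ∈ ks)
    {a b : Lt M Sf} {c : Option Γ} {u : List (Lt M Sf)} (hu : u ≠ [])
    (hab : WEq e [a, Letter.tape k c] u) (T : K → List (Option Γ)) :
    WEq e (a :: (tw M Sf ks (Function.update T k (c :: T k)) ++ [b]))
      (u ++ (tw M Sf ks T ++ [b])) := by
  have hne : tw M Sf ks (Function.update T k (c :: T k)) ≠ [] := by
    intro h0
    unfold tw at h0
    rw [List.flatMap_eq_nil_iff] at h0
    have := h0 k hk
    simp at this
  have h1 := (tape_tw h k c ks hks hk T).symm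
  have h2 : WEq e (([a] ++ tw M Sf ks (Function.update T k (c :: T k))) ++ [b])
      (([a] ++ (Letter.tape k c :: tw M Sf ks T)) ++ [b]) :=
    WEq.append_right h.st (by simp) (by simp)
      (WEq.append_left h.st hne (by simp) h1 [a]) [b]
  have h3 : WEq e ([a, Letter.tape k c] ++ (tw M Sf ks T ++ [b]))
      (u ++ (tw M Sf ks T ++ [b])) :=
    WEq.append_right h.st (by simp) hu hab _
  have e1 : a :: (tw M Sf ks (Function.update T k (c :: T k)) ++ [b])
      = ([a] ++ tw M Sf ks (Function.update T k (c :: T k))) ++ [b] := by simp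
  have e2 : ([a] ++ (Letter.tape k c :: tw M Sf ks T)) ++ [b]
      = [a, Letter.tape k c] ++ (tw M Sf ks T ++ [b]) := by simp
  rw [e1]
  refine h2.trans ?_
  rw [e2]
  exact h3

theorem rhoW_pair (a b : Lt M Sf) : rhoW M Sf [a, b] = rho M Sf a * rho M Sf b := by
  simp [rhoW]

theorem rhoW_single (a : Lt M Sf) : rhoW M Sf [a] = rho M Sf a := by
  simp [rhoW]

/-- The halting statement absorbs everything. -/
theorem halt_null (h : MRel M Sf e) (q : StT M Sf) (hq : q.1 = TM2.Stmt.halt) (v : σ)
    (l : List (Lt M Sf)) (hl : ∀ a ∈ l, ∃ k c, a = Letter.tape k c) :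
    WNull e (Letter.st q v :: (l ++ [Letter.fin])) := by
  have hbase : WNull e [Letter.st q v, Letter.fin] := by
    apply h.zero _ (by simp) (by simp)
    rw [rhoW_pair]
    show evOp (phi M q.1 v) * finOp = 0
    apply evOp_mul_finOp_false
    rw [hq, phi_halt]
  have habs : ∀ k c, WEq e [Letter.st q v, Letter.tape k c] [Letter.st q v] := by
    intro k c
    apply h.rel _ _ (by simp) (by simp) (by simp) (by simp)
    rw [rhoW_pair, rhoW_single]
    show evOp (phi M q.1 v) * tapeOp k c = evOp (phi M q.1 v)
    rw [evOp_mul_tapeOp, hq, phi_halt, pushB_const]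
  induction l with
  | nil => exact hbase
  | cons a l ih =>
    obtain ⟨k, c, rfl⟩ := hl a (by simp)
    have ih' := ih (fun a ha => hl a (List.mem_cons_of_mem _ ha))
    have h1 : WEq e ([Letter.st q v, Letter.tape k c] ++ (l ++ [Letter.fin]))
        ([Letter.st q v] ++ (l ++ [Letter.fin])) :=
      WEq.append_right h.st (by simp) (by simp) (habs k c) _
    exact h1.null ih'

omit [DecidableEq K] in
theorem mem_tw {ks : List K} {T : K → List (Option Γ)} {a : Lt M Sf} (ha : a ∈ tw M Sf ks T) :
    ∃ k c, a = Letter.tape k c := by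
  unfold tw at ha
  rw [List.mem_flatMap] at ha
  obtain ⟨k, -, ha⟩ := ha
  rw [List.mem_map] at ha
  obtain ⟨c, -, rfl⟩ := ha
  exact ⟨k, c, rfl⟩

/-- The configuration is null. -/
def ZC (e : Fin 5 → Fin 5 → Lt M Sf → G) (ks : List K) (c : TM2.Cfg (fun _ : K => Γ) Λ σ) :
    Prop :=
  ∀ l, c.l = some l → ∀ hl : some (M l) ∈ TM2.stmts M Sf, WNull e (wd M Sf ks ⟨M l, hl⟩ c.var c.stk)

theorem enc_cons_update (S : K → List Γ) (k : K) :
    ∃ c T, enc S = Function.update T k (c :: T k) ∧ (S k).head? = c ∧
      (∀ γ, c = some γ → T = enc (Function.update S k (S k).tail)) ∧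
      (c = none → S k = []) := by
  cases hS : S k with
  | nil =>
    refine ⟨none, Function.update (enc S) k [], ?_, by simp, by simp, by simp⟩
    funext k'
    by_cases h : k' = k
    · subst h
      simp [enc, hS]
    · simp [h]
  | cons γ s =>
    refine ⟨some γ, enc (Function.update S k s), ?_, by simp, by simp, by simp⟩
    funext k'
    by_cases h : k' = k
    · subst h
      simp [enc, hS]
    · simp [enc, h]

variable [Inhabited Λ]

theorem step_null (h : MRel M Sf e) (hM : TM2.Supports M Sf) {ks : List K} (hks : ks.Nodup)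
    (hall : ∀ k, k ∈ ks) : ∀ (q : MStmt K Γ Λ σ) (hq : some q ∈ TM2.stmts M Sf) (v : σ)
      (S : K → List Γ), ZC e ks (TM2.stepAux q v S) → WNull e (wd M Sf ks ⟨q, hq⟩ v S) := by
  classical
  intro q
  induction q with
  | push k f q ih =>
    intro hq v S hZ
    have hq' : some q ∈ TM2.stmts M Sf :=
      TM2.stmts_trans (Finset.mem_insert_of_mem TM2.stmts₁_self) hq
    have ih' := ih hq' v (Function.update S k (f v :: S k)) (by simpa using hZ)
    have h0 : WEq e [Letter.st ⟨q, hq'⟩ v, Letter.tape k (some (f v))]
        [Letter.st ⟨_, hq⟩ v] := by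
      apply h.rel _ _ (by simp) (by simp) (by simp) (by simp)
      rw [rhoW_pair, rhoW_single]
      show evOp (phi M q v) * tapeOp k (some (f v)) = evOp (phi M (TM2.Stmt.push k f q) v)
      rw [evOp_mul_tapeOp, phi_push]
    have h1 := (step_some h hks (hall k) (b := Letter.fin) (by simp) h0 (enc S)).symm
    have e1 : Function.update (enc S) k (some (f v) :: enc S k)
        = enc (Function.update S k (f v :: S k)) := by
      rw [enc_update]
      rfl
    rw [e1] at h1
    exact h1.null ih'
  | peek k f q ih =>
    intro hq v S hZ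
    have hq' : some q ∈ TM2.stmts M Sf :=
      TM2.stmts_trans (Finset.mem_insert_of_mem TM2.stmts₁_self) hq
    have ih' := ih hq' (f v (S k).head?) S (by simpa using hZ)
    obtain ⟨c, T, hT, hc, -, -⟩ := enc_cons_update S k
    have h0 : WEq e [Letter.st ⟨_, hq⟩ v, Letter.tape k c]
        [Letter.st ⟨q, hq'⟩ (f v c), Letter.tape k c] := by
      apply h.rel _ _ (by simp) (by simp) (by simp) (by simp)
      rw [rhoW_pair, rhoW_pair]
      show evOp (phi M (TM2.Stmt.peek k f q) v) * tapeOp k c = evOp (phi M q (f v c)) * tapeOp k c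
      rw [evOp_mul_tapeOp, evOp_mul_tapeOp, phi_peek]
    have h1 := step_some h hks (hall k) (b := Letter.fin) (by simp) h0 T
    have h2 := step_some h hks (hall k) (b := Letter.fin) (by simp)
      (WEq.refl [Letter.st ⟨q, hq'⟩ (f v c), Letter.tape k c]) T
    rw [← hT] at h1 h2
    rw [hc] at ih'
    exact (h1.trans h2.symm).null ih'
  | pop k f q ih =>
    intro hq v S hZ
    have hq' : some q ∈ TM2.stmts M Sf :=
      TM2.stmts_trans (Finset.mem_insert_of_mem TM2.stmts₁_self) hq
    have ih' := ih hq' (f v (S k).head?) (Function.update S k (S k).tail) (by simpa using hZ)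
    obtain ⟨c, T, hT, hc, hsome, hnone⟩ := enc_cons_update S k
    cases c with
    | none =>
      have hSk := hnone rfl
      have h0 : WEq e [Letter.st ⟨_, hq⟩ v, Letter.tape k none]
          [Letter.st ⟨q, hq'⟩ (f v none), Letter.tape k none] := by
        apply h.rel _ _ (by simp) (by simp) (by simp) (by simp)
        rw [rhoW_pair, rhoW_pair]
        show evOp (phi M (TM2.Stmt.pop k f q) v) * tapeOp k none
          = evOp (phi M q (f v none)) * tapeOp k none
        rw [evOp_mul_tapeOp, evOp_mul_tapeOp, phi_pop_none]
      have h1 := step_some h hks (hall k) (b := Letter.fin) (by simp) h0 T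
      have h2 := step_some h hks (hall k) (b := Letter.fin) (by simp)
        (WEq.refl [Letter.st ⟨q, hq'⟩ (f v none), Letter.tape k none]) T
      rw [← hT] at h1 h2
      rw [hc] at ih'
      have e1 : Function.update S k (S k).tail = S := by
        rw [hSk, List.tail_nil, ← hSk, Function.update_eq_self]
      rw [e1] at ih'
      exact (h1.trans h2.symm).null ih'
    | some γ =>
      have hT' := hsome γ rfl
      have h0 : WEq e [Letter.st ⟨_, hq⟩ v, Letter.tape k (some γ)]
          [Letter.st ⟨q, hq'⟩ (f v (some γ))] := by
        apply h.rel _ _ (by simp) (by simp) (by simp) (by simp)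
        rw [rhoW_pair, rhoW_single]
        show evOp (phi M (TM2.Stmt.pop k f q) v) * tapeOp k (some γ)
          = evOp (phi M q (f v (some γ)))
        rw [evOp_mul_tapeOp, phi_pop_some]
      have h1 := step_some h hks (hall k) (b := Letter.fin) (by simp) h0 T
      rw [← hT, hT'] at h1
      rw [hc] at ih'
      exact h1.null ih'
  | load a q ih =>
    intro hq v S hZ
    have hq' : some q ∈ TM2.stmts M Sf :=
      TM2.stmts_trans (Finset.mem_insert_of_mem TM2.stmts₁_self) hq
    have ih' := ih hq' (a v) S (by simpa using hZ)
    have h0 : WEq e [Letter.st ⟨_, hq⟩ v] [Letter.st ⟨q, hq'⟩ (a v)] := by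
      apply h.rel _ _ (by simp) (by simp) (by simp) (by simp)
      rw [rhoW_single, rhoW_single]
      show evOp (phi M (TM2.Stmt.load a q) v) = evOp (phi M q (a v))
      rw [phi_load]
    exact (WEq.append_right h.st (by simp) (by simp) h0 _).null ih'
  | branch f q₁ q₂ ih₁ ih₂ =>
    intro hq v S hZ
    have hq₁ : some q₁ ∈ TM2.stmts M Sf :=
      TM2.stmts_trans (Finset.mem_insert_of_mem (Finset.mem_union_left _ TM2.stmts₁_self)) hq
    have hq₂ : some q₂ ∈ TM2.stmts M Sf :=
      TM2.stmts_trans (Finset.mem_insert_of_mem (Finset.mem_union_right _ TM2.stmts₁_self)) hq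
    cases hf : f v with
    | true =>
      have ih' := ih₁ hq₁ v S (by simpa [hf] using hZ)
      have h0 : WEq e [Letter.st ⟨_, hq⟩ v] [Letter.st ⟨q₁, hq₁⟩ v] := by
        apply h.rel _ _ (by simp) (by simp) (by simp) (by simp)
        rw [rhoW_single, rhoW_single]
        show evOp (phi M (TM2.Stmt.branch f q₁ q₂) v) = evOp (phi M q₁ v)
        rw [phi_branch, hf]
        rfl
      exact (WEq.append_right h.st (by simp) (by simp) h0 _).null ih'
    | false =>
      have ih' := ih₂ hq₂ v S (by simpa [hf] using hZ)
      have h0 : WEq e [Letter.st ⟨_, hq⟩ v] [Letter.st ⟨q₂, hq₂⟩ v] := by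
        apply h.rel _ _ (by simp) (by simp) (by simp) (by simp)
        rw [rhoW_single, rhoW_single]
        show evOp (phi M (TM2.Stmt.branch f q₁ q₂) v) = evOp (phi M q₂ v)
        rw [phi_branch, hf]
        rfl
      exact (WEq.append_right h.st (by simp) (by simp) h0 _).null ih'
  | goto l =>
    intro hq v S hZ
    have hl : l v ∈ Sf := (TM2.stmts_supportsStmt hM hq) v
    have hq' : some (M (l v)) ∈ TM2.stmts M Sf := by
      unfold TM2.stmts
      rw [Finset.some_mem_insertNone, Finset.mem_biUnion]
      exact ⟨l v, hl, TM2.stmts₁_self⟩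
    have hZ' : WNull e (wd M Sf ks ⟨M (l v), hq'⟩ v S) := hZ (l v) rfl hq'
    have h0 : WEq e [Letter.st ⟨_, hq⟩ v] [Letter.st ⟨M (l v), hq'⟩ v] := by
      apply h.rel _ _ (by simp) (by simp) (by simp) (by simp)
      rw [rhoW_single, rhoW_single]
      show evOp (phi M (TM2.Stmt.goto l) v) = evOp (phi M (M (l v)) v)
      rw [phi_goto]
    exact (WEq.append_right h.st (by simp) (by simp) h0 _).null hZ'
  | halt =>
    intro hq v S hZ
    exact halt_null h _ rfl v _ (fun a ha => mem_tw ha)

theorem null_of_halts (h : MRel M Sf e) (hM : TM2.Supports M Sf) {ks : List K} (hks : ks.Nodup)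
    (hall : ∀ k, k ∈ ks) (c : TM2.Cfg (fun _ : K => Γ) Λ σ)
    (hc : (StateTransition.eval (TM2.step M) c).Dom) : ZC e ks c := by
  rw [Part.dom_iff_mem] at hc
  obtain ⟨b, hb⟩ := hc
  obtain ⟨h1, h2⟩ := StateTransition.mem_eval.1 hb
  induction h1 using Relation.ReflTransGen.head_induction_on with
  | refl =>
    obtain ⟨l, v, S⟩ := b
    cases l with
    | none =>
      intro l hl
      simp at hl
    | some l => simp at h2
  | head h3 h4 ih =>
    rename_i a c
    have ih' := ih (by rwa [StateTransition.reaches_eval (Relation.ReflTransGen.single h3)] at hb)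
    obtain ⟨l, v, S⟩ := a
    cases l with
    | none =>
      intro l hl
      simp at hl
    | some l =>
      have h5 : TM2.stepAux (M l) v S = c := by simpa using h3
      intro l' hl' hl
      simp only [Option.some.injEq] at hl'
      subst hl'
      subst h5
      exact step_null h hM hks hall (M l) hl v S ih'

end Formal

end Machine

end Pool.Agent.Lib_helper82
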