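import Mathlib
import Pool.Agent.Lib_helper82.Machine
import Pool.Agent.Lib_helper82.Base

set_option autoImplicit false

open scoped commutatorElement
open Turing

/-!
# The machine of a code, started on a unary input
-/

namespace Pool.Agent.Lib_helper82

section Finiteness

instance Letter.finite (Q K Γ σ : Type) [Finite Q] [Finite K] [Finite Γ] [Finite σ] :
    Finite (Letter Q K Γ σ) := by
  let f : (Q × σ) ⊕ (K × Option Γ) ⊕ Unit → Letter Q K Γ σ := fun s => match s with
    | .inl p => .st p.1 p.2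
    | .inr (.inl p) => .tape p.1 p.2
    | .inr (.inr _) => .fin
  apply Finite.of_surjective f
  intro l
  cases l with
  | st q v => exact ⟨.inl (q, v), rfl⟩
  | tape k c => exact ⟨.inr (.inl (k, c)), rfl⟩
  | fin => exact ⟨.inr (.inr ()), rfl⟩

end Finiteness

section Inst

open PartrecToTM2

/-- The machine. -/
def MM : Λ' → MStmt K' Γ' Λ' (Option Γ') := tr

variable (c : ToPartrec.Code)

/-- The support of the machine of a code. -/
def SS : Finset Λ' := codeSupp c Cont'.halt

theorem supports_SS : @TM2.Supports _ _ _ _ ⟨trNormal c Cont'.halt⟩ MM (SS c) :=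
  tr_supports c Cont'.halt

theorem trNum_bit1 (m : Num) : trNum m.bit1 = Γ'.bit1 :: trNum m := by
  cases m with
  | zero => rfl
  | pos p => rfl

theorem trNat_two_mul_add_one (k : ℕ) : trNat (2 * k + 1) = Γ'.bit1 :: trNat k := by
  unfold trNat
  rw [← trNum_bit1, ← Num.bit1_of_bit1]
  congr 1
  push_cast
  ring

theorem trNat_pow_sub_one : ∀ n : ℕ, trNat (2 ^ n - 1) = List.replicate n Γ'.bit1
  | 0 => by simp
  | (n + 1) => by
    have h1 : 2 ^ (n + 1) - 1 = 2 * (2 ^ n - 1) + 1 := by
      have : 1 ≤ 2 ^ n := Nat.one_le_two_pow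
      rw [pow_succ]
      omega
    rw [h1, trNat_two_mul_add_one, trNat_pow_sub_one n]
    rfl

/-- The stacks at the start. -/
def S0 (n : ℕ) : K' → List Γ' := K'.elim (List.replicate n Γ'.bit1 ++ [Γ'.cons]) [] [] []

theorem init_eq (n : ℕ) : init c [2 ^ n - 1] = ⟨some (trNormal c Cont'.halt), none, S0 n⟩ := by
  unfold init S0
  rw [trList, trNat_pow_sub_one]
  rfl

/-- The statement at the start. -/
def q0 : StT MM (SS c) := ⟨MM (trNormal c Cont'.halt), by
  classical
  unfold TM2.stmts
  rw [Finset.some_mem_insertNone, Finset.mem_biUnion]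
  exact ⟨_, (supports_SS c).1, TM2.stmts₁_self⟩⟩

theorem dom_iff (n : ℕ) : (c.eval [2 ^ n - 1]).Dom ↔
    (StateTransition.eval (TM2.step MM)
      (⟨some (trNormal c Cont'.halt), none, S0 n⟩ :
        TM2.Cfg (fun _ : K' => Γ') Λ' (Option Γ'))).Dom := by
  have h := PartrecToTM2.tr_eval c [2 ^ n - 1]
  rw [init_eq] at h
  have h2 : (StateTransition.eval (TM2.step MM)
      (⟨some (trNormal c Cont'.halt), none, S0 n⟩ :
        TM2.Cfg (fun _ : K' => Γ') Λ' (Option Γ')))
      = (halt <$> c.eval [2 ^ n - 1]) := h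
  rw [h2]
  rfl

theorem runs_iff (n : ℕ) : Runs MM (q0 c).1 none (S0 n) ↔ ¬ (c.eval [2 ^ n - 1]).Dom := by
  rw [dom_iff]
  unfold Runs
  have h : StateTransition.Reaches (TM2.step MM)
      (⟨some (trNormal c Cont'.halt), none, S0 n⟩ :
        TM2.Cfg (fun _ : K' => Γ') Λ' (Option Γ'))
      (TM2.stepAux (q0 c).1 none (S0 n)) := Relation.ReflTransGen.single (by simp [q0])
  rw [StateTransition.reaches_eval h]

/-- The list of the stacks. -/
def kk : List K' := [K'.main, K'.rev, K'.aux, K'.stack]

theorem kk_nodup : kk.Nodup := by decide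

theorem mem_kk (k : K') : k ∈ kk := by cases k <;> decide

/-- The end of the word. -/
def tailWord : List (Lt MM (SS c)) :=
  [Letter.tape K'.main (some Γ'.cons), Letter.tape K'.main none, Letter.tape K'.rev none,
    Letter.tape K'.aux none, Letter.tape K'.stack none, Letter.fin]

/-- The word of the start. -/
def startWord (n : ℕ) : List (Lt MM (SS c)) :=
  Letter.st (q0 c) none ::
    (List.replicate n (Letter.tape K'.main (some Γ'.bit1)) ++ tailWord c)

theorem wd_start (n : ℕ) : wd MM (SS c) kk (q0 c) none (S0 n) = startWord c n := by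
  unfold wd startWord tw kk tailWord enc S0
  simp

theorem rhoW_start (n : ℕ) (h : ¬ (c.eval [2 ^ n - 1]).Dom) :
    rhoW MM (SS c) (startWord c n) = 1 := by
  rw [← wd_start]
  exact rhoW_wd MM (SS c) kk kk_nodup mem_kk (q0 c) none (S0 n) ((runs_iff c n).2 h)

theorem null_start {G : Type} [Group G] {e : Fin 5 → Fin 5 → Lt MM (SS c) → G}
    (he : MRel MM (SS c) e) (n : ℕ) (h : (c.eval [2 ^ n - 1]).Dom) :
    WNull e (startWord c n) := by
  rw [← wd_start]
  exact @null_of_halts _ _ _ _ _ MM (SS c) G _ e ⟨trNormal c Cont'.halt⟩ he (supports_SS c) kk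
    kk_nodup mem_kk _ ((dom_iff c n).1 h) _ rfl (q0 c).2

instance : Finite (Lt MM (SS c)) := by
  have : Finite (StT MM (SS c)) := by
    have h : (↑(TM2.stmts MM (SS c)) : Set (Option (MStmt K' Γ' Λ' (Option Γ')))).Finite :=
      Finset.finite_toSet _
    have h2 : Set.Finite {q : MStmt K' Γ' Λ' (Option Γ') | some q ∈ TM2.stmts MM (SS c)} := by
      apply Set.Finite.preimage (Set.injOn_of_injective (Option.some_injective _)) h
    exact h2.to_subtype
  have hK : Finite K' := by
    have : Fintype K' := ⟨kk.toFinset, fun k => by simp [mem_kk k]⟩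
    infer_instance
  infer_instance

end Inst

end Pool.Agent.Lib_helper82
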