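import Mathlib

set_option autoImplicit false

/-!
# Three-cycles on the projective line of nodes
-/

namespace Pool.Agent.Lib_helper82

section C3

variable {N : Type} [DecidableEq N]

/-- The three-cycle `a ↦ c ↦ b ↦ a`. -/
def c3 (a b c : N) : Equiv.Perm N := Equiv.swap a b * Equiv.swap a c

theorem c3_conj (σ : Equiv.Perm N) (a b c : N) : σ * c3 a b c * σ⁻¹ = c3 (σ a) (σ b) (σ c) := by
  unfold c3
  rw [Equiv.swap_apply_apply, Equiv.swap_apply_apply]
  group

theorem c3_inv (a b c : N) : (c3 a b c)⁻¹ = c3 a c b := by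
  unfold c3
  rw [mul_inv_rev, Equiv.swap_inv, Equiv.swap_inv]

theorem c3_fst {a b c : N} (hac : a ≠ c) (hbc : b ≠ c) : c3 a b c a = c := by
  unfold c3
  rw [Equiv.Perm.mul_apply, Equiv.swap_apply_left, Equiv.swap_apply_of_ne_of_ne hac.symm hbc.symm]

theorem c3_trd (a b c : N) : c3 a b c c = b := by
  unfold c3
  rw [Equiv.Perm.mul_apply, Equiv.swap_apply_right, Equiv.swap_apply_left]

theorem c3_snd {a b c : N} (hab : a ≠ b) (hbc : b ≠ c) : c3 a b c b = a := by
  unfold c3
  rw [Equiv.Perm.mul_apply, Equiv.swap_apply_of_ne_of_ne hab.symm hbc, Equiv.swap_apply_right]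

theorem c3_other {a b c d : N} (h1 : d ≠ a) (h2 : d ≠ b) (h3 : d ≠ c) : c3 a b c d = d := by
  unfold c3
  rw [Equiv.Perm.mul_apply, Equiv.swap_apply_of_ne_of_ne h1 h3,
    Equiv.swap_apply_of_ne_of_ne h1 h2]

theorem c3_rot {a b c : N} (hab : a ≠ b) (hac : a ≠ c) (hbc : b ≠ c) : c3 a b c = c3 b c a := by
  ext d
  by_cases h1 : d = a
  · subst h1
    rw [c3_fst hac hbc, c3_trd]
  · by_cases h2 : d = b
    · subst h2
      rw [c3_snd hab hbc, c3_fst hab.symm hac.symm]
    · by_cases h3 : d = c
      · subst h3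
        rw [c3_trd, c3_snd hbc hac.symm]
      · rw [c3_other h1 h2 h3, c3_other h2 h3 h1]

theorem c3_pow_three {a b c : N} (hab : a ≠ b) (hac : a ≠ c) (hbc : b ≠ c) :
    (c3 a b c) ^ 3 = 1 := by
  ext d
  rw [pow_succ, pow_two, Equiv.Perm.mul_apply, Equiv.Perm.mul_apply]
  by_cases h1 : d = a
  · subst h1
    rw [c3_fst hac hbc, c3_trd, c3_snd hab hbc]
    rfl
  · by_cases h2 : d = b
    · subst h2
      rw [c3_snd hab hbc, c3_fst hac hbc, c3_trd]
      rfl
    · by_cases h3 : d = c
      · subst h3
        rw [c3_trd, c3_snd hab hbc, c3_fst hac hbc]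
        rfl
      · rw [c3_other h1 h2 h3, c3_other h1 h2 h3, c3_other h1 h2 h3]
        rfl

theorem c3_pow_four {a b c : N} (hab : a ≠ b) (hac : a ≠ c) (hbc : b ≠ c) :
    (c3 a b c) ^ 4 = c3 a b c := by
  rw [pow_succ, c3_pow_three hab hac hbc, one_mul]

theorem c3_step (K : Subgroup (Equiv.Perm N)) {z a b c : N} (hza : z ≠ a) (hzb : z ≠ b)
    (hzc : z ≠ c) (hab : a ≠ b) (hac : a ≠ c) (hbc : b ≠ c) (h1 : c3 z a b ∈ K)
    (h2 : c3 z b c ∈ K) : c3 z a c ∈ K := by
  have h3 : c3 z b c * c3 z a b * (c3 z b c)⁻¹ ∈ K :=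
    K.mul_mem (K.mul_mem h2 h1) (K.inv_mem h2)
  rw [c3_conj, c3_fst hzc hbc, c3_snd hzb hbc, c3_other hza.symm hab hac,
    c3_rot hac.symm hzc.symm hza.symm, c3_rot hza.symm hac hzc] at h3
  have h4 := K.inv_mem h3
  rwa [c3_inv] at h4

end C3

section Shift

variable (q : ℕ) [Fact q.Prime]

/-- The shift of the nodes. -/
def sh : Equiv.Perm (Option (ZMod q)) := Equiv.optionCongr (Equiv.addRight 1)

theorem sh_none : sh q none = none := rfl

theorem sh_some (i : ZMod q) : sh q (some i) = some (i + 1) := rfl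

theorem sh_pow_none (n : ℕ) : (sh q ^ n) none = none := by
  induction n with
  | zero => rfl
  | succ n ih => rw [pow_succ', Equiv.Perm.mul_apply, ih, sh_none]

theorem sh_pow_some (n : ℕ) (i : ZMod q) : (sh q ^ n) (some i) = some (i + n) := by
  induction n with
  | zero => simp
  | succ n ih =>
    rw [pow_succ', Equiv.Perm.mul_apply, ih, sh_some]
    congr 1
    push_cast
    ring

theorem exists_not_mem_list (l : List (ZMod q)) (h : l.length < q) : ∃ d, d ∉ l := by
  by_contra hcon
  push Not at hcon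
  have h1 : (Finset.univ : Finset (ZMod q)) ⊆ l.toFinset := by
    intro d _
    rw [List.mem_toFinset]
    exact hcon d
  have h2 := Finset.card_le_card h1
  rw [Finset.card_univ, ZMod.card] at h2
  have h3 := List.toFinset_card_le l
  omega

theorem all_c3 (hq : 5 ≤ q) (K : Subgroup (Equiv.Perm (Option (ZMod q))))
    (hsh : ∀ σ ∈ K, sh q * σ * (sh q)⁻¹ ∈ K) {k : ZMod q} (hk : k ≠ 0)
    (h0 : c3 none (some 0) (some k) ∈ K) {a b c : Option (ZMod q)} (hab : a ≠ b) (hac : a ≠ c)
    (hbc : b ≠ c) : c3 a b c ∈ K := by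
  have hpow : ∀ n : ℕ, ∀ σ ∈ K, sh q ^ n * σ * (sh q ^ n)⁻¹ ∈ K := by
    intro n
    induction n with
    | zero => intro σ hσ; simpa using hσ
    | succ n ih =>
      intro σ hσ
      have := hsh _ (ih σ hσ)
      have e : sh q ^ (n + 1) * σ * (sh q ^ (n + 1))⁻¹
          = sh q * (sh q ^ n * σ * (sh q ^ n)⁻¹) * (sh q)⁻¹ := by
        rw [pow_succ']; group
      rw [e]
      exact this
  have h1 : ∀ i : ZMod q, c3 none (some i) (some (i + k)) ∈ K := by
    intro i
    have := hpow i.val _ h0
    rw [c3_conj, sh_pow_none, sh_pow_some, sh_pow_some, ZMod.natCast_zmod_val, zero_add,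
      add_comm k i] at this
    exact this
  have h2 : ∀ n : ℕ, 1 ≤ n → n < q → ∀ i : ZMod q,
      c3 none (some i) (some (i + n * k)) ∈ K := by
    intro n hn
    induction n, hn using Nat.le_induction with
    | base =>
      intro _ i
      simpa using h1 i
    | succ n hn ih =>
      intro hnq i
      have e1 : ((n : ZMod q)) ≠ 0 := by
        intro h
        rw [ZMod.natCast_eq_zero_iff] at h
        exact absurd (Nat.le_of_dvd (by omega) h) (by omega)
      have e2 : (((n + 1 : ℕ) : ZMod q)) ≠ 0 := by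
        intro h
        rw [ZMod.natCast_eq_zero_iff] at h
        exact absurd (Nat.le_of_dvd (by omega) h) (by omega)
      have e3 : i + ((n + 1 : ℕ) : ZMod q) * k = i + n * k + k := by push_cast; ring
      rw [e3]
      apply c3_step K (b := some (i + n * k)) (by simp) (by simp) (by simp)
      · simp only [ne_eq, Option.some.injEq, left_eq_add, mul_eq_zero, not_or]
        exact ⟨e1, hk⟩
      · rw [← e3]
        simp only [ne_eq, Option.some.injEq, left_eq_add, mul_eq_zero, not_or]
        exact ⟨e2, hk⟩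
      · simpa using hk
      · exact ih (by omega) i
      · exact h1 _
  have h3 : ∀ i j : ZMod q, i ≠ j → c3 none (some i) (some j) ∈ K := by
    intro i j hij
    have hne : (j - i) / k ≠ 0 := div_ne_zero (sub_ne_zero.2 hij.symm) hk
    have hv : 1 ≤ ((j - i) / k).val := by
      rw [Nat.one_le_iff_ne_zero]
      rwa [ne_eq, ZMod.val_eq_zero]
    have := h2 ((j - i) / k).val hv (ZMod.val_lt _) i
    rw [ZMod.natCast_zmod_val, div_mul_cancel₀ _ hk, add_sub_cancel] at this
    exact this
  have h4 : ∀ i j l : ZMod q, i ≠ j → i ≠ l → j ≠ l →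
      c3 (some i) (some j) (some l) ∈ K := by
    intro i j l hij hil hjl
    obtain ⟨d, hd⟩ := exists_not_mem_list q [i, j, l] (by simp; omega)
    simp only [List.mem_cons, List.not_mem_nil, or_false, not_or] at hd
    obtain ⟨hdi, hdj, hdl⟩ := hd
    have hπ : c3 none (some d) (some i) ∈ K := h3 d i hdi
    have h5 : c3 none (some d) (some i) * c3 none (some j) (some l)
        * (c3 none (some d) (some i))⁻¹ ∈ K :=
      K.mul_mem (K.mul_mem hπ (h3 j l hjl)) (K.inv_mem hπ)
    rw [c3_conj, c3_fst (by simp) (by simpa using hdi), c3_other (by simp)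
      (by simpa using Ne.symm hdj) (by simpa using hij.symm), c3_other (by simp)
      (by simpa using Ne.symm hdl) (by simpa using hil.symm)] at h5
    exact h5
  cases a with
  | none =>
    cases b with
    | none => exact absurd rfl hab
    | some b =>
      cases c with
      | none => exact absurd rfl hac
      | some c => exact h3 b c (fun h => hbc (by rw [h]))
  | some a =>
    cases b with
    | none =>
      cases c with
      | none => exact absurd rfl hbc
      | some c =>
        rw [c3_rot hab hac hbc]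
        exact h3 c a (fun h => hac (by rw [h]))
    | some b =>
      cases c with
      | none =>
        rw [c3_rot hab hac hbc, c3_rot hbc hab.symm hac.symm]
        exact h3 a b (fun h => hab (by rw [h]))
      | some c =>
        exact h4 a b c (fun h => hab (by rw [h])) (fun h => hac (by rw [h]))
          (fun h => hbc (by rw [h]))

/-- Multiplication of the nodes by a nonzero element. -/
def mu {j : ZMod q} (hj : j ≠ 0) : Equiv.Perm (Option (ZMod q)) :=
  Equiv.optionCongr (Equiv.mulLeft₀ j hj)

theorem mu_none {j : ZMod q} (hj : j ≠ 0) : mu q hj none = none := rfl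

theorem mu_some {j : ZMod q} (hj : j ≠ 0) (i : ZMod q) : mu q hj (some i) = some (j * i) := rfl

theorem mu_sh {m : ℕ} (hm : (m : ZMod q) ≠ 0) :
    sh q ^ m * mu q hm = mu q hm * sh q := by
  ext i : 1
  rw [Equiv.Perm.mul_apply, Equiv.Perm.mul_apply]
  cases i with
  | none => rw [mu_none, sh_pow_none, sh_none, mu_none]
  | some i =>
    rw [mu_some, sh_pow_some, sh_some, mu_some]
    congr 1
    ring

end Shift

end Pool.Agent.Lib_helper82
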