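import Mathlib
import Pool.Agent.Lib_helper82.Ambient
import Pool.Agent.Lib_helper82.Cycles

set_option autoImplicit false

open scoped commutatorElement

/-!
# The two generators
-/

namespace Pool.Agent.Lib_helper82

section Nodes

variable (q m : ℕ) [Fact q.Prime]

/-- The small residues. -/
def InA (i : ZMod q) : Prop := ∃ n : ℕ, n ≤ m + 3 ∧ i = (n : ZMod q)

/-- The list of small residues. -/
def listA : List (ZMod q) := (List.range (m + 4)).map (fun n : ℕ => (n : ZMod q))

theorem mem_listA (i : ZMod q) : i ∈ listA q m ↔ InA q m i := by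
  unfold listA InA
  rw [List.mem_map]
  constructor
  · rintro ⟨n, hn, rfl⟩
    exact ⟨n, by rw [List.mem_range] at hn; omega, rfl⟩
  · rintro ⟨n, hn, rfl⟩
    exact ⟨n, by rw [List.mem_range]; omega, rfl⟩

theorem length_listA : (listA q m).length = m + 4 := by simp [listA]

/-- The shift by `d` moves the small residues away. -/
def Dis (d : ZMod q) : Prop := ∀ a b : ZMod q, InA q m a → InA q m b → a + d ≠ b

/-- The support of the label part. -/
def FA : Set (Option (ZMod q)) := {n | ∃ i : ZMod q, InA q m i ∧ i ≠ 0 ∧ n = some i}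

/-- The bound for the prime. -/
def Big : Prop := 2 * ((m + 4) * (m + 4)) + 20 < q

variable {q m}

theorem Big.lt (h : Big q m) : 2 * (m + 4) + 20 < q := by
  unfold Big at h
  have : 2 * (m + 4) ≤ 2 * ((m + 4) * (m + 4)) := by nlinarith
  omega

theorem Big.five (h : Big q m) : 5 ≤ q := by
  have := h.lt
  omega

theorem cast_inj_of_lt {a b : ℕ} (ha : a < q) (hb : b < q) (h : (a : ZMod q) = (b : ZMod q)) :
    a = b := by
  rw [ZMod.natCast_eq_natCast_iff'] at h
  rwa [Nat.mod_eq_of_lt ha, Nat.mod_eq_of_lt hb] at h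

theorem exists_dis (hbig : Big q m) {j j' : ZMod q} (hj : j ≠ 0) (hj' : j' ≠ 0) :
    ∃ k : ZMod q, k ≠ 0 ∧ Dis q m (j * k) ∧ Dis q m (j' * k) := by
  obtain ⟨k, hk⟩ := exists_not_mem_list q
    ((listA q m ×ˢ listA q m).map (fun p => (p.2 - p.1) / j) ++
      (listA q m ×ˢ listA q m).map (fun p => (p.2 - p.1) / j')) (by
        rw [List.length_append, List.length_map, List.length_map, List.length_product,
          length_listA]
        unfold Big at hbig
        omega)
  rw [List.mem_append, not_or, List.mem_map, List.mem_map] at hk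
  obtain ⟨h1, h2⟩ := hk
  have hmem : ∀ a b : ZMod q, InA q m a → InA q m b →
      (a, b) ∈ listA q m ×ˢ listA q m := by
    intro a b ha hb
    rw [List.mem_product, mem_listA, mem_listA]
    exact ⟨ha, hb⟩
  have h0 : InA q m (0 : ZMod q) := ⟨0, by omega, by simp⟩
  refine ⟨k, ?_, ?_, ?_⟩
  · rintro rfl
    exact h1 ⟨(0, 0), hmem 0 0 h0 h0, by simp⟩
  · intro a b ha hb hab
    apply h1
    refine ⟨(a, b), hmem a b ha hb, ?_⟩
    rw [div_eq_iff hj, ← hab]
    ring
  · intro a b ha hb hab
    apply h2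
    refine ⟨(a, b), hmem a b ha hb, ?_⟩
    rw [div_eq_iff hj', ← hab]
    ring

theorem exists_free (hbig : Big q m) {j j' : ZMod q} (hj : j ≠ 0) (hj' : j' ≠ 0)
    (l : List (ZMod q)) (hl : l.length ≤ 10) :
    ∃ u : ZMod q, ¬ InA q m (j * u) ∧ ¬ InA q m (j' * u) ∧ u ∉ l := by
  obtain ⟨u, hu⟩ := exists_not_mem_list q
    ((listA q m).map (fun a => a / j) ++ ((listA q m).map (fun a => a / j') ++ l)) (by
        rw [List.length_append, List.length_append, List.length_map, List.length_map,
          length_listA]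
        have := hbig.lt
        omega)
  rw [List.mem_append, not_or, List.mem_append, not_or, List.mem_map, List.mem_map] at hu
  obtain ⟨h1, h2, h3⟩ := hu
  refine ⟨u, ?_, ?_, h3⟩
  · intro h
    apply h1
    refine ⟨j * u, (mem_listA q m _).2 h, ?_⟩
    rw [div_eq_iff hj, mul_comm]
  · intro h
    apply h2
    refine ⟨j' * u, (mem_listA q m _).2 h, ?_⟩
    rw [div_eq_iff hj', mul_comm]

theorem exists_free' (hbig : Big q m) (l : List (ZMod q)) (hl : l.length ≤ 10) :
    ∃ u : ZMod q, ¬ InA q m u ∧ u ∉ l := by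
  obtain ⟨u, h1, -, h3⟩ := exists_free hbig (one_ne_zero (α := ZMod q))
    (one_ne_zero (α := ZMod q)) l hl
  rw [one_mul] at h1
  exact ⟨u, h1, h3⟩

theorem exists_node (l : List (Option (ZMod q))) (hl : l.length < q) :
    ∃ d : ZMod q, some d ∉ l := by
  obtain ⟨d, hd⟩ := exists_not_mem_list q l.reduceOption
    (lt_of_le_of_lt (List.reduceOption_length_le l) hl)
  refine ⟨d, fun h => hd ?_⟩
  rwa [List.reduceOption_mem_iff]

/-- A scaling which keeps both `1` and `m + 3` small is trivial. -/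
theorem scale_trivial (hbig : Big q m) {l : ZMod q} (h1 : InA q m (l * 1))
    (h2 : InA q m (l * ((m + 3 : ℕ) : ZMod q))) : l = 0 ∨ l = 1 := by
  rw [mul_one] at h1
  obtain ⟨a, ha, rfl⟩ := h1
  obtain ⟨b, hb, hab⟩ := h2
  have h3 : a * (m + 3) = b := by
    apply cast_inj_of_lt (q := q)
    · unfold Big at hbig
      have : a * (m + 3) ≤ (m + 3) * (m + 3) := Nat.mul_le_mul_right _ ha
      nlinarith
    · have := hbig.lt
      omega
    · push_cast at hab ⊢
      exact hab
  have h4 : a ≤ 1 := by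
    by_contra hcon
    have h5 : 2 * (m + 3) ≤ a * (m + 3) := Nat.mul_le_mul_right _ (by omega)
    omega
  rcases Nat.le_one_iff_eq_zero_or_eq_one.1 h4 with rfl | rfl
  · left; simp
  · right; simp

end Nodes

section Generators

variable {W : Type} [AddCommGroup W] [Module (ZMod 2) W]
variable (q m : ℕ) [Fact q.Prime] (r : Fin m → AddMonoid.End W)

/-- The nodes with small numbers. -/
def nd (n : ℕ) : Option (ZMod q) := some (n : ZMod q)

/-- The labels. -/
def lab : Option (ZMod q) → AddMonoid.End W :=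
  ∑ k : Fin m, Pi.single (nd q (k.val + 3)) (r k)

/-- The label part of the first generator. -/
def tt : Equiv.Perm (Option (ZMod q) → W) :=
  EE (nd q 1) (nd q (m + 3)) 1 * Col (nd q 2) (lab q m r)

/-- The transposition. -/
def s0 : Equiv.Perm (Option (ZMod q) → W) := PP (Equiv.swap none (some 0))

/-- The first generator. -/
def xx : Equiv.Perm (Option (ZMod q) → W) := s0 q * tt q m r

/-- The second generator. -/
def yy : Equiv.Perm (Option (ZMod q) → W) := PP (sh q)

/-- The group. -/
def UU : Subgroup (Equiv.Perm (Option (ZMod q) → W)) := Subgroup.closure {xx q m r, yy q}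

variable {q m r}

theorem nd_ne {a b : ℕ} (ha : a < q) (hb : b < q) (h : a ≠ b) : nd q a ≠ nd q b := by
  intro h1
  apply h
  apply cast_inj_of_lt ha hb
  simpa [nd] using h1

theorem nd_ne_none (a : ℕ) : nd q a ≠ none := by simp [nd]

theorem nd_mem_FA (hbig : Big q m) {n : ℕ} (h1 : 1 ≤ n) (h2 : n ≤ m + 3) : nd q n ∈ FA q m := by
  refine ⟨(n : ZMod q), ⟨n, h2, rfl⟩, ?_, rfl⟩
  intro h
  have := hbig.lt
  have h3 : n = 0 := by
    apply cast_inj_of_lt (q := q) (by omega) (by omega)
    simpa using h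
  omega

theorem lab_eq_zero {n : Option (ZMod q)} (h : ∀ k : Fin m, n ≠ nd q (k.val + 3)) :
    lab q m r n = 0 := by
  unfold lab
  rw [Finset.sum_apply]
  apply Finset.sum_eq_zero
  intro k _
  exact Pi.single_eq_of_ne (h k) _

theorem lab_source (hbig : Big q m) (k : Fin m) : lab q m r (nd q (k.val + 3)) = r k := by
  unfold lab
  rw [Finset.sum_apply, Finset.sum_eq_single k]
  · rw [Pi.single_eq_same]
  · intro l _ hl
    apply Pi.single_eq_of_ne
    have := hbig.lt
    apply nd_ne (by omega) (by omega)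
    intro h
    apply hl
    apply Fin.ext
    omega
  · intro h
    exact absurd (Finset.mem_univ k) h

theorem lab_not_FA (hbig : Big q m) {n : Option (ZMod q)} (h : n ∉ FA q m) :
    lab q m r n = 0 := by
  apply lab_eq_zero
  rintro k rfl
  exact h (nd_mem_FA hbig (by omega) (by omega))

theorem lab_nd (hbig : Big q m) {n : ℕ} (h : n < 3 ∨ n = m + 3) : lab q m r (nd q n) = 0 := by
  apply lab_eq_zero
  intro k
  have := hbig.lt
  apply nd_ne (by omega) (by omega)
  omega

theorem suppOn_tt (hbig : Big q m) : SuppOn (FA q m) (tt q m r) := by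
  unfold tt
  apply SuppOn.mul
  · exact suppOn_EE _ (nd_mem_FA hbig (by omega) (by omega)) (nd_mem_FA hbig (by omega) (by omega))
  · exact suppOn_Col (nd_mem_FA hbig (by omega) (by omega)) (fun k hk => lab_not_FA hbig hk)

theorem suppOn_swap {W : Type} (i j : Option (ZMod q)) :
    SuppOn {i, j} (PP (Equiv.swap i j) : Equiv.Perm (Option (ZMod q) → W)) := by
  apply suppOn_PP
  intro k hk
  simp only [Set.mem_insert_iff, Set.mem_singleton_iff, not_or] at hk
  exact Equiv.swap_apply_of_ne_of_ne hk.1 hk.2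

theorem tt_commute_factor (hbig : Big q m) :
    Commute (EE (nd q 1) (nd q (m + 3)) (1 : AddMonoid.End W)) (Col (nd q 2) (lab q m r)) := by
  have := hbig.lt
  unfold EE
  apply Col_commute
  · apply Pi.single_eq_of_ne
    exact nd_ne (by omega) (by omega) (by omega)
  · exact lab_nd hbig (Or.inr rfl)

theorem tt_sq (hbig : Big q m) : tt q m r * tt q m r = 1 := by
  unfold tt
  have h := tt_commute_factor (r := r) hbig
  calc EE (nd q 1) (nd q (m + 3)) 1 * Col (nd q 2) (lab q m r) *
        (EE (nd q 1) (nd q (m + 3)) 1 * Col (nd q 2) (lab q m r))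
      = EE (nd q 1) (nd q (m + 3)) 1 * (Col (nd q 2) (lab q m r) *
        EE (nd q 1) (nd q (m + 3)) 1) * Col (nd q 2) (lab q m r) := by group
    _ = (EE (nd q 1) (nd q (m + 3)) 1 * EE (nd q 1) (nd q (m + 3)) 1) *
        (Col (nd q 2) (lab q m r) * Col (nd q 2) (lab q m r)) := by
        rw [← h.eq]; group
    _ = 1 := by rw [EE_sq, Col_sq, one_mul]

theorem tt_inv (hbig : Big q m) : (tt q m r)⁻¹ = tt q m r :=
  inv_eq_of_mul_eq_one_left (tt_sq hbig)

theorem s0_sq : (s0 q : Equiv.Perm (Option (ZMod q) → W)) * s0 q = 1 := by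
  unfold s0
  rw [← map_mul, Equiv.swap_mul_self, map_one]

theorem disjoint_FA_zero : Disjoint ({none, some 0} : Set (Option (ZMod q))) (FA q m) := by
  rw [Set.disjoint_left]
  rintro n (rfl | rfl) ⟨i, -, hi0, hi⟩
  · simp at hi
  · simp only [Option.some.injEq] at hi
    exact hi0 hi.symm

theorem s0_commute_tt (hbig : Big q m) : Commute (s0 q) (tt q m r) :=
  (suppOn_swap none (some 0)).commute (suppOn_tt hbig) disjoint_FA_zero

theorem xx_sq (hbig : Big q m) : xx q m r ^ 2 = 1 := by
  unfold xx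
  rw [pow_two, mul_assoc, ← mul_assoc (tt q m r), ← (s0_commute_tt hbig).eq, mul_assoc,
    tt_sq hbig, mul_one, s0_sq]

theorem xx_inv (hbig : Big q m) : (xx q m r)⁻¹ = xx q m r := by
  apply inv_eq_of_mul_eq_one_left
  rw [← pow_two, xx_sq hbig]

theorem sh_pow_q : sh q ^ q = 1 := by
  ext i : 1
  cases i with
  | none => rw [sh_pow_none]; rfl
  | some i => rw [sh_pow_some]; simp

theorem yy_pow (n : ℕ) : (yy q : Equiv.Perm (Option (ZMod q) → W)) ^ n = PP (sh q ^ n) := by
  unfold yy
  rw [map_pow]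

theorem yy_pow_q : (yy q : Equiv.Perm (Option (ZMod q) → W)) ^ q = 1 := by
  rw [yy_pow, sh_pow_q, map_one]

/-- A product of two commuting pairs. -/
theorem four_pow {A : Type} [Group A] {a b t t' : A} (h1 : Commute a t) (h2 : Commute a t')
    (h3 : Commute b t) (h4 : Commute b t') (h5 : Commute t t') (ht : t * t = 1)
    (ht' : t' * t' = 1) : (a * t * (b * t')) ^ 4 = (a * b) ^ 4 := by
  have e1 : a * t * (b * t') = (a * b) * (t * t') := by
    rw [mul_assoc, ← mul_assoc t, ← h3.eq]
    group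
  have h6 : Commute (a * b) (t * t') :=
    (h1.mul_right h2).mul_left (h3.mul_right h4)
  have h7 : (t * t') ^ 4 = 1 := by
    rw [h5.mul_pow]
    have e2 : t ^ 4 = 1 := by
      have : t ^ 4 = (t * t) * (t * t) := by
        rw [← pow_two, ← pow_two, ← pow_mul]
      rw [this, ht, one_mul]
    have e3 : t' ^ 4 = 1 := by
      have : t' ^ 4 = (t' * t') * (t' * t') := by
        rw [← pow_two, ← pow_two, ← pow_mul]
      rw [this, ht', one_mul]
    rw [e2, e3, one_mul]
  rw [e1, h6.mul_pow, h7, mul_one]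

theorem conj_s0 (n : ℕ) : PP (sh q ^ n) * s0 q * (PP (sh q ^ n))⁻¹
    = (PP (Equiv.swap none (some (n : ZMod q))) : Equiv.Perm (Option (ZMod q) → W)) := by
  unfold s0
  rw [← map_inv, ← map_mul, ← map_mul]
  congr 1
  have h := Equiv.swap_apply_apply (sh q ^ n) (none : Option (ZMod q)) (some 0)
  rw [← h, sh_pow_none, sh_pow_some, zero_add]

/-- The three-cycles. -/
theorem key_four (hbig : Big q m) {n : ℕ} (hn : Dis q m (n : ZMod q)) :
    (xx q m r * (yy q ^ n * xx q m r * (yy q ^ n)⁻¹)) ^ 4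
      = PP (c3 none (some 0) (some (n : ZMod q))) := by
  have hA0 : InA q m (0 : ZMod q) := ⟨0, by omega, by simp⟩
  have hn0 : (n : ZMod q) ≠ 0 := by
    intro h
    exact hn 0 0 hA0 hA0 (by rw [h, add_zero])
  set t' : Equiv.Perm (Option (ZMod q) → W) := PP (sh q ^ n) * tt q m r * (PP (sh q ^ n))⁻¹
    with ht'
  have e1 : yy q ^ n * xx q m r * (yy q ^ n)⁻¹
      = PP (Equiv.swap none (some (n : ZMod q))) * t' := by
    rw [yy_pow, ht', ← conj_s0]
    unfold xx
    group
  have hsupp : SuppOn ((sh q ^ n) '' FA q m) t' := (suppOn_tt hbig).conj _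
  have hmem : ∀ z, z ∈ (sh q ^ n) '' FA q m → ∃ i : ZMod q, InA q m i ∧ z = some (i + n) := by
    rintro z ⟨w, ⟨i, hi, -, rfl⟩, rfl⟩
    exact ⟨i, hi, sh_pow_some q n i⟩
  rw [e1]
  have hfour := four_pow (a := (s0 q : Equiv.Perm (Option (ZMod q) → W)))
    (b := PP (Equiv.swap none (some (n : ZMod q)))) (t := tt q m r) (t' := t')
    (s0_commute_tt hbig)
    ((suppOn_swap none (some 0)).commute hsupp (by
      rw [Set.disjoint_left]
      rintro z (rfl | rfl) hz
      · obtain ⟨i, -, hi⟩ := hmem _ hz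
        simp at hi
      · obtain ⟨i, hi, hi'⟩ := hmem _ hz
        simp only [Option.some.injEq] at hi'
        exact hn i 0 hi hA0 hi'.symm))
    ((suppOn_swap none (some (n : ZMod q))).commute (suppOn_tt hbig) (by
      rw [Set.disjoint_left]
      rintro z (rfl | rfl) ⟨i, hi, hi0, hi'⟩
      · simp at hi'
      · simp only [Option.some.injEq] at hi'
        exact hn 0 i hA0 hi (by rw [zero_add, hi'])))
    ((suppOn_swap none (some (n : ZMod q))).commute hsupp (by
      rw [Set.disjoint_left]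
      rintro z (rfl | rfl) hz
      · obtain ⟨i, -, hi⟩ := hmem _ hz
        simp at hi
      · obtain ⟨w, ⟨i, hi, hi0, rfl⟩, hw⟩ := hz
        rw [sh_pow_some, Option.some.injEq] at hw
        exact hi0 (by simpa using hw)))
    ((suppOn_tt hbig).commute hsupp (by
      rw [Set.disjoint_left]
      rintro z ⟨i, hi, hi0, rfl⟩ hz
      obtain ⟨i', hi', hw⟩ := hmem _ hz
      simp only [Option.some.injEq] at hw
      exact hn i' i hi' hi hw.symm))
    (tt_sq hbig) (by
      rw [ht']
      have : PP (sh q ^ n) * tt q m r * (PP (sh q ^ n))⁻¹ *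
          (PP (sh q ^ n) * tt q m r * (PP (sh q ^ n))⁻¹)
          = PP (sh q ^ n) * (tt q m r * tt q m r) * (PP (sh q ^ n))⁻¹ := by group
      rw [this, tt_sq hbig]
      group)
  unfold xx
  rw [hfour]
  unfold s0
  rw [← map_mul, ← map_pow]
  congr 1
  exact c3_pow_four (by simp) (by simp) (by simpa using hn0.symm)

/-- The commutator with a permutation fixing the first two nodes. -/
theorem comm_PP (hbig : Big q m) {σ : Equiv.Perm (Option (ZMod q))} (h1 : σ none = none)
    (h2 : σ (some 0) = some 0) :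
    ⁅xx q m r, PP σ⁆ = tt q m r * (PP σ * tt q m r * (PP σ)⁻¹) := by
  have h3 : PP σ * s0 q * (PP σ)⁻¹ = (s0 q : Equiv.Perm (Option (ZMod q) → W)) := by
    unfold s0
    rw [← map_inv, ← map_mul, ← map_mul]
    congr 1
    have h := Equiv.swap_apply_apply σ (none : Option (ZMod q)) (some 0)
    rw [← h, h1, h2]
  have h4 : Commute (s0 q : Equiv.Perm (Option (ZMod q) → W)) (PP σ) := by
    show s0 q * PP σ = PP σ * s0 q
    nth_rewrite 1 [← h3]
    group
  have h5 : Commute (s0 q) (PP σ * tt q m r * (PP σ)⁻¹) :=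
    (h4.mul_right (s0_commute_tt hbig)).mul_right h4.inv_right
  rw [commutatorElement_def, xx_inv hbig]
  unfold xx
  have e1 : s0 q * tt q m r * PP σ * (s0 q * tt q m r) * (PP σ)⁻¹
      = s0 q * tt q m r * ((PP σ * s0 q * (PP σ)⁻¹) * (PP σ * tt q m r * (PP σ)⁻¹)) := by group
  rw [e1, h3, (s0_commute_tt hbig).eq, mul_assoc, ← mul_assoc (s0 q), s0_sq, one_mul]

/-- A permutation which fixes the small nodes commutes with the first generator. -/
theorem xx_commute_PP (hbig : Big q m) {σ : Equiv.Perm (Option (ZMod q))} (h1 : σ none = none)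
    (h2 : ∀ i : ZMod q, InA q m i → σ (some i) = some i) :
    ⁅xx q m r, (PP σ : Equiv.Perm (Option (ZMod q) → W))⁆ = 1 := by
  have hA0 : InA q m (0 : ZMod q) := ⟨0, by omega, by simp⟩
  rw [comm_PP hbig h1 (h2 0 hA0)]
  have h3 : Commute (tt q m r) (PP σ) := by
    apply (suppOn_tt hbig).commute (F' := (FA q m)ᶜ)
    · apply suppOn_PP
      intro k hk
      rw [Set.mem_compl_iff, not_not] at hk
      obtain ⟨i, hi, -, rfl⟩ := hk
      exact h2 i hi
    · exact disjoint_compl_right
  rw [← h3.eq, mul_inv_cancel_right, tt_sq hbig]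

end Generators

end Pool.Agent.Lib_helper82
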