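import Mathlib
import Pool.Agent.Lib_helper82.Model
import Pool.Agent.Lib_helper82.Words

set_option autoImplicit false

open scoped commutatorElement

/-!
# Generation, perfectness and independence
-/

namespace Pool.Agent.Lib_helper82

section Trans

variable {W : Type} [AddCommGroup W] [Module (ZMod 2) W]
variable {q m : ℕ} [Fact q.Prime] {r : Fin m → AddMonoid.End W}

/-- A subgroup closed under conjugation by three-cycles contains all elementary operations with
a given label if it contains one. -/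
theorem EE_trans (hq : 5 ≤ q) (H : Subgroup (Equiv.Perm (Option (ZMod q) → W)))
    (hc : ∀ a b c : Option (ZMod q), a ≠ b → a ≠ c → b ≠ c → ∀ h ∈ H,
      PP (c3 a b c) * h * (PP (c3 a b c))⁻¹ ∈ H) (s : AddMonoid.End W)
    {a b : Option (ZMod q)} (hab : a ≠ b) (h : EE a b s ∈ H) :
    ∀ i j, i ≠ j → EE i j s ∈ H := by
  have tm : ∀ a b c : Option (ZMod q), a ≠ b → c ≠ a → EE a b s ∈ H → EE a c s ∈ H := by
    intro a b c hab hca h
    by_cases hcb : c = b
    · rw [hcb]; exact h
    obtain ⟨d, hd⟩ := exists_node [a, b, c] (by simp; omega)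
    simp only [List.mem_cons, List.not_mem_nil, or_false, not_or] at hd
    obtain ⟨hda, hdb, hdc⟩ := hd
    have h1 := hc b (some d) c (Ne.symm hdb) (Ne.symm hcb) hdc _ h
    rw [conj_EE, c3_fst (Ne.symm hcb) hdc, c3_other hab (Ne.symm hda) (Ne.symm hca)] at h1
    exact h1
  have sm : ∀ a b c : Option (ZMod q), a ≠ b → c ≠ b → EE a b s ∈ H → EE c b s ∈ H := by
    intro a b c hab hcb h
    by_cases hca : c = a
    · rw [hca]; exact h
    obtain ⟨d, hd⟩ := exists_node [a, b, c] (by simp; omega)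
    simp only [List.mem_cons, List.not_mem_nil, or_false, not_or] at hd
    obtain ⟨hda, hdb, hdc⟩ := hd
    have h1 := hc a (some d) c (Ne.symm hda) (Ne.symm hca) hdc _ h
    rw [conj_EE, c3_fst (Ne.symm hca) hdc, c3_other (Ne.symm hab) (Ne.symm hdb)
      (Ne.symm hcb)] at h1
    exact h1
  intro i j hij
  by_cases hja : j = a
  · subst hja
    obtain ⟨d, hd⟩ := exists_node [j, b, i] (by simp; omega)
    simp only [List.mem_cons, List.not_mem_nil, or_false, not_or] at hd
    obtain ⟨hdj, hdb, hdi⟩ := hd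
    have h1 := tm j b (some d) hab hdj h
    have h2 := sm j (some d) i (Ne.symm hdj) (Ne.symm hdi) h1
    exact tm i (some d) j (Ne.symm hdi) (Ne.symm hij) h2
  · have h1 := tm a b j hab hja h
    exact sm a j i (Ne.symm hja) hij h1

end Trans

section Pairs

variable {W : Type} [AddCommGroup W] [Module (ZMod 2) W]
variable {q m : ℕ} [Fact q.Prime] {r : Fin m → AddMonoid.End W}

theorem lab_comp {σ : Equiv.Perm (Option (ZMod q))} (h : ∀ k, σ k ≠ k → lab q m r k = 0) :
    (fun k => lab q m r (σ⁻¹ k)) = lab q m r := by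
  funext k
  by_cases h1 : σ k = k
  · have : σ⁻¹ k = k := by
      rw [Equiv.Perm.inv_eq_iff_eq]
      exact h1.symm
    rw [this]
  · rw [h k h1]
    apply h
    rw [perm_apply_inv]
    intro h2
    apply h1
    nth_rewrite 1 [h2]
    exact perm_apply_inv σ k

theorem nd_ne_some {n : ℕ} (hn : n ≤ m + 3) {u : ZMod q} (hu : ¬ InA q m u) :
    nd q n ≠ some u := by
  intro h
  apply hu
  unfold nd at h
  rw [Option.some.injEq] at h
  exact ⟨n, hn, h.symm⟩

theorem lab_free {u : ZMod q} (hu : ¬ InA q m u) : lab q m r (some u) = 0 := by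
  apply lab_eq_zero
  intro k
  exact (nd_ne_some (by omega) hu).symm

theorem zero_ne_free {u : ZMod q} (hu : ¬ InA q m u) : (some 0 : Option (ZMod q)) ≠ some u := by
  intro h
  apply hu
  rw [Option.some.injEq] at h
  exact ⟨0, by omega, by simp [← h]⟩

theorem zero_ne_nd (hbig : Big q m) {n : ℕ} (h1 : 1 ≤ n) (h2 : n ≤ m + 3) :
    (some 0 : Option (ZMod q)) ≠ nd q n := by
  intro h
  obtain ⟨i, -, hi, hi'⟩ := nd_mem_FA hbig h1 h2
  rw [← h, Option.some.injEq] at hi'
  exact hi hi'.symm

/-- Moving the source of the unit label. -/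
theorem pair_source (hbig : Big q m) {u v : ZMod q} (hu : ¬ InA q m u) (hv : ¬ InA q m v)
    (huv : u ≠ v) :
    ⁅xx q m r, (PP (c3 (nd q 1) (some v) (some u)) : Equiv.Perm (Option (ZMod q) → W))⁆
      = EE (nd q 1) (nd q (m + 3)) 1 * EE (some u) (nd q (m + 3)) 1 := by
  have hlt := hbig.lt
  have h1u : nd q 1 ≠ some u := nd_ne_some (by omega) hu
  have h1v : nd q 1 ≠ some v := nd_ne_some (by omega) hv
  have h2u : nd q 2 ≠ some u := nd_ne_some (by omega) hu
  have h2v : nd q 2 ≠ some v := nd_ne_some (by omega) hv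
  have hgu : nd q (m + 3) ≠ some u := nd_ne_some (by omega) hu
  have hgv : nd q (m + 3) ≠ some v := nd_ne_some (by omega) hv
  have hvu : (some v : Option (ZMod q)) ≠ some u := by simpa using Ne.symm huv
  have h12 : nd q 1 ≠ nd q 2 := nd_ne (by omega) (by omega) (by omega)
  have h1g : nd q 1 ≠ nd q (m + 3) := nd_ne (by omega) (by omega) (by omega)
  rw [comm_PP hbig (c3_other (nd_ne_none 1).symm (by simp) (by simp))
    (c3_other (zero_ne_nd hbig (by omega) (by omega)) (zero_ne_free hv) (zero_ne_free hu))]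
  have e1 : PP (c3 (nd q 1) (some v) (some u)) * tt q m r *
      (PP (c3 (nd q 1) (some v) (some u)))⁻¹
      = EE (some u) (nd q (m + 3)) 1 * Col (nd q 2) (lab q m r) := by
    unfold tt
    have : ∀ (p a b : Equiv.Perm (Option (ZMod q) → W)),
        p * (a * b) * p⁻¹ = (p * a * p⁻¹) * (p * b * p⁻¹) := by
      intro p a b; group
    rw [this, conj_EE, conj_Col, c3_fst h1u hvu, c3_other h1g.symm hgv hgu,
      c3_other h12.symm h2v h2u, lab_comp]
    intro k hk
    by_cases hk1 : k = nd q 1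
    · subst hk1; exact lab_nd hbig (by omega)
    by_cases hk2 : k = some v
    · subst hk2; exact lab_free hv
    by_cases hk3 : k = some u
    · subst hk3; exact lab_free hu
    exact absurd (c3_other hk1 hk2 hk3) hk
  rw [e1]
  unfold tt
  have hcomm : Commute (Col (nd q 2) (lab q m r))
      (EE (some u) (nd q (m + 3)) (1 : AddMonoid.End W)) := by
    unfold EE
    apply Col_commute
    · exact lab_nd hbig (Or.inr rfl)
    · exact Pi.single_eq_of_ne h2u _
  calc EE (nd q 1) (nd q (m + 3)) 1 * Col (nd q 2) (lab q m r) *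
        (EE (some u) (nd q (m + 3)) 1 * Col (nd q 2) (lab q m r))
      = EE (nd q 1) (nd q (m + 3)) 1 * (Col (nd q 2) (lab q m r) *
        EE (some u) (nd q (m + 3)) 1) * Col (nd q 2) (lab q m r) := by group
    _ = EE (nd q 1) (nd q (m + 3)) 1 * EE (some u) (nd q (m + 3)) 1 *
        (Col (nd q 2) (lab q m r) * Col (nd q 2) (lab q m r)) := by
        rw [hcomm.eq]; group
    _ = _ := by rw [Col_sq, mul_one]

/-- Moving the target of the unit label. -/
theorem pair_target (hbig : Big q m) {u v : ZMod q} (hu : ¬ InA q m u) (hv : ¬ InA q m v)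
    (huv : u ≠ v) :
    ⁅xx q m r, (PP (c3 (nd q (m + 3)) (some v) (some u)) : Equiv.Perm (Option (ZMod q) → W))⁆
      = EE (nd q 1) (nd q (m + 3)) 1 * EE (nd q 1) (some u) 1 := by
  have hlt := hbig.lt
  have h1u : nd q 1 ≠ some u := nd_ne_some (by omega) hu
  have h1v : nd q 1 ≠ some v := nd_ne_some (by omega) hv
  have h2u : nd q 2 ≠ some u := nd_ne_some (by omega) hu
  have h2v : nd q 2 ≠ some v := nd_ne_some (by omega) hv
  have hgu : nd q (m + 3) ≠ some u := nd_ne_some (by omega) hu
  have hgv : nd q (m + 3) ≠ some v := nd_ne_some (by omega) hv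
  have hvu : (some v : Option (ZMod q)) ≠ some u := by simpa using Ne.symm huv
  have h12 : nd q 1 ≠ nd q 2 := nd_ne (by omega) (by omega) (by omega)
  have h1g : nd q 1 ≠ nd q (m + 3) := nd_ne (by omega) (by omega) (by omega)
  have h2g : nd q 2 ≠ nd q (m + 3) := nd_ne (by omega) (by omega) (by omega)
  rw [comm_PP hbig (c3_other (nd_ne_none (m + 3)).symm (by simp) (by simp))
    (c3_other (zero_ne_nd hbig (by omega) (by omega)) (zero_ne_free hv) (zero_ne_free hu))]
  have e1 : PP (c3 (nd q (m + 3)) (some v) (some u)) * tt q m r *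
      (PP (c3 (nd q (m + 3)) (some v) (some u)))⁻¹
      = EE (nd q 1) (some u) 1 * Col (nd q 2) (lab q m r) := by
    unfold tt
    have : ∀ (p a b : Equiv.Perm (Option (ZMod q) → W)),
        p * (a * b) * p⁻¹ = (p * a * p⁻¹) * (p * b * p⁻¹) := by
      intro p a b; group
    rw [this, conj_EE, conj_Col, c3_fst hgu hvu, c3_other h1g h1v h1u,
      c3_other h2g h2v h2u, lab_comp]
    intro k hk
    by_cases hk1 : k = nd q (m + 3)
    · subst hk1; exact lab_nd hbig (Or.inr rfl)
    by_cases hk2 : k = some v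
    · subst hk2; exact lab_free hv
    by_cases hk3 : k = some u
    · subst hk3; exact lab_free hu
    exact absurd (c3_other hk1 hk2 hk3) hk
  rw [e1]
  unfold tt
  have hcomm : Commute (Col (nd q 2) (lab q m r))
      (EE (nd q 1) (some u) (1 : AddMonoid.End W)) := by
    unfold EE
    apply Col_commute
    · exact lab_free hu
    · exact Pi.single_eq_of_ne h12.symm _
  calc EE (nd q 1) (nd q (m + 3)) 1 * Col (nd q 2) (lab q m r) *
        (EE (nd q 1) (some u) 1 * Col (nd q 2) (lab q m r))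
      = EE (nd q 1) (nd q (m + 3)) 1 * (Col (nd q 2) (lab q m r) *
        EE (nd q 1) (some u) 1) * Col (nd q 2) (lab q m r) := by group
    _ = EE (nd q 1) (nd q (m + 3)) 1 * EE (nd q 1) (some u) 1 *
        (Col (nd q 2) (lab q m r) * Col (nd q 2) (lab q m r)) := by
        rw [hcomm.eq]; group
    _ = _ := by rw [Col_sq, mul_one]

/-- Moving the source of another label. -/
theorem pair_label (hbig : Big q m) (k : Fin m) {u v : ZMod q} (hu : ¬ InA q m u)
    (hv : ¬ InA q m v) (huv : u ≠ v) :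
    ⁅xx q m r, (PP (c3 (nd q (k.val + 3)) (some v) (some u)) :
      Equiv.Perm (Option (ZMod q) → W))⁆
      = EE (nd q (k.val + 3)) (nd q 2) (r k) * EE (some u) (nd q 2) (r k) := by
  have hlt := hbig.lt
  have hk := k.2
  have h1u : nd q 1 ≠ some u := nd_ne_some (by omega) hu
  have h1v : nd q 1 ≠ some v := nd_ne_some (by omega) hv
  have h2u : nd q 2 ≠ some u := nd_ne_some (by omega) hu
  have h2v : nd q 2 ≠ some v := nd_ne_some (by omega) hv
  have hgu : nd q (m + 3) ≠ some u := nd_ne_some (by omega) hu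
  have hgv : nd q (m + 3) ≠ some v := nd_ne_some (by omega) hv
  have hsu : nd q (k.val + 3) ≠ some u := nd_ne_some (by omega) hu
  have hsv : nd q (k.val + 3) ≠ some v := nd_ne_some (by omega) hv
  have hvu : (some v : Option (ZMod q)) ≠ some u := by simpa using Ne.symm huv
  have h1s : nd q 1 ≠ nd q (k.val + 3) := nd_ne (by omega) (by omega) (by omega)
  have h2s : nd q 2 ≠ nd q (k.val + 3) := nd_ne (by omega) (by omega) (by omega)
  have hgs : nd q (m + 3) ≠ nd q (k.val + 3) := nd_ne (by omega) (by omega) (by omega)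
  rw [comm_PP hbig (c3_other (nd_ne_none (k.val + 3)).symm (by simp) (by simp))
    (c3_other (zero_ne_nd hbig (by omega) (by omega)) (zero_ne_free hv) (zero_ne_free hu))]
  set σ := c3 (nd q (k.val + 3)) (some v) (some u) with hσ
  have e1 : PP σ * tt q m r * (PP σ)⁻¹
      = EE (nd q 1) (nd q (m + 3)) 1 * Col (nd q 2) (fun l => lab q m r (σ⁻¹ l)) := by
    unfold tt
    have : ∀ (p a b : Equiv.Perm (Option (ZMod q) → W)),
        p * (a * b) * p⁻¹ = (p * a * p⁻¹) * (p * b * p⁻¹) := by
      intro p a b; group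
    rw [this, conj_EE, conj_Col, hσ, c3_other h1s h1v h1u, c3_other hgs hgv hgu,
      c3_other h2s h2v h2u]
  have e2 : tt q m r * (EE (nd q 1) (nd q (m + 3)) 1 *
      Col (nd q 2) (fun l => lab q m r (σ⁻¹ l)))
      = Col (nd q 2) (lab q m r + fun l => lab q m r (σ⁻¹ l)) := by
    unfold tt
    have h := tt_commute_factor (r := r) hbig
    rw [mul_assoc, ← mul_assoc (Col (nd q 2) (lab q m r)), ← h.eq, mul_assoc, ← mul_assoc,
      EE_sq, one_mul, Col_mul]
  have e3 : (lab q m r + fun l => lab q m r (σ⁻¹ l))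
      = Pi.single (nd q (k.val + 3)) (r k) + Pi.single (some u) (r k) := by
    funext l
    rw [Pi.add_apply, Pi.add_apply]
    by_cases hl1 : l = nd q (k.val + 3)
    · subst hl1
      have h5 : σ⁻¹ (nd q (k.val + 3)) = some v := by
        rw [Equiv.Perm.inv_eq_iff_eq, hσ, c3_snd hsv hvu]
      rw [h5, lab_free hv, lab_source hbig, Pi.single_eq_same, Pi.single_eq_of_ne hsu]
    · by_cases hl2 : l = some u
      · subst hl2
        have h5 : σ⁻¹ (some u) = nd q (k.val + 3) := by
          rw [Equiv.Perm.inv_eq_iff_eq, hσ, c3_fst hsu hvu]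
        rw [h5, lab_source hbig, lab_free hu, Pi.single_eq_of_ne hsu.symm, Pi.single_eq_same]
      · by_cases hl3 : l = some v
        · subst hl3
          have h5 : σ⁻¹ (some v) = some u := by
            rw [Equiv.Perm.inv_eq_iff_eq, hσ, c3_trd]
          rw [h5, lab_free hu, lab_free hv, Pi.single_eq_of_ne hl1, Pi.single_eq_of_ne hl2]
        · have h5 : σ⁻¹ l = l := by
            rw [Equiv.Perm.inv_eq_iff_eq, hσ, c3_other hl1 hl3 hl2]
          rw [h5, Pi.single_eq_of_ne hl1, Pi.single_eq_of_ne hl2, add_zero]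
          ext w
          exact add_self' _
  rw [e1, e2, e3]
  unfold EE
  rw [Col_mul]

end Pairs

section Generation

variable {W : Type} [AddCommGroup W] [Module (ZMod 2) W]
variable {q m : ℕ} [Fact q.Prime] {r : Fin m → AddMonoid.End W}

theorem xx_mem : xx q m r ∈ UU q m r := Subgroup.subset_closure (by simp)

theorem yy_mem : yy q ∈ UU q m r := Subgroup.subset_closure (by simp)

theorem c3_mem (hbig : Big q m) {a b c : Option (ZMod q)} (hab : a ≠ b) (hac : a ≠ c)
    (hbc : b ≠ c) : PP (c3 a b c) ∈ UU q m r := by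
  obtain ⟨k, hk, hk1, -⟩ := exists_dis hbig (one_ne_zero (α := ZMod q))
    (one_ne_zero (α := ZMod q))
  rw [one_mul] at hk1
  have h := all_c3 q hbig.five ((UU q m r).comap PP) (by
    intro σ hσ
    rw [Subgroup.mem_comap] at hσ ⊢
    rw [map_mul, map_mul, map_inv]
    exact (UU q m r).mul_mem ((UU q m r).mul_mem yy_mem hσ) ((UU q m r).inv_mem yy_mem)) hk (by
    rw [Subgroup.mem_comap]
    have h1 := key_four (r := r) hbig (n := k.val) (by rwa [ZMod.natCast_zmod_val])
    rw [ZMod.natCast_zmod_val] at h1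
    rw [← h1]
    apply Subgroup.pow_mem
    apply Subgroup.mul_mem _ xx_mem
    exact Subgroup.mul_mem _ (Subgroup.mul_mem _ (Subgroup.pow_mem _ yy_mem _) xx_mem)
      (Subgroup.inv_mem _ (Subgroup.pow_mem _ yy_mem _))) hab hac hbc
  exact h

theorem comm_mem {A : Type} [Group A] {H : Subgroup A} {a b : A} (ha : a ∈ H) (hb : b ∈ H) :
    ⁅a, b⁆ ∈ H := by
  rw [commutatorElement_def]
  exact H.mul_mem (H.mul_mem (H.mul_mem ha hb) (H.inv_mem ha)) (H.inv_mem hb)

theorem UU_conj {h : Equiv.Perm (Option (ZMod q) → W)} (hh : h ∈ UU q m r)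
    {g : Equiv.Perm (Option (ZMod q) → W)} (hg : g ∈ UU q m r) : g * h * g⁻¹ ∈ UU q m r :=
  Subgroup.mul_mem _ (Subgroup.mul_mem _ hg hh) (Subgroup.inv_mem _ hg)

theorem unit_mem (hbig : Big q m) {i j : Option (ZMod q)} (hij : i ≠ j) :
    EE i j 1 ∈ UU q m r := by
  have hlt := hbig.lt
  obtain ⟨u, hu, -⟩ := exists_free' hbig [] (by simp)
  obtain ⟨v, hv, hvl⟩ := exists_free' hbig [u] (by simp)
  obtain ⟨w, hw, hwl⟩ := exists_free' hbig [u, v] (by simp)
  obtain ⟨h, hh, hhl⟩ := exists_free' hbig [u, v, w] (by simp)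
  simp only [List.mem_cons, List.not_mem_nil, or_false, not_or] at hvl hwl hhl
  obtain ⟨hwu, hwv⟩ := hwl
  obtain ⟨hhu, hhv, hhw⟩ := hhl
  have h1u : nd q 1 ≠ some u := nd_ne_some (by omega) hu
  have h1v : nd q 1 ≠ some v := nd_ne_some (by omega) hv
  have h1w : nd q 1 ≠ some w := nd_ne_some (by omega) hw
  have h1h : nd q 1 ≠ some h := nd_ne_some (by omega) hh
  have hgu : nd q (m + 3) ≠ some u := nd_ne_some (by omega) hu
  have hgv : nd q (m + 3) ≠ some v := nd_ne_some (by omega) hv
  have hgw : nd q (m + 3) ≠ some w := nd_ne_some (by omega) hw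
  have hgh : nd q (m + 3) ≠ some h := nd_ne_some (by omega) hh
  have h1g : nd q 1 ≠ nd q (m + 3) := nd_ne (by omega) (by omega) (by omega)
  have hvu : (some v : Option (ZMod q)) ≠ some u := by simpa using hvl
  have hvw : (some v : Option (ZMod q)) ≠ some w := by simpa using Ne.symm hwv
  have hhu' : (some h : Option (ZMod q)) ≠ some u := by simpa using hhu
  have hhw' : (some h : Option (ZMod q)) ≠ some w := by simpa using hhw
  have hwu' : (some w : Option (ZMod q)) ≠ some u := by simpa using hwu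
  have hA : EE (nd q 1) (nd q (m + 3)) 1 * EE (some u) (nd q (m + 3)) 1 ∈ UU q m r := by
    rw [← pair_source (r := r) hbig hu hv (Ne.symm hvl)]
    exact comm_mem xx_mem (c3_mem hbig h1v h1u hvu)
  have hB : EE (nd q 1) (nd q (m + 3)) 1 * EE (nd q 1) (some w) 1 ∈ UU q m r := by
    rw [← pair_target (r := r) hbig hw hv hwv]
    exact comm_mem xx_mem (c3_mem hbig hgv hgw hvw)
  have hA' := UU_conj hA (c3_mem (r := r) hbig h1h h1g hgh.symm)
  have e1 : PP (c3 (nd q 1) (some h) (nd q (m + 3))) *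
      (EE (nd q 1) (nd q (m + 3)) 1 * EE (some u) (nd q (m + 3)) 1) *
      (PP (c3 (nd q 1) (some h) (nd q (m + 3))))⁻¹
      = EE (nd q (m + 3)) (some h) (1 : AddMonoid.End W) * EE (some u) (some h) 1 := by
    have : ∀ (p a b : Equiv.Perm (Option (ZMod q) → W)),
        p * (a * b) * p⁻¹ = (p * a * p⁻¹) * (p * b * p⁻¹) := by
      intro p a b; group
    rw [this, conj_EE, conj_EE, c3_fst h1g hgh.symm, c3_trd, c3_other h1u.symm hhu'.symm
      hgu.symm]
  rw [e1] at hA'
  have hC := comm_mem hB hA'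
  have e2 : ⁅EE (nd q 1) (nd q (m + 3)) (1 : AddMonoid.End W) * EE (nd q 1) (some w) 1,
      EE (nd q (m + 3)) (some h) (1 : AddMonoid.End W) * EE (some u) (some h) 1⁆
      = EE (nd q 1) (some h) 1 := by
    rw [commutator_mul_left, commutator_mul_right, EE_commutator h1g hgh h1h, one_mul]
    · exact EE_commute hgu h1h _ _
    · exact (EE_commute hgw.symm h1h _ _).mul_right (EE_commute hwu' h1h _ _)
  rw [e2] at hC
  apply EE_trans hbig.five (UU q m r) _ 1 h1h hC i j hij
  intro a b c hab hac hbc g hg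
  exact UU_conj hg (c3_mem hbig hab hac hbc)

theorem label_mem (hbig : Big q m) (k : Fin m) {i j : Option (ZMod q)} (hij : i ≠ j) :
    EE i j (r k) ∈ UU q m r := by
  have hlt := hbig.lt
  have hk := k.2
  obtain ⟨u, hu, -⟩ := exists_free' hbig [] (by simp)
  obtain ⟨v, hv, hvl⟩ := exists_free' hbig [u] (by simp)
  simp only [List.mem_cons, List.not_mem_nil, or_false] at hvl
  have hsu : nd q (k.val + 3) ≠ some u := nd_ne_some (by omega) hu
  have hsv : nd q (k.val + 3) ≠ some v := nd_ne_some (by omega) hv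
  have hvu : (some v : Option (ZMod q)) ≠ some u := by simpa using hvl
  have h2s : nd q 2 ≠ nd q (k.val + 3) := nd_ne (by omega) (by omega) (by omega)
  have hA : EE (nd q (k.val + 3)) (nd q 2) (r k) * EE (some u) (nd q 2) (r k) ∈ UU q m r := by
    rw [← pair_label (r := r) hbig k hu hv (Ne.symm hvl)]
    exact comm_mem xx_mem (c3_mem hbig hsv hsu hvu)
  have hB : EE none (nd q (k.val + 3)) 1 ∈ UU q m r := unit_mem hbig (nd_ne_none _).symm
  have hC := comm_mem hB hA
  rw [col_pair (r k) (nd_ne_none _).symm (nd_ne_none _).symm h2s.symm hsu] at hC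
  apply EE_trans hbig.five (UU q m r) _ (r k) (nd_ne_none 2).symm hC i j hij
  intro a b c hab hac hbc g hg
  exact UU_conj hg (c3_mem hbig hab hac hbc)

/-- A subgroup normalised by the group containing one elementary operation contains the group. -/
theorem UU_le (hbig : Big q m) (N : Subgroup (Equiv.Perm (Option (ZMod q) → W)))
    (hN : ∀ g ∈ UU q m r, ∀ n ∈ N, g * n * g⁻¹ ∈ N) {a b : Option (ZMod q)} (hab : a ≠ b)
    (h : EE a b 1 ∈ N) : UU q m r ≤ N := by
  have h1 : ∀ i j : Option (ZMod q), i ≠ j → EE i j 1 ∈ N := by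
    apply EE_trans hbig.five N _ 1 hab h
    intro a b c hab hac hbc n hn
    exact hN _ (c3_mem hbig hab hac hbc) n hn
  have h2 : ∀ (k : Fin m) (i j : Option (ZMod q)), i ≠ j → EE i j (r k) ∈ N := by
    intro k i j hij
    obtain ⟨l, hl⟩ := exists_node [i, j] (by have := hbig.lt; simp; omega)
    simp only [List.mem_cons, List.not_mem_nil, or_false, not_or] at hl
    obtain ⟨hli, hlj⟩ := hl
    have h3 : ⁅EE i (some l) (r k), EE (some l) j (1 : AddMonoid.End W)⁆ = EE i j (r k) := by
      rw [EE_commutator (Ne.symm hli) hlj hij, mul_one]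
    rw [← h3, commutatorElement_def]
    exact N.mul_mem (hN _ (label_mem hbig k (Ne.symm hli)) _ (h1 _ _ hlj))
      (N.inv_mem (h1 _ _ hlj))
  have h3 : ∀ i j : Option (ZMod q), i ≠ j → PP (Equiv.swap i j) ∈ N := by
    intro i j hij
    rw [PP_swap hij]
    exact N.mul_mem (N.mul_mem (h1 i j hij) (h1 j i hij.symm)) (h1 i j hij)
  have h4 : ∀ σ : Equiv.Perm (Option (ZMod q)), PP σ ∈ N := by
    intro σ
    have h5 : Subgroup.closure {σ : Equiv.Perm (Option (ZMod q)) | σ.IsSwap} ≤ N.comap PP := by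
      rw [Subgroup.closure_le]
      rintro τ ⟨i, j, hij, rfl⟩
      exact h3 i j hij
    rw [Equiv.Perm.closure_isSwap] at h5
    exact h5 (Subgroup.mem_top σ)
  have h5 : Col (nd q 2) (lab q m r) ∈ N := by
    have h6 : ∀ s : Finset (Fin m),
        Col (nd q 2) (∑ k ∈ s, Pi.single (nd q (k.val + 3)) (r k)) ∈ N := by
      intro s
      induction s using Finset.induction_on with
      | empty =>
        rw [Finset.sum_empty, Col_zero]
        exact N.one_mem
      | insert k s hk ih =>
        rw [Finset.sum_insert hk, ← Col_mul]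
        refine N.mul_mem ?_ ih
        apply h2 k
        have := hbig.lt
        have := k.2
        exact nd_ne (by omega) (by omega) (by omega)
    exact h6 Finset.univ
  unfold UU
  rw [Subgroup.closure_le]
  rintro g (rfl | rfl)
  · unfold xx tt
    have hlt := hbig.lt
    exact N.mul_mem (h4 _) (N.mul_mem (h1 _ _ (nd_ne (by omega) (by omega) (by omega))) h5)
  · exact h4 _

end Generation

section Separation

variable {W : Type} [AddCommGroup W] [Module (ZMod 2) W]
variable {q m : ℕ} [Fact q.Prime] {r : Fin m → AddMonoid.End W}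

theorem conj_mu_sh {n : ℕ} (hn : (n : ZMod q) ≠ 0) (σ : Equiv.Perm (Option (ZMod q))) :
    (PP (mu q hn * (sh q * σ * (sh q)⁻¹) * (mu q hn)⁻¹) : Equiv.Perm (Option (ZMod q) → W))
      = yy q ^ n * PP (mu q hn * σ * (mu q hn)⁻¹) * (yy q ^ n)⁻¹ := by
  rw [yy_pow, ← map_inv, ← map_mul, ← map_mul]
  congr 1
  have h := mu_sh q hn
  have e1 : mu q hn * (sh q * σ * (sh q)⁻¹) * (mu q hn)⁻¹
      = (mu q hn * sh q) * σ * (mu q hn * sh q)⁻¹ := by group
  rw [e1, ← h]
  group

/-- Separating words. -/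
theorem exists_sep (hbig : Big q m) {a b : ℕ} (ha : (a : ZMod q) ≠ 0) (hb : (b : ZMod q) ≠ 0)
    (hab : (a : ZMod q) ≠ b) :
    ∃ w : FreeGroup (Fin 2), ev2 (xx q m r) (yy q ^ a) w = 1 ∧ ∃ u : ZMod q, ¬ InA q m u ∧
      (ev2 (xx q m r) (yy q ^ b) w
          = EE (nd q 1) (nd q (m + 3)) 1 * EE (some u) (nd q (m + 3)) 1 ∨
        ev2 (xx q m r) (yy q ^ b) w
          = EE (nd q 1) (nd q (m + 3)) 1 * EE (nd q 1) (some u) 1) := by
  let Psi : FreeGroup (Fin 2) →* Equiv.Perm (Option (ZMod q) → W) ×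
      Equiv.Perm (Option (ZMod q) → W) :=
    (ev2 (xx q m r) (yy q ^ a)).prod (ev2 (xx q m r) (yy q ^ b))
  let Qh : Equiv.Perm (Option (ZMod q)) →* Equiv.Perm (Option (ZMod q) → W) ×
      Equiv.Perm (Option (ZMod q) → W) :=
    (PP.comp (MulAut.conj (mu q ha)).toMonoidHom).prod
      (PP.comp (MulAut.conj (mu q hb)).toMonoidHom)
  have hQh : ∀ σ, Qh σ = (PP (mu q ha * σ * (mu q ha)⁻¹), PP (mu q hb * σ * (mu q hb)⁻¹)) :=
    fun σ => rfl
  have hPsi : ∀ w, Psi w = (ev2 (xx q m r) (yy q ^ a) w, ev2 (xx q m r) (yy q ^ b) w) :=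
    fun w => rfl
  obtain ⟨k, hk, hk1, hk2⟩ := exists_dis hbig ha hb
  have hc3 : ∀ {s t v : Option (ZMod q)}, s ≠ t → s ≠ v → t ≠ v →
      c3 s t v ∈ Psi.range.comap Qh := by
    intro s t v hst hsv htv
    apply all_c3 q hbig.five _ _ hk _ hst hsv htv
    · intro σ hσ
      rw [Subgroup.mem_comap, MonoidHom.mem_range] at hσ ⊢
      obtain ⟨w, hw⟩ := hσ
      refine ⟨FreeGroup.of 1 * w * (FreeGroup.of 1)⁻¹, ?_⟩
      rw [map_mul, map_mul, map_inv, hw, hPsi (FreeGroup.of 1), ev2_one, ev2_one, hQh, hQh,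
        conj_mu_sh, conj_mu_sh]
      rfl
    · rw [Subgroup.mem_comap, MonoidHom.mem_range]
      refine ⟨(FreeGroup.of 0 * (FreeGroup.of 1 ^ k.val * FreeGroup.of 0 *
        (FreeGroup.of 1 ^ k.val)⁻¹)) ^ 4, ?_⟩
      have e0 : ∀ c : ℕ, ((c * k.val : ℕ) : ZMod q) = (c : ZMod q) * k := by
        intro c
        rw [Nat.cast_mul, ZMod.natCast_zmod_val]
      have e1 := key_four (r := r) hbig (n := a * k.val) (by rw [e0]; exact hk1)
      have e2 := key_four (r := r) hbig (n := b * k.val) (by rw [e0]; exact hk2)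
      rw [hPsi, hQh, c3_conj, c3_conj, mu_none, mu_none, mu_some, mu_some, mu_some, mu_some,
        mul_zero, mul_zero, ← e0 a, ← e0 b, ← e1, ← e2]
      simp only [map_pow, map_mul, map_inv, ev2_zero, ev2_one, pow_mul]
  -- the node to move
  have hv : ∃ v₀ : ℕ, (v₀ = 1 ∨ v₀ = m + 3) ∧ ¬ InA q m ((a : ZMod q) * ((v₀ : ZMod q) / b)) := by
    by_contra hcon
    push Not at hcon
    have h1 := hcon 1 (Or.inl rfl)
    have h2 := hcon (m + 3) (Or.inr rfl)
    have e1 : (a : ZMod q) * (((1 : ℕ) : ZMod q) / b) = (a : ZMod q) / b * 1 := by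
      push_cast; ring
    have e2 : (a : ZMod q) * (((m + 3 : ℕ) : ZMod q) / b)
        = (a : ZMod q) / b * ((m + 3 : ℕ) : ZMod q) := by
      ring
    rw [e1] at h1
    rw [e2] at h2
    rcases scale_trivial hbig h1 h2 with h3 | h3
    · rw [div_eq_zero_iff] at h3
      rcases h3 with h3 | h3
      · exact ha h3
      · exact hb h3
    · rw [div_eq_one_iff_eq hb] at h3
      exact hab h3
  obtain ⟨v₀, hv₀, hv₁⟩ := hv
  set n₀ : ZMod q := (v₀ : ZMod q) / b with hn₀
  obtain ⟨u, hu1, hu2, hul⟩ := exists_free hbig ha hb [n₀] (by simp)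
  obtain ⟨w, hw1, hw2, hwl⟩ := exists_free hbig ha hb [n₀, u] (by simp)
  simp only [List.mem_cons, List.not_mem_nil, or_false, not_or] at hul hwl
  obtain ⟨hwn, hwu⟩ := hwl
  have hmem := hc3 (s := some n₀) (t := some w) (v := some u) (by simpa using Ne.symm hwn)
    (by simpa using Ne.symm hul) (by simpa using hwu)
  rw [Subgroup.mem_comap, MonoidHom.mem_range] at hmem
  obtain ⟨z, hz⟩ := hmem
  have hbn : (b : ZMod q) * n₀ = v₀ := by
    rw [hn₀]; field_simp
  rw [hPsi, hQh, c3_conj, c3_conj, mu_some, mu_some, mu_some, mu_some, mu_some, mu_some, hbn,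
    Prod.mk.injEq] at hz
  obtain ⟨hz1, hz2⟩ := hz
  refine ⟨⁅(FreeGroup.of 0 : FreeGroup (Fin 2)), z⁆, ?_, (b : ZMod q) * u, hu2, ?_⟩
  · rw [map_commutatorElement, ev2_zero, hz1]
    apply xx_commute_PP hbig
    · exact c3_other (by simp) (by simp) (by simp)
    · intro i hi
      apply c3_other
      · simp only [ne_eq, Option.some.injEq]
        rintro rfl
        exact hv₁ hi
      · simp only [ne_eq, Option.some.injEq]
        rintro rfl
        exact hw1 hi
      · simp only [ne_eq, Option.some.injEq]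
        rintro rfl
        exact hu1 hi
  · rw [map_commutatorElement, ev2_zero, hz2]
    have hne : (b : ZMod q) * u ≠ (b : ZMod q) * w := by
      intro h
      exact hwu (mul_left_cancel₀ hb h).symm
    rcases hv₀ with rfl | rfl
    · left
      exact pair_source hbig hu2 hw2 hne
    · right
      exact pair_target hbig hu2 hw2 hne

end Separation

end Pool.Agent.Lib_helper82
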