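import Mathlib
import Pool.Agent.Lib_helper82.Model2
import Pool.Agent.Lib_helper82.Clone
import Pool.Agent.Lib_helper82.MachineInst

set_option autoImplicit false

open scoped commutatorElement

/-!
# Assembly
-/

namespace Pool.Agent.Lib_helper82

section GroupSide

variable {W : Type} [AddCommGroup W] [Module (ZMod 2) W]
variable {q m : ℕ} [Fact q.Prime] {r : Fin m → AddMonoid.End W}

/-- The first generator in the group. -/
def xg : UU q m r := ⟨xx q m r, xx_mem⟩

/-- The second generator in the group. -/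
def yg : UU q m r := ⟨yy q, yy_mem⟩

theorem normal_top (hbig : Big q m) (N : Subgroup (UU q m r)) (hN : N.Normal)
    {a b : Option (ZMod q)} (hab : a ≠ b) (g : UU q m r) (hg : g.1 = EE a b 1) (h : g ∈ N) :
    N = ⊤ := by
  have h1 : UU q m r ≤ N.map (UU q m r).subtype := by
    apply UU_le hbig _ _ hab
    · rw [Subgroup.mem_map]
      exact ⟨g, h, hg⟩
    · intro k hk n hn
      rw [Subgroup.mem_map] at hn ⊢
      obtain ⟨n', hn', rfl⟩ := hn
      exact ⟨⟨k, hk⟩ * n' * ⟨k, hk⟩⁻¹, hN.conj_mem n' hn' ⟨k, hk⟩, rfl⟩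
  rw [eq_top_iff]
  intro k _
  have h2 := h1 k.2
  rw [Subgroup.mem_map] at h2
  obtain ⟨n, hn, hnk⟩ := h2
  have : n = k := Subtype.ext hnk
  rwa [← this]

theorem gen_top : Subgroup.closure {(xg : UU q m r), yg} = ⊤ := by
  have h1 : (Subgroup.closure {(xg : UU q m r), yg}).map (UU q m r).subtype = UU q m r := by
    rw [MonoidHom.map_closure, Set.image_insert_eq, Set.image_singleton]
    rfl
  rw [eq_top_iff]
  intro k _
  have h2 : k.1 ∈ (Subgroup.closure {(xg : UU q m r), yg}).map (UU q m r).subtype := by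
    rw [h1]
    exact k.2
  rw [Subgroup.mem_map] at h2
  obtain ⟨n, hn, hnk⟩ := h2
  have : n = k := Subtype.ext hnk
  rwa [← this]

theorem perfect_UU (hbig : Big q m) : commutator (UU q m r) = ⊤ := by
  obtain ⟨l, hl⟩ := exists_node [none, (some 0 : Option (ZMod q))]
    (by have := hbig.lt; simp; omega)
  simp only [List.mem_cons, List.not_mem_nil, or_false, not_or] at hl
  have h1 : (none : Option (ZMod q)) ≠ some l := Ne.symm hl.1
  have h2 : (some l : Option (ZMod q)) ≠ some 0 := hl.2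
  have h3 : (none : Option (ZMod q)) ≠ some 0 := by simp
  let g1 : UU q m r := ⟨EE none (some l) 1, unit_mem hbig h1⟩
  let g2 : UU q m r := ⟨EE (some l) (some 0) 1, unit_mem hbig h2⟩
  apply normal_top hbig _ inferInstance h3 ⁅g1, g2⁆
  · show ⁅EE none (some l) (1 : AddMonoid.End W), EE (some l) (some 0) (1 : AddMonoid.End W)⁆
      = _
    rw [EE_commutator h1 h2 h3, one_mul]
  · rw [commutator_def]
    exact Subgroup.commutator_mem_commutator (Subgroup.mem_top _) (Subgroup.mem_top _)

theorem base2 (hbig : Big q m) [Nontrivial W] : Base2 (UU q m r) xg yg q := by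
  refine ⟨Fact.out, ?_, ?_, ?_, gen_top, perfect_UU hbig, ?_⟩
  · have := hbig.lt
    omega
  · exact Subtype.ext (xx_sq hbig)
  · exact Subtype.ext yy_pow_q
  · have h3 : (none : Option (ZMod q)) ≠ some 0 := by simp
    refine ⟨⟨EE none (some 0) 1, unit_mem hbig h3⟩, ?_⟩
    intro h
    have h4 : EE (none : Option (ZMod q)) (some 0) (1 : AddMonoid.End W) = 1 :=
      congrArg Subtype.val h
    obtain ⟨w, hw⟩ := exists_ne (0 : W)
    apply hw
    have h5 := EE_apply_self h3 (1 : AddMonoid.End W) (fun _ => w)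
    rw [h4] at h5
    simpa using h5

theorem val_ev2 (a b : UU q m r) (w : FreeGroup (Fin 2)) :
    (ev2 a b w).1 = ev2 a.1 b.1 w := ev2_map (UU q m r).subtype a b w

theorem pairInd (hbig : Big q m) [Nontrivial W] :
    PairInd (xg : UU q m r) yg := by
  have B := base2 (r := r) hbig
  apply pairInd_of_sep B
  intro a b ha hb hab
  have hne : ∀ c : ℕ, (yg : UU q m r) ^ c ≠ 1 → (c : ZMod q) ≠ 0 := by
    intro c hc h
    apply hc
    rw [ZMod.natCast_eq_zero_iff] at h
    obtain ⟨d, rfl⟩ := h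
    rw [pow_mul, B.hy, one_pow]
  have hab' : (a : ZMod q) ≠ b := by
    intro h
    apply hab
    rw [ZMod.natCast_eq_natCast_iff'] at h
    rw [pow_eq_pow_mod a B.hy, h, ← pow_eq_pow_mod b B.hy]
  obtain ⟨w, hw, u, hu, hw'⟩ := exists_sep (r := r) hbig (hne a ha) (hne b hb) hab'
  refine ⟨w, ?_, ?_⟩
  · apply Subtype.ext
    rw [val_ev2]
    exact hw
  · set g : UU q m r := ev2 xg (yg ^ b) w with hg
    have hg1 : g.1 = ev2 (xx q m r) (yy q ^ b) w := by
      rw [hg, val_ev2]
      rfl
    have hgN : g ∈ Subgroup.normalClosure {g} := Subgroup.subset_normalClosure rfl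
    have hlt := hbig.lt
    have h1g : nd q 1 ≠ nd q (m + 3) := nd_ne (by omega) (by omega) (by omega)
    have h1u : nd q 1 ≠ some u := nd_ne_some (by omega) hu
    have hgu : nd q (m + 3) ≠ some u := nd_ne_some (by omega) hu
    rcases hw' with hw' | hw'
    · let h0 : UU q m r := ⟨EE none (nd q 1) 1, unit_mem hbig (nd_ne_none _).symm⟩
      apply normal_top hbig _ Subgroup.normalClosure_normal (nd_ne_none (m + 3)).symm ⁅h0, g⁆
      · show ⁅EE none (nd q 1) (1 : AddMonoid.End W), g.1⁆ = _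
        rw [hg1, hw', col_pair 1 (nd_ne_none _).symm (nd_ne_none _).symm h1g h1u]
      · rw [commutatorElement_def]
        exact Subgroup.mul_mem _ (Subgroup.normalClosure_normal.conj_mem g hgN h0)
          (Subgroup.inv_mem _ hgN)
    · let h0 : UU q m r := ⟨EE (nd q (m + 3)) none 1, unit_mem hbig (nd_ne_none _)⟩
      apply normal_top hbig _ Subgroup.normalClosure_normal (nd_ne_none 1) ⁅g, h0⁆
      · show ⁅g.1, EE (nd q (m + 3)) none (1 : AddMonoid.End W)⁆ = _
        rw [hg1, hw', row_pair h1g hgu (nd_ne_none _) (nd_ne_none _)]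
      · rw [commutatorElement_def]
        have e : g * h0 * g⁻¹ * h0⁻¹ = g * (h0 * g⁻¹ * h0⁻¹) := by group
        rw [e]
        exact Subgroup.mul_mem _ hgN
          (Subgroup.normalClosure_normal.conj_mem g⁻¹ (Subgroup.inv_mem _ hgN) h0)

end GroupSide

section Primitive

/-- Commutators of lists. -/
def comL (u v : List (Fin 2 × Bool)) : List (Fin 2 × Bool) :=
  u ++ v ++ FreeGroup.invRev u ++ FreeGroup.invRev v

theorem mk_comL (u v : List (Fin 2 × Bool)) :
    FreeGroup.mk (comL u v) = ⁅FreeGroup.mk u, FreeGroup.mk v⁆ := by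
  unfold comL
  rw [commutatorElement_def, ← FreeGroup.mul_mk, ← FreeGroup.mul_mk, ← FreeGroup.mul_mk,
    FreeGroup.inv_mk, FreeGroup.inv_mk]

theorem primrec_invRev2 :
    Primrec (FreeGroup.invRev : List (Fin 2 × Bool) → List (Fin 2 × Bool)) := by
  unfold FreeGroup.invRev
  apply Primrec.list_reverse.comp
  apply Primrec.list_map Primrec.id
  exact (Primrec.pair (Primrec.fst.comp Primrec.snd)
    (Primrec.not.comp (Primrec.snd.comp Primrec.snd))).to₂

theorem primrec_comL {α : Type} [Primcodable α] {f g : α → List (Fin 2 × Bool)} (hf : Primrec f)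
    (hg : Primrec g) : Primrec (fun a => comL (f a) (g a)) := by
  unfold comL
  exact Primrec.list_append.comp (Primrec.list_append.comp (Primrec.list_append.comp hf hg)
    (primrec_invRev2.comp hf)) (primrec_invRev2.comp hg)

variable {𝒜 : Type}

/-- The elements of a word with repeated letters can be computed. -/
theorem exists_primrec (e : Fin 5 → Fin 5 → 𝒜 → FreeGroup (Fin 2)) (s b : 𝒜) (t : List 𝒜)
    (ht : t ≠ []) (z : FreeGroup (Fin 2)) :
    ∃ f : ℕ → List (Fin 2 × Bool), Primrec f ∧ ∀ n,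
      FreeGroup.mk (f n) = Ew e 0 1 (s :: (List.replicate n b ++ t)) * z := by
  let P : ℕ → List (Fin 2 × Bool) × List (Fin 2 × Bool) := fun n =>
    Nat.rec ((Ew e 0 1 t).toWord, (Ew e 2 1 t).toWord)
      (fun _ p => (comL (e 0 2 b).toWord p.2, comL (e 2 0 b).toWord p.1)) n
  have hP : Primrec P := by
    apply Primrec.nat_rec₁
    exact (Primrec.pair
      (primrec_comL (Primrec.const _) (Primrec.snd.comp Primrec.snd))
      (primrec_comL (Primrec.const _) (Primrec.fst.comp Primrec.snd))).to₂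
  have hval : ∀ n, FreeGroup.mk (P n).1 = Ew e 0 1 (List.replicate n b ++ t) ∧
      FreeGroup.mk (P n).2 = Ew e 2 1 (List.replicate n b ++ t) := by
    intro n
    induction n with
    | zero => exact ⟨FreeGroup.mk_toWord, FreeGroup.mk_toWord⟩
    | succ n ih =>
      have hne : List.replicate n b ++ t ≠ [] := by simp [ht]
      have e1 : P (n + 1) = (comL (e 0 2 b).toWord (P n).2, comL (e 2 0 b).toWord (P n).1) := rfl
      have e2 : List.replicate (n + 1) b ++ t = b :: (List.replicate n b ++ t) := rfl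
      rw [e1, e2, Ew_cons_mid 0 1 b _ hne, Ew_cons_mid 2 1 b _ hne]
      have m1 : mid 0 1 = 2 := by decide
      have m2 : mid 2 1 = 0 := by decide
      rw [m1, m2, mk_comL, mk_comL, ih.1, ih.2, FreeGroup.mk_toWord, FreeGroup.mk_toWord]
      exact ⟨rfl, rfl⟩
  refine ⟨fun n => comL (e 0 2 s).toWord (P n).2 ++ z.toWord, ?_, ?_⟩
  · exact Primrec.list_append.comp
      (primrec_comL (Primrec.const _) (Primrec.snd.comp hP)) (Primrec.const _)
  · intro n
    have hne : List.replicate n b ++ t ≠ [] := by simp [ht]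
    have m1 : mid 0 1 = 2 := by decide
    rw [← FreeGroup.mul_mk, mk_comL, (hval n).2, FreeGroup.mk_toWord, FreeGroup.mk_toWord,
      Ew_cons_mid 0 1 s _ hne, m1]

end Primitive

section Final

open Turing Turing.PartrecToTM2

theorem finite_short {𝒜 : Type} [Finite 𝒜] : {u : List 𝒜 | u.length ≤ 2}.Finite :=
  List.finite_length_le 𝒜 2

variable (c : ToPartrec.Code)

/-- The main reduction. -/
theorem exists_reduction : ∃ F : ℕ → List (ℕ × Bool), Primrec F ∧ ∀ n,
    (Complete (FreeGroup.mk (F n)) ↔ (c.eval [2 ^ n - 1]).Dom) := by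
  classical
  -- letters
  obtain ⟨m, ⟨eqv⟩⟩ := Finite.exists_equiv_fin (Lt MM (SS c))
  let r : Fin m → AddMonoid.End (WSp K' Γ') := fun k => rho MM (SS c) (eqv.symm k)
  obtain ⟨q, hq, hqp⟩ := Nat.exists_infinite_primes (2 * ((m + 4) * (m + 4)) + 21)
  have hfact : Fact q.Prime := ⟨hqp⟩
  have hbig : Big q m := by
    unfold Big
    omega
  have hlt := hbig.lt
  have B := base2 (r := r) hbig
  have hind := pairInd (r := r) hbig
  -- nodes
  have hnd : ∀ i j : Fin 5, i ≠ j → nd q i.val ≠ nd q j.val := by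
    intro i j hij
    have := i.2
    have := j.2
    apply nd_ne (by omega) (by omega)
    intro h
    exact hij (Fin.ext h)
  have hmem : ∀ (i j : Fin 5) (a : Lt MM (SS c)),
      EE (nd q i.val) (nd q j.val) (rho MM (SS c) a) ∈ UU q m r := by
    intro i j a
    by_cases hij : i = j
    · subst hij
      rw [EE_self]
      exact Subgroup.one_mem _
    · have h := label_mem (r := r) hbig (eqv a) (hnd i j hij)
      have e : r (eqv a) = rho MM (SS c) a := by simp [r]
      rwa [e] at h
  let E : Fin 5 → Fin 5 → Lt MM (SS c) → UU q m r := fun i j a => ⟨_, hmem i j a⟩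
  have hE : ∀ i j a, (E i j a).1 = EE (nd q i.val) (nd q j.val) (rho MM (SS c) a) :=
    fun _ _ _ => rfl
  have hcomm : ∀ a b : UU q m r, (⁅a, b⁆ : UU q m r).1 = ⁅a.1, b.1⁆ := fun _ _ => rfl
  -- the value of a word
  have hEw : ∀ (w : List (Lt MM (SS c))), w ≠ [] → ∀ i j : Fin 5, i ≠ j →
      (Ew E i j w).1 = EE (nd q i.val) (nd q j.val) (rhoW MM (SS c) w) := by
    intro w
    induction w with
    | nil => intro h; exact absurd rfl h
    | cons a w ih =>
      intro _ i j hij
      by_cases hw : w = []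
      · subst hw
        rw [Ew_singleton, hE, rhoW_single]
      · rw [Ew_cons_mid i j a w hw, hcomm, hE, ih hw _ _ (mid_ne_right i j),
          EE_commutator (hnd _ _ (mid_ne_left i j).symm) (hnd _ _ (mid_ne_right i j))
            (hnd _ _ hij)]
        congr 1
  let g1 : UU q m r := ⟨EE (nd q 0) (nd q 1) 1, unit_mem hbig (hnd 0 1 (by decide))⟩
  -- words
  have hsurj : Function.Surjective (ev2 (xg : UU q m r) yg) :=
    ev2_surj B x_mem_TT y_mem_TT (not_commute B)
  choose pre hpre using hsurj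
  let ε : Fin 5 → Fin 5 → Lt MM (SS c) → FreeGroup (Fin 2) := fun i j a => pre (E i j a)
  let ε₁ : FreeGroup (Fin 2) := pre g1
  have hmapEw : ∀ i j w, ev2 (xg : UU q m r) yg (Ew ε i j w) = Ew E i j w := by
    intro i j w
    rw [map_Ew]
    congr 1
    funext i j a
    exact hpre _
  -- the generators in the normal closure
  have htop : Subgroup.normalClosure {g1} = ⊤ :=
    normal_top hbig _ Subgroup.normalClosure_normal (hnd 0 1 (by decide)) g1 rfl
      (Subgroup.subset_normalClosure rfl)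
  have hν : ∀ g : UU q m r, ∃ v ∈ Subgroup.normalClosure {ε₁}, ev2 xg yg v = g := by
    intro g
    have h1 := Subgroup.map_normalClosure {ε₁} (ev2 (xg : UU q m r) yg)
      (ev2_surj B x_mem_TT y_mem_TT (not_commute B))
    rw [Set.image_singleton] at h1
    have h2 : ev2 (xg : UU q m r) yg ε₁ = g1 := hpre g1
    rw [h2, htop] at h1
    have h3 : g ∈ (Subgroup.normalClosure {ε₁}).map (ev2 (xg : UU q m r) yg) := by
      rw [h1]; trivial
    exact Subgroup.mem_map.1 h3
  obtain ⟨νx, hνx, hνx'⟩ := hν xg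
  obtain ⟨νy, hνy, hνy'⟩ := hν yg
  -- the candidates
  let Cand : Set (FreeGroup (Fin 2)) :=
    (Set.range fun p : (Fin 5 × Fin 5 × Fin 5 × Fin 5) × Lt MM (SS c) × Lt MM (SS c) =>
      ⁅ε p.1.1 p.1.2.1 p.2.1, ε p.1.2.2.1 p.1.2.2.2 p.2.2⁆) ∪
    ((Set.range fun p : (Fin 5 × Fin 5 × Fin 5 × Fin 5) × Lt MM (SS c) × Lt MM (SS c) =>
      ⁅ε p.1.1 p.1.2.2.1 p.2.1, ε p.1.2.2.1 p.1.2.1 p.2.2⁆ *
      ⁅ε p.1.1 p.1.2.2.2 p.2.1, ε p.1.2.2.2 p.1.2.1 p.2.2⁆⁻¹) ∪
    ((Set.range fun p : (Fin 5 × Fin 5) × {u : List (Lt MM (SS c)) | u.length ≤ 2} ×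
        {u : List (Lt MM (SS c)) | u.length ≤ 2} =>
      Ew ε p.1.1 p.1.2 p.2.1.1 * (Ew ε p.1.1 p.1.2 p.2.2.1)⁻¹) ∪
    ((Set.range fun p : (Fin 5 × Fin 5) × {u : List (Lt MM (SS c)) | u.length ≤ 2} =>
      Ew ε p.1.1 p.1.2 p.2.1) ∪
    {(FreeGroup.of 0)⁻¹ * νx, (FreeGroup.of 1)⁻¹ * νy})))
  have hCand : Cand.Finite := by
    have hf : Finite {u : List (Lt MM (SS c)) | u.length ≤ 2} := finite_short.to_subtype
    exact (Set.finite_range _).union ((Set.finite_range _).union ((Set.finite_range _).union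
      ((Set.finite_range _).union (Set.toFinite _))))
  let Rset : Set (FreeGroup (Fin 2)) := {w | w ∈ Cand ∧ ev2 (xg : UU q m r) yg w = 1}
  have hRset : Rset.Finite := hCand.subset (fun w hw => hw.1)
  let R₀ : List (FreeGroup (Fin 2)) := hRset.toFinset.toList
  have hR₀ : ∀ w, w ∈ R₀ ↔ w ∈ Rset := by
    intro w
    simp [R₀]
  -- the varying relator
  obtain ⟨rr, hrr, hrr'⟩ := exists_primrec ε (Letter.st (q0 c) none)
    (Letter.tape K'.main (some Γ'.bit1)) (tailWord c) (by simp [tailWord]) ε₁⁻¹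
  obtain ⟨F, hF, hF'⟩ := reduction B hind R₀ (fun w hw => ((hR₀ w).1 hw).2) rr hrr
  refine ⟨F, hF, fun n => ?_⟩
  have hrn : FreeGroup.mk (rr n) = Ew ε 0 1 (startWord c n) * ε₁⁻¹ := hrr' n
  constructor
  · intro hcomp
    by_contra hdom
    apply (hF' n).1 _ hcomp
    rw [hrn, map_mul, map_inv, hmapEw]
    have h1 : ev2 (xg : UU q m r) yg ε₁ = g1 := hpre g1
    rw [h1, mul_inv_eq_one]
    apply Subtype.ext
    rw [hEw _ (by simp [startWord]) 0 1 (by decide), rhoW_start c n hdom]
    rfl
  · intro hdom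
    apply (hF' n).2
    set NN := Subgroup.normalClosure {s | s ∈ R₀ ∨ s = FreeGroup.mk (rr n)} with hNN
    let f : FreeGroup (Fin 2) →* FreeGroup (Fin 2) ⧸ NN := QuotientGroup.mk' NN
    have hkill : ∀ w ∈ Rset, f w = 1 := by
      intro w hw
      rw [QuotientGroup.mk'_apply, QuotientGroup.eq_one_iff]
      exact Subgroup.subset_normalClosure (Or.inl ((hR₀ w).2 hw))
    have hkill2 : f (FreeGroup.mk (rr n)) = 1 := by
      rw [QuotientGroup.mk'_apply, QuotientGroup.eq_one_iff]
      exact Subgroup.subset_normalClosure (Or.inr rfl)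
    let e' : Fin 5 → Fin 5 → Lt MM (SS c) → FreeGroup (Fin 2) ⧸ NN := fun i j a => f (ε i j a)
    have hfEw : ∀ i j w, f (Ew ε i j w) = Ew e' i j w := fun i j w => map_Ew f i j w
    have hεE : ∀ i j a, ev2 (xg : UU q m r) yg (ε i j a) = E i j a := fun i j a => hpre _
    have hMRel : MRel MM (SS c) e' := by
      refine ⟨⟨?_, ?_⟩, ?_, ?_⟩
      · intro i j k l hij hkl hjk hil a b
        have h1 : ⁅ε i j a, ε k l b⁆ ∈ Rset := by
          refine ⟨Or.inl ⟨((i, j, k, l), a, b), rfl⟩, ?_⟩
          rw [map_commutatorElement, hεE, hεE, commutatorElement_eq_one_iff_commute]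
          apply Subtype.ext
          exact (EE_commute (hnd _ _ hjk) (hnd _ _ hil) _ _).eq
        have h2 := hkill _ h1
        rw [map_commutatorElement, commutatorElement_eq_one_iff_commute] at h2
        exact h2
      · intro i k s s' hik hsi hsk hsi' hsk' a b
        have h1 : ⁅ε i s a, ε s k b⁆ * ⁅ε i s' a, ε s' k b⁆⁻¹ ∈ Rset := by
          refine ⟨Or.inr (Or.inl ⟨((i, k, s, s'), a, b), rfl⟩), ?_⟩
          rw [map_mul, map_inv, map_commutatorElement, map_commutatorElement, hεE, hεE, hεE,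
            hεE, mul_inv_eq_one]
          apply Subtype.ext
          rw [hcomm, hcomm, hE, hE, hE, hE,
            EE_commutator (hnd _ _ hsi.symm) (hnd _ _ hsk) (hnd _ _ hik),
            EE_commutator (hnd _ _ hsi'.symm) (hnd _ _ hsk') (hnd _ _ hik)]
        have h2 := hkill _ h1
        rw [map_mul, map_inv, map_commutatorElement, map_commutatorElement,
          mul_inv_eq_one] at h2
        exact h2
      · intro u v hu hv hlu hlv huv i j hij
        have h1 : Ew ε i j u * (Ew ε i j v)⁻¹ ∈ Rset := by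
          refine ⟨Or.inr (Or.inr (Or.inl ⟨((i, j), ⟨u, hlu⟩, ⟨v, hlv⟩), rfl⟩)), ?_⟩
          rw [map_mul, map_inv, hmapEw, hmapEw, mul_inv_eq_one]
          apply Subtype.ext
          rw [hEw u hu i j hij, hEw v hv i j hij, huv]
        have h2 := hkill _ h1
        rw [map_mul, map_inv, hfEw, hfEw, mul_inv_eq_one] at h2
        exact h2
      · intro u hu hlu huz i j hij
        have h1 : Ew ε i j u ∈ Rset := by
          refine ⟨Or.inr (Or.inr (Or.inr (Or.inl ⟨((i, j), ⟨u, hlu⟩), rfl⟩))), ?_⟩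
          rw [hmapEw]
          apply Subtype.ext
          rw [hEw u hu i j hij, huz, EE_zero]
          rfl
        have h2 := hkill _ h1
        rw [hfEw] at h2
        exact h2
    have hnull := null_start c hMRel n hdom 0 1 (by decide)
    have hf1 : f ε₁ = 1 := by
      have h1 : f (Ew ε 0 1 (startWord c n) * ε₁⁻¹) = 1 := (congrArg f hrn).symm.trans hkill2
      rw [map_mul, map_inv, hfEw, hnull, one_mul, inv_eq_one] at h1
      exact h1
    have hfν : ∀ v ∈ Subgroup.normalClosure {ε₁}, f v = 1 := by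
      intro v hv
      have h1 : Subgroup.normalClosure {ε₁} ≤ f.ker := by
        apply Subgroup.normalClosure_le_normal
        rw [Set.singleton_subset_iff, SetLike.mem_coe, MonoidHom.mem_ker]
        exact hf1
      exact h1 hv
    have hf0 : f (FreeGroup.of 0) = 1 := by
      have h1 : (FreeGroup.of 0)⁻¹ * νx ∈ Rset := by
        refine ⟨Or.inr (Or.inr (Or.inr (Or.inr (Or.inl rfl)))), ?_⟩
        rw [map_mul, map_inv, ev2_zero, hνx', inv_mul_cancel]
      have h2 := hkill _ h1
      rw [map_mul, map_inv, hfν νx hνx, mul_one, inv_eq_one] at h2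
      exact h2
    have hf2 : f (FreeGroup.of 1) = 1 := by
      have h1 : (FreeGroup.of 1)⁻¹ * νy ∈ Rset := by
        refine ⟨Or.inr (Or.inr (Or.inr (Or.inr (Or.inr rfl)))), ?_⟩
        rw [map_mul, map_inv, ev2_one, hνy', inv_mul_cancel]
      have h2 := hkill _ h1
      rw [map_mul, map_inv, hfν νy hνy, mul_one, inv_eq_one] at h2
      exact h2
    have hf : f = 1 := by
      apply hom2_ext
      · rw [hf0]; rfl
      · rw [hf2]; rfl
    rw [eq_top_iff]
    intro w _
    have h1 : f w = 1 := by rw [hf]; rfl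
    rwa [QuotientGroup.mk'_apply, QuotientGroup.eq_one_iff] at h1

end Final

theorem undecidable_complete :
    ¬ ComputablePred (fun w : List (ℕ × Bool) => Complete (FreeGroup.mk w)) := by
  intro h
  obtain ⟨c, hc⟩ := exists_base
  obtain ⟨F, hF, hF'⟩ := exists_reduction c
  apply hc
  apply ComputablePred.computable_of_manyOneReducible _ h
  exact ⟨F, hF.to_comp, fun n => (hF' n).symm⟩

end Pool.Agent.Lib_helper82
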