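import Pool.Agent.Lib_helper82.Assemble

set_option autoImplicit false

open Turing

/-!
# Schaeffer words: the set is recursively enumerable and complete
-/

namespace Pool.Agent.Lib_helper82

section Base

/-- The partial function `2^n - 1 ↦ f n`. -/
noncomputable def baseFun' (f : ℕ →. ℕ) (m : ℕ) : Part ℕ :=
  (Nat.rfind (expTest m : ℕ →. Bool)).bind f

theorem baseFun'_partrec {f : ℕ →. ℕ} (hf : Partrec f) : Partrec (baseFun' f) := by
  unfold baseFun'
  apply Partrec.bind
  · apply Partrec.rfind
    exact primrec_expTest.to_comp.partrec₂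
  · exact (hf.comp Computable.snd).to₂

theorem baseFun'_eq (f : ℕ →. ℕ) (n : ℕ) : baseFun' f (2 ^ n - 1) = f n := by
  unfold baseFun'
  have h2 : 2 ^ n - 1 + 1 = 2 ^ n := Nat.sub_add_cancel Nat.one_le_two_pow
  have h1 : n ∈ Nat.rfind (expTest (2 ^ n - 1) : ℕ →. Bool) := by
    refine Nat.mem_rfind.2 ⟨?_, ?_⟩
    · have h4 : expTest (2 ^ n - 1) n = true := by
        unfold expTest
        rw [h2]
        simp
      exact Part.mem_some_iff.2 h4.symm
    · intro m hm
      have h3 : 2 ^ m ≠ 2 ^ n := by
        intro h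
        have := Nat.pow_right_injective le_rfl h
        omega
      have h4 : expTest (2 ^ n - 1) m = false := by
        unfold expTest
        rw [h2]
        simp [h3]
      exact Part.mem_some_iff.2 h4.symm
  rw [Part.eq_some_iff.2 h1, Part.bind_some]

/-- Every recursively enumerable set is the set of the `n` for which some code halts on
`2^n - 1`. -/
theorem exists_base_re {p : ℕ → Prop} (hp : REPred p) : ∃ c : ToPartrec.Code,
    ∀ n : ℕ, (c.eval [2 ^ n - 1]).Dom ↔ p n := by
  have hf : Partrec (fun n : ℕ => (Part.assert (p n) fun _ => Part.some ()).map fun _ => (0 : ℕ)) :=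
    Partrec.map hp (Computable.const 0).to₂
  obtain ⟨c, hc⟩ := ToPartrec.Code.exists_code (Nat.Partrec'.part_iff₁.2 (baseFun'_partrec hf))
  refine ⟨c, fun n => ?_⟩
  have h2 := hc ⟨[2 ^ n - 1], rfl⟩
  have h3 : c.eval [2 ^ n - 1] = pure <$> baseFun' _ (2 ^ n - 1) := h2
  rw [h3, baseFun'_eq]
  constructor
  · rintro ⟨h, _⟩
    exact h
  · intro h
    exact ⟨h, trivial⟩

/-- Every recursively enumerable set is many-one reducible to the set of complete words. -/
theorem complete_hard {p : ℕ → Prop} (hp : REPred p) :
    p ≤₀ (fun w : List (ℕ × Bool) => Complete (FreeGroup.mk w)) := by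
  obtain ⟨c, hc⟩ := exists_base_re hp
  obtain ⟨F, hF, hF'⟩ := exists_reduction c
  exact ⟨F, hF.to_comp, fun n => ((hF' n).trans (hc n)).symm⟩

end Base

section Enum

/-- Words in letters and inverse letters. -/
abbrev Wd : Type := List (ℕ × Bool)

/-- The word with number `n` in a list of derived words; numbers out of range give variables. -/
def look (L : List Wd) (n : ℕ) : Wd := if n < L.length then L.getD n [] else [(n - L.length, true)]

/-- The word `B` with the derived words with the numbers `c` substituted. -/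
def appB (B : Wd) (L : List Wd) (c : List ℕ) : Wd :=
  B.flatMap fun a => bif a.2 then look L (c.getD a.1 0) else FreeGroup.invRev (look L (c.getD a.1 0))

/-- The derivation with the steps `P`, starting with the derived words `L`. -/
def runB (B : Wd) (P : List (List ℕ)) (L : List Wd) : List Wd :=
  P.foldl (fun L c => appB B L c :: L) L

theorem mk_flatMap (f : ℕ → Wd) (B : Wd) :
    FreeGroup.mk (B.flatMap fun a => bif a.2 then f a.1 else FreeGroup.invRev (f a.1)) =
      FreeGroup.lift (fun i => FreeGroup.mk (f i)) (FreeGroup.mk B) := by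
  induction B with
  | nil =>
    simp only [List.flatMap_nil]
    rw [show (FreeGroup.mk [] : FreeGroup ℕ) = 1 from rfl, map_one]
  | cons a B ih =>
    have h1 : (FreeGroup.mk (a :: B) : FreeGroup ℕ) = FreeGroup.mk [a] * FreeGroup.mk B := by
      rw [FreeGroup.mul_mk]; rfl
    rw [List.flatMap_cons, ← FreeGroup.mul_mk, ih, h1, map_mul]
    congr 1
    rcases a with ⟨i, b⟩
    cases b
    · simp [FreeGroup.inv_mk]
    · simp

theorem mk_appB (B : Wd) (L : List Wd) (c : List ℕ) : FreeGroup.mk (appB B L c) =
    FreeGroup.lift (fun i => FreeGroup.mk (look L (c.getD i 0))) (FreeGroup.mk B) :=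
  mk_flatMap (fun i => look L (c.getD i 0)) B

theorem look_cons_zero (x : Wd) (L : List Wd) : look (x :: L) 0 = x := by simp [look]

theorem look_append (L' L : List Wd) (n : ℕ) : look (L' ++ L) (n + L'.length) = look L n := by
  unfold look
  rw [List.length_append]
  by_cases h : n < L.length
  · rw [if_pos h, if_pos (by omega)]
    simp only [List.getD_eq_getElem?_getD]
    rw [List.getElem?_append_right (by omega), Nat.add_sub_cancel]
  · rw [if_neg h, if_neg (by omega)]
    have h1 : n + L'.length - (L'.length + L.length) = n - L.length := by omega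
    rw [h1]

theorem look_cons_succ (x : Wd) (L : List Wd) (n : ℕ) : look (x :: L) (n + 1) = look L n :=
  look_append [x] L n

/-- The words obtained from the variables by applying `B`. -/
inductive GenB (B : FreeGroup ℕ) : FreeGroup ℕ → Prop
  | var (i : ℕ) : GenB B (FreeGroup.of i)
  | app (σ : ℕ → FreeGroup ℕ) : (∀ i, GenB B (σ i)) → GenB B (FreeGroup.lift σ B)

theorem GenB.sub {B C : FreeGroup ℕ} (h : GenB B C) (τ : ℕ → FreeGroup ℕ)
    (hτ : ∀ i, GenB B (τ i)) : GenB B (FreeGroup.lift τ C) := by
  induction h with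
  | var i => rw [FreeGroup.lift_apply_of]; exact hτ i
  | app σ _ ih =>
    have h1 : FreeGroup.lift τ (FreeGroup.lift σ B) =
        FreeGroup.lift (fun i => FreeGroup.lift τ (σ i)) B := by
      have : (FreeGroup.lift τ).comp (FreeGroup.lift σ) =
          FreeGroup.lift (fun i => FreeGroup.lift τ (σ i)) := by
        apply FreeGroup.ext_hom
        intro i
        simp
      exact DFunLike.congr_fun this B
    rw [h1]
    exact GenB.app _ ih

theorem isClone_GenB (B : FreeGroup ℕ) : IsClone {C | GenB B C} :=
  ⟨fun i => GenB.var i, fun _ hC σ hσ => GenB.sub hC σ hσ⟩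

theorem self_GenB (B : FreeGroup ℕ) : GenB B B := by
  have h := GenB.app (B := B) FreeGroup.of fun i => GenB.var i
  rwa [FreeGroup.lift_of_apply] at h

theorem GenB.mem {B C : FreeGroup ℕ} (h : GenB B C) {S : Set (FreeGroup ℕ)} (hS : IsClone S)
    (hB : B ∈ S) : C ∈ S := by
  induction h with
  | var i => exact hS.var i
  | app σ _ ih => exact hS.sub B hB σ ih

theorem complete_iff (B : FreeGroup ℕ) :
    Complete B ↔ GenB B (FreeGroup.of 0 * (FreeGroup.of 1)⁻¹) := by
  constructor
  · intro h
    exact h _ (isClone_GenB B) (self_GenB B) _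
  · intro h S hS hB A
    have h1 : FreeGroup.of 0 * (FreeGroup.of 1)⁻¹ ∈ S := h.mem hS hB
    have h2 : ∀ a ∈ S, ∀ b ∈ S, a * b⁻¹ ∈ S := by
      intro a ha b hb
      have h3 := hS.sub _ h1 (fun i => if i = 0 then a else b) (by
        intro i
        split_ifs <;> assumption)
      simpa using h3
    have h4 : (1 : FreeGroup ℕ) ∈ S := by
      have := h2 _ (hS.var 0) _ (hS.var 0)
      rwa [mul_inv_cancel] at this
    have h5 : ∀ a ∈ S, a⁻¹ ∈ S := by
      intro a ha
      have := h2 _ h4 _ ha
      rwa [one_mul] at this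
    have h6 : ∀ a ∈ S, ∀ b ∈ S, a * b ∈ S := by
      intro a ha b hb
      have := h2 _ ha _ (h5 b hb)
      rwa [inv_inv] at this
    induction A using FreeGroup.induction_on with
    | C1 => exact h4
    | of i => exact hS.var i
    | inv_of i hi => exact h5 _ hi
    | mul x y hx hy => exact h6 _ hx _ hy

theorem sound (B : Wd) (P : List (List ℕ)) : ∀ L : List Wd,
    (∀ n, GenB (FreeGroup.mk B) (FreeGroup.mk (look L n))) →
    ∀ n, GenB (FreeGroup.mk B) (FreeGroup.mk (look (runB B P L) n)) := by
  induction P with
  | nil => intro L h; exact h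
  | cons c P ih =>
    intro L h
    refine ih (appB B L c :: L) fun n => ?_
    rcases n with _ | n
    · rw [look_cons_zero, mk_appB]
      exact GenB.app _ fun i => h _
    · rw [look_cons_succ]
      exact h n

theorem runB_append (B : Wd) (P Q : List (List ℕ)) (L : List Wd) :
    runB B (P ++ Q) L = runB B Q (runB B P L) := by
  unfold runB
  rw [List.foldl_append]

/-- The element can be derived after any derivation. -/
def ReachB (B : Wd) (C : FreeGroup ℕ) : Prop :=
  ∀ L : List Wd, ∃ (P : List (List ℕ)) (L' : List Wd), runB B P L = L' ++ L ∧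
    ∃ n, FreeGroup.mk (look (L' ++ L) n) = C

theorem reach_seq (B : Wd) (σ : ℕ → FreeGroup ℕ) (hσ : ∀ i, ReachB B (σ i)) (K : ℕ)
    (L : List Wd) : ∃ (P : List (List ℕ)) (L' : List Wd), runB B P L = L' ++ L ∧
      ∃ c : List ℕ, c.length = K ∧ ∀ i, i < K →
        FreeGroup.mk (look (L' ++ L) (c.getD i 0)) = σ i := by
  induction K with
  | zero => exact ⟨[], [], rfl, [], rfl, fun i hi => absurd hi (Nat.not_lt_zero i)⟩
  | succ K ih =>
    obtain ⟨P, L', h1, c, h2, h3⟩ := ih
    obtain ⟨P2, L2, h4, n, h5⟩ := hσ K (L' ++ L)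
    refine ⟨P ++ P2, L2 ++ L', ?_, c.map (fun x => x + L2.length) ++ [n], by simp [h2], ?_⟩
    · rw [runB_append, h1, h4, List.append_assoc]
    · intro i hi
      rw [List.append_assoc]
      rcases Nat.lt_succ_iff_lt_or_eq.1 hi with hi' | rfl
      · have h6 : (c.map (fun x => x + L2.length) ++ [n]).getD i 0 = c.getD i 0 + L2.length := by
          have h7 : i < c.length := by omega
          simp [List.getD_eq_getElem?_getD, List.getElem?_append_left, h7]
        rw [h6, look_append]
        exact h3 i hi'
      · have h6 : (c.map (fun x => x + L2.length) ++ [n]).getD i 0 = n := by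
          simp [List.getD_eq_getElem?_getD, ← h2]
        rw [h6]
        exact h5

theorem reach_of_gen (B : Wd) {C : FreeGroup ℕ} (h : GenB (FreeGroup.mk B) C) : ReachB B C := by
  induction h with
  | var i =>
    intro L
    refine ⟨[], [], rfl, i + L.length, ?_⟩
    have h1 : look L (i + L.length) = [(i, true)] := by
      simp [look]
    rw [List.nil_append, h1]
    rfl
  | app σ _ ih =>
    intro L
    obtain ⟨K, hK⟩ : ∃ K, ∀ a ∈ B, a.1 < K := by
      refine ⟨(B.map Prod.fst).sum + 1, fun a ha => Nat.lt_succ_of_le ?_⟩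
      exact List.single_le_sum (by simp) _ (List.mem_map_of_mem ha)
    obtain ⟨P, L', h1, c, _, h3⟩ := reach_seq B σ ih K L
    refine ⟨P ++ [c], appB B (L' ++ L) c :: L', ?_, 0, ?_⟩
    · rw [runB_append, h1]
      rfl
    · rw [List.cons_append, look_cons_zero, mk_appB]
      have h4 : ∀ A : Wd, (∀ a ∈ A, a.1 < K) →
          FreeGroup.lift (fun i => FreeGroup.mk (look (L' ++ L) (c.getD i 0))) (FreeGroup.mk A) =
            FreeGroup.lift σ (FreeGroup.mk A) := by
        intro A
        induction A with
        | nil => intro _; simp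
        | cons a A ihA =>
          intro hA
          have h5 : (FreeGroup.mk (a :: A) : FreeGroup ℕ) = FreeGroup.mk [a] * FreeGroup.mk A := by
            rw [FreeGroup.mul_mk]; rfl
          rw [h5, map_mul, map_mul, ihA fun b hb => hA b (List.mem_cons_of_mem _ hb)]
          congr 1
          simp only [FreeGroup.lift_mk, List.map_cons, List.map_nil, List.prod_cons,
            List.prod_nil, mul_one]
          rw [h3 a.1 (hA a List.mem_cons_self)]
      exact h4 B hK

theorem primrec_invRevN : Primrec (FreeGroup.invRev : Wd → Wd) := by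
  unfold FreeGroup.invRev
  apply Primrec.list_reverse.comp
  apply Primrec.list_map Primrec.id
  exact (Primrec.pair (Primrec.fst.comp Primrec.snd)
    (Primrec.not.comp (Primrec.snd.comp Primrec.snd))).to₂

theorem primrec_reduceN : Primrec (FreeGroup.reduce : Wd → Wd) := by
  have h : Primrec fun B : Wd => B.foldr (fun a (s : Wd) => (List.casesOn s [a] fun b t =>
      if a.1 = b.1 ∧ a.2 = !b.2 then t else a :: b :: t : Wd)) [] := by
    refine Primrec.list_foldr (h := fun _ (p : (ℕ × Bool) × Wd) =>
      (List.casesOn p.2 [p.1] fun b t =>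
        if p.1.1 = b.1 ∧ p.1.2 = !b.2 then t else p.1 :: b :: t : Wd))
      Primrec.id (Primrec.const []) ?_
    have h1 : Primrec fun p : Wd × ((ℕ × Bool) × Wd) => p.2.1 := Primrec.fst.comp Primrec.snd
    have h2 : Primrec fun p : Wd × ((ℕ × Bool) × Wd) => p.2.2 := Primrec.snd.comp Primrec.snd
    have h3 : Primrec fun p : Wd × ((ℕ × Bool) × Wd) => ([p.2.1] : Wd) :=
      Primrec.list_cons.comp h1 (Primrec.const [])
    refine Primrec.list_casesOn (h := fun (p : Wd × ((ℕ × Bool) × Wd)) (b : (ℕ × Bool) × Wd) =>
      if p.2.1.1 = b.1.1 ∧ p.2.1.2 = !b.1.2 then b.2 else p.2.1 :: b.1 :: b.2) h2 h3 ?_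
    have a1 : Primrec fun x : (Wd × ((ℕ × Bool) × Wd)) × ((ℕ × Bool) × Wd) => x.1.2.1 :=
      h1.comp Primrec.fst
    have b1 : Primrec fun x : (Wd × ((ℕ × Bool) × Wd)) × ((ℕ × Bool) × Wd) => x.2.1 :=
      Primrec.fst.comp Primrec.snd
    have b2 : Primrec fun x : (Wd × ((ℕ × Bool) × Wd)) × ((ℕ × Bool) × Wd) => x.2.2 :=
      Primrec.snd.comp Primrec.snd
    refine Primrec.ite (PrimrecPred.and
      (PrimrecRel.comp Primrec.eq (Primrec.fst.comp a1) (Primrec.fst.comp b1))
      (PrimrecRel.comp Primrec.eq (Primrec.snd.comp a1)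
        (Primrec.not.comp (Primrec.snd.comp b1)))) b2
      (Primrec.list_cons.comp a1 (Primrec.list_cons.comp b1 b2))
  refine h.of_eq fun B => ?_
  induction B with
  | nil => rfl
  | cons a B ih =>
    rw [List.foldr_cons, ih, FreeGroup.reduce.cons]

theorem primrec_look : Primrec₂ look := by
  unfold look
  refine Primrec.ite (PrimrecRel.comp Primrec.nat_lt Primrec.snd
    (Primrec.list_length.comp Primrec.fst)) ((Primrec.list_getD _).comp Primrec.fst Primrec.snd) ?_
  exact Primrec.list_cons.comp (Primrec.pair (Primrec.nat_sub.comp Primrec.snd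
    (Primrec.list_length.comp Primrec.fst)) (Primrec.const true)) (Primrec.const [])

theorem primrec_appB : Primrec fun p : Wd × List Wd × List ℕ => appB p.1 p.2.1 p.2.2 := by
  unfold appB
  refine Primrec.list_flatMap Primrec.fst ?_
  have h1 : Primrec fun x : (Wd × List Wd × List ℕ) × (ℕ × Bool) =>
      look x.1.2.1 (x.1.2.2.getD x.2.1 0) :=
    primrec_look.comp (Primrec.fst.comp (Primrec.snd.comp Primrec.fst))
      ((Primrec.list_getD 0).comp (Primrec.snd.comp (Primrec.snd.comp Primrec.fst))
        (Primrec.fst.comp Primrec.snd))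
  exact Primrec.cond (Primrec.snd.comp Primrec.snd) h1 (primrec_invRevN.comp h1)

theorem primrec_runB : Primrec fun p : Wd × List (List ℕ) => runB p.1 p.2 [] := by
  unfold runB
  refine Primrec.list_foldl (h := fun (p : Wd × List (List ℕ)) (q : List Wd × List ℕ) =>
    appB p.1 q.1 q.2 :: q.1) Primrec.snd (Primrec.const []) ?_
  exact Primrec.list_cons.comp (primrec_appB.comp (Primrec.pair (Primrec.fst.comp Primrec.fst)
    Primrec.snd)) (Primrec.fst.comp Primrec.snd)

/-- The test of the enumeration. -/
def testB (B : Wd) (q : List (List ℕ) × ℕ) : Bool :=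
  decide (FreeGroup.reduce (look (runB B q.1 []) q.2) = [(0, true), (1, false)])

theorem complete_iff_test (B : Wd) :
    Complete (FreeGroup.mk B) ↔ ∃ q, testB B q = true := by
  rw [complete_iff]
  have h0 : (FreeGroup.of 0 * (FreeGroup.of 1)⁻¹ : FreeGroup ℕ) =
      FreeGroup.mk [(0, true), (1, false)] := rfl
  constructor
  · intro h
    obtain ⟨P, L', h1, n, h2⟩ := reach_of_gen B h []
    refine ⟨(P, n), ?_⟩
    unfold testB
    rw [decide_eq_true_iff, h1]
    rw [h0] at h2
    exact FreeGroup.reduce.sound h2
  · rintro ⟨⟨P, n⟩, h⟩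
    unfold testB at h
    rw [decide_eq_true_iff] at h
    have h1 := sound B P [] (fun n => by
      have : look [] n = [(n, true)] := by simp [look]
      rw [this]
      exact GenB.var n) n
    have h2 : FreeGroup.mk (look (runB B P []) n) = FreeGroup.mk [(0, true), (1, false)] := by
      rw [← h]
      exact FreeGroup.reduce.self.symm
    rw [h2] at h1
    rw [h0]
    exact h1

theorem primrec_testB : Primrec₂ testB := by
  unfold testB
  apply PrimrecPred.decide
  refine PrimrecRel.comp Primrec.eq (primrec_reduceN.comp (primrec_look.comp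
    (primrec_runB.comp (Primrec.pair Primrec.fst (Primrec.fst.comp Primrec.snd)))
    (Primrec.snd.comp Primrec.snd))) (Primrec.const _)

/-- The test for the numbers of derivations. -/
def testN (B : Wd) (k : ℕ) : Bool :=
  Option.casesOn (Encodable.decode (α := List (List ℕ) × ℕ) k) false fun q => testB B q

theorem primrec_testN : Primrec₂ testN := by
  unfold testN
  exact Primrec.option_casesOn (Primrec.decode.comp Primrec.snd) (Primrec.const false)
    (primrec_testB.comp (Primrec.fst.comp Primrec.fst) Primrec.snd).to₂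

/-- The set of the words which generate all words is recursively enumerable. -/
theorem complete_re : REPred (fun B : Wd => Complete (FreeGroup.mk B)) := by
  have h : Partrec fun B : Wd => Nat.rfind (testN B : ℕ →. Bool) :=
    Partrec.rfind primrec_testN.to_comp.partrec₂
  refine h.dom_re.of_eq fun B => ?_
  rw [Nat.rfind_dom, complete_iff_test]
  constructor
  · rintro ⟨k, hk, _⟩
    have hk' : testN B k = true := (Part.mem_some_iff.1 hk).symm
    unfold testN at hk'
    cases hd : Encodable.decode (α := List (List ℕ) × ℕ) k with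
    | none => rw [hd] at hk'; exact absurd hk' (by simp)
    | some q => rw [hd] at hk'; exact ⟨q, hk'⟩
  · rintro ⟨q, hq⟩
    refine ⟨Encodable.encode q, Part.mem_some_iff.2 ?_, fun _ => trivial⟩
    unfold testN
    rw [Encodable.encodek]
    exact hq.symm

end Enum

end Pool.Agent.Lib_helper82
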